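import Pool.Agent.Lib_MP_b9fedf_st.Defs
import Pool.Agent.Lib_MP_b9fedf_ag.CharTF

/-! PIECE B9. The counting function of distinct zeros. -/

set_option autoImplicit false

namespace Pool.Agent.Stat

open Filter Metric Real Set Function MeromorphicOn ValueDistribution

/-- **PIECE B9.**  The reduced zero divisor `Z` of an entire function `W ≢ 0` and its counting
function.  Proof: `Z a = 1` if `W a = 0` and `0` otherwise; locally finite because the zeros of `W`
are isolated.  `logCounting Z r = ∑_{0 < |a| ≤ r, W a = 0} log (r / |a|) + Z(0) log r`, which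
differs from `Nbar W r` by the constant `∑_{0<|a|<1, W a = 0} log (1/|a|)`. -/
theorem exists_reduced {W : ℂ → ℂ} (hW : Differentiable ℂ W) (hW0 : ∃ z, W z ≠ 0) :
    ∃ Z : locallyFinsupp ℂ ℤ, 0 ≤ Z ∧ (∀ a, W a = 0 → Z a = 1) ∧ (∀ a, W a ≠ 0 → Z a = 0) ∧
      ∃ C : ℝ, ∀ r, 1 ≤ r → Function.locallyFinsuppWithin.logCounting Z r ≤ Nbar W r + C := by
  classical
  have hord : ∀ a, W a = 0 → Pool.Agent.GGL.Dv W a ≠ 0 := by
    intro a ha h
    rw [Pool.Agent.GGL.Dv_apply hW] at h
    have h1 : analyticOrderAt W a ≠ 0 := (hW.analyticAt a).analyticOrderAt_ne_zero.2 ha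
    have h2 := Pool.Agent.GGL.order_ne_top hW hW0 a
    have h3 : (analyticOrderAt W a).toNat = 0 := by exact_mod_cast h
    rw [ENat.toNat_eq_zero] at h3
    exact h3.elim h1 h2
  set Z : locallyFinsupp ℂ ℤ :=
    { toFun := fun a => if W a = 0 then 1 else 0
      supportWithinDomain' := Set.subset_univ _
      supportLocallyFiniteWithinDomain' := by
        intro z hz
        obtain ⟨t, ht, hfin⟩ := (Pool.Agent.GGL.Dv W).supportLocallyFiniteWithinDomain' z hz
        refine ⟨t, ht, hfin.subset (Set.inter_subset_inter_right _ fun a ha => ?_)⟩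
        rw [Function.mem_support] at ha ⊢
        refine hord a ?_
        by_contra h
        exact ha (if_neg h) } with hZ
  have hZ1 : ∀ a, W a = 0 → Z a = 1 := fun a ha => if_pos ha
  have hZ0 : ∀ a, W a ≠ 0 → Z a = 0 := fun a ha => if_neg ha
  have hfin : ∀ r : ℝ, {a : ℂ | ‖a‖ ≤ r ∧ W a = 0}.Finite := by
    intro r
    refine ((Function.locallyFinsuppWithin.toClosedBall r Z).finiteSupport
      (isCompact_closedBall 0 |r|)).subset ?_
    rintro a ⟨ha, hWa⟩
    rw [Function.mem_support, Function.locallyFinsuppWithin.toClosedBall_eval_within, hZ1 a hWa]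
    · exact one_ne_zero
    · rw [mem_closedBall_zero_iff]
      exact ha.trans (le_abs_self r)
  refine ⟨Z, fun a => ?_, hZ1, hZ0, ∑ a ∈ (hfin 1).toFinset, -Real.log ‖a‖, fun r hr => ?_⟩
  · by_cases h : W a = 0
    · rw [hZ1 a h]
      exact zero_le_one
    · rw [hZ0 a h]
      exact le_rfl
  have hr0 : 0 < r := by linarith
  have h1 : Function.locallyFinsuppWithin.logCounting Z r =
      ∑ a ∈ (hfin r).toFinset, Real.log (r * ‖a‖⁻¹) + (Z 0 : ℝ) * Real.log r := by
    show ∑ᶠ z, (Function.locallyFinsuppWithin.toClosedBall r Z z : ℝ) * Real.log (r * ‖z‖⁻¹) +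
      (Z 0 : ℝ) * Real.log r = _
    congr 1
    rw [finsum_eq_sum_of_support_subset _ (s := (hfin r).toFinset)]
    · refine Finset.sum_congr rfl fun a ha => ?_
      rw [Set.Finite.mem_toFinset] at ha
      rw [Function.locallyFinsuppWithin.toClosedBall_eval_within, hZ1 a ha.2, Int.cast_one,
        one_mul]
      rw [mem_closedBall_zero_iff]
      exact ha.1.trans (le_abs_self r)
    · intro a ha
      rw [Function.mem_support] at ha
      rw [Set.Finite.coe_toFinset]
      have h2 : Function.locallyFinsuppWithin.toClosedBall r Z a ≠ 0 := by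
        intro h
        rw [h, Int.cast_zero, zero_mul] at ha
        exact ha rfl
      have h3 : a ∈ closedBall (0 : ℂ) |r| :=
        Function.locallyFinsuppWithin.toClosedBall_support_subset_closedBall Z h2
      rw [Function.locallyFinsuppWithin.toClosedBall_eval_within _ h3] at h2
      rw [mem_closedBall_zero_iff, abs_of_pos hr0] at h3
      refine ⟨h3, ?_⟩
      by_contra h
      exact h2 (hZ0 a h)
  have h2 : (Z 0 : ℝ) * Real.log r =
      ∑ a ∈ (hfin r).toFinset, if a = 0 then Real.log r else 0 := by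
    by_cases h : W 0 = 0
    · rw [hZ1 0 h, Int.cast_one, one_mul, Finset.sum_ite_eq' (hfin r).toFinset 0, if_pos]
      rw [Set.Finite.mem_toFinset]
      exact ⟨by rw [norm_zero]; exact hr0.le, h⟩
    · rw [hZ0 0 h, Int.cast_zero, zero_mul]
      symm
      refine Finset.sum_eq_zero fun a ha => if_neg ?_
      rw [Set.Finite.mem_toFinset] at ha
      rintro rfl
      exact h ha.2
  have h3 : Nbar W r = ∑ a ∈ (hfin r).toFinset, Real.log (r / max 1 ‖a‖) := by
    unfold Nbar
    exact finsum_mem_eq_finite_toFinset_sum _ (hfin r)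
  have h4 : ∑ a ∈ (hfin 1).toFinset, -Real.log ‖a‖ =
      ∑ a ∈ (hfin r).toFinset, if ‖a‖ ≤ 1 then -Real.log ‖a‖ else 0 := by
    rw [← Finset.sum_filter]
    refine Finset.sum_congr ?_ fun _ _ => rfl
    ext a
    rw [Finset.mem_filter, Set.Finite.mem_toFinset, Set.Finite.mem_toFinset]
    constructor
    · rintro ⟨h5, h6⟩
      exact ⟨⟨h5.trans hr, h6⟩, h5⟩
    · rintro ⟨⟨-, h6⟩, h5⟩
      exact ⟨h5, h6⟩
  rw [h1, h2, h3, h4, ← Finset.sum_add_distrib, ← Finset.sum_add_distrib]
  refine Finset.sum_le_sum fun a _ => ?_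
  by_cases ha : a = 0
  · subst ha
    simp
  · rw [if_neg ha, add_zero]
    have ha0 : 0 < ‖a‖ := norm_pos_iff.2 ha
    by_cases h5 : ‖a‖ ≤ 1
    · rw [if_pos h5, max_eq_left h5, div_one, Real.log_mul hr0.ne' (inv_ne_zero ha0.ne'),
        Real.log_inv]
    · rw [if_neg h5, max_eq_right (not_le.1 h5).le, add_zero, div_eq_mul_inv]

end Pool.Agent.Stat
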