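import Pool.Agent.Lib_MP_b9fedf_st.Defs
import Pool.Agent.Lib_MP_b9fedf_ag.Char

/-! B1. The differential field of meromorphic functions on `ℂ`. -/

set_option autoImplicit false

namespace Pool.Agent.Stat

open Filter Topology

theorem eventually_codiscrete_iff {p : ℂ → Prop} :
    (∀ᶠ z in codiscrete ℂ, p z) ↔ ∀ x, ∀ᶠ z in 𝓝[≠] x, p z := by
  rw [Filter.Eventually, mem_codiscrete]
  refine forall_congr' fun x => ?_
  rw [disjoint_principal_right, compl_compl]
  rfl

theorem eventually_nhdsNE_nhds {p : ℂ → Prop} {x : ℂ} (h : ∀ᶠ z in 𝓝[≠] x, p z) :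
    ∀ᶠ z in 𝓝[≠] x, ∀ᶠ w in 𝓝 z, p w := by
  rw [eventually_nhdsWithin_iff, eventually_nhds_iff] at h
  obtain ⟨t, ht, hto, hxt⟩ := h
  have h1 : t ∩ {x}ᶜ ∈ 𝓝[≠] x := by
    rw [Set.inter_comm]
    exact Filter.inter_mem self_mem_nhdsWithin (mem_nhdsWithin_of_mem_nhds (hto.mem_nhds hxt))
  filter_upwards [h1] with z hz
  have h2 : t ∩ {x}ᶜ ∈ 𝓝 z := (hto.inter isOpen_compl_singleton).mem_nhds hz
  filter_upwards [h2] with w hw
  exact ht w hw.1 hw.2

theorem deriv_congr_codiscrete {f g : ℂ → ℂ} (h : f =ᶠ[codiscrete ℂ] g) :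
    deriv f =ᶠ[codiscrete ℂ] deriv g := by
  rw [Filter.EventuallyEq, eventually_codiscrete_iff] at h ⊢
  intro x
  filter_upwards [eventually_nhdsNE_nhds (h x)] with z hz
  exact Filter.EventuallyEq.deriv_eq hz

theorem analyticAt_codiscrete {f : ℂ → ℂ} (hf : Meromorphic f) :
    ∀ᶠ z in codiscrete ℂ, AnalyticAt ℂ f z := by
  rw [eventually_codiscrete_iff]
  intro x
  exact (hf x).eventually_analyticAt

/-- germs of functions off discrete sets -/
abbrev GC : Type := Filter.Germ (codiscrete ℂ) ℂ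

/-- the ring of meromorphic functions -/
noncomputable def merSub : Subring GC where
  carrier := {x | ∃ f : ℂ → ℂ, Meromorphic f ∧ x = (f : GC)}
  zero_mem' := ⟨0, Meromorphic.const 0, rfl⟩
  one_mem' := ⟨1, Meromorphic.const 1, rfl⟩
  add_mem' := by
    rintro _ _ ⟨f, hf, rfl⟩ ⟨g, hg, rfl⟩
    exact ⟨f + g, hf.add hg, rfl⟩
  mul_mem' := by
    rintro _ _ ⟨f, hf, rfl⟩ ⟨g, hg, rfl⟩
    exact ⟨f * g, hf.mul hg, rfl⟩
  neg_mem' := by
    rintro _ ⟨f, hf, rfl⟩
    exact ⟨-f, hf.neg, rfl⟩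

/-- the field of meromorphic functions on `ℂ` -/
def Mer : Type := merSub

noncomputable instance : CommRing Mer := inferInstanceAs (CommRing merSub)

/-- the class of a meromorphic function -/
noncomputable def mk (f : ℂ → ℂ) (hf : Meromorphic f) : Mer := ⟨(f : GC), f, hf, rfl⟩

theorem exists_mk (x : Mer) : ∃ (f : ℂ → ℂ) (hf : Meromorphic f), mk f hf = x := by
  obtain ⟨x, f, hf, rfl⟩ := x
  exact ⟨f, hf, rfl⟩

theorem mk_eq {f g : ℂ → ℂ} {hf : Meromorphic f} {hg : Meromorphic g} :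
    mk f hf = mk g hg ↔ f =ᶠ[codiscrete ℂ] g := by
  rw [← Filter.Germ.coe_eq]
  exact Subtype.ext_iff

theorem mk_add {f g : ℂ → ℂ} (hf : Meromorphic f) (hg : Meromorphic g) :
    mk f hf + mk g hg = mk (f + g) (hf.add hg) := rfl

theorem mk_mul {f g : ℂ → ℂ} (hf : Meromorphic f) (hg : Meromorphic g) :
    mk f hf * mk g hg = mk (f * g) (hf.mul hg) := rfl

theorem mk_neg {f : ℂ → ℂ} (hf : Meromorphic f) : -mk f hf = mk (-f) hf.neg := rfl

theorem mk_zero : (0 : Mer) = mk 0 (Meromorphic.const 0) := rfl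

theorem mk_one : (1 : Mer) = mk 1 (Meromorphic.const 1) := rfl

theorem mk_eq_zero {f : ℂ → ℂ} {hf : Meromorphic f} :
    mk f hf = 0 ↔ f =ᶠ[codiscrete ℂ] 0 := by
  rw [mk_zero, mk_eq]

theorem order_of_ne_zero {f : ℂ → ℂ} {hf : Meromorphic f} (h : mk f hf ≠ 0) (z : ℂ) :
    meromorphicOrderAt f z ≠ ⊤ := by
  intro h1
  exact h (mk_eq_zero.2 (Pool.Agent.GGL.eq_zero_codiscrete_of_order_top hf h1))

theorem ne_zero_codiscrete {f : ℂ → ℂ} {hf : Meromorphic f} (h : mk f hf ≠ 0) :
    ∀ᶠ z in codiscrete ℂ, f z ≠ 0 := by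
  rw [eventually_codiscrete_iff]
  intro x
  exact (meromorphicOrderAt_ne_top_iff_eventually_ne_zero (hf x)).1 (order_of_ne_zero h x)

noncomputable instance : Inv Mer where
  inv x := ⟨(x.1 : GC)⁻¹, by
    obtain ⟨_, f, hf, rfl⟩ := x
    exact ⟨f⁻¹, hf.inv, rfl⟩⟩

theorem mk_inv {f : ℂ → ℂ} (hf : Meromorphic f) : (mk f hf)⁻¹ = mk f⁻¹ hf.inv := rfl

noncomputable instance : Nontrivial Mer := by
  refine ⟨0, 1, fun h => ?_⟩
  rw [mk_zero, mk_one, mk_eq, Filter.EventuallyEq, eventually_codiscrete_iff] at h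
  obtain ⟨z, hz⟩ := (h 0).exists
  simp at hz

noncomputable instance : Field Mer where
  __ := (inferInstance : CommRing Mer)
  __ := (inferInstance : Nontrivial Mer)
  inv := Inv.inv
  mul_inv_cancel x hx := by
    obtain ⟨f, hf, rfl⟩ := exists_mk x
    rw [mk_inv, mk_mul, mk_one, mk_eq]
    filter_upwards [ne_zero_codiscrete hx] with z hz
    simp [hz]
  inv_zero := by
    show (0 : Mer)⁻¹ = 0
    rw [mk_zero, mk_inv, mk_eq]
    filter_upwards with z
    simp
  nnqsmul := _
  nnqsmul_def := fun _ _ => rfl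
  qsmul := _
  qsmul_def := fun _ _ => rfl

theorem mk_div {f g : ℂ → ℂ} (hf : Meromorphic f) (hg : Meromorphic g) :
    mk f hf / mk g hg = mk (f / g) (hf.div hg) := by
  rw [div_eq_mul_inv, mk_inv, mk_mul, mk_eq]
  filter_upwards with z
  simp [div_eq_mul_inv]

/-- constants -/
noncomputable def constHom : ℂ →+* Mer where
  toFun c := mk (fun _ => c) (Meromorphic.const c)
  map_one' := rfl
  map_zero' := rfl
  map_add' _ _ := rfl
  map_mul' _ _ := rfl

noncomputable instance : Algebra ℂ Mer := constHom.toAlgebra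

theorem algebraMap_mer (c : ℂ) : algebraMap ℂ Mer c = mk (fun _ => c) (Meromorphic.const c) := rfl

/-- the derivative of a class -/
noncomputable def derFun (x : Mer) : Mer :=
  ⟨Filter.Germ.map' deriv (fun _ _ h => deriv_congr_codiscrete h) x.1, by
    obtain ⟨_, f, hf, rfl⟩ := x
    exact ⟨deriv f, fun z => (hf z).deriv, rfl⟩⟩

theorem derFun_mk {f : ℂ → ℂ} (hf : Meromorphic f) :
    derFun (mk f hf) = mk (deriv f) (fun z => (hf z).deriv) := rfl

/-- the derivation `d/dz` of the field of meromorphic functions -/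
noncomputable def dMer : Derivation ℂ Mer Mer :=
  Derivation.mk'
    { toFun := derFun
      map_add' := fun x y => by
        obtain ⟨f, hf, rfl⟩ := exists_mk x
        obtain ⟨g, hg, rfl⟩ := exists_mk y
        rw [mk_add, derFun_mk, derFun_mk, derFun_mk, mk_add, mk_eq]
        filter_upwards [analyticAt_codiscrete hf, analyticAt_codiscrete hg] with z hz1 hz2
        exact deriv_add hz1.differentiableAt hz2.differentiableAt
      map_smul' := fun c x => by
        obtain ⟨f, hf, rfl⟩ := exists_mk x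
        rw [RingHom.id_apply, Algebra.smul_def, Algebra.smul_def, algebraMap_mer, mk_mul,
          derFun_mk, derFun_mk, mk_mul, mk_eq]
        filter_upwards [analyticAt_codiscrete hf] with z hz
        exact deriv_const_mul c hz.differentiableAt }
    (fun x y => by
      obtain ⟨f, hf, rfl⟩ := exists_mk x
      obtain ⟨g, hg, rfl⟩ := exists_mk y
      show derFun (mk f hf * mk g hg) = mk f hf * derFun (mk g hg) + mk g hg * derFun (mk f hf)
      rw [mk_mul, derFun_mk, derFun_mk, derFun_mk, mk_mul, mk_mul, mk_add, mk_eq]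
      filter_upwards [analyticAt_codiscrete hf, analyticAt_codiscrete hg] with z hz1 hz2
      have := deriv_mul hz1.differentiableAt hz2.differentiableAt
      rw [this, Pi.add_apply, Pi.mul_apply, Pi.mul_apply]
      ring)

theorem dMer_mk {f : ℂ → ℂ} (hf : Meromorphic f) :
    dMer (mk f hf) = mk (deriv f) (fun z => (hf z).deriv) := rfl

theorem dMer_iter_mk {f : ℂ → ℂ} (hf : Meromorphic f) (s : ℕ) :
    ∃ h : Meromorphic (iteratedDeriv s f), (⇑dMer)^[s] (mk f hf) = mk (iteratedDeriv s f) h := by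
  induction s with
  | zero =>
    have h0 : iteratedDeriv 0 f = f := iteratedDeriv_zero
    rw [h0]
    exact ⟨hf, rfl⟩
  | succ s ih =>
    obtain ⟨h, h1⟩ := ih
    have h2 : iteratedDeriv (s + 1) f = deriv (iteratedDeriv s f) := iteratedDeriv_succ
    rw [h2]
    exact ⟨fun z => (h z).deriv, by rw [Function.iterate_succ_apply', h1, dMer_mk]⟩

/-- The constants of the field of meromorphic functions are the complex numbers. -/
theorem const_of_dMer_eq_zero (x : Mer) (h : dMer x = 0) : ∃ c : ℂ, algebraMap ℂ Mer c = x := by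
  obtain ⟨f, hf, rfl⟩ := exists_mk x
  rw [dMer_mk, mk_eq_zero, Filter.EventuallyEq] at h
  have h1 := (analyticAt_codiscrete hf).and h
  rw [eventually_codiscrete_iff] at h1
  obtain ⟨z0, hz0⟩ := (eventually_nhdsNE_nhds (h1 0)).exists
  refine ⟨f z0, ?_⟩
  rw [algebraMap_mer, mk_eq]
  -- `f` is constant near `z0`
  rw [Metric.eventually_nhds_iff_ball] at hz0
  obtain ⟨ε, hε, hball⟩ := hz0
  have h2 : ∀ z ∈ Metric.ball z0 ε, f z = f z0 := by
    intro z hz
    have h3 : DifferentiableOn ℂ f (Metric.ball z0 ε) := fun w hw =>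
      (hball w hw).1.differentiableAt.differentiableWithinAt
    exact (Metric.isOpen_ball.is_const_of_deriv_eq_zero (convex_ball z0 ε).isPreconnected h3
      (fun w hw => (hball w hw).2) hz (Metric.mem_ball_self hε))
  have h4 : Meromorphic (fun z => f z - f z0) := fun z => (hf z).sub (MeromorphicAt.const _ z)
  have h5 : meromorphicOrderAt (fun z => f z - f z0) z0 = ⊤ := by
    rw [meromorphicOrderAt_eq_top_iff]
    apply Filter.Eventually.filter_mono nhdsWithin_le_nhds
    filter_upwards [Metric.ball_mem_nhds z0 hε] with z hz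
    rw [h2 z hz, sub_self]
  filter_upwards [Pool.Agent.GGL.eq_zero_codiscrete_of_order_top h4 h5] with z hz
  exact (sub_eq_zero.1 hz).symm

end Pool.Agent.Stat
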