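import Pool.Agent.Lib_MP_b9fedf_st.Rat
import Pool.Agent.Lib_MP_b9fedf_st.Mer

/-! Entire curves with `T(r) = O(log r)` are polynomial. -/

set_option autoImplicit false

namespace Pool.Agent.Stat

open Filter Topology Metric ValueDistribution

theorem eq_of_codiscrete {u v : ℂ → ℂ} (hu : Continuous u) (hv : Continuous v)
    (h : ∀ᶠ z in codiscrete ℂ, u z = v z) (z : ℂ) : u z = v z := by
  by_contra hne
  rw [eventually_codiscrete_iff] at h
  have h1 : ∀ᶠ w in 𝓝[≠] z, u w - v w ≠ 0 :=
    ((hu.sub hv).continuousAt.eventually_ne (sub_ne_zero.2 hne)).filter_mono nhdsWithin_le_nhds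
  obtain ⟨w, hw1, hw2⟩ := ((h z).and h1).exists
  exact hw2 (sub_eq_zero.2 hw1)

theorem exists_of_codiscrete {p : ℂ → Prop} (h : ∀ᶠ z in codiscrete ℂ, p z) : ∃ z, p z :=
  (eventually_codiscrete_iff.1 h 0).exists

theorem poly_ne_zero_codiscrete {P : Polynomial ℂ} (hP : P ≠ 0) :
    ∀ᶠ z in codiscrete ℂ, P.eval z ≠ 0 := by
  have h1 : (({z : ℂ | P.IsRoot z})ᶜ : Set ℂ) ∈ codiscrete ℂ :=
    compl_finite_mem_codiscreteWithin (Polynomial.finite_setOfPred_isRoot hP)
  filter_upwards [h1] with z hz
  exact hz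

theorem exists_notMem {E : Set ℝ} (hE : MeasureTheory.volume E < ⊤) (r : ℝ) :
    ∃ r', r ≤ r' ∧ r' ≤ r + ((MeasureTheory.volume E).toReal + 1) ∧ r' ∉ E := by
  by_contra hcon
  push Not at hcon
  set μ := (MeasureTheory.volume E).toReal with hμ
  have h1 : Set.Icc r (r + (μ + 1)) ⊆ E := fun x hx => hcon x hx.1 hx.2
  have h2 := MeasureTheory.measure_mono (μ := MeasureTheory.volume) h1
  rw [Real.volume_Icc] at h2
  have h3 : ENNReal.ofReal (μ + 1) ≤ MeasureTheory.volume E := by
    convert h2 using 2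
    ring
  rw [ENNReal.ofReal_le_iff_le_toReal hE.ne] at h3
  linarith

/-- Entire curves with `T(r) = O(log r)` off a set of finite measure are polynomial. -/
theorem polynomial_of_charT {m : ℕ} (f : ℂ → Fin (m + 1) → ℂ) (hf : Differentiable ℂ f)
    (hf0 : ∀ z, f z ≠ 0) (K : ℝ) (E : Set ℝ) (hE : MeasureTheory.volume E < ⊤)
    (h : ∀ r, 1 ≤ r → r ∉ E → charT f r ≤ K * (Real.log r + 1)) :
    ∃ (Q : Fin (m + 1) → Polynomial ℂ) (u : ℂ → ℂ), (∀ z, u z ≠ 0) ∧
      ∀ z i, f z i = u z * (Q i).eval z := by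
  classical
  have hd : ∀ k : Fin (m + 1), Differentiable ℂ (fun z => f z k) := fun k => differentiable_pi.1 hf k
  have h0 : ∀ z, ∃ k, f z k ≠ 0 := by
    intro z
    by_contra h
    push Not at h
    exact hf0 z (funext h)
  obtain ⟨k, hk⟩ := h0 0
  have hb : ∀ l, ∀ z, ‖f z l‖ ≤ 1 * ‖fun k => f z k‖ ^ 1 := by
    intro l z
    rw [one_mul, pow_one]
    exact norm_le_pi_norm (fun k => f z k) l
  have hmero : ∀ l, Meromorphic (fun z => f z l / f z k) := fun l z =>
    ((hd l).analyticAt z).meromorphicAt.div ((hd k).analyticAt z).meromorphicAt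
  set μ : ℝ := (MeasureTheory.volume E).toReal with hμ
  have hμ0 : 0 ≤ μ := ENNReal.toReal_nonneg
  have hl2 : 0 ≤ Real.log (μ + 2) := Real.log_nonneg (by linarith)
  -- rationality of the quotients
  have hrat : ∀ l, ∃ P Q : Polynomial ℂ, Q ≠ 0 ∧
      ∀ᶠ z in codiscrete ℂ, f z l / f z k * Q.eval z = P.eval z := by
    intro l
    obtain ⟨C, hC⟩ := Pool.Agent.GGL.char_div_le_TF hd h0 (hd l) (hd k) ⟨0, hk⟩ 1 1 (hb l) (hb k)
    refine rational_of_char (hmero l) (|K| * (1 + Real.log (μ + 2)) + |C|) (fun r hr => ?_)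
    obtain ⟨r', hr1, hr2, hr3⟩ := exists_notMem hE r
    rw [← hμ] at hr2
    have hr'1 : 1 ≤ r' := hr.trans hr1
    have h4 := characteristic_monotoneOn (hmero l) (show (0 : ℝ) < r by linarith)
      (show (0 : ℝ) < r' by linarith) hr1
    have h5 := hC r' hr'1
    have h6 : ((1 : ℕ) : ℝ) * Pool.Agent.GGL.TF (fun k z => f z k) r' = charT f r' := by
      rw [Nat.cast_one, one_mul]; rfl
    rw [h6] at h5
    have h7 := h r' hr'1 hr3
    have hlr : 0 ≤ Real.log r := Real.log_nonneg hr
    have h8 : Real.log r' ≤ Real.log r + Real.log (μ + 2) := by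
      rw [← Real.log_mul (by positivity) (by positivity)]
      apply Real.log_le_log (by linarith)
      nlinarith
    have h9 : K * (Real.log r' + 1) ≤ |K| * ((1 + Real.log (μ + 2)) * (Real.log r + 1)) := by
      have hlr' : 0 ≤ Real.log r' := Real.log_nonneg hr'1
      refine (mul_le_mul_of_nonneg_right (le_abs_self K) (by linarith)).trans ?_
      apply mul_le_mul_of_nonneg_left _ (abs_nonneg K)
      nlinarith
    have h10 : C ≤ |C| * (Real.log r + 1) := by
      have := le_abs_self C
      nlinarith [abs_nonneg C]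
    calc characteristic (fun z => f z l / f z k) ⊤ r ≤ _ := h4
      _ ≤ _ := h5
      _ ≤ |K| * ((1 + Real.log (μ + 2)) * (Real.log r + 1)) + |C| * (Real.log r + 1) := by linarith
      _ = _ := by ring
  choose P Q hQ hPQ using hrat
  have hfk : ∀ᶠ z in codiscrete ℂ, f z k ≠ 0 := by
    have hne : mk (fun z => f z k) (fun z => ((hd k).analyticAt z).meromorphicAt) ≠ 0 := by
      intro h0
      rw [mk_eq_zero] at h0
      exact hk (eq_of_codiscrete (hd k).continuous continuous_const h0 0)
    exact ne_zero_codiscrete hne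
  have hpc : ∀ P : Polynomial ℂ, Continuous fun z : ℂ => P.eval z := fun P => P.continuous
  -- a common denominator
  have hex : ∃ d : ℕ, ∃ N : Fin (m + 1) → Polynomial ℂ, N k ≠ 0 ∧ (N k).natDegree = d ∧
      ∀ l z, f z l * (N k).eval z = f z k * (N l).eval z := by
    refine ⟨_, fun l => P l * ∏ j ∈ Finset.univ.erase l, Q j, ?_, rfl, ?_⟩
    · apply mul_ne_zero
      · intro hP0
        have h1 := hPQ k
        rw [hP0] at h1
        obtain ⟨z, ⟨hz1, hz2⟩, hz3⟩ :=
          exists_of_codiscrete ((h1.and hfk).and (poly_ne_zero_codiscrete (hQ k)))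
        rw [div_self hz2, one_mul, Polynomial.eval_zero] at hz1
        exact hz3 hz1
      · exact Finset.prod_ne_zero_iff.2 fun j _ => hQ j
    · intro l
      refine eq_of_codiscrete ((hd l).continuous.mul (hpc _)) ((hd k).continuous.mul (hpc _)) ?_
      filter_upwards [hPQ l, hPQ k, hfk] with z h1 h2 h3
      rw [div_self h3, one_mul] at h2
      have h4 : f z l * (Q l).eval z = f z k * (P l).eval z := by
        rw [← h1]; field_simp
      have e1 : ∀ l', (∏ j, Q j).eval z =
          (Q l').eval z * (∏ j ∈ Finset.univ.erase l', Q j).eval z := by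
        intro l'
        rw [← Polynomial.eval_mul, Finset.mul_prod_erase _ _ (Finset.mem_univ l')]
      rw [Polynomial.eval_mul, Polynomial.eval_mul, ← h2, ← e1 k, e1 l]
      linear_combination (∏ j ∈ Finset.univ.erase l, Q j).eval z * h4
  obtain ⟨N, hN0, hNd, hN⟩ := Nat.find_spec hex
  have hmin : ∀ a : ℂ, ∃ l, (N l).eval a ≠ 0 := by
    intro a
    by_contra hcon
    push Not at hcon
    have h1 : ∀ l, ∃ N' : Polynomial ℂ, N l = (Polynomial.X - Polynomial.C a) * N' := fun l =>
      Polynomial.dvd_iff_isRoot.2 (hcon l)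
    choose N' hN' using h1
    have hXa : (Polynomial.X - Polynomial.C a : Polynomial ℂ) ≠ 0 := Polynomial.X_sub_C_ne_zero a
    have hNk' : N' k ≠ 0 := by
      intro h2
      rw [hN' k, h2, mul_zero] at hN0
      exact hN0 rfl
    have hdeg : (N k).natDegree = 1 + (N' k).natDegree := by
      rw [hN' k, Polynomial.natDegree_mul hXa hNk', Polynomial.natDegree_X_sub_C]
    refine Nat.find_min hex (m := (N' k).natDegree) (by omega) ⟨N', hNk', rfl, fun l => ?_⟩
    refine eq_of_codiscrete ((hd l).continuous.mul (hpc _)) ((hd k).continuous.mul (hpc _)) ?_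
    filter_upwards [poly_ne_zero_codiscrete hXa] with z hz
    have h2 := hN l z
    rw [hN' k, hN' l, Polynomial.eval_mul, Polynomial.eval_mul] at h2
    apply mul_left_cancel₀ hz
    linear_combination h2
  have hall : ∀ l j z, f z l * (N j).eval z = f z j * (N l).eval z := by
    intro l j
    refine eq_of_codiscrete ((hd l).continuous.mul (hpc _)) ((hd j).continuous.mul (hpc _)) ?_
    filter_upwards [poly_ne_zero_codiscrete hN0, hfk] with z hz hz2
    have h1 := hN l z
    have h2 := hN j z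
    apply mul_left_cancel₀ hz
    linear_combination (N j).eval z * h1 - (N l).eval z * h2
  choose jj hjj using hmin
  have hu : ∀ z i, f z i = f z (jj z) / (N (jj z)).eval z * (N i).eval z := by
    intro z i
    have h1 := hall i (jj z) z
    have h2 := hjj z
    field_simp
    exact h1
  refine ⟨N, fun z => f z (jj z) / (N (jj z)).eval z, fun z hz => ?_, hu⟩
  apply hf0 z
  ext i
  have hz' : f z (jj z) / (N (jj z)).eval z = 0 := hz
  rw [hu z i, hz', zero_mul]
  rfl

end Pool.Agent.Stat
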