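import Pool.Agent.Lib_MP_b9fedf_st.Defs
import Pool.Agent.Lib_MP_b9fedf_ag.Theta

/-! PIECE T1. A rational curve is the image of a torus. -/

set_option autoImplicit false

namespace Pool.Agent.Stat

open MvPolynomial

private lemma torus_eval_smul {m d : ℕ} {p : MvPolynomial (Fin (m + 1)) ℂ} (hp : p.IsHomogeneous d)
    (c : ℂ) (x : Fin (m + 1) → ℂ) :
    MvPolynomial.eval (fun i => c * x i) p = c ^ d * MvPolynomial.eval x p := by
  rw [MvPolynomial.eval_eq', MvPolynomial.eval_eq', Finset.mul_sum]
  refine Finset.sum_congr rfl fun v hv => ?_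
  have hdeg : ∑ i, v i = d := by
    have := hp (MvPolynomial.mem_support_iff.mp hv)
    rw [← this, Finsupp.weight_apply, Finsupp.sum_fintype]
    · simp
    · simp
  simp only [mul_pow]
  rw [Finset.prod_mul_distrib, Finset.prod_pow_eq_pow_sum, hdeg]
  ring

private lemma torus_aeval_smul {m d : ℕ} {p : MvPolynomial (Fin (m + 1)) ℂ} (hp : p.IsHomogeneous d)
    (c : Polynomial ℂ) (x : Fin (m + 1) → Polynomial ℂ) :
    aeval (fun i => c * x i) p = c ^ d * aeval x p := by
  rw [MvPolynomial.aeval_def, MvPolynomial.aeval_def, MvPolynomial.eval₂_eq',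
    MvPolynomial.eval₂_eq', Finset.mul_sum]
  refine Finset.sum_congr rfl fun v hv => ?_
  have hdeg : ∑ i, v i = d := by
    have := hp (MvPolynomial.mem_support_iff.mp hv)
    rw [← this, Finsupp.weight_apply, Finsupp.sum_fintype]
    · simp
    · simp
  simp only [mul_pow]
  rw [Finset.prod_mul_distrib, Finset.prod_pow_eq_pow_sum, hdeg]
  ring

private lemma torus_eval_aeval {m : ℕ} (p : MvPolynomial (Fin (m + 1)) ℂ)
    (R : Fin (m + 1) → Polynomial ℂ) (x : ℂ) :
    MvPolynomial.eval (fun i => (R i).eval x) p = (aeval R p).eval x := by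
  have h : (Polynomial.aeval x : Polynomial ℂ →ₐ[ℂ] ℂ).comp (aeval R) =
      (aeval (fun i => (R i).eval x) : MvPolynomial (Fin (m + 1)) ℂ →ₐ[ℂ] ℂ) := by
    apply MvPolynomial.algHom_ext
    intro i
    simp
  have h2 := congrArg (fun φ => φ p) h
  simp only [AlgHom.comp_apply] at h2
  rw [← MvPolynomial.coe_aeval_eq_eval]
  simp only [Polynomial.coe_aeval_eq_eval] at h2
  exact h2.symm

/-- the homogenization of a polynomial -/
private noncomputable def torusHom (N : ℕ) (R : Polynomial ℂ) (s t : ℂ) : ℂ :=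
  ∑ k ∈ Finset.range (N + 1), R.coeff k * t ^ k * s ^ (N - k)

private lemma torusHom_of_ne {N : ℕ} {R : Polynomial ℂ} (hR : R.natDegree ≤ N) {s : ℂ} (t : ℂ)
    (hs : s ≠ 0) : torusHom N R s t = s ^ N * R.eval (t / s) := by
  rw [torusHom, Polynomial.eval_eq_sum_range' (Nat.lt_succ_of_le hR), Finset.mul_sum]
  refine Finset.sum_congr rfl fun k hk => ?_
  have hk' : k ≤ N := Nat.lt_succ_iff.mp (Finset.mem_range.mp hk)
  have h1 : s ^ N = s ^ k * s ^ (N - k) := by rw [← pow_add]; congr 1; omega
  rw [h1, div_pow]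
  field_simp

private lemma torusHom_zero (N : ℕ) (R : Polynomial ℂ) (t : ℂ) :
    torusHom N R 0 t = R.coeff N * t ^ N := by
  rw [torusHom, Finset.sum_range_succ]
  rw [Finset.sum_eq_zero, Nat.sub_self, pow_zero, mul_one, zero_add]
  intro k hk
  have : N - k ≠ 0 := by have := Finset.mem_range.mp hk; omega
  rw [zero_pow this, mul_zero]

private lemma torusHom_smul (N : ℕ) (R : Polynomial ℂ) (c s t : ℂ) :
    torusHom N R (c * s) (c * t) = c ^ N * torusHom N R s t := by
  rw [torusHom, torusHom, Finset.mul_sum]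
  refine Finset.sum_congr rfl fun k hk => ?_
  have hk' : k ≤ N := Nat.lt_succ_iff.mp (Finset.mem_range.mp hk)
  have h1 : c ^ N = c ^ k * c ^ (N - k) := by rw [← pow_add]; congr 1; omega
  rw [h1, mul_pow, mul_pow]
  ring

/-- the zeros of a non-zero entire function are not interior -/
private lemma torus_dense {s t : (Fin 1 → ℂ) → ℂ} (hs : Differentiable ℂ s)
    (ht : Differentiable ℂ t) {z1 z2 : Fin 1 → ℂ} (h2 : s z2 ≠ 0) (M : ℝ)
    (hM : ∀ w, s w ≠ 0 → ‖t w‖ ≤ M * ‖s w‖) : ‖t z1‖ ≤ M * ‖s z1‖ := by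
  set γ : ℂ → (Fin 1 → ℂ) := fun u => z1 + u • (z2 - z1) with hγ
  have hγd : Differentiable ℂ γ := by fun_prop
  have hγ0 : γ 0 = z1 := by simp [hγ]
  have hγ1 : γ 1 = z2 := by simp [hγ]
  have hsγ : Differentiable ℂ (fun u => s (γ u)) := hs.comp hγd
  have htγ : Differentiable ℂ (fun u => t (γ u)) := ht.comp hγd
  have han : AnalyticOnNhd ℂ (fun u => s (γ u)) Set.univ :=
    hsγ.differentiableOn.analyticOnNhd isOpen_univ
  have hfreq : ∃ᶠ u in nhds (0 : ℂ), s (γ u) ≠ 0 := by
    intro hcon
    have hev : (fun u => s (γ u)) =ᶠ[nhds 0] fun _ => 0 := by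
      filter_upwards [hcon] with u hu
      simpa using hu
    have h3 := han.eq_of_eventuallyEq (g := fun _ => 0) (analyticOnNhd_const) hev
    have h4 := congrFun h3 1
    simp only [hγ1] at h4
    exact h2 h4
  have hcl : IsClosed {u : ℂ | ‖t (γ u)‖ ≤ M * ‖s (γ u)‖} :=
    isClosed_le htγ.continuous.norm (continuous_const.mul hsγ.continuous.norm)
  have h5 : (0 : ℂ) ∈ {u : ℂ | ‖t (γ u)‖ ≤ M * ‖s (γ u)‖} :=
    hcl.mem_of_frequently_of_tendsto (hfreq.mono fun u hu => hM _ hu) Filter.tendsto_id
  simpa [hγ0] using h5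

/-- **PIECE T1.**  Proof.  Let `Q` be a polynomial curve in `V(S)`; if `Q = 0` take `b = 0`.
Otherwise divide by the gcd of the `Q_i` (the equations are homogeneous, `ℂ[t]` is a domain): the
`Q_i` are coprime.  If all `Q_i` are constants we are done.  Otherwise let `N = max deg Q_i ≥ 1` and
`F_i(s, t) = s^N Q_i(t/s)`, forms of degree `N` without common zero in `ℂ² - 0`.  With the theta
functions `s, t` of `GGL.exists_theta` the map `z ↦ F(s(z), t(z))` is a holomorphic map from a
torus to `V(S)`; it is not constant because `s` has zeros (at which the value is the point `(coeff N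
Q_i)_i`) and `t/s` takes infinitely many values, while the `Q_i` are not proportional.
See `Pool/Agent/Lib_MP_b9fedf_ag/Old/FermatCovers.lean`, lines 100-160, for a similar argument. -/
theorem noRational_of_noTorus {m : ℕ} (S : Set (MvPolynomial (Fin (m + 1)) ℂ))
    (hS : ∀ p ∈ S, ∃ d : ℕ, p.IsHomogeneous d) (h : NoTorus S) : NoRational S := by
  intro Q hQ
  by_cases hQ0 : ∀ i, Q i = 0
  · exact ⟨fun _ => 0, 0, fun i => by rw [hQ0 i, mul_zero]⟩
  push Not at hQ0
  obtain ⟨i0, hi0⟩ := hQ0
  -- division by the gcd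
  obtain ⟨g, hg⟩ := (IsPrincipalIdealRing.principal (Ideal.span (Set.range Q))).principal
  have hdvd : ∀ i, ∃ R, Q i = g * R := by
    intro i
    have h1 : Q i ∈ Ideal.span (Set.range Q) := Ideal.subset_span ⟨i, rfl⟩
    rw [hg, Submodule.mem_span_singleton] at h1
    obtain ⟨R, hR⟩ := h1
    exact ⟨R, by rw [← hR, smul_eq_mul, mul_comm]⟩
  choose R hR using hdvd
  have hg0 : g ≠ 0 := by
    rintro rfl
    exact hi0 (by rw [hR i0, zero_mul])
  obtain ⟨c, hc⟩ : ∃ c : Fin (m + 1) → Polynomial ℂ, ∑ i, c i * R i = 1 := by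
    have h1 : g ∈ Ideal.span (Set.range Q) := by
      rw [hg]
      exact Submodule.mem_span_singleton_self g
    obtain ⟨c, hc⟩ := (Ideal.mem_span_range_iff_exists_fun).mp h1
    refine ⟨c, mul_left_cancel₀ hg0 ?_⟩
    rw [mul_one, Finset.mul_sum]
    conv_rhs => rw [← hc]
    refine Finset.sum_congr rfl fun i _ => ?_
    rw [hR i]
    ring
  have hRS : ∀ p ∈ S, aeval R p = 0 := by
    intro p hp
    obtain ⟨d, hd⟩ := hS p hp
    have h1 := hQ p hp
    have h2 : Q = fun i => g * R i := funext hR
    rw [h2, torus_aeval_smul hd] at h1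
    exact (mul_eq_zero.mp h1).resolve_left (pow_ne_zero _ hg0)
  -- the maximal degree
  obtain ⟨j, -, hj⟩ := Finset.exists_max_image (Finset.univ : Finset (Fin (m + 1)))
    (fun i => (R i).natDegree) Finset.univ_nonempty
  set N : ℕ := (R j).natDegree with hN
  have hRN : ∀ i, (R i).natDegree ≤ N := fun i => hj i (Finset.mem_univ i)
  rcases Nat.eq_zero_or_pos N with hN0 | hN0
  · refine ⟨fun i => (R i).coeff 0, g, fun i => ?_⟩
    rw [hR i, mul_comm]
    congr 1
    exact Polynomial.eq_C_of_natDegree_eq_zero (by have := hRN i; omega)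
  exfalso
  have hRj : (R j).coeff N ≠ 0 := by
    rw [hN]
    have h1 : R j ≠ 0 := by
      intro h0
      rw [h0, Polynomial.natDegree_zero] at hN
      omega
    exact Polynomial.leadingCoeff_ne_zero.mpr h1
  obtain ⟨L, s, t, hLd, hLs, hsd, htd, hst0, ⟨z1, hz1⟩, ⟨z2, hz2⟩, hper⟩ :=
    Pool.Agent.GGL.exists_theta
  have ht1 : t z1 ≠ 0 := (hst0 z1).resolve_left (by simp [hz1])
  have hmain := h 1 L hLd hLs (fun z i => torusHom N (R i) (s z) (t z)) ?_ ?_ ?_ ?_ z1
  · -- the contradiction
    have hG : ∀ i, R i * Polynomial.C ((R j).coeff N) = R j * Polynomial.C ((R i).coeff N) := by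
      intro i
      by_contra hne
      set G : Polynomial ℂ := R i * Polynomial.C ((R j).coeff N) -
        R j * Polynomial.C ((R i).coeff N) with hGdef
      have hG0 : G ≠ 0 := sub_ne_zero.mpr hne
      obtain ⟨M, hM⟩ : ∃ M : ℝ, ∀ x ∈ G.roots.toFinset, ‖x‖ ≤ M := by
        obtain ⟨M, hM⟩ := ((G.roots.toFinset : Set ℂ).toFinite.image (fun x : ℂ => ‖x‖)).bddAbove
        exact ⟨M, fun x hx => hM ⟨x, hx, rfl⟩⟩
      have hle : ∀ w, s w ≠ 0 → ‖t w‖ ≤ M * ‖s w‖ := by
        intro w hw
        obtain ⟨e, he⟩ := hmain w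
        have h1 := congrFun he i
        have h2 := congrFun he j
        simp only [Pi.smul_apply, smul_eq_mul] at h1 h2
        rw [hz1, torusHom_zero, torusHom_of_ne (hRN i) _ hw] at h1
        rw [hz1, torusHom_zero, torusHom_of_ne (hRN j) _ hw] at h2
        have h3 : s w ^ N * G.eval (t w / s w) = 0 := by
          rw [hGdef, Polynomial.eval_sub, Polynomial.eval_mul, Polynomial.eval_mul,
            Polynomial.eval_C, Polynomial.eval_C]
          linear_combination (R j).coeff N * h1 - (R i).coeff N * h2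
        have h4 : G.eval (t w / s w) = 0 := (mul_eq_zero.mp h3).resolve_left (pow_ne_zero _ hw)
        have h5 := hM (t w / s w) (by
          rw [Multiset.mem_toFinset, Polynomial.mem_roots hG0]
          exact h4)
        rwa [norm_div, div_le_iff₀ (norm_pos_iff.mpr hw)] at h5
      have h6 := torus_dense hsd htd hz2 M hle (z1 := z1)
      rw [hz1, norm_zero, mul_zero] at h6
      exact ht1 (norm_le_zero_iff.mp h6)
    have hunit : R j * (∑ i, c i * Polynomial.C ((R i).coeff N)) =
        Polynomial.C ((R j).coeff N) := by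
      rw [Finset.mul_sum]
      calc ∑ i, R j * (c i * Polynomial.C ((R i).coeff N))
          = ∑ i, (c i * R i) * Polynomial.C ((R j).coeff N) := by
            refine Finset.sum_congr rfl fun i _ => ?_
            have := hG i
            calc R j * (c i * Polynomial.C ((R i).coeff N))
                = c i * (R j * Polynomial.C ((R i).coeff N)) := by ring
              _ = c i * (R i * Polynomial.C ((R j).coeff N)) := by rw [this]
              _ = _ := by ring
        _ = Polynomial.C ((R j).coeff N) := by rw [← Finset.sum_mul, hc, one_mul]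
    have hdvd : R j ∣ Polynomial.C ((R j).coeff N) := ⟨_, hunit.symm⟩
    have hdeg := Polynomial.natDegree_le_of_dvd hdvd (by simpa using hRj)
    rw [Polynomial.natDegree_C] at hdeg
    omega
  · rw [differentiable_pi]
    intro i
    simp only [torusHom]
    exact Differentiable.fun_sum fun k _ => ((htd.pow k).const_mul _).mul (hsd.pow _)
  · intro z h0
    by_cases hs : s z = 0
    · have ht : t z ≠ 0 := (hst0 z).resolve_left (by simp [hs])
      have h1 := congrFun h0 j
      simp only [Pi.zero_apply] at h1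
      rw [hs, torusHom_zero] at h1
      exact mul_ne_zero hRj (pow_ne_zero _ ht) h1
    · have h1 : ∀ i, (R i).eval (t z / s z) = 0 := by
        intro i
        have h2 := congrFun h0 i
        simp only [Pi.zero_apply] at h2
        rw [torusHom_of_ne (hRN i) _ hs] at h2
        exact (mul_eq_zero.mp h2).resolve_left (pow_ne_zero _ hs)
      have h2 := congrArg (Polynomial.eval (t z / s z)) hc
      rw [Polynomial.eval_finsetSum, Polynomial.eval_one] at h2
      rw [Finset.sum_eq_zero] at h2
      · exact zero_ne_one h2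
      · intro i _
        rw [Polynomial.eval_mul, h1 i, mul_zero]
  · intro z p hp
    obtain ⟨d, hd⟩ := hS p hp
    have h1 : ∀ a b : ℂ, a ≠ 0 → MvPolynomial.eval (fun i => torusHom N (R i) a b) p = 0 := by
      intro a b ha
      have h2 : (fun i => torusHom N (R i) a b) = fun i => a ^ N * (R i).eval (b / a) :=
        funext fun i => torusHom_of_ne (hRN i) b ha
      rw [h2, torus_eval_smul hd, torus_eval_aeval, hRS p hp, Polynomial.eval_zero, mul_zero]
    have hcont : Continuous (fun a : ℂ =>
        MvPolynomial.eval (fun i => torusHom N (R i) a (t z)) p) := by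
      apply (MvPolynomial.continuous_eval p).comp
      refine continuous_pi fun i => ?_
      simp only [torusHom]
      fun_prop
    have h4 := hcont.ext_on (dense_compl_singleton (0 : ℂ)) continuous_const
      (fun a ha => h1 a (t z) ha)
    exact congrFun h4 (s z)
  · intro z l hl
    obtain ⟨e, he1, he2⟩ := hper l hl z
    refine ⟨e ^ N, ?_⟩
    funext i
    rw [Pi.smul_apply, smul_eq_mul, he1, he2, torusHom_smul]

end Pool.Agent.Stat
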