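import Pool.Agent.Lib_MP_b9fedf_st.Final
import Pool.Agent.Lib_MP_b9fedf_st.Rat2
import Pool.Agent.Lib_MP_b9fedf_st.Torus

/-! B11. Curves of finite order with finitely many stationary points. -/

set_option autoImplicit false

namespace Pool.Agent.Stat

open Filter Topology Metric MvPolynomial ValueDistribution

theorem not_noRational {m : ℕ} {S : Set (MvPolynomial (Fin (m + 1)) ℂ)} {x : Fin (m + 1) → ℂ}
    (h : OnRational S x) : ¬ NoRational S := by
  obtain ⟨Q, hQ1, hQ2, -⟩ := h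
  exact fun h1 => hQ2 (h1 Q hQ1)

theorem not_noTorus {m : ℕ} {S : Set (MvPolynomial (Fin (m + 1)) ℂ)}
    (hS : ∀ p ∈ S, ∃ d : ℕ, p.IsHomogeneous d) {x : Fin (m + 1) → ℂ}
    (h : OnRational S x) : ¬ NoTorus S := fun h1 =>
  not_noRational h (noRational_of_noTorus S hS h1)

/-- evaluation commutes with substitution -/
theorem eval_aeval_poly {m : ℕ} (Q : Fin (m + 1) → Polynomial ℂ) (p : MvPolynomial (Fin (m + 1)) ℂ)
    (z : ℂ) : (aeval Q p).eval z = eval (fun i => (Q i).eval z) p := by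
  induction p using MvPolynomial.induction_on with
  | C a => rw [aeval_C, eval_C, Polynomial.algebraMap_apply, Algebra.algebraMap_self,
      RingHom.id_apply, Polynomial.eval_C]
  | add p q hp hq => rw [map_add, Polynomial.eval_add, hp, hq, map_add]
  | mul_X p i hp => rw [map_mul, Polynomial.eval_mul, hp, aeval_X, map_mul, eval_X]

theorem eval_smul_form {m : ℕ} {p : MvPolynomial (Fin (m + 1)) ℂ} {d : ℕ} (hp : p.IsHomogeneous d)
    (c : ℂ) (v : Fin (m + 1) → ℂ) : eval (fun i => c * v i) p = c ^ d * eval v p := by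
  rw [form_eq hp, map_sum, map_sum, Finset.mul_sum]
  refine Finset.sum_congr rfl fun α _ => ?_
  rw [map_mul, map_mul, map_prod, map_prod, eval_C, eval_C]
  simp only [map_pow, eval_X, mul_pow]
  rw [Finset.prod_mul_distrib, Finset.prod_pow_eq_pow_sum, (Finset.mem_finsuppAntidiag.1 α.2).1]
  ring

/-- A polynomial entire curve is constant or runs through rational curves. -/
theorem onRational_of_polynomial {m : ℕ} {S : Set (MvPolynomial (Fin (m + 1)) ℂ)}
    (hS : ∀ p ∈ S, ∃ d : ℕ, p.IsHomogeneous d) {f : ℂ → Fin (m + 1) → ℂ} (hf0 : ∀ z, f z ≠ 0)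
    (hfS : ∀ z, ∀ p ∈ S, eval (f z) p = 0) (Q : Fin (m + 1) → Polynomial ℂ) (u : ℂ → ℂ)
    (hu : ∀ z, u z ≠ 0) (hQ : ∀ z i, f z i = u z * (Q i).eval z) :
    (∀ z, OnRational S (f z)) ∨ ∀ z w, ∃ c : ℂ, f w = c • f z := by
  have hev : ∀ z, (fun i => (Q i).eval z) = fun i => (u z)⁻¹ * f z i := by
    intro z
    ext i
    rw [hQ, inv_mul_cancel_left₀ (hu z)]
  have hQS : ∀ p ∈ S, aeval Q p = 0 := by
    intro p hp
    obtain ⟨d, hd⟩ := hS p hp
    apply Polynomial.funext
    intro z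
    rw [eval_aeval_poly, hev, eval_smul_form hd, hfS z p hp, mul_zero, Polynomial.eval_zero]
  by_cases hab : ∃ (a : Fin (m + 1) → ℂ) (b : Polynomial ℂ), ∀ i, Q i = Polynomial.C (a i) * b
  · right
    obtain ⟨a, b, hab⟩ := hab
    intro z w
    have hfab : ∀ z i, f z i = u z * b.eval z * a i := by
      intro z i
      rw [hQ, hab, Polynomial.eval_mul, Polynomial.eval_C]
      ring
    have hb : u z * b.eval z ≠ 0 := by
      intro h0
      apply hf0 z
      ext i
      rw [hfab, h0, zero_mul]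
      rfl
    refine ⟨u w * b.eval w / (u z * b.eval z), ?_⟩
    ext i
    rw [Pi.smul_apply, smul_eq_mul, hfab, hfab, ← mul_assoc, div_mul_cancel₀ _ hb]
  · left
    intro z
    refine ⟨fun i => (Q i).comp (Polynomial.X + Polynomial.C z), ?_, ?_, (u z)⁻¹,
      inv_ne_zero (hu z), ?_⟩
    · intro p hp
      apply Polynomial.funext
      intro w
      rw [eval_aeval_poly]
      have h1 : (fun i => ((Q i).comp (Polynomial.X + Polynomial.C z)).eval w) =
          fun i => (Q i).eval (w + z) := by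
        ext i
        rw [Polynomial.eval_comp, Polynomial.eval_add, Polynomial.eval_X, Polynomial.eval_C]
      rw [h1, ← eval_aeval_poly, hQS p hp, Polynomial.eval_zero, Polynomial.eval_zero]
    · rintro ⟨a, b, hab'⟩
      apply hab
      refine ⟨a, b.comp (Polynomial.X - Polynomial.C z), fun i => ?_⟩
      have h1 := congrArg (fun q : Polynomial ℂ => q.comp (Polynomial.X - Polynomial.C z)) (hab' i)
      simp only [Polynomial.mul_comp, Polynomial.C_comp, Polynomial.comp_assoc,
        Polynomial.add_comp, Polynomial.X_comp, sub_add_cancel, Polynomial.comp_X] at h1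
      exact h1
    · intro i
      show ((Q i).comp (Polynomial.X + Polynomial.C z)).eval 0 = (u z)⁻¹ * f z i
      rw [Polynomial.eval_comp, Polynomial.eval_add, Polynomial.eval_X, Polynomial.eval_C, zero_add]
      exact congrFun (hev z) i

theorem Nbar_le_of_finite {W : ℂ → ℂ} (hW : {z | W z = 0}.Finite) {r : ℝ} (hr : 1 ≤ r) :
    Nbar W r ≤ hW.toFinset.card * Real.log r := by
  classical
  unfold Nbar
  have hfin : {a : ℂ | ‖a‖ ≤ r ∧ W a = 0}.Finite := hW.subset fun a ha => ha.2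
  rw [finsum_mem_eq_finite_toFinset_sum _ hfin]
  have hlr := Real.log_nonneg hr
  calc ∑ a ∈ hfin.toFinset, Real.log (r / max 1 ‖a‖) ≤ ∑ _a ∈ hfin.toFinset, Real.log r := by
        refine Finset.sum_le_sum fun a ha => ?_
        apply Real.log_le_log (by positivity)
        exact div_le_self (by linarith) (le_max_left _ _)
    _ = hfin.toFinset.card * Real.log r := by rw [Finset.sum_const, nsmul_eq_mul]
    _ ≤ hW.toFinset.card * Real.log r := by
        apply mul_le_mul_of_nonneg_right _ hlr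
        exact_mod_cast Finset.card_le_card (by
          intro a ha
          rw [Set.Finite.mem_toFinset] at ha ⊢
          exact ha.2)

theorem posLog_charT_le {n : ℕ} {g : ℂ → Fin (n + 1) → ℂ} (hg : Differentiable ℂ g)
    (h0 : ∀ z, g z ≠ 0) (hne : ∃ z, g z 0 ≠ 0) {A ρ : ℝ}
    (hord : ∀ r, 1 ≤ r → charT g r ≤ A * r ^ ρ) :
    ∃ B : ℝ, 0 ≤ B ∧ ∀ r, 1 ≤ r → Real.posLog (charT g r) ≤ B * (Real.log r + 1) := by
  obtain ⟨C2, hC2⟩ := TT_le_charT hg h0 hne
  set B : ℝ := |A| + |C2| + 1 with hB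
  have hB1 : 1 ≤ B := by
    rw [hB]
    have := abs_nonneg A
    have := abs_nonneg C2
    linarith
  refine ⟨Real.log B + |ρ|, by have := Real.log_nonneg hB1; positivity, fun r hr => ?_⟩
  have hr0 : 0 < r := by linarith
  have hlr := Real.log_nonneg hr
  have hlB := Real.log_nonneg hB1
  have hrρ1 : 1 ≤ r ^ |ρ| := Real.one_le_rpow hr (abs_nonneg ρ)
  have hrρ : r ^ ρ ≤ r ^ |ρ| := Real.rpow_le_rpow_of_exponent_le hr (le_abs_self ρ)
  have hrρ0 : 0 ≤ r ^ ρ := Real.rpow_nonneg hr0.le _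
  have h1 : charT g r ≤ B * r ^ |ρ| := by
    refine (hord r hr).trans ?_
    calc A * r ^ ρ ≤ |A| * r ^ ρ := mul_le_mul_of_nonneg_right (le_abs_self A) hrρ0
      _ ≤ |A| * r ^ |ρ| := mul_le_mul_of_nonneg_left hrρ (abs_nonneg A)
      _ ≤ B * r ^ |ρ| := by
        apply mul_le_mul_of_nonneg_right _ (by linarith)
        rw [hB]
        have := abs_nonneg C2
        linarith
  have h2 : -(B * r ^ |ρ|) ≤ charT g r := by
    have h3 := hC2 r hr
    have h4 : 1 ≤ TT g r := one_le_TT g hr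
    have h5 : -|C2| ≤ (n + 1) * charT g r := by
      have := le_abs_self C2
      linarith
    have h6 : (0 : ℝ) ≤ n := Nat.cast_nonneg n
    have h7 : |C2| ≤ B * r ^ |ρ| := by
      have h8 : |C2| ≤ B := by
        rw [hB]
        have := abs_nonneg A
        linarith
      nlinarith
    rcases le_total 0 (charT g r) with h8 | h8
    · have : 0 ≤ B * r ^ |ρ| := by positivity
      linarith
    · nlinarith [abs_nonneg C2]
  rw [← Real.posLog_abs]
  have h3 : |charT g r| ≤ B * r ^ |ρ| := abs_le.2 ⟨h2, h1⟩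
  refine (Real.posLog_le_posLog (abs_nonneg _) h3).trans ?_
  have h4 : 1 ≤ B * r ^ |ρ| := by nlinarith
  rw [Real.posLog_eq_log (by rwa [abs_of_nonneg (by positivity)]),
    Real.log_mul (by positivity) (by positivity), Real.log_rpow hr0]
  have h5 := abs_nonneg ρ
  nlinarith

/-- Curves of finite order with finitely many stationary points (equations of bounded degree). -/
theorem finite_order_aux {m n e N : ℕ} (S : Set (MvPolynomial (Fin (m + 1)) ℂ))
    (hS : ∀ p ∈ S, ∃ k ≤ N, p.IsHomogeneous k)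
    (g : ℂ → Fin (n + 1) → ℂ) (hg : Differentiable ℂ g) (hg0 : ∀ z, g z ≠ 0)
    (hli : LinearIndependent ℂ (fun (j : Fin (n + 1)) z => g z j))
    (P : Fin (m + 1) → MvPolynomial (Fin (n + 1)) ℂ) (hP : ∀ i, (P i).IsHomogeneous e)
    (f : ℂ → Fin (m + 1) → ℂ) (hf : Differentiable ℂ f) (hf0 : ∀ z, f z ≠ 0)
    (hfS : ∀ z, ∀ p ∈ S, eval (f z) p = 0)
    (h : ℂ → ℂ) (hh : ∃ z, h z ≠ 0) (hPf : ∀ z i, eval (g z) (P i) = h z * f z i)
    (hord : ∃ A ρ : ℝ, ∀ r, 1 ≤ r → charT g r ≤ A * r ^ ρ) (hW : {z | wronsk g z = 0}.Finite) :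
    (∀ᶠ z in codiscrete ℂ, OnRational S (f z)) ∨ ∀ z w, ∃ c : ℂ, f w = c • f z := by
  obtain ⟨C, hC0, hC⟩ := main m n e N
  rcases hC S hS g hg hg0 hli P hP f hf hf0 hfS h hh hPf with h1 | ⟨K, E, hE, hKE⟩
  · exact Or.inl h1
  have hg00 : ∃ z, g z 0 ≠ 0 := by
    by_contra hcon
    push Not at hcon
    have := hli.ne_zero (0 : Fin (n + 1))
    exact this (funext hcon)
  obtain ⟨A, ρ, hA⟩ := hord
  obtain ⟨B, hB0, hB⟩ := posLog_charT_le hg hg0 hg00 hA
  obtain ⟨Q, u, hu, hQ⟩ := polynomial_of_charT f hf hf0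
    (C * hW.toFinset.card + |K| * (B + 1)) E hE (fun r hr hrE => by
      have h1 := hKE r hr hrE
      have h2 := Nbar_le_of_finite hW hr
      have h3 := hB r hr
      have hlr := Real.log_nonneg hr
      have h4 : C * Nbar (wronsk g) r ≤ C * hW.toFinset.card * (Real.log r + 1) := by
        calc C * Nbar (wronsk g) r ≤ C * (hW.toFinset.card * Real.log r) :=
              mul_le_mul_of_nonneg_left h2 hC0
          _ ≤ C * (hW.toFinset.card * (Real.log r + 1)) := by
              apply mul_le_mul_of_nonneg_left _ hC0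
              apply mul_le_mul_of_nonneg_left _ (Nat.cast_nonneg _)
              linarith
          _ = _ := by ring
      have h5 : K * (Real.posLog (charT g r) + Real.log r + 1) ≤
          |K| * ((B + 1) * (Real.log r + 1)) := by
        have hp := Real.posLog_nonneg (x := charT g r)
        refine (mul_le_mul_of_nonneg_right (le_abs_self K) (by linarith)).trans ?_
        apply mul_le_mul_of_nonneg_left _ (abs_nonneg K)
        nlinarith
      calc charT f r ≤ _ := h1
        _ ≤ C * hW.toFinset.card * (Real.log r + 1) + |K| * ((B + 1) * (Real.log r + 1)) := by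
            linarith
        _ = _ := by ring)
  rcases onRational_of_polynomial (fun p hp => by obtain ⟨k, -, hk⟩ := hS p hp; exact ⟨k, hk⟩)
    hf0 hfS Q u hu hQ with h1 | h1
  · exact Or.inl (Filter.Eventually.of_forall h1)
  · exact Or.inr h1

/-- Curves of finite order with finitely many stationary points. -/
theorem finite_order {m n e : ℕ} (S : Set (MvPolynomial (Fin (m + 1)) ℂ))
    (hS : ∀ p ∈ S, ∃ k : ℕ, p.IsHomogeneous k)
    (g : ℂ → Fin (n + 1) → ℂ) (hg : Differentiable ℂ g) (hg0 : ∀ z, g z ≠ 0)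
    (hli : LinearIndependent ℂ (fun (j : Fin (n + 1)) z => g z j))
    (P : Fin (m + 1) → MvPolynomial (Fin (n + 1)) ℂ) (hP : ∀ i, (P i).IsHomogeneous e)
    (f : ℂ → Fin (m + 1) → ℂ) (hf : Differentiable ℂ f) (hf0 : ∀ z, f z ≠ 0)
    (hfS : ∀ z, ∀ p ∈ S, eval (f z) p = 0)
    (h : ℂ → ℂ) (hh : ∃ z, h z ≠ 0) (hPf : ∀ z i, eval (g z) (P i) = h z * f z i)
    (hord : ∃ A ρ : ℝ, ∀ r, 1 ≤ r → charT g r ≤ A * r ^ ρ) (hW : {z | wronsk g z = 0}.Finite) :
    (∀ᶠ z in codiscrete ℂ, OnRational S (f z)) ∨ ∀ z w, ∃ c : ℂ, f w = c • f z := by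
  classical
  obtain ⟨S', hS'S, hS'⟩ := Submodule.fg_span_iff_fg_span_finset_subset S |>.1
    (IsNoetherian.noetherian (Submodule.span (MvPolynomial (Fin (m + 1)) ℂ) S))
  choose! k hk using hS
  rcases finite_order_aux (N := ∑ p ∈ S', k p) (S' : Set (MvPolynomial (Fin (m + 1)) ℂ))
    (fun p hp => ⟨k p, Finset.single_le_sum (f := k) (fun _ _ => Nat.zero_le _) hp,
      hk p (hS'S hp)⟩) g hg hg0 hli P hP f hf hf0 (fun z p hp => hfS z p (hS'S hp)) h hh hPf
      hord hW with h1 | h1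
  · left
    filter_upwards [h1] with z hz
    obtain ⟨Q, hQ1, hQ2, hQ3⟩ := hz
    refine ⟨Q, fun p hp => ?_, hQ2, hQ3⟩
    have h2 : p ∈ Submodule.span (MvPolynomial (Fin (m + 1)) ℂ)
        (S' : Set (MvPolynomial (Fin (m + 1)) ℂ)) := by
      rw [← hS']; exact Submodule.subset_span hp
    have h3 : Ideal.span (S' : Set (MvPolynomial (Fin (m + 1)) ℂ)) ≤
        RingHom.ker (aeval (R := ℂ) Q).toRingHom := by
      rw [Ideal.span_le]
      intro q hq
      exact hQ1 q hq
    exact h3 h2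
  · exact Or.inr h1

end Pool.Agent.Stat
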