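import Pool.Agent.Lib_MP_b9fedf_st.Final2

/-! B12. The stationary points of a curve in a projective variety. -/

set_option autoImplicit false

namespace Pool.Agent.Stat

open Filter Topology Metric MvPolynomial ValueDistribution

theorem Nbar_nonneg (W : ℂ → ℂ) {r : ℝ} (hr : 1 ≤ r) : 0 ≤ Nbar W r := by
  unfold Nbar
  refine finsum_mem_induction (fun x : ℝ => 0 ≤ x) le_rfl (fun x y hx hy => add_nonneg hx hy)
    fun a ha => ?_
  apply Real.log_nonneg
  rw [one_le_div (by positivity)]
  exact max_le hr ha.1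

theorem self (m N : ℕ) :
    ∃ C : ℝ, 0 ≤ C ∧ ∀ S : Set (MvPolynomial (Fin (m + 1)) ℂ),
      (∀ p ∈ S, ∃ k ≤ N, p.IsHomogeneous k) →
      ∀ (f : ℂ → Fin (m + 1) → ℂ), Differentiable ℂ f → (∀ z, f z ≠ 0) →
      LinearIndependent ℂ (fun (j : Fin (m + 1)) z => f z j) →
      (∀ z, ∀ p ∈ S, eval (f z) p = 0) →
      (∀ᶠ z in codiscrete ℂ, OnRational S (f z)) ∨
      ∃ (K : ℝ) (E : Set ℝ), MeasureTheory.volume E < ⊤ ∧ ∀ r, 1 ≤ r → r ∉ E →
        charT f r ≤ C * Nbar (wronsk f) r + K * (Real.log r + 1) := by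
  obtain ⟨C, hC0, hC⟩ := main m m 1 N
  refine ⟨2 * C, by positivity, fun S hS f hf hf0 hli hfS => ?_⟩
  rcases hC S hS f hf hf0 hli (fun i => X i) (fun i => isHomogeneous_X ℂ i) f hf hf0 hfS
    (fun _ => 1) ⟨0, one_ne_zero⟩ (fun z i => by rw [eval_X, one_mul]) with h1 | ⟨K, E, hE, hKE⟩
  · exact Or.inl h1
  right
  set c : ℝ := 2 * |K| + 1 with hc
  have hc0 : 0 < c := by rw [hc]; positivity
  refine ⟨2 * |K| + |1 + c * Real.log c|, E, hE, fun r hr hrE => ?_⟩
  have h1 := hKE r hr hrE
  have hN := Nbar_nonneg (wronsk f) hr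
  have hlr := Real.log_nonneg hr
  have hp := Real.posLog_nonneg (x := charT f r)
  rcases le_total (charT f r) 0 with hT | hT
  · have : 0 ≤ (2 * |K| + |1 + c * Real.log c|) * (Real.log r + 1) := by positivity
    have : 0 ≤ 2 * C * Nbar (wronsk f) r := by positivity
    linarith
  have h2 : Real.posLog (charT f r) ≤ Real.log (1 + charT f r) := by
    rw [Real.posLog_eq_log_max_one hT]
    apply Real.log_le_log (by positivity)
    exact max_le (by linarith) (by linarith)
  have h3 := log_absorb hc0 hT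
  have h4 : 2 * |K| * Real.posLog (charT f r) ≤ charT f r + |1 + c * Real.log c| := by
    have h5 : 2 * |K| * Real.posLog (charT f r) ≤ c * Real.log (1 + charT f r) := by
      apply mul_le_mul _ h2 hp hc0.le
      rw [hc]; linarith
    have := le_abs_self (1 + c * Real.log c)
    linarith
  have h6 : K * (Real.posLog (charT f r) + Real.log r + 1) ≤
      |K| * (Real.posLog (charT f r) + Real.log r + 1) :=
    mul_le_mul_of_nonneg_right (le_abs_self K) (by linarith)
  have h7 : |1 + c * Real.log c| ≤ |1 + c * Real.log c| * (Real.log r + 1) := by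
    have := abs_nonneg (1 + c * Real.log c)
    nlinarith
  linarith

end Pool.Agent.Stat
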