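import Pool.Agent.Lib_MP_b9fedf_st.Defs
import Pool.Agent.Lib_MP_b9fedf_ag.CharTF
import Pool.Agent.Lib_MP_b9fedf_ag.Char

/-! PIECE B5. Growth of a curve whose affine coordinates are algebraic over small functions. -/

set_option autoImplicit false

namespace Pool.Agent.Stat

open Filter Metric Real Set Function MeromorphicOn ValueDistribution

namespace AlgT

/-- A root of a polynomial is bounded by the coefficients. -/
private lemma root_le {d : ℕ} (q : Fin (d + 1) → ℂ) (e : Fin (d + 1)) (he : q e ≠ 0)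
    (hgt : ∀ j, e < j → q j = 0) (y : ℂ) (h : ∑ j, q j * y ^ (j : ℕ) = 0) :
    max 1 ‖y‖ ≤ (∑ j, ‖q j‖) / ‖q e‖ := by
  have he0 : 0 < ‖q e‖ := norm_pos_iff.2 he
  have hsum : ‖q e‖ ≤ ∑ j, ‖q j‖ :=
    Finset.single_le_sum (f := fun j => ‖q j‖) (fun _ _ => norm_nonneg _) (Finset.mem_univ e)
  rw [le_div_iff₀ he0]
  rcases le_or_gt 1 ‖y‖ with hy | hy
  · rw [max_eq_right hy]
    have h1 : q e * y ^ (e : ℕ) = -∑ j ∈ Finset.univ.erase e, q j * y ^ (j : ℕ) := by
      rw [eq_neg_iff_add_eq_zero, ← h]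
      exact Finset.add_sum_erase Finset.univ (fun j => q j * y ^ (j : ℕ)) (Finset.mem_univ e)
    have hepos : 1 ≤ (e : ℕ) := by
      by_contra h0
      have h0' : (e : ℕ) = 0 := by omega
      have h2 : ∑ j ∈ Finset.univ.erase e, q j * y ^ (j : ℕ) = 0 := by
        refine Finset.sum_eq_zero fun j hj => ?_
        have hj' := Finset.ne_of_mem_erase hj
        rw [hgt j (Fin.lt_def.2 (by
          have : (j : ℕ) ≠ (e : ℕ) := fun h => hj' (Fin.ext h)
          omega)), zero_mul]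
      rw [h2, h0', pow_zero, mul_one, neg_zero] at h1
      exact he h1
    have h2 : ‖q e‖ * ‖y‖ ^ (e : ℕ) ≤ (∑ j, ‖q j‖) * ‖y‖ ^ ((e : ℕ) - 1) := by
      rw [← norm_pow, ← norm_mul, h1, norm_neg]
      refine (norm_sum_le _ _).trans ?_
      rw [Finset.sum_mul]
      refine (Finset.sum_le_sum (f := fun j => ‖q j * y ^ (j : ℕ)‖)
        (g := fun j => ‖q j‖ * ‖y‖ ^ ((e : ℕ) - 1)) fun j hj => ?_).trans
        (Finset.sum_le_sum_of_subset_of_nonneg (Finset.subset_univ _) fun j _ _ => by positivity)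
      rw [norm_mul, norm_pow]
      rcases lt_or_ge e j with hj1 | hj1
      · rw [hgt j hj1, norm_zero, zero_mul, zero_mul]
      · have hj' := Finset.ne_of_mem_erase hj
        have hj2 : (j : ℕ) ≤ (e : ℕ) - 1 := by
          have h3 : (j : ℕ) ≠ (e : ℕ) := fun h => hj' (Fin.ext h)
          have h4 : (j : ℕ) ≤ (e : ℕ) := hj1
          omega
        exact mul_le_mul_of_nonneg_left (pow_le_pow_right₀ hy hj2) (norm_nonneg _)
    have h3 : ‖y‖ ^ (e : ℕ) = ‖y‖ * ‖y‖ ^ ((e : ℕ) - 1) := by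
      rw [← pow_succ', Nat.sub_add_cancel hepos]
    rw [h3, ← mul_assoc] at h2
    have h4 := le_of_mul_le_mul_right h2 (by positivity)
    linarith
  · rw [max_eq_left hy.le, one_mul]
    exact hsum

/-- The order of a sum. -/
private lemma order_sum {ι : Type} (s : Finset ι) (F : ι → ℂ → ℂ) (a : ℂ) (c : WithTop ℤ)
    (hF : ∀ j ∈ s, MeromorphicAt (F j) a) (hc : ∀ j ∈ s, c ≤ meromorphicOrderAt (F j) a) :
    c ≤ meromorphicOrderAt (∑ j ∈ s, F j) a := by
  classical
  induction s using Finset.induction_on with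
  | empty =>
    rw [Finset.sum_empty]
    have : meromorphicOrderAt (0 : ℂ → ℂ) a = ⊤ := meromorphicOrderAt_eq_top_iff.2
      (Eventually.of_forall fun _ => rfl)
    rw [this]
    exact le_top
  | insert x s hx ih =>
    rw [Finset.sum_insert hx]
    refine le_trans (le_min (hc x (Finset.mem_insert_self x s))
      (ih (fun j hj => hF j (Finset.mem_insert_of_mem hj))
        fun j hj => hc j (Finset.mem_insert_of_mem hj)))
      (meromorphicOrderAt_add (hF x (Finset.mem_insert_self x s)) ?_)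
    exact MeromorphicAt.sum fun j hj => hF j (Finset.mem_insert_of_mem hj)

/-- A meromorphic function which is not identically zero has finite orders. -/
private lemma order_ne_top' {g : ℂ → ℂ} (hg : Meromorphic g)
    (h0 : ¬ g =ᶠ[codiscrete ℂ] fun _ => 0) (a : ℂ) : meromorphicOrderAt g a ≠ ⊤ := fun h =>
  h0 (Pool.Agent.GGL.eq_zero_codiscrete_of_order_top hg h)

/-- It is nonzero off a discrete set. -/
private lemma ne_zero_codiscrete {g : ℂ → ℂ} (hg : Meromorphic g)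
    (h0 : ¬ g =ᶠ[codiscrete ℂ] fun _ => 0) : ∀ᶠ z in codiscrete ℂ, g z ≠ 0 := by
  rw [Filter.Eventually, mem_codiscrete]
  intro w
  rw [disjoint_principal_right, compl_compl]
  exact (meromorphicOrderAt_ne_top_iff_eventually_ne_zero (hg w)).1 (order_ne_top' hg h0 w)

private lemma codisc_nhds {P : ℂ → Prop} (h : ∀ᶠ z in codiscrete ℂ, P z) (a : ℂ) :
    ∀ᶠ z in nhdsWithin a {a}ᶜ, P z := by
  rw [Filter.Eventually, mem_codiscrete] at h
  have h1 := h a
  rw [disjoint_principal_right, compl_compl] at h1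
  exact h1

/-- The order of the leading coefficient. -/
private lemma order_lead {m : ℕ} (f : ℂ → Fin (m + 1) → ℂ) (hf : Differentiable ℂ f)
    (k : Fin (m + 1)) (hk : ∃ z, f z k ≠ 0) {d : ℕ} (q : Fin (d + 1) → ℂ → ℂ)
    (hq : ∀ j, Meromorphic (q j)) (e : Fin (d + 1)) (he : ¬ q e =ᶠ[codiscrete ℂ] fun _ => 0)
    (hgt : ∀ j, e < j → q j =ᶠ[codiscrete ℂ] fun _ => 0) (i : Fin (m + 1))
    (hrel : ∀ᶠ z in codiscrete ℂ, ∑ j, q j z * (f z i / f z k) ^ (j : ℕ) = 0)
    (a : ℂ) (hi : f a i ≠ 0) (c : ℤ)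
    (hord : ∀ j, ((-c : ℤ) : WithTop ℤ) ≤ meromorphicOrderAt (q j) a) :
    ((Pool.Agent.GGL.Dv (fun z => f z k) a - c : ℤ) : WithTop ℤ) ≤
      meromorphicOrderAt (q e) a := by
  have hfi : ∀ l, Differentiable ℂ (fun z => f z l) := fun l => by
    have := differentiable_pi.1 hf l
    exact this
  have hk0 : ∀ᶠ z in codiscrete ℂ, f z k ≠ 0 := by
    refine ne_zero_codiscrete (Pool.Agent.GGL.mero_of_diff (hfi k)) fun h => ?_
    have h1 := codisc_nhds h a
    have h2 : meromorphicOrderAt (fun z => f z k) a = ⊤ := meromorphicOrderAt_eq_top_iff.2 h1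
    exact Pool.Agent.GGL.mOrder_ne_top (hfi k) hk a h2
  set μ : ℤ := Pool.Agent.GGL.Dv (fun z => f z k) a with hμ
  have hμ0 : 0 ≤ μ := Pool.Agent.GGL.Dv_nonneg (hfi k) a
  have hordk : meromorphicOrderAt (fun z => f z k) a = (μ : WithTop ℤ) := by
    have h1 := Pool.Agent.GGL.mOrder_ne_top (hfi k) hk a
    rw [hμ, MeromorphicOn.divisor_apply
      (Pool.Agent.GGL.mero_of_diff (hfi k)).meromorphicOn (Set.mem_univ a)]
    exact (WithTop.coe_untop₀_of_ne_top h1).symm
  have hordi : meromorphicOrderAt (fun z => f z i) a = 0 := by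
    have h1 := ((hfi i).analyticAt a)
    rw [h1.meromorphicOrderAt_eq, h1.analyticOrderAt_eq_zero.2 hi]
    rfl
  have hmi : MeromorphicAt (fun z => f z i) a := Pool.Agent.GGL.mero_of_diff (hfi i) a
  have hmk : MeromorphicAt (fun z => f z k) a := Pool.Agent.GGL.mero_of_diff (hfi k) a
  have hev : ∀ᶠ z in nhdsWithin a {a}ᶜ, f z k ≠ 0 ∧ q e z ≠ 0 ∧ (∀ j, e < j → q j z = 0) ∧
      ∑ j, q j z * (f z i / f z k) ^ (j : ℕ) = 0 := by
    have h1 : ∀ᶠ z in codiscrete ℂ, ∀ j, e < j → q j z = 0 := by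
      rw [eventually_all]
      intro j
      by_cases hj : e < j
      · filter_upwards [hgt j hj] with z hz _
        exact hz
      · exact Eventually.of_forall fun z h => absurd h hj
    exact codisc_nhds (hk0.and ((ne_zero_codiscrete (hq e) he).and (h1.and hrel))) a
  set s : Finset (Fin (d + 1)) := Finset.univ.filter fun j => j < e with hs
  have hL : (q e * (fun z => f z i) ^ (e : ℕ)) =ᶠ[nhdsWithin a {a}ᶜ]
      -∑ j ∈ s, q j * ((fun z => f z i) ^ (j : ℕ) * (fun z => f z k) ^ ((e : ℕ) - (j : ℕ))) := by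
    filter_upwards [hev] with z hz
    obtain ⟨hz1, hz2, hz3, hz4⟩ := hz
    have h1 : ∑ j, q j z * (f z i / f z k) ^ (j : ℕ) =
        q e z * (f z i / f z k) ^ (e : ℕ) + ∑ j ∈ s, q j z * (f z i / f z k) ^ (j : ℕ) := by
      rw [← Finset.add_sum_erase Finset.univ (fun j => q j z * (f z i / f z k) ^ (j : ℕ))
        (Finset.mem_univ e)]
      congr 1
      symm
      refine Finset.sum_subset (fun j hj => ?_) fun j hj hj' => ?_
      · rw [hs, Finset.mem_filter] at hj
        exact Finset.mem_erase.2 ⟨hj.2.ne, Finset.mem_univ _⟩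
      · have h2 := Finset.ne_of_mem_erase hj
        have h3 : ¬ j < e := fun h => hj' (Finset.mem_filter.2 ⟨Finset.mem_univ _, h⟩)
        rw [hz3 j (lt_of_le_of_ne (not_lt.1 h3) (Ne.symm h2)), zero_mul]
    rw [h1, ← eq_neg_iff_add_eq_zero] at hz4
    have h2 : q e z * (f z i) ^ (e : ℕ) =
        (q e z * (f z i / f z k) ^ (e : ℕ)) * (f z k) ^ (e : ℕ) := by
      rw [div_pow]
      field_simp
    show q e z * (f z i) ^ (e : ℕ) = (-∑ j ∈ s, q j *
      ((fun z => f z i) ^ (j : ℕ) * (fun z => f z k) ^ ((e : ℕ) - (j : ℕ)))) z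
    rw [h2, hz4, Pi.neg_apply, Finset.sum_apply, neg_mul, Finset.sum_mul]
    congr 1
    refine Finset.sum_congr rfl fun j hj => ?_
    rw [hs, Finset.mem_filter] at hj
    show q j z * (f z i / f z k) ^ (j : ℕ) * f z k ^ (e : ℕ) =
      q j z * ((f z i) ^ (j : ℕ) * (f z k) ^ ((e : ℕ) - (j : ℕ)))
    have h3 : (e : ℕ) = (j : ℕ) + ((e : ℕ) - (j : ℕ)) := by
      have : (j : ℕ) < (e : ℕ) := hj.2
      omega
    have h4 : f z k ^ (e : ℕ) = f z k ^ (j : ℕ) * f z k ^ ((e : ℕ) - (j : ℕ)) := by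
      rw [← pow_add, ← h3]
    rw [h4, div_pow]
    field_simp
  have h1 := meromorphicOrderAt_congr hL
  rw [meromorphicOrderAt_mul (hq e a) (hmi.pow _), meromorphicOrderAt_pow hmi, hordi, mul_zero,
    add_zero, ← meromorphicOrderAt_neg] at h1
  rw [h1]
  refine order_sum s _ a _ (fun j _ => (hq j a).mul ((hmi.pow _).mul (hmk.pow _))) fun j hj => ?_
  rw [hs, Finset.mem_filter] at hj
  rw [meromorphicOrderAt_mul (hq j a) ((hmi.pow _).mul (hmk.pow _)),
    meromorphicOrderAt_mul (hmi.pow _) (hmk.pow _), meromorphicOrderAt_pow hmi,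
    meromorphicOrderAt_pow hmk, hordi, mul_zero, zero_add, hordk]
  have h2 : ((μ - c : ℤ) : WithTop ℤ) ≤ ((-c : ℤ) : WithTop ℤ) +
      (((e : ℕ) - (j : ℕ) : ℕ) : WithTop ℤ) * (μ : WithTop ℤ) := by
    have h3 : 1 ≤ (e : ℕ) - (j : ℕ) := by
      have : (j : ℕ) < (e : ℕ) := hj.2
      omega
    have h4 : (((e : ℕ) - (j : ℕ) : ℕ) : WithTop ℤ) = (((((e : ℕ) - (j : ℕ) : ℕ) : ℤ)) : WithTop ℤ) :=
      rfl
    rw [h4, ← WithTop.coe_mul, ← WithTop.coe_add, WithTop.coe_le_coe]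
    have h5 : (1 : ℤ) ≤ (((e : ℕ) - (j : ℕ) : ℕ) : ℤ) := by exact_mod_cast h3
    nlinarith
  exact h2.trans (add_le_add_left (hord j) _)

end AlgT

/-- **PIECE B5.**  `T_f` is bounded by the coefficients of algebraic relations of the `f_i / f_k`.
`Z` is an effective divisor, the coefficients `Q i j` have poles of order at most `M Z` and are
bounded by `exp B` on (almost all of) the circle of radius `r`.

Proof.  For each `i` let `d_i` be the largest `j` with `Q i j ≠ 0` (it is `≥ 1`), `Q_i := Q i d_i`,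
`y_i = f_i / f_k`.  Off a discrete set `|y_i| ≥ 1` implies `|Q_i| |y_i| ≤ ∑_{j<d_i} |Q i j|`, so
`max(1,|y_i|) ≤ ∑_j |Q i j| / |Q_i|` and
`log ‖f‖ ≤ log |f_k| + ∑_i (log (∑_j |Q i j|) - log |Q_i|) ≤ log |f_k| + ∑_i (B + log (d+1) -
log |Q_i|)` codiscretely on the circle (a factor `≥ 1` for each `i`).  Integrate
(`GGL.circleAverage_mono_codiscrete`, `GGL.jensen`, `GGL.log_integrable`, `GGL.vec_integrable`):
`T_f(r) ≤ logCounting (Dv f_k - ∑_i div Q_i) r + (m+1) B + C`.  Finally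
`Dv f_k - ∑_i div Q_i ≤ (m+1) M Z` pointwise: at `a` choose `i` with `f_i(a) ≠ 0`, `μ = ord f_k`; from
`Q_i f_i^{d_i} = - ∑_{j<d_i} Q i j f_i^j f_k^{d_i-j}` one gets `ord_a Q_i ≥ μ - M Z(a)`, and
`ord_a Q_{i'} ≥ - M Z(a)` for the others. Use `logCounting_le` as in `CharTF.lean`. -/
theorem charT_le_of_relations_fun {m : ℕ} (f : ℂ → Fin (m + 1) → ℂ) (hf : Differentiable ℂ f)
    (hf0 : ∀ z, f z ≠ 0) (k : Fin (m + 1)) (hk : ∃ z, f z k ≠ 0) (d : ℕ)
    (Q : Fin (m + 1) → Fin (d + 1) → ℂ → ℂ) (hQ : ∀ i j, Meromorphic (Q i j))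
    (hne : ∀ i, ∃ j, ¬ Q i j =ᶠ[codiscrete ℂ] fun _ => 0)
    (hrel : ∀ i, ∀ᶠ z in codiscrete ℂ, ∑ j, Q i j z * (f z i / f z k) ^ (j : ℕ) = 0)
    (M : ℕ) (Z : locallyFinsupp ℂ ℤ) (hZ : 0 ≤ Z)
    (hord : ∀ i j a, ((-(M * Z a) : ℤ) : WithTop ℤ) ≤ meromorphicOrderAt (Q i j) a) :
    ∃ C : ℝ, ∀ (r : ℝ) (b : ℂ → ℝ), 1 ≤ r → CircleIntegrable b 0 r →
      (∀ i j, ∀ᶠ z in codiscreteWithin (sphere (0 : ℂ) r), ‖Q i j z‖ ≤ Real.exp (b z)) →
      charT f r ≤ (m + 1) * M * Function.locallyFinsuppWithin.logCounting Z r +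
        (m + 1) * circleAverage b 0 r + C := by
  classical
  have hfi : ∀ l, Differentiable ℂ (fun z => f z l) := fun l => by
    have := differentiable_pi.1 hf l
    exact this
  have hex : ∀ i, ∃ e : Fin (d + 1), (¬ Q i e =ᶠ[codiscrete ℂ] fun _ => 0) ∧
      ∀ j, e < j → Q i j =ᶠ[codiscrete ℂ] fun _ => 0 := by
    intro i
    set S : Finset (Fin (d + 1)) :=
      Finset.univ.filter fun j => ¬ Q i j =ᶠ[codiscrete ℂ] fun _ => 0 with hS
    have hSne : S.Nonempty := by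
      obtain ⟨j, hj⟩ := hne i
      exact ⟨j, Finset.mem_filter.2 ⟨Finset.mem_univ _, hj⟩⟩
    refine ⟨S.max' hSne, (Finset.mem_filter.1 (S.max'_mem hSne)).2, fun j hj => ?_⟩
    by_contra h
    exact absurd (S.le_max' j (Finset.mem_filter.2 ⟨Finset.mem_univ _, h⟩)) (not_le.2 hj)
  choose e he hgt using hex
  -- the divisor inequality
  have hDv : ∀ i a (c : ℤ), (c : WithTop ℤ) ≤ meromorphicOrderAt (Q i (e i)) a →
      c ≤ Pool.Agent.GGL.Dv (Q i (e i)) a := by
    intro i a c hc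
    have h1 := AlgT.order_ne_top' (hQ i (e i)) (he i) a
    rw [MeromorphicOn.divisor_apply (hQ i (e i)).meromorphicOn (Set.mem_univ a)]
    rw [← WithTop.coe_untop₀_of_ne_top h1, WithTop.coe_le_coe] at hc
    exact hc
  have hdiv : ∀ a, (Pool.Agent.GGL.Dv (fun z => f z k) - ∑ i, Pool.Agent.GGL.Dv (Q i (e i))) a ≤
      (((m + 1) * M) • Z) a := by
    intro a
    have hfa : ∃ i, f a i ≠ 0 := by
      by_contra h
      push Not at h
      exact hf0 a (funext h)
    obtain ⟨i0, hi0⟩ := hfa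
    have h1 := hDv i0 a _ (AlgT.order_lead f hf k hk (Q i0) (hQ i0) (e i0) (he i0) (hgt i0) i0
      (hrel i0) a hi0 (M * Z a) fun j => hord i0 j a)
    have h2 : ∀ i, -(M * Z a) ≤ Pool.Agent.GGL.Dv (Q i (e i)) a := fun i =>
      hDv i a _ (hord i (e i) a)
    have h3 : ∑ i, Pool.Agent.GGL.Dv (Q i (e i)) a =
        Pool.Agent.GGL.Dv (Q i0 (e i0)) a +
          ∑ i ∈ Finset.univ.erase i0, Pool.Agent.GGL.Dv (Q i (e i)) a :=
      (Finset.add_sum_erase Finset.univ (fun i => Pool.Agent.GGL.Dv (Q i (e i)) a)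
        (Finset.mem_univ i0)).symm
    have h4 : ∑ i ∈ Finset.univ.erase i0, (-(M * Z a) : ℤ) ≤
        ∑ i ∈ Finset.univ.erase i0, Pool.Agent.GGL.Dv (Q i (e i)) a :=
      Finset.sum_le_sum fun i _ => h2 i
    rw [Finset.sum_const, Finset.card_erase_of_mem (Finset.mem_univ i0), Finset.card_univ,
      Fintype.card_fin, Nat.add_sub_cancel, nsmul_eq_mul] at h4
    rw [locallyFinsuppWithin.coe_sub, Pi.sub_apply, locallyFinsuppWithin.coe_sum,
      Finset.sum_apply, h3, locallyFinsuppWithin.coe_nsmul, Pi.smul_apply, nsmul_eq_mul]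
    push_cast
    linarith
  refine ⟨Real.log ‖meromorphicTrailingCoeffAt (fun z => f z k) 0‖ -
    ∑ i, Real.log ‖meromorphicTrailingCoeffAt (Q i (e i)) 0‖ + (m + 1) * Real.log (d + 1),
    fun r b hr hbI hbd => ?_⟩
  have hr0 : 0 < r := by linarith
  have hmk := Pool.Agent.GGL.mero_of_diff (hfi k)
  have hkI := Pool.Agent.GGL.log_integrable hmk r
  have hQI : ∀ i, CircleIntegrable (fun z => Real.log ‖Q i (e i) z‖) 0 r := fun i =>
    Pool.Agent.GGL.log_integrable (hQ i (e i)) r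
  have hsI : CircleIntegrable (fun z => ∑ i, Real.log ‖Q i (e i) z‖) 0 r := by
    have := CircleIntegrable.sum Finset.univ (f := fun i z => Real.log ‖Q i (e i) z‖)
      (c := 0) (R := r) (fun i _ => hQI i)
    convert! this using 1
    ext z
    simp
  have hdI : CircleIntegrable (fun z => Real.log ‖f z k‖ - ∑ i, Real.log ‖Q i (e i) z‖) 0 r :=
    hkI.sub hsI
  have hbI' : CircleIntegrable (fun z => (m + 1 : ℝ) * (b z + Real.log (d + 1))) 0 r :=
    (hbI.add (circleIntegrable_const _ _ _)).const_smul (a := (m + 1 : ℝ))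
  have h1 : charT f r ≤ circleAverage (fun z => (Real.log ‖f z k‖ -
      ∑ i, Real.log ‖Q i (e i) z‖) + (m + 1) * (b z + Real.log (d + 1))) 0 r := by
    unfold charT
    apply Pool.Agent.GGL.circleAverage_mono_codiscrete hr0
      (Pool.Agent.GGL.vec_integrable hfi r) (hdI.add hbI')
    have hb : ∀ᶠ z in codiscreteWithin (sphere (0 : ℂ) r), ∀ i j,
        ‖Q i j z‖ ≤ Real.exp (b z) := by
      rw [eventually_all]
      intro i
      rw [eventually_all]
      intro j
      exact hbd i j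
    have hc : ∀ᶠ z in codiscrete ℂ, ∀ i, Q i (e i) z ≠ 0 ∧ (∀ j, e i < j → Q i j z = 0) ∧
        ∑ j, Q i j z * (f z i / f z k) ^ (j : ℕ) = 0 := by
      rw [eventually_all]
      intro i
      have h2 : ∀ᶠ z in codiscrete ℂ, ∀ j, e i < j → Q i j z = 0 := by
        rw [eventually_all]
        intro j
        by_cases hj : e i < j
        · filter_upwards [hgt i j hj] with z hz _
          exact hz
        · exact Eventually.of_forall fun z h => absurd h hj
      filter_upwards [AlgT.ne_zero_codiscrete (hQ i (e i)) (he i), h2, hrel i] with z h3 h4 h5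
      exact ⟨h3, h4, h5⟩
    have hc' : ∀ᶠ z in codiscreteWithin (sphere (0 : ℂ) r), ∀ i, Q i (e i) z ≠ 0 ∧
        (∀ j, e i < j → Q i j z = 0) ∧
        ∑ j, Q i j z * (f z i / f z k) ^ (j : ℕ) = 0 :=
      codiscreteWithin_mono (Set.subset_univ _) hc
    filter_upwards [Pool.Agent.GGL.nonzero_codiscrete (hfi k) hk r, hb, hc'] with z hz hbz hcz
    have hz0 : 0 < ‖f z k‖ := norm_pos_iff.2 hz
    obtain ⟨l, hl⟩ := Pool.Agent.GGL.exists_norm_eq (f z)
    have hfz : 0 < ‖f z‖ := norm_pos_iff.2 (hf0 z)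
    have hlpos : 0 < ‖f z l‖ := by rwa [hl] at hfz
    have hterm : ∀ i, Real.log (max 1 ‖f z i / f z k‖) ≤
        b z + Real.log (d + 1) - Real.log ‖Q i (e i) z‖ := by
      intro i
      obtain ⟨h3, h4, h5⟩ := hcz i
      have h6 := AlgT.root_le (fun j => Q i j z) (e i) h3 h4 (f z i / f z k) h5
      have h7 : ∑ j, ‖Q i j z‖ ≤ (d + 1) * Real.exp (b z) := by
        refine (Finset.sum_le_sum fun j _ => hbz i j).trans (le_of_eq ?_)
        rw [Finset.sum_const, Finset.card_univ, Fintype.card_fin, nsmul_eq_mul]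
        push_cast
        ring
      have h8 : 0 < ‖Q i (e i) z‖ := norm_pos_iff.2 h3
      have h9 : max 1 ‖f z i / f z k‖ ≤ ((d + 1) * Real.exp (b z)) / ‖Q i (e i) z‖ :=
        h6.trans (div_le_div_of_nonneg_right h7 h8.le)
      have h10 := Real.log_le_log (lt_of_lt_of_le one_pos (le_max_left _ _)) h9
      rw [Real.log_div (by positivity) h8.ne', Real.log_mul (by positivity) (Real.exp_ne_zero _),
        Real.log_exp] at h10
      linarith
    have hnn : ∀ i, 0 ≤ Real.log (max 1 ‖f z i / f z k‖) := fun i =>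
      Real.log_nonneg (le_max_left _ _)
    have h2 : Real.log ‖f z l‖ - Real.log ‖f z k‖ ≤ Real.log (max 1 ‖f z l / f z k‖) := by
      rw [← Real.log_div hlpos.ne' hz0.ne', ← norm_div]
      exact Real.log_le_log (norm_pos_iff.2 (div_ne_zero (norm_pos_iff.1 hlpos) hz))
        (le_max_right _ _)
    have h3 : Real.log (max 1 ‖f z l / f z k‖) ≤
        ∑ i, (b z + Real.log (d + 1) - Real.log ‖Q i (e i) z‖) :=
      (Finset.single_le_sum (f := fun i => Real.log (max 1 ‖f z i / f z k‖))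
        (fun i _ => hnn i) (Finset.mem_univ l)).trans (Finset.sum_le_sum fun i _ => hterm i)
    rw [Finset.sum_sub_distrib, Finset.sum_const, Finset.card_univ, Fintype.card_fin,
      nsmul_eq_mul] at h3
    push_cast at h3
    show Real.log ‖f z‖ ≤ (Real.log ‖f z k‖ - ∑ i, Real.log ‖Q i (e i) z‖) +
      (m + 1) * (b z + Real.log (d + 1))
    rw [hl]
    linarith
  have hbA : circleAverage (fun z => (m + 1 : ℝ) * (b z + Real.log (d + 1))) 0 r =
      (m + 1) * (circleAverage b 0 r + Real.log (d + 1)) := by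
    have h2 : circleAverage (fun z => (m + 1 : ℝ) * (b z + Real.log (d + 1))) 0 r =
        (m + 1 : ℝ) * circleAverage (fun z => b z + Real.log (d + 1)) 0 r :=
      circleAverage_fun_smul (a := (m + 1 : ℝ)) (f := fun z => b z + Real.log (d + 1))
    rw [h2, circleAverage_fun_add hbI (circleIntegrable_const _ _ _), circleAverage_const]
  rw [circleAverage_fun_add hdI hbI', hbA,
    circleAverage_fun_sub hkI hsI, circleAverage_fun_sum (fun i _ => hQI i),
    Pool.Agent.GGL.jensen hmk hr] at h1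
  have h2 : ∑ i, circleAverage (fun z => Real.log ‖Q i (e i) z‖) 0 r =
      ∑ i, Function.locallyFinsuppWithin.logCounting (Pool.Agent.GGL.Dv (Q i (e i))) r +
        ∑ i, Real.log ‖meromorphicTrailingCoeffAt (Q i (e i)) 0‖ := by
    rw [← Finset.sum_add_distrib]
    exact Finset.sum_congr rfl fun i _ => Pool.Agent.GGL.jensen (hQ i (e i)) hr
  have h3 := Function.locallyFinsuppWithin.logCounting_le hdiv hr
  rw [map_sub, Pi.sub_apply, map_sum, Finset.sum_apply, map_nsmul, Pi.smul_apply,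
    nsmul_eq_mul] at h3
  push_cast at h3
  rw [h2] at h1
  linarith

/-- The version with a constant bound. -/
theorem charT_le_of_relations {m : ℕ} (f : ℂ → Fin (m + 1) → ℂ) (hf : Differentiable ℂ f)
    (hf0 : ∀ z, f z ≠ 0) (k : Fin (m + 1)) (hk : ∃ z, f z k ≠ 0) (d : ℕ)
    (Q : Fin (m + 1) → Fin (d + 1) → ℂ → ℂ) (hQ : ∀ i j, Meromorphic (Q i j))
    (hne : ∀ i, ∃ j, ¬ Q i j =ᶠ[codiscrete ℂ] fun _ => 0)
    (hrel : ∀ i, ∀ᶠ z in codiscrete ℂ, ∑ j, Q i j z * (f z i / f z k) ^ (j : ℕ) = 0)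
    (M : ℕ) (Z : locallyFinsupp ℂ ℤ) (hZ : 0 ≤ Z)
    (hord : ∀ i j a, ((-(M * Z a) : ℤ) : WithTop ℤ) ≤ meromorphicOrderAt (Q i j) a) :
    ∃ C : ℝ, ∀ r B : ℝ, 1 ≤ r → 0 ≤ B →
      (∀ i j, ∀ᶠ z in codiscreteWithin (sphere (0 : ℂ) r), ‖Q i j z‖ ≤ Real.exp B) →
      charT f r ≤ (m + 1) * M * Function.locallyFinsuppWithin.logCounting Z r + (m + 1) * B + C := by
  obtain ⟨C, hC⟩ := charT_le_of_relations_fun f hf hf0 k hk d Q hQ hne hrel M Z hZ hord
  refine ⟨C, fun r B hr _ hbd => ?_⟩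
  have h1 := hC r (fun _ => B) hr (circleIntegrable_const _ _ _) hbd
  rwa [circleAverage_const] at h1

end Pool.Agent.Stat
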