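import Pool.Agent.Lib_MP_b9fedf_st.Defs
import Pool.Agent.Lib_MP_b9fedf_ag.LDL
import Pool.Agent.Lib_MP_b9fedf_ag.CharTF

/-! PIECE B7. The characteristics of the Frobenius quotients and the lemma on the logarithmic
derivative for them. -/

set_option autoImplicit false

namespace Pool.Agent.Stat

open Filter Metric Real Set Function MeromorphicOn ValueDistribution

/-- the components of `g`, extended by `0` -/
noncomputable def gN {n : ℕ} (g : ℂ → Fin (n + 1) → ℂ) (j : ℕ) (z : ℂ) : ℂ :=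
  if h : j < n + 1 then g z ⟨j, h⟩ else 0

/-- the Wronskian of `g_0, ..., g_{k-1}` -/
noncomputable def wrf {n : ℕ} (g : ℂ → Fin (n + 1) → ℂ) (k : ℕ) : ℂ → ℂ :=
  Pool.Agent.GGL.Wr (fun j : Fin k => gN g j)

/-- the quotient `h_k / h_l`, `h_k = W_{k+1} / W_k` -/
noncomputable def Hf {n : ℕ} (g : ℂ → Fin (n + 1) → ℂ) (k l : ℕ) (z : ℂ) : ℂ :=
  (wrf g (k + 1) z * wrf g l z) / (wrf g k z * wrf g (l + 1) z)

/-- a monotone version of the characteristic of `g` -/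
noncomputable def TT {n : ℕ} (g : ℂ → Fin (n + 1) → ℂ) (r : ℝ) : ℝ :=
  1 + ∑ j, characteristic (fun z => g z j / g z 0) ⊤ r

namespace CH

open Pool.Agent.GGL

lemma div_mero {g h : ℂ → ℂ} (hg : Differentiable ℂ g) (hh : Differentiable ℂ h) :
    Meromorphic (fun z => g z / h z) := fun z => (mero_of_diff hg z).fun_div (mero_of_diff hh z)

lemma div_order_ne_top {g h : ℂ → ℂ} (hg : Differentiable ℂ g) (hh : Differentiable ℂ h)
    (hg0 : ∃ z, g z ≠ 0) (hh0 : ∃ z, h z ≠ 0) (z : ℂ) :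
    meromorphicOrderAt (fun z => g z / h z) z ≠ ⊤ := by
  have h1 : (fun z => g z / h z) = (fun z => g z * (h⁻¹) z) := by
    ext z; rw [Pi.inv_apply, div_eq_mul_inv]
  rw [h1, fun_meromorphicOrderAt_mul (mero_of_diff hg z) (mero_of_diff hh z).inv,
    meromorphicOrderAt_inv]
  have h2 := mOrder_ne_top hg hg0 z
  have h3 := mOrder_ne_top hh hh0 z
  cases h4 : meromorphicOrderAt h z with
  | top => exact absurd h4 h3
  | coe n =>
    cases h5 : meromorphicOrderAt g z with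
    | top => exact absurd h5 h2
    | coe k =>
      rw [← WithTop.LinearOrderedAddCommGroup.coe_neg, ← WithTop.coe_add]
      exact WithTop.coe_ne_top

lemma mul_ne {u v : ℂ → ℂ} (hu : Differentiable ℂ u) (hv : Differentiable ℂ v)
    (hu0 : ∃ z, u z ≠ 0) (hv0 : ∃ z, v z ≠ 0) : ∃ z, u z * v z ≠ 0 := by
  by_contra hcon
  push Not at hcon
  obtain ⟨z0, hz0⟩ := hu0
  have h1 : ∀ᶠ z in nhds z0, u z ≠ 0 := hu.continuous.continuousAt.eventually_ne hz0
  have h2 : v =ᶠ[nhds z0] 0 := by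
    filter_upwards [h1] with z hz
    exact (mul_eq_zero.mp (hcon z)).resolve_left hz
  have h3 : AnalyticOnNhd ℂ v univ := fun z _ => hv.analyticAt z
  have h4 := h3.eqOn_zero_of_preconnected_of_eventuallyEq_zero isPreconnected_univ
    (mem_univ z0) h2
  obtain ⟨w, hw⟩ := hv0
  exact hw (h4 (mem_univ w))

lemma comp_diff {n : ℕ} {g : ℂ → Fin (n + 1) → ℂ} (hg : Differentiable ℂ g) (j : Fin (n + 1)) :
    Differentiable ℂ (fun z => g z j) := differentiable_pi.mp hg j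

lemma gN_diff {n : ℕ} {g : ℂ → Fin (n + 1) → ℂ} (hg : Differentiable ℂ g) (j : ℕ) :
    Differentiable ℂ (gN g j) := by
  by_cases h : j < n + 1
  · have : gN g j = fun z => g z ⟨j, h⟩ := by ext z; simp only [gN, dif_pos h]
    rw [this]
    exact comp_diff hg _
  · have : gN g j = fun _ => 0 := by ext z; simp only [gN, dif_neg h]
    rw [this]
    exact differentiable_const _

/-- the characteristic of a quotient on one circle -/
lemma char_div_le {n : ℕ} {g : ℂ → Fin (n + 1) → ℂ} (hg : Differentiable ℂ g)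
    (h0 : ∀ z, g z ≠ 0) {u v : ℂ → ℂ} (hu : Differentiable ℂ u) (hv : Differentiable ℂ v)
    (hu0 : ∃ z, u z ≠ 0) (hv0 : ∃ z, v z ≠ 0) (D : ℕ) {K r : ℝ} (hK0 : 0 < K) (hr : 1 ≤ r)
    (hK : {z | ‖u z‖ ≤ K * ‖g z‖ ^ D ∧ ‖v z‖ ≤ K * ‖g z‖ ^ D} ∈
      codiscreteWithin (sphere (0 : ℂ) r)) :
    characteristic (fun z => u z / v z) ⊤ r ≤
      Real.log K + D * charT g r - Real.log ‖meromorphicTrailingCoeffAt v 0‖ := by
  have hd : ∀ k : Fin 2, Differentiable ℂ ((![u, v] : Fin 2 → ℂ → ℂ) k) := by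
    intro k; fin_cases k
    · exact hu
    · exact hv
  have hne : ∀ k : Fin 2, ∃ z, (![u, v] : Fin 2 → ℂ → ℂ) k z ≠ 0 := by
    intro k; fin_cases k
    · exact hu0
    · exact hv0
  have h1 := characteristic_div_le_TC hd hne hr 0 1
  obtain ⟨h2, h3⟩ := CharTF.avg_bound (f := fun k z => g z k) (fun k => comp_diff hg k) D K r
  have h2' : circleAverage (fun z => Real.log K + D * Real.log ‖g z‖) 0 r =
      Real.log K + D * charT g r := h2
  have h3' : CircleIntegrable (fun z => Real.log K + D * Real.log ‖g z‖) 0 r := h3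
  have h4 : circleAverage (fun z => Real.log ‖fun k => (![u, v] : Fin 2 → ℂ → ℂ) k z‖) 0 r ≤
      circleAverage (fun z => Real.log K + D * Real.log ‖g z‖) 0 r := by
    apply circleAverage_mono_codiscrete (by linarith) (vec_integrable hd r) h3'
    filter_upwards [nonzero_codiscrete hv hv0 r, hK] with z hz hz2
    have hpos : 0 < ‖fun k => (![u, v] : Fin 2 → ℂ → ℂ) k z‖ :=
      lt_of_lt_of_le (norm_pos_iff.2 hz)
        (norm_le_pi_norm (fun k => (![u, v] : Fin 2 → ℂ → ℂ) k z) 1)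
    have hgz : 0 < ‖g z‖ := norm_pos_iff.2 (h0 z)
    have h5 : ‖fun k => (![u, v] : Fin 2 → ℂ → ℂ) k z‖ ≤ K * ‖g z‖ ^ D := by
      refine (pi_norm_le_iff_of_nonneg (by positivity)).2 fun k => ?_
      fin_cases k
      · exact hz2.1
      · exact hz2.2
    have h6 := Real.log_le_log hpos h5
    rwa [Real.log_mul hK0.ne' (by positivity), Real.log_pow] at h6
  have h5 : 0 ≤ Function.locallyFinsuppWithin.logCounting
      (minDv (fun k => Dv ((![u, v] : Fin 2 → ℂ → ℂ) k))) r := by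
    apply Function.locallyFinsuppWithin.logCounting_nonneg _ hr
    intro a
    obtain ⟨k, hk⟩ := exists_minDv (fun k => Dv ((![u, v] : Fin 2 → ℂ → ℂ) k)) a
    rw [hk]
    exact Dv_nonneg (hd k) a
  rw [TC] at h1
  have h6 : (fun z => (![u, v] : Fin 2 → ℂ → ℂ) 0 z / (![u, v] : Fin 2 → ℂ → ℂ) 1 z) =
      fun z => u z / v z := rfl
  rw [h6] at h1
  have h7 : (![u, v] : Fin 2 → ℂ → ℂ) 1 = v := rfl
  rw [h7] at h1
  linarith

/-- the pointwise bound for the Wronskians -/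
lemma wrf_bound {n : ℕ} {g : ℂ → Fin (n + 1) → ℂ} (hg : Differentiable ℂ g) {z : ℂ}
    (hz : g z 0 ≠ 0) {B : ℝ} (hB : 1 ≤ B)
    (hG : ∀ j : Fin (n + 1), ∀ i : ℕ, ‖iteratedDeriv i (fun z => g z j / g z 0) z‖ ≤
      Real.exp 1 * i.factorial * B ^ i * ‖g z j / g z 0‖) {k : ℕ} (hk : k ≤ n + 1) :
    ‖wrf g k z‖ ≤ (k.factorial * (Real.exp 1 * k.factorial * B ^ k) ^ k) * ‖g z‖ ^ k := by
  have hgN : ∀ j : Fin k, gN g j = fun z => g z ⟨j, lt_of_lt_of_le j.2 hk⟩ := by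
    intro j; ext z
    have : (j : ℕ) < n + 1 := lt_of_lt_of_le j.2 hk
    simp only [gN, dif_pos this]
  set G' : Fin k → ℂ → ℂ := fun j z => g z ⟨j, lt_of_lt_of_le j.2 hk⟩ / g z 0 with hG'
  have han0 : AnalyticAt ℂ (fun z => g z 0) z := (comp_diff hg 0).analyticAt z
  have han : ∀ j, AnalyticAt ℂ (G' j) z := fun j =>
    ((comp_diff hg _).analyticAt z).fun_div han0 hz
  have h1 : wrf g k z = g z 0 ^ k * Wr G' z := by
    rw [← Wr_mul (fun z => g z 0) G' z han0 han]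
    unfold wrf
    apply Wr_congr
    intro j
    rw [hgN j]
    have h2 : ∀ᶠ w in nhds z, g w 0 ≠ 0 := han0.continuousAt.eventually_ne hz
    filter_upwards [h2] with w hw
    simp only [hG']
    field_simp
  have h2 := norm_Wr_le (G := G') (z := z) hB (fun j i => hG _ i)
  have h3 : ‖g z 0‖ ^ k * ∏ j, ‖G' j z‖ ≤ ‖g z‖ ^ k := by
    have h4 : ‖g z 0‖ ^ k * ∏ j, ‖G' j z‖ = ∏ j : Fin k, ‖g z ⟨j, lt_of_lt_of_le j.2 hk⟩‖ := by
      have h5 : ‖g z 0‖ ^ k = ∏ _j : Fin k, ‖g z 0‖ := by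
        rw [Finset.prod_const, Finset.card_univ, Fintype.card_fin]
      rw [h5, ← Finset.prod_mul_distrib]
      refine Finset.prod_congr rfl fun j _ => ?_
      simp only [hG', norm_div]
      have : ‖g z 0‖ ≠ 0 := norm_ne_zero_iff.2 hz
      field_simp
    rw [h4]
    calc ∏ j : Fin k, ‖g z ⟨j, lt_of_lt_of_le j.2 hk⟩‖ ≤ ∏ _j : Fin k, ‖g z‖ :=
          Finset.prod_le_prod (fun _ _ => norm_nonneg _) (fun j _ => norm_le_pi_norm (g z) _)
      _ = ‖g z‖ ^ k := by rw [Finset.prod_const, Finset.card_univ, Fintype.card_fin]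
  rw [h1, norm_mul, norm_pow]
  calc ‖g z 0‖ ^ k * ‖Wr G' z‖ ≤ ‖g z 0‖ ^ k * (k.factorial * ((Real.exp 1 * k.factorial *
        B ^ k) ^ k * ∏ j, ‖G' j z‖)) := mul_le_mul_of_nonneg_left h2 (by positivity)
    _ = (k.factorial * (Real.exp 1 * k.factorial * B ^ k) ^ k) *
        (‖g z 0‖ ^ k * ∏ j, ‖G' j z‖) := by ring
    _ ≤ _ := mul_le_mul_of_nonneg_left h3 (by positivity)

/-- the uniform constant -/
lemma wrf_bound' {n : ℕ} {g : ℂ → Fin (n + 1) → ℂ} (hg : Differentiable ℂ g) {z : ℂ}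
    (hz : g z 0 ≠ 0) {B : ℝ} (hB : 1 ≤ B)
    (hG : ∀ j : Fin (n + 1), ∀ i : ℕ, ‖iteratedDeriv i (fun z => g z j / g z 0) z‖ ≤
      Real.exp 1 * i.factorial * B ^ i * ‖g z j / g z 0‖) {k : ℕ} (hk : k ≤ n + 1) :
    ‖wrf g k z‖ ≤ ((n + 1).factorial * (Real.exp 1 * (n + 1).factorial * B ^ (n + 1)) ^ (n + 1)) *
      ‖g z‖ ^ k := by
  refine (wrf_bound hg hz hB hG hk).trans ?_
  apply mul_le_mul_of_nonneg_right _ (by positivity)
  have h1 : (k.factorial : ℝ) ≤ (n + 1).factorial := by exact_mod_cast Nat.factorial_le hk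
  have h2 : B ^ k ≤ B ^ (n + 1) := pow_le_pow_right₀ hB hk
  have h3 : Real.exp 1 * k.factorial * B ^ k ≤ Real.exp 1 * (n + 1).factorial * B ^ (n + 1) := by
    apply mul_le_mul _ h2 (by positivity) (by positivity)
    exact mul_le_mul_of_nonneg_left h1 (Real.exp_pos 1).le
  have h4 : 1 ≤ Real.exp 1 * (n + 1).factorial * B ^ (n + 1) := by
    have h5 : (1 : ℝ) ≤ Real.exp 1 := Real.one_le_exp (by norm_num)
    have h6 : (1 : ℝ) ≤ (n + 1).factorial := by exact_mod_cast Nat.factorial_pos (n + 1)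
    have h7 : (1 : ℝ) ≤ B ^ (n + 1) := one_le_pow₀ hB
    exact one_le_mul_of_one_le_of_one_le (one_le_mul_of_one_le_of_one_le h5 h6) h7
  apply mul_le_mul h1 _ (by positivity) (by positivity)
  calc (Real.exp 1 * k.factorial * B ^ k) ^ k
      ≤ (Real.exp 1 * (n + 1).factorial * B ^ (n + 1)) ^ k := pow_le_pow_left₀ (by positivity) h3 k
    _ ≤ (Real.exp 1 * (n + 1).factorial * B ^ (n + 1)) ^ (n + 1) := pow_le_pow_right₀ h4 hk

/-- numerators -/
noncomputable def U {n : ℕ} (g : ℂ → Fin (n + 1) → ℂ) (p : Fin (n + 1) × Fin (n + 1)) (z : ℂ) :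
    ℂ := wrf g (p.1 + 1) z * wrf g p.2 z

/-- denominators -/
noncomputable def V {n : ℕ} (g : ℂ → Fin (n + 1) → ℂ) (p : Fin (n + 1) × Fin (n + 1)) (z : ℂ) :
    ℂ := wrf g p.1 z * wrf g (p.2 + 1) z

/-- the constant -/
noncomputable def E0 (N : ℕ) : ℝ := (N.factorial : ℝ) * (Real.exp 1 * N.factorial) ^ N

lemma one_le_E0 (N : ℕ) : 1 ≤ E0 N := by
  have he1 : (1 : ℝ) ≤ Real.exp 1 := Real.one_le_exp (by norm_num)
  have hNf : (1 : ℝ) ≤ N.factorial := by exact_mod_cast Nat.factorial_pos N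
  exact one_le_mul_of_one_le_of_one_le hNf
    (one_le_pow₀ (one_le_mul_of_one_le_of_one_le he1 hNf))

lemma E0_eq (N : ℕ) (B : ℝ) :
    (N.factorial * (Real.exp 1 * N.factorial * B ^ N) ^ N : ℝ) = E0 N * B ^ (N * N) := by
  rw [E0, mul_pow _ (B ^ N), ← pow_mul]; ring

lemma UV_bound {n : ℕ} {g : ℂ → Fin (n + 1) → ℂ} (hg : Differentiable ℂ g) {z : ℂ}
    (hz : g z 0 ≠ 0) {B : ℝ} (hB : 1 ≤ B)
    (hG : ∀ j : Fin (n + 1), ∀ i : ℕ, ‖iteratedDeriv i (fun z => g z j / g z 0) z‖ ≤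
      Real.exp 1 * i.factorial * B ^ i * ‖g z j / g z 0‖) (p : Fin (n + 1) × Fin (n + 1)) :
    ‖U g p z‖ ≤ (E0 (n + 1) * B ^ ((n + 1) * (n + 1))) ^ 2 * ‖g z‖ ^ ((p.1 : ℕ) + p.2 + 1) ∧
    ‖V g p z‖ ≤ (E0 (n + 1) * B ^ ((n + 1) * (n + 1))) ^ 2 * ‖g z‖ ^ ((p.1 : ℕ) + p.2 + 1) := by
  obtain ⟨K1, hK1⟩ : ∃ K1, K1 = E0 (n + 1) * B ^ ((n + 1) * (n + 1)) := ⟨_, rfl⟩
  have hK10 : 0 ≤ K1 := by
    rw [hK1]
    have := one_le_E0 (n + 1)
    positivity
  have hw : ∀ k, k ≤ n + 1 → ‖wrf g k z‖ ≤ K1 * ‖g z‖ ^ k := by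
    intro k hk
    have := wrf_bound' hg hz hB hG hk
    rwa [E0_eq, ← hK1] at this
  have hp1 := p.1.2
  have hp2 := p.2.2
  rw [← hK1]
  constructor
  · calc ‖U g p z‖ = ‖wrf g (p.1 + 1) z‖ * ‖wrf g p.2 z‖ := norm_mul _ _
      _ ≤ (K1 * ‖g z‖ ^ ((p.1 : ℕ) + 1)) * (K1 * ‖g z‖ ^ (p.2 : ℕ)) :=
        mul_le_mul (hw _ (by omega)) (hw _ (by omega)) (norm_nonneg _) (by positivity)
      _ = K1 ^ 2 * ‖g z‖ ^ ((p.1 : ℕ) + p.2 + 1) := by ring
  · calc ‖V g p z‖ = ‖wrf g p.1 z‖ * ‖wrf g (p.2 + 1) z‖ := norm_mul _ _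
      _ ≤ (K1 * ‖g z‖ ^ (p.1 : ℕ)) * (K1 * ‖g z‖ ^ ((p.2 : ℕ) + 1)) :=
        mul_le_mul (hw _ (by omega)) (hw _ (by omega)) (norm_nonneg _) (by positivity)
      _ = K1 ^ 2 * ‖g z‖ ^ ((p.1 : ℕ) + p.2 + 1) := by ring

/-- the numerical part of the bound for the characteristics of the quotients -/
lemma num1 {N e c1 x c2 cV y lb D T L : ℝ} (hN : 0 ≤ N) (he : 0 ≤ e) (hc1 : 0 ≤ c1)
    (hx : 1 ≤ x) (hxy : x ≤ y) (hcV : 0 ≤ cV) (hlb : lb ≤ c1 + 4 * y)
    (hD0 : 0 ≤ D) (hD : D ≤ 2 * N) (hT : T ≤ x + |c2|) (hL : -L ≤ cV) :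
    2 * (e + N * N * lb) + D * T - L ≤
      (2 * (e + N * N * (c1 + 4)) + 2 * N * (1 + |c2|) + cV) * y := by
  have hy : 1 ≤ y := hx.trans hxy
  have h1 : D * T ≤ D * (x + |c2|) := mul_le_mul_of_nonneg_left hT hD0
  have h2 : D * (x + |c2|) ≤ 2 * N * (x + |c2|) :=
    mul_le_mul_of_nonneg_right hD (by positivity)
  have h3 : c1 ≤ c1 * y := le_mul_of_one_le_right hc1 hy
  have h4 : N * N * lb ≤ N * N * ((c1 + 4) * y) :=
    mul_le_mul_of_nonneg_left (by linarith) (by positivity)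
  have h5 : e ≤ e * y := le_mul_of_one_le_right he hy
  have h6 : |c2| ≤ |c2| * y := le_mul_of_one_le_right (abs_nonneg _) hy
  have h7 : 2 * N * (x + |c2|) ≤ 2 * N * ((1 + |c2|) * y) :=
    mul_le_mul_of_nonneg_left (by linarith) (by positivity)
  have h8 : cV ≤ cV * y := le_mul_of_one_le_right hcV hy
  calc 2 * (e + N * N * lb) + D * T - L
      ≤ 2 * (e * y + N * N * ((c1 + 4) * y)) + 2 * N * ((1 + |c2|) * y) + cV * y := by linarith
    _ = _ := by ring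

/-- the numerical part of the bound for `log B` -/
lemma num2 {a b c x y w l r4 : ℝ} (ha : 0 ≤ a) (hb : 0 ≤ b) (hc : 0 ≤ c) (hx : 0 ≤ x)
    (hy : 0 ≤ y) (hw : 0 ≤ w) (h4 : r4 ≤ c + y)
    (hl : l ≤ a + 4 * (b + (x + r4 + w) + y + w)) :
    l ≤ (8 + a + 4 * b + 4 * c) * (1 + x + y + w) := by
  have h1 : l ≤ a + 4 * b + 4 * c + 8 * (x + y + w) := by linarith
  have hA : 0 ≤ a + 4 * b + 4 * c := by linarith
  have hS : 0 ≤ x + y + w := by linarith
  have := mul_nonneg hA hS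
  nlinarith

end CH

theorem one_le_TT {n : ℕ} (g : ℂ → Fin (n + 1) → ℂ) {r : ℝ} (hr : 1 ≤ r) : 1 ≤ TT g r := by
  have : 0 ≤ ∑ j, characteristic (fun z => g z j / g z 0) ⊤ r :=
    Finset.sum_nonneg fun j _ => characteristic_nonneg hr
  unfold TT
  linarith

theorem TT_mono {n : ℕ} {g : ℂ → Fin (n + 1) → ℂ} (hg : Differentiable ℂ g) :
    MonotoneOn (TT g) (Set.Ici 1) := by
  intro a ha b hb hab
  unfold TT
  have : ∑ j, characteristic (fun z => g z j / g z 0) ⊤ a ≤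
      ∑ j, characteristic (fun z => g z j / g z 0) ⊤ b := by
    apply Finset.sum_le_sum
    intro k _
    exact characteristic_monotoneOn (CH.div_mero (CH.comp_diff hg k) (CH.comp_diff hg 0))
      (show (0 : ℝ) < a from lt_of_lt_of_le one_pos ha)
      (show (0 : ℝ) < b from lt_of_lt_of_le one_pos hb) hab
  linarith

theorem charT_le_TT {n : ℕ} {g : ℂ → Fin (n + 1) → ℂ} (hg : Differentiable ℂ g)
    (h0 : ∀ z, g z ≠ 0) (hne : ∃ z, g z 0 ≠ 0) : ∃ C : ℝ, ∀ r, 1 ≤ r → charT g r ≤ TT g r + C := by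
  have h1 : ∀ z, ∃ k, (fun (k : Fin (n + 1)) z => g z k) k z ≠ 0 := by
    intro z
    by_contra hcon
    push Not at hcon
    exact h0 z (funext hcon)
  obtain ⟨C, hC⟩ := Pool.Agent.GGL.TF_le_sum (f := fun k z => g z k)
    (fun k => CH.comp_diff hg k) h1 0 hne
  refine ⟨C, fun r hr => ?_⟩
  have h2 : charT g r ≤ ∑ l, characteristic (fun z => g z l / g z 0) ⊤ r + C := hC r hr
  unfold TT
  linarith

theorem TT_le_charT {n : ℕ} {g : ℂ → Fin (n + 1) → ℂ} (hg : Differentiable ℂ g)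
    (h0 : ∀ z, g z ≠ 0) (hne : ∃ z, g z 0 ≠ 0) :
    ∃ C : ℝ, ∀ r, 1 ≤ r → TT g r ≤ (n + 1) * charT g r + C := by
  have h1 : ∀ z, ∃ k, (fun (k : Fin (n + 1)) z => g z k) k z ≠ 0 := by
    intro z
    by_contra hcon
    push Not at hcon
    exact h0 z (funext hcon)
  have h2 : ∀ j : Fin (n + 1), ∃ C : ℝ, ∀ r, 1 ≤ r →
      characteristic (fun z => g z j / g z 0) ⊤ r ≤ charT g r + C := by
    intro j
    obtain ⟨C, hC⟩ := Pool.Agent.GGL.char_div_le_TF (f := fun k z => g z k)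
      (fun k => CH.comp_diff hg k) h1 (CH.comp_diff hg j) (CH.comp_diff hg 0) hne 1 1
      (fun z => by rw [one_mul, pow_one]; exact norm_le_pi_norm (g z) j)
      (fun z => by rw [one_mul, pow_one]; exact norm_le_pi_norm (g z) 0)
    refine ⟨C, fun r hr => ?_⟩
    have h3 : characteristic (fun z => g z j / g z 0) ⊤ r ≤ (1 : ℕ) * charT g r + C := hC r hr
    rwa [Nat.cast_one, one_mul] at h3
  choose C hC using h2
  refine ⟨1 + ∑ j, C j, fun r hr => ?_⟩
  have h3 : ∑ j, characteristic (fun z => g z j / g z 0) ⊤ r ≤ ∑ j, (charT g r + C j) :=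
    Finset.sum_le_sum fun j _ => hC j r hr
  rw [Finset.sum_add_distrib, Finset.sum_const, Finset.card_univ, Fintype.card_fin,
    nsmul_eq_mul] at h3
  push_cast at h3
  unfold TT
  linarith

theorem wrf_differentiable {n : ℕ} {g : ℂ → Fin (n + 1) → ℂ} (hg : Differentiable ℂ g) (k : ℕ) :
    Differentiable ℂ (wrf g k) := by
  exact Pool.Agent.GGL.Wr_differentiable fun j => CH.gN_diff hg j

theorem exists_wrf_ne_zero {n : ℕ} {g : ℂ → Fin (n + 1) → ℂ} (hg : Differentiable ℂ g)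
    (hli : LinearIndependent ℂ (fun (j : Fin (n + 1)) z => g z j)) {k : ℕ} (hk : k ≤ n + 1) :
    ∃ z, wrf g k z ≠ 0 := by
  apply Pool.Agent.GGL.exists_Wr_ne_zero (fun j : Fin k => gN g j) (fun j => CH.gN_diff hg j)
  have h1 : (fun j : Fin k => gN g j) =
      (fun (j : Fin (n + 1)) z => g z j) ∘ (Fin.castLE hk) := by
    funext j z
    have : (j : ℕ) < n + 1 := lt_of_lt_of_le j.2 hk
    simp only [gN, dif_pos this, Function.comp]
    rfl
  rw [h1]
  exact hli.comp _ (Fin.castLE_injective hk)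

/-- **PIECE B7.**  Proof.  Step 1: for the family `G_j = g_j / g_0` the lemma `GGL.ldl` at
`ρ = r + 2δ` gives `r'' ∈ [r + 2δ, r + 3δ]` and `B''` with
`B'' ≤ C ((1 + ∑ characteristic G_j (r + 4δ)) (r + 4) / δ)^4`; as in `GGL.pointwise`
(`Wr_mul`, `norm_Wr_le`), `|W_k| = |g_0|^k |Wr(G_0..G_{k-1})| ≤ C B''^{k²} ∏_{j<k} |g_j| ≤
C B''^{k²} ‖g‖^k` on (almost all of) the circle of radius `r''` (all `k ≤ n + 1`).
Step 2: for entire `u, v ≢ 0`, `characteristic (u / v) r'' ≤ circleAverage (log max(|u|,|v|)) r'' +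
C` (see the proof of `char_div_le_TF`, `characteristic_div_le_TC`), so with
`u = W_{k+1} W_l`, `v = W_k W_{l+1}`: `characteristic (Hf g k l) (r + 2δ) ≤
characteristic (Hf g k l) r'' ≤ C (1 + |charT g r''| + log B'')`, and
`charT g r'' ≤ TT g r'' + C ≤ TT g (r + 3 δ) + C`.
Step 3: `GGL.ldl` for the family `Hf g k l` at `r, δ` gives `r' ∈ [r, r + δ]` and
`B ≤ C ((1 + ∑ characteristic (Hf g k l) (r + 2δ)) (r + 2) / δ)^4`; take logarithms
(`log (1 + x + y) ≤ ...`, everything `≥ 1`). -/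
theorem ldlH {n : ℕ} (g : ℂ → Fin (n + 1) → ℂ) (hg : Differentiable ℂ g) (h0 : ∀ z, g z ≠ 0)
    (hli : LinearIndependent ℂ (fun (j : Fin (n + 1)) z => g z j)) :
    ∃ C : ℝ, 1 ≤ C ∧ ∀ r δ : ℝ, 1 ≤ r → 0 < δ → δ ≤ 1 → ∃ r' ∈ Set.Icc r (r + δ), ∃ B : ℝ, 1 ≤ B ∧
      Real.log B ≤ C * (1 + Real.log (TT g (r + 5 * δ)) + Real.log (r + 2) + Real.log (1 / δ)) ∧
      ∀ k l : Fin (n + 1), ∀ z ∈ sphere (0 : ℂ) r', AnalyticAt ℂ (Hf g k l) z →
        ∀ i : ℕ, ‖iteratedDeriv i (Hf g k l) z‖ ≤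
          Real.exp 1 * i.factorial * B ^ i * ‖Hf g k l z‖ := by
  have hgj := CH.comp_diff hg
  have hne : ∀ j : Fin (n + 1), ∃ z, g z j ≠ 0 := by
    intro j
    by_contra hcon
    push Not at hcon
    exact hli.ne_zero j (funext hcon)
  have hwd : ∀ k, Differentiable ℂ (wrf g k) := wrf_differentiable hg
  have hwne : ∀ k, k ≤ n + 1 → ∃ z, wrf g k z ≠ 0 := fun k hk => exists_wrf_ne_zero hg hli hk
  obtain ⟨C1, hC11, hC1⟩ := Pool.Agent.GGL.ldl (fun (j : Fin (n + 1)) z => g z j / g z 0)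
    (fun k => CH.div_mero (hgj k) (hgj 0))
    (fun k z => CH.div_order_ne_top (hgj k) (hgj 0) (hne k) (hne 0) z)
  obtain ⟨C2, hC2⟩ := charT_le_TT hg h0 (hne 0)
  have hUd : ∀ p, Differentiable ℂ (CH.U g p) := fun p => (hwd _).fun_mul (hwd _)
  have hVd : ∀ p, Differentiable ℂ (CH.V g p) := fun p => (hwd _).fun_mul (hwd _)
  have hU0 : ∀ p, ∃ z, CH.U g p z ≠ 0 := fun p =>
    CH.mul_ne (hwd _) (hwd _) (hwne _ (by have := p.1.2; omega)) (hwne _ (by have := p.2.2; omega))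
  have hV0 : ∀ p, ∃ z, CH.V g p z ≠ 0 := fun p =>
    CH.mul_ne (hwd _) (hwd _) (hwne _ (by have := p.1.2; omega)) (hwne _ (by have := p.2.2; omega))
  have hHm : ∀ p : Fin (n + 1) × Fin (n + 1), Meromorphic (fun z => CH.U g p z / CH.V g p z) :=
    fun p => CH.div_mero (hUd p) (hVd p)
  obtain ⟨C3, hC31, hC3⟩ := Pool.Agent.GGL.ldl
    (fun (p : Fin (n + 1) × Fin (n + 1)) z => CH.U g p z / CH.V g p z) hHm
    (fun p z => CH.div_order_ne_top (hUd p) (hVd p) (hU0 p) (hV0 p) z)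
  -- constants
  obtain ⟨N, hN⟩ : ∃ N : ℝ, N = (n : ℝ) + 1 := ⟨_, rfl⟩
  have hN0 : 0 ≤ N := by rw [hN]; positivity
  have hE01 := CH.one_le_E0 (n + 1)
  obtain ⟨cV, hcV⟩ : ∃ cV : ℝ, cV = ∑ p, |Real.log ‖meromorphicTrailingCoeffAt (CH.V g p) 0‖| :=
    ⟨_, rfl⟩
  have hcV0 : 0 ≤ cV := by rw [hcV]; exact Finset.sum_nonneg fun p _ => abs_nonneg _
  have hlE : 0 ≤ Real.log (CH.E0 (n + 1)) := Real.log_nonneg hE01
  have hlC1 : 0 ≤ Real.log C1 := Real.log_nonneg hC11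
  have hlC3 : 0 ≤ Real.log C3 := Real.log_nonneg hC31
  obtain ⟨M0, hM0⟩ : ∃ M0 : ℝ, M0 = 2 * (Real.log (CH.E0 (n + 1)) +
    N * N * (Real.log C1 + 4)) + 2 * N * (1 + |C2|) + cV := ⟨_, rfl⟩
  have hM00 : 0 ≤ M0 := by rw [hM0]; positivity
  obtain ⟨M, hM⟩ : ∃ M : ℝ, M = 1 + N * N * M0 := ⟨_, rfl⟩
  have hM1 : 1 ≤ M := by
    have : 0 ≤ N * N * M0 := by positivity
    linarith
  have hlM : 0 ≤ Real.log M := Real.log_nonneg hM1
  have hl2 : 0 ≤ Real.log 2 := Real.log_nonneg (by norm_num)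
  refine ⟨8 + Real.log C3 + 4 * Real.log M + 4 * Real.log 2, by linarith, ?_⟩
  intro r δ hr hδ hδ1
  obtain ⟨r'', hr'', B'', hB''1, hB''2, hB''3⟩ := hC1 (r + 2 * δ) δ (by linarith) hδ hδ1
  obtain ⟨r', hr', B, hB1, hB2, hB3⟩ := hC3 r δ hr hδ hδ1
  refine ⟨r', hr', B, hB1, ?_, fun k l z hz hH i => hB3 (k, l) z hz hH i⟩
  have hr''1 : 1 ≤ r'' := by have := hr''.1; linarith
  -- the quantity `X`
  obtain ⟨X, hX⟩ : ∃ X, X = TT g (r + 5 * δ) := ⟨_, rfl⟩
  have hX1 : 1 ≤ X := by rw [hX]; exact one_le_TT g (by linarith)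
  have hmono := TT_mono hg
  have hTT4 : TT g (r + 2 * δ + 2 * δ) ≤ X := by
    rw [hX]
    exact hmono (show (1 : ℝ) ≤ r + 2 * δ + 2 * δ by linarith)
      (show (1 : ℝ) ≤ r + 5 * δ by linarith) (by linarith)
  have hTT3 : TT g r'' ≤ X := by
    rw [hX]
    exact hmono (show (1 : ℝ) ≤ r'' from hr''1) (show (1 : ℝ) ≤ r + 5 * δ by linarith)
      (by have := hr''.2; linarith)
  have hδi : 1 ≤ 1 / δ := by rw [le_div_iff₀ hδ]; linarith
  have hr4 : 1 ≤ r + 4 := by linarith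
  obtain ⟨Y, hY⟩ : ∃ Y, Y = X * (r + 4) * (1 / δ) := ⟨_, rfl⟩
  have hY1 : 1 ≤ Y := by
    rw [hY]
    exact one_le_mul_of_one_le_of_one_le (one_le_mul_of_one_le_of_one_le hX1 hr4) hδi
  have hXY : X ≤ Y := by
    have h1 : 1 ≤ (r + 4) * (1 / δ) := one_le_mul_of_one_le_of_one_le hr4 hδi
    rw [hY, mul_assoc]
    exact le_mul_of_one_le_right (by linarith) h1
  have hlY : Real.log Y = Real.log X + Real.log (r + 4) + Real.log (1 / δ) := by
    rw [hY, Real.log_mul (by positivity) (by positivity), Real.log_mul (by positivity)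
      (by positivity)]
  have hlY0 : 0 ≤ Real.log Y := Real.log_nonneg hY1
  have hlYY : Real.log Y ≤ Y := (Real.log_le_sub_one_of_pos (by linarith)).trans (by linarith)
  -- the bound for `log B''`
  have hlB'' : Real.log B'' ≤ Real.log C1 + 4 * Real.log Y := by
    have h1 : B'' ≤ C1 * Y ^ 4 := by
      refine hB''2.trans ?_
      apply mul_le_mul_of_nonneg_left _ (by linarith)
      have h4 : (0 : ℝ) ≤ 1 + ∑ k, characteristic (fun z => g z k / g z 0) ⊤
          (r + 2 * δ + 2 * δ) := le_trans zero_le_one (one_le_TT g (by linarith))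
      have h3 : 0 ≤ r + 2 * δ + 2 := by linarith
      apply pow_le_pow_left₀ (by positivity)
      rw [hY, div_eq_mul_one_div]
      apply mul_le_mul_of_nonneg_right _ (by linarith)
      exact mul_le_mul hTT4 (by linarith) (by linarith) (by linarith)
    have h2 := Real.log_le_log (by linarith) h1
    rwa [Real.log_mul (by positivity) (by positivity), Real.log_pow] at h2
  -- the characteristics of the quotients
  have hchar : ∀ p : Fin (n + 1) × Fin (n + 1),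
      characteristic (fun z => CH.U g p z / CH.V g p z) ⊤ (r + 2 * δ) ≤ M0 * Y := by
    intro p
    have hK11 : 1 ≤ CH.E0 (n + 1) * B'' ^ ((n + 1) * (n + 1)) :=
      one_le_mul_of_one_le_of_one_le hE01 (one_le_pow₀ hB''1)
    have h1 : {z | ‖CH.U g p z‖ ≤ (CH.E0 (n + 1) * B'' ^ ((n + 1) * (n + 1))) ^ 2 *
        ‖g z‖ ^ ((p.1 : ℕ) + p.2 + 1) ∧ ‖CH.V g p z‖ ≤
        (CH.E0 (n + 1) * B'' ^ ((n + 1) * (n + 1))) ^ 2 * ‖g z‖ ^ ((p.1 : ℕ) + p.2 + 1)} ∈
        codiscreteWithin (sphere (0 : ℂ) r'') := by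
      filter_upwards [Pool.Agent.GGL.nonzero_codiscrete (hgj 0) (hne 0) r'',
        self_mem_codiscreteWithin (sphere (0 : ℂ) r'')] with z hz hzs
      exact CH.UV_bound hg hz hB''1 (fun j i => hB''3 j z hzs
        (((hgj j).analyticAt z).fun_div ((hgj 0).analyticAt z) hz) i) p
    have h2 := CH.char_div_le hg h0 (hUd p) (hVd p) (hU0 p) (hV0 p) ((p.1 : ℕ) + p.2 + 1)
      (by positivity) hr''1 h1
    have h3 : characteristic (fun z => CH.U g p z / CH.V g p z) ⊤ (r + 2 * δ) ≤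
        characteristic (fun z => CH.U g p z / CH.V g p z) ⊤ r'' :=
      characteristic_monotoneOn (hHm p) (show (0 : ℝ) < r + 2 * δ by linarith)
        (show (0 : ℝ) < r'' by linarith) hr''.1
    have h4 : -Real.log ‖meromorphicTrailingCoeffAt (CH.V g p) 0‖ ≤ cV := by
      refine (neg_le_abs _).trans ?_
      rw [hcV]
      exact Finset.single_le_sum
        (f := fun p => |Real.log ‖meromorphicTrailingCoeffAt (CH.V g p) 0‖|)
        (fun p _ => abs_nonneg _) (Finset.mem_univ p)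
    have h5 : charT g r'' ≤ X + |C2| := by
      have := hC2 r'' hr''1
      have := le_abs_self C2
      linarith
    have hD : (((p.1 : ℕ) + p.2 + 1 : ℕ) : ℝ) ≤ 2 * N := by
      have hp1 := p.1.2
      have hp2 := p.2.2
      have h6 : (p.1 : ℕ) + p.2 + 1 ≤ 2 * (n + 1) := by omega
      have h7 : (((p.1 : ℕ) + p.2 + 1 : ℕ) : ℝ) ≤ ((2 * (n + 1) : ℕ) : ℝ) := by exact_mod_cast h6
      rw [hN]
      push_cast at h7 ⊢
      linarith
    have h7 : Real.log ((CH.E0 (n + 1) * B'' ^ ((n + 1) * (n + 1))) ^ 2) =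
        2 * (Real.log (CH.E0 (n + 1)) + N * N * Real.log B'') := by
      rw [Real.log_pow, Real.log_mul (by positivity) (by positivity), Real.log_pow, hN]
      push_cast
      ring
    rw [h7] at h2
    have h8 := CH.num1 (N := N) (e := Real.log (CH.E0 (n + 1))) (c1 := Real.log C1) (x := X)
      (c2 := C2) (cV := cV) (y := Y) (lb := Real.log B'')
      (D := (((p.1 : ℕ) + p.2 + 1 : ℕ) : ℝ)) (T := charT g r'')
      (L := Real.log ‖meromorphicTrailingCoeffAt (CH.V g p) 0‖) hN0 hlE hlC1 hX1 hXY hcV0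
      (by linarith) (Nat.cast_nonneg _) hD h5 h4
    rw [← hM0] at h8
    exact h3.trans (h2.trans h8)
  -- the sum
  have hsum : 1 + ∑ p : Fin (n + 1) × Fin (n + 1),
      characteristic (fun z => CH.U g p z / CH.V g p z) ⊤ (r + 2 * δ) ≤ M * Y := by
    have h1 : ∑ p : Fin (n + 1) × Fin (n + 1),
        characteristic (fun z => CH.U g p z / CH.V g p z) ⊤ (r + 2 * δ) ≤
        ∑ _p : Fin (n + 1) × Fin (n + 1), M0 * Y := Finset.sum_le_sum fun p _ => hchar p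
    rw [Finset.sum_const, Finset.card_univ, Fintype.card_prod, Fintype.card_fin,
      nsmul_eq_mul] at h1
    push_cast at h1
    rw [← hN] at h1
    rw [hM]
    linarith
  have hsum0 : 0 ≤ 1 + ∑ p : Fin (n + 1) × Fin (n + 1),
      characteristic (fun z => CH.U g p z / CH.V g p z) ⊤ (r + 2 * δ) := by
    have : 0 ≤ ∑ p : Fin (n + 1) × Fin (n + 1),
        characteristic (fun z => CH.U g p z / CH.V g p z) ⊤ (r + 2 * δ) :=
      Finset.sum_nonneg fun p _ => characteristic_nonneg (by linarith)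
    linarith
  have hr2 : 0 < r + 2 := by linarith
  have hfin : B ≤ C3 * (M * Y * (r + 2) * (1 / δ)) ^ 4 := by
    refine hB2.trans ?_
    apply mul_le_mul_of_nonneg_left _ (by linarith)
    apply pow_le_pow_left₀
    · exact div_nonneg (mul_nonneg hsum0 hr2.le) hδ.le
    · rw [div_eq_mul_one_div]
      apply mul_le_mul_of_nonneg_right _ (by linarith)
      exact mul_le_mul_of_nonneg_right hsum hr2.le
  have hMp : 0 < M := by linarith
  have hYp : 0 < Y := by linarith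
  have hδp : 0 < 1 / δ := by linarith
  have hlog := Real.log_le_log (by linarith) hfin
  rw [Real.log_mul (by positivity) (by positivity), Real.log_pow,
    Real.log_mul (by positivity) (by positivity), Real.log_mul (by positivity) (by positivity),
    Real.log_mul (by positivity) (by positivity), hlY] at hlog
  have hr24 : Real.log (r + 4) ≤ Real.log 2 + Real.log (r + 2) := by
    rw [← Real.log_mul (by norm_num) (by positivity)]
    exact Real.log_le_log (by linarith) (by linarith)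
  push_cast at hlog
  rw [← hX]
  exact CH.num2 hlC3 hlM hl2 (Real.log_nonneg hX1) (Real.log_nonneg (by linarith))
    (Real.log_nonneg hδi) hr24 hlog

end Pool.Agent.Stat
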