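import Pool.Agent.Lib_MP_b9fedf_st.Defs

/-! PIECE F1. Frobenius factorisation of the normalised operator (pure algebra). -/

set_option autoImplicit false

namespace Pool.Agent.Stat

/-- the Wronskian determinant of `g 0, ..., g (k-1)` in a differential field -/
noncomputable def wr {K : Type} [Field K] [Algebra ℂ K] (D : Derivation ℂ K K) (g : ℕ → K)
    (k : ℕ) : K :=
  (Matrix.of fun i j : Fin k => (⇑D)^[(i : ℕ)] (g j)).det

/-- the rows `E^i g`, `E = D - u` -/
noncomputable def erow {K : Type} [Field K] [Algebra ℂ K] (D : Derivation ℂ K K) (u : K)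
    (g : ℕ → K) : ℕ → ℕ → K
  | 0, j => g j
  | i + 1, j => D (erow D u g i j) - u * erow D u g i j

/-- the Frobenius quotients `h_k = W_{k+1} / W_k` -/
noncomputable def hq {K : Type} [Field K] [Algebra ℂ K] (D : Derivation ℂ K K) (g : ℕ → K)
    (k : ℕ) : K :=
  wr D g (k + 1) / wr D g k

section Frob_helpers

variable {K : Type} [Field K] [Algebra ℂ K]

/-- products of first order operators `D - c i` -/
private noncomputable def Frob_op (D : Derivation ℂ K K) (c : ℕ → K) : ℕ → K → K
  | 0 => fun y => y
  | i + 1 => fun y => D (Frob_op D c i y) - c i * Frob_op D c i y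

/-- coefficients of `Frob_op` in terms of the powers of `D - d` -/
private noncomputable def Frob_be (D : Derivation ℂ K K) (c : ℕ → K) (d : K) : ℕ → ℕ → K
  | 0, s => if s = 0 then 1 else 0
  | i + 1, 0 => D (Frob_be D c d i 0) - (c i - d) * Frob_be D c d i 0
  | i + 1, s + 1 => D (Frob_be D c d i (s + 1)) + Frob_be D c d i s -
      (c i - d) * Frob_be D c d i (s + 1)

private lemma Frob_be_zero (D : Derivation ℂ K K) (c : ℕ → K) (d : K) :
    ∀ i s, i < s → Frob_be D c d i s = 0 := by
  intro i
  induction i with
  | zero =>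
    intro s hs
    simp only [Frob_be]
    rw [if_neg (by omega)]
  | succ i ih =>
    intro s hs
    obtain ⟨s, rfl⟩ : ∃ t, s = t + 1 := ⟨s - 1, by omega⟩
    simp only [Frob_be]
    rw [ih (s + 1) (by omega), ih s (by omega)]
    simp

private lemma Frob_be_one (D : Derivation ℂ K K) (c : ℕ → K) (d : K) :
    ∀ i, Frob_be D c d i i = 1 := by
  intro i
  induction i with
  | zero => simp [Frob_be]
  | succ i ih =>
    simp only [Frob_be]
    rw [ih, Frob_be_zero D c d i (i + 1) (by omega)]
    simp

private lemma Frob_expand (D : Derivation ℂ K K) (c : ℕ → K) (d : K) (S : ℕ → K → K)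
    (h0 : ∀ y, S 0 y = y) (h1 : ∀ s y, S (s + 1) y = D (S s y) - d * S s y) (y : K) :
    ∀ i, Frob_op D c i y = ∑ s ∈ Finset.range (i + 1), Frob_be D c d i s * S s y := by
  intro i
  induction i with
  | zero => simp [Frob_op, Frob_be, h0]
  | succ i ih =>
    have e1 : Frob_op D c (i + 1) y = D (Frob_op D c i y) - c i * Frob_op D c i y := rfl
    rw [e1, ih, map_sum, Finset.mul_sum, ← Finset.sum_sub_distrib]
    set f : ℕ → K := fun s => (D (Frob_be D c d i s) - (c i - d) * Frob_be D c d i s) * S s y
      with hf
    have e2 : ∀ s, D (Frob_be D c d i s * S s y) - c i * (Frob_be D c d i s * S s y) =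
        f s + Frob_be D c d i s * S (s + 1) y := by
      intro s
      rw [h1, hf, Derivation.leibniz, smul_eq_mul, smul_eq_mul]
      ring
    rw [Finset.sum_congr rfl fun s _ => e2 s, Finset.sum_add_distrib]
    have e3 : ∑ s ∈ Finset.range (i + 1), f s = ∑ s ∈ Finset.range (i + 2), f s := by
      rw [Finset.sum_range_succ f (i + 1)]
      have : f (i + 1) = 0 := by
        simp only [hf]
        rw [Frob_be_zero D c d i (i + 1) (by omega)]
        simp
      rw [this, add_zero]
    rw [e3, Finset.sum_range_succ' f (i + 1), Finset.sum_range_succ' _ (i + 1)]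
    have e4 : Frob_be D c d (i + 1) 0 * S 0 y = f 0 := rfl
    rw [e4, add_right_comm, ← Finset.sum_add_distrib]
    congr 1
    refine Finset.sum_congr rfl fun s _ => ?_
    simp only [hf, Frob_be]
    ring

private lemma Frob_det (D : Derivation ℂ K K) (c : ℕ → K) (g : ℕ → K) (k : ℕ) :
    (Matrix.of fun i j : Fin k => Frob_op D c i (g j)).det = wr D g k := by
  set A : Matrix (Fin k) (Fin k) K := Matrix.of fun i s : Fin k => Frob_be D c 0 i s with hA
  set W : Matrix (Fin k) (Fin k) K := Matrix.of fun i j : Fin k => (⇑D)^[(i : ℕ)] (g j) with hWd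
  have h1 : (Matrix.of fun i j : Fin k => Frob_op D c i (g j)) = A * W := by
    ext i j
    rw [Matrix.mul_apply]
    simp only [hA, hWd, Matrix.of_apply]
    rw [Frob_expand D c 0 (fun s y => (⇑D)^[s] y) (fun y => rfl)
      (fun s y => by rw [Function.iterate_succ_apply']; ring) (g j) i]
    have h2 : ∑ s : Fin k, Frob_be D c 0 i s * (⇑D)^[(s : ℕ)] (g j) =
        ∑ s ∈ Finset.range k, Frob_be D c 0 i s * (⇑D)^[s] (g j) :=
      Fin.sum_univ_eq_sum_range (fun s => Frob_be D c 0 i s * (⇑D)^[s] (g j)) k
    rw [h2]
    apply Finset.sum_subset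
    · intro s hs
      rw [Finset.mem_range] at hs ⊢
      have := i.2
      omega
    · intro s _ hs
      rw [Finset.mem_range, not_lt] at hs
      rw [Frob_be_zero D c 0 i s (by omega), zero_mul]
  have hdA : A.det = 1 := by
    rw [Matrix.det_of_lowerTriangular A]
    · apply Finset.prod_eq_one
      intro i _
      exact Frob_be_one D c 0 i
    · intro i j hij
      exact Frob_be_zero D c 0 i j hij
  rw [h1, Matrix.det_mul, hdA, one_mul]
  rfl

private lemma Frob_erow (D : Derivation ℂ K K) (u : K) (g : ℕ → K) (i j : ℕ) :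
    erow D u g i j = Frob_op D (fun _ => u) i (g j) := by
  induction i with
  | zero => rfl
  | succ i ih =>
    simp only [erow, Frob_op]
    rw [ih]

private lemma Frob_neg {ι : Type} {D : Derivation ℂ K K} {H : ι → K} {w : ℕ} {x : K}
    (h : HW D H w x) : HW D H w (-x) := by
  have := HW.mul (HW.const (D := D) (H := H) (-1)) h
  simpa using this

private lemma Frob_zero {ι : Type} {D : Derivation ℂ K K} {H : ι → K} {w : ℕ} :
    HW D H w (0 : K) := by
  have := HW.mono (Nat.zero_le w) (HW.const (D := D) (H := H) 0)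
  simpa using this

private lemma Frob_sum {ι κ : Type} {D : Derivation ℂ K K} {H : ι → K} {w : ℕ} (s : Finset κ)
    (f : κ → K) (h : ∀ a ∈ s, HW D H w (f a)) : HW D H w (∑ a ∈ s, f a) := by
  classical
  induction s using Finset.induction_on with
  | empty => simpa using Frob_zero
  | insert a s ha ih =>
    rw [Finset.sum_insert ha]
    exact (h a (Finset.mem_insert_self a s)).add
      (ih fun b hb => h b (Finset.mem_insert_of_mem hb))

end Frob_helpers

/-- The rows `E^i g` (`i ≤ n`) have the same determinant as the Wronskian matrix (for every `u`):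
the matrix of change is lower triangular with ones on the diagonal. -/
theorem det_erow {K : Type} [Field K] [Algebra ℂ K] (D : Derivation ℂ K K) (u : K) (g : ℕ → K)
    (k : ℕ) : (Matrix.of fun i j : Fin k => erow D u g i j).det = wr D g k := by
  rw [← Frob_det D (fun _ => u) g k]
  congr 1
  ext i j
  exact Frob_erow D u g i j

/-- `HW` is stable under `D`. -/
theorem HW.deriv {K ι : Type} [Field K] [Algebra ℂ K] {D : Derivation ℂ K K} {H : ι → K}
    (hH : ∀ i, H i ≠ 0) {w : ℕ} {x : K} (h : HW D H w x) : HW D H (w + 1) (D x) := by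
  induction h with
  | const c =>
    have := HW.mono (Nat.zero_le (0 + 1)) (HW.const (D := D) (H := H) 0)
    simpa using this
  | var p i =>
    have h1 : D ((⇑D)^[p] (H i) / H i) =
        (⇑D)^[p + 1] (H i) / H i + -(((⇑D)^[p] (H i) / H i) * ((⇑D)^[1] (H i) / H i)) := by
      rw [Derivation.leibniz_div, Function.iterate_succ_apply', Function.iterate_one]
      have := hH i
      simp only [smul_eq_mul]
      field_simp
      ring
    rw [h1]
    exact (HW.var (p + 1) i).add (Frob_neg ((HW.var p i).mul (HW.var 1 i)))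
  | add _ _ ih1 ih2 =>
    rw [map_add]
    exact ih1.add ih2
  | @mul w w' x y hx hy ih1 ih2 =>
    rw [Derivation.leibniz, smul_eq_mul, smul_eq_mul]
    refine HW.add ?_ ?_
    · have := hx.mul ih2
      exact HW.mono (by omega) this
    · have := hy.mul ih1
      exact HW.mono (by omega) this
  | mono hw _ ih => exact HW.mono (by omega) ih

/-- differential polynomials in elements of weight `N` (`N ≥ 1`) have weight `≤ N w` -/
theorem HW.of_DP {K ι κ : Type} [Field K] [Algebra ℂ K] {D : Derivation ℂ K K} {H : ι → K}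
    (hH : ∀ i, H i ≠ 0) {a : κ → K} {N : ℕ} (hN : 1 ≤ N) (ha : ∀ k, HW D H N (a k))
    {w : ℕ} {x : K} (h : DP D a w x) : HW D H (N * w) x := by
  induction h with
  | const c => exact HW.mono (Nat.zero_le _) (HW.const c)
  | var s i =>
    have h1 : ∀ s : ℕ, HW D H (N + s) ((⇑D)^[s] (a i)) := by
      intro s
      induction s with
      | zero => exact ha i
      | succ s ih =>
        rw [Function.iterate_succ_apply']
        exact HW.deriv hH ih
    refine HW.mono ?_ (h1 s)
    have : s ≤ N * s := Nat.le_mul_of_pos_left s hN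
    rw [Nat.mul_add]
    omega
  | add _ _ ih1 ih2 => exact ih1.add ih2
  | mul _ _ ih1 ih2 =>
    rw [Nat.mul_add]
    exact ih1.mul ih2
  | mono hw _ ih => exact HW.mono (Nat.mul_le_mul_left N hw) ih

/-- **PIECE F1.**  Let `W_k` be the Wronskian of `g_0, ..., g_{k-1}`, all `≠ 0` for `k ≤ n + 1`,
`u = W_{n+1}' / ((n+1) W_{n+1})` and `E = D - u`.  Then `E^{n+1} g_j = ∑_i a_i E^i g_j` for
`j ≤ n`, where the `a_i` are polynomials of weight `≤ n + 1` in the `D^p (h_k/h_l) / (h_k/h_l)`.

Proof.  Define the operators `Q_0 = 1`, `Q_{k+1} y = D (Q_k y) - b_k Q_k y`, `b_k = D h_k / h_k`,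
`h_k := Q_k g_k`.  `Q_k` is a monic operator of order `k` in `D`, `Q_k g_j = 0` for `j < k` (by
induction, `Q_{k+1} g_k = 0`).  So the matrix `(Q_i g_j)_{i,j<k}` is upper triangular with diagonal
`h_i` and has determinant `W_k` (unipotent change of rows): `W_k = ∏_{i<k} h_i`; by induction
`h_k ≠ 0` and `h_k = W_{k+1} / W_k` (this is `hq`).  Hence `u = 1/(n+1) ∑_l b_l`, and
`c_k := b_k - u = 1/(n+1) ∑_l (b_k - b_l)`, `b_k - b_l = D(h_k/h_l)/(h_k/h_l)` has weight 1.  Now
`Q_{k+1} = (E - c_k) ... (E - c_0)`, and `(E - c)(∑ β_i E^i y) = ∑ (D β_i) E^i y +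
∑ β_i E^{i+1} y - ∑ c β_i E^i y`, so `Q_k = E^k + ∑_{i<k} β_{k,i} E^i` with `β_{k,i}` of weight
`≤ k - i`.  Take `k = n + 1` and apply to `g_j`, `j ≤ n`. -/
theorem frobenius {K : Type} [Field K] [Algebra ℂ K] (D : Derivation ℂ K K) (n : ℕ)
    (g : ℕ → K) (hW : ∀ k ≤ n + 1, wr D g k ≠ 0) :
    ∃ a : Fin (n + 1) → K,
      (∀ i, HW D (fun kl : Fin (n + 1) × Fin (n + 1) => hq D g kl.1 / hq D g kl.2) (n + 1) (a i)) ∧
      ∀ j ≤ n, erow D (D (wr D g (n + 1)) / ((n + 1 : ℕ) * wr D g (n + 1))) g (n + 1) j =
        ∑ i : Fin (n + 1),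
          a i * erow D (D (wr D g (n + 1)) / ((n + 1 : ℕ) * wr D g (n + 1))) g i j := by
  classical
  set u : K := D (wr D g (n + 1)) / ((n + 1 : ℕ) * wr D g (n + 1)) with hu
  set b : ℕ → K := fun k => D (hq D g k) / hq D g k with hb
  have hw0 : wr D g 0 = 1 := by
    simp [wr]
  have hqne : ∀ k ≤ n, hq D g k ≠ 0 := fun k hk =>
    div_ne_zero (hW (k + 1) (by omega)) (hW k (by omega))
  have hprod : ∀ k ≤ n + 1, ∏ i ∈ Finset.range k, hq D g i = wr D g k := by
    intro k
    induction k with
    | zero => intro _; simp [hw0]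
    | succ k ih =>
      intro hk
      rw [Finset.prod_range_succ, ih (by omega), hq, mul_div_cancel₀ _ (hW k (by omega))]
  -- the operators annihilate the functions
  have key : ∀ k ≤ n + 1, (∀ j < k, Frob_op D b k (g j) = 0) ∧
      (k ≤ n → Frob_op D b k (g k) = hq D g k) := by
    intro k
    induction k using Nat.strong_induction_on with
    | _ k ih =>
      intro hk
      have hz : ∀ j < k, Frob_op D b k (g j) = 0 := by
        intro j hj
        obtain ⟨k', rfl⟩ : ∃ t, k = t + 1 := ⟨k - 1, by omega⟩
        have ih' := ih k' (by omega) (by omega)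
        have e1 : Frob_op D b (k' + 1) (g j) =
          D (Frob_op D b k' (g j)) - b k' * Frob_op D b k' (g j) := rfl
        rw [e1]
        rcases Nat.lt_or_ge j k' with h | h
        · rw [ih'.1 j h]
          simp
        · have hjk : j = k' := by omega
          subst hjk
          rw [ih'.2 (by omega)]
          simp only [hb]
          rw [div_mul_cancel₀ _ (hqne j (by omega)), sub_self]
      refine ⟨hz, fun hkn => ?_⟩
      have h1 := Frob_det D b g (k + 1)
      rw [Matrix.det_of_upperTriangular] at h1
      · simp only [Matrix.of_apply] at h1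
        rw [Fin.prod_univ_eq_prod_range (fun i => Frob_op D b i (g i)) (k + 1),
          Finset.prod_range_succ] at h1
        have h2 : ∏ i ∈ Finset.range k, Frob_op D b i (g i) = wr D g k := by
          rw [← hprod k (by omega)]
          refine Finset.prod_congr rfl fun i hi => ?_
          rw [Finset.mem_range] at hi
          exact (ih i hi (by omega)).2 (by omega)
        rw [h2] at h1
        rw [hq, ← h1, mul_div_cancel_left₀ _ (hW k (by omega))]
      · intro i j hij
        have hij' : (j : ℕ) < (i : ℕ) := hij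
        simp only [Matrix.of_apply]
        rcases Nat.lt_or_ge (i : ℕ) k with h | h
        · exact (ih i h (by omega)).1 j hij'
        · have : (i : ℕ) = k := by have := i.2; omega
          rw [this]
          exact hz j (by omega)
  -- the logarithmic derivative of the Wronskian
  have hlog : ∀ k ≤ n + 1, D (wr D g k) = wr D g k * ∑ l ∈ Finset.range k, b l := by
    intro k
    induction k with
    | zero => intro _; simp [hw0]
    | succ k ih =>
      intro hk
      have e1 : wr D g (k + 1) = wr D g k * hq D g k := by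
        rw [hq, mul_div_cancel₀ _ (hW k (by omega))]
      have e2 : D (hq D g k) = hq D g k * b k := by
        simp only [hb]
        rw [mul_div_cancel₀ _ (hqne k (by omega))]
      rw [Finset.sum_range_succ, e1, Derivation.leibniz, ih (by omega), e2, smul_eq_mul,
        smul_eq_mul]
      ring
  haveI : CharZero K := charZero_of_injective_algebraMap (algebraMap ℂ K).injective
  have hn1 : ((n + 1 : ℕ) : K) ≠ 0 := by exact_mod_cast Nat.succ_ne_zero n
  have hu' : u = (∑ l ∈ Finset.range (n + 1), b l) / ((n + 1 : ℕ) : K) := by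
    rw [hu, hlog (n + 1) le_rfl]
    field_simp [hW (n + 1) le_rfl]
  set H : Fin (n + 1) × Fin (n + 1) → K := fun kl => hq D g kl.1 / hq D g kl.2 with hH
  have hHne : ∀ i, H i ≠ 0 := fun i => div_ne_zero (hqne _ (by omega)) (hqne _ (by omega))
  have hc : ∀ k ≤ n, HW D H 1 (b k - u) := by
    intro k hk
    have e1 : b k - u = algebraMap ℂ K (1 / ((n + 1 : ℕ) : ℂ)) *
        ∑ l ∈ Finset.range (n + 1), (b k - b l) := by
      rw [hu', Finset.sum_sub_distrib, Finset.sum_const, Finset.card_range, nsmul_eq_mul,
        map_div₀, map_one, map_natCast]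
      field_simp
    rw [e1]
    have h2 := HW.mul (HW.const (D := D) (H := H) (1 / ((n + 1 : ℕ) : ℂ)))
      (Frob_sum (D := D) (H := H) (w := 1) (Finset.range (n + 1)) (fun l => b k - b l) ?_)
    · simpa using h2
    · intro l hl
      rw [Finset.mem_range] at hl
      have h3 := HW.var (D := D) (H := H) 1 (⟨k, by omega⟩, ⟨l, by omega⟩)
      have h4 : (⇑D)^[1] (H (⟨k, by omega⟩, ⟨l, by omega⟩)) /
          H (⟨k, by omega⟩, ⟨l, by omega⟩) = b k - b l := by
        simp only [hH, hb, Function.iterate_one]
        have h5 := hqne k hk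
        have h6 := hqne l (by omega)
        rw [Derivation.leibniz_div]
        simp only [smul_eq_mul]
        field_simp
      rw [h4] at h3
      exact h3
  have hbe : ∀ k ≤ n + 1, ∀ i ≤ k, HW D H (k - i) (Frob_be D b u k i) := by
    intro k
    induction k with
    | zero =>
      intro _ i hi
      have : i = 0 := by omega
      subst this
      simp only [Frob_be, if_true]
      simpa using HW.const (D := D) (H := H) 1
    | succ k ih =>
      intro hk i hi
      rcases Nat.eq_zero_or_pos i with h | h
      · subst h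
        simp only [Frob_be]
        have h1 := ih (by omega) 0 (by omega)
        rw [sub_eq_add_neg]
        refine HW.add ?_ (Frob_neg ?_)
        · exact HW.mono (by omega) (HW.deriv hHne h1)
        · exact HW.mono (by omega) ((hc k (by omega)).mul h1)
      · obtain ⟨i, rfl⟩ : ∃ t, i = t + 1 := ⟨i - 1, by omega⟩
        rcases Nat.lt_or_ge i k with h' | h'
        · simp only [Frob_be]
          have h1 := ih (by omega) (i + 1) (by omega)
          have h2 := ih (by omega) i (by omega)
          rw [sub_eq_add_neg]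
          refine HW.add (HW.add ?_ ?_) (Frob_neg ?_)
          · exact HW.mono (by omega) (HW.deriv hHne h1)
          · exact HW.mono (by omega) h2
          · exact HW.mono (by omega) ((hc k (by omega)).mul h1)
        · have : i = k := by omega
          subst this
          rw [Frob_be_one]
          have := HW.mono (Nat.zero_le (i + 1 - (i + 1))) (HW.const (D := D) (H := H) 1)
          simpa using this
  refine ⟨fun i => -Frob_be D b u (n + 1) i, fun i => ?_, fun j hj => ?_⟩
  · exact Frob_neg (HW.mono (by omega) (hbe (n + 1) le_rfl i (by omega)))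
  · have h1 := (key (n + 1) le_rfl).1 j (by omega)
    rw [Frob_expand D b u (fun s y => Frob_op D (fun _ => u) s y) (fun y => rfl)
      (fun s y => rfl) (g j) (n + 1), Finset.sum_range_succ, Frob_be_one, one_mul] at h1
    rw [Frob_erow]
    have h2 : ∑ i : Fin (n + 1), -Frob_be D b u (n + 1) i * erow D u g i j =
        -∑ i ∈ Finset.range (n + 1), Frob_be D b u (n + 1) i * Frob_op D (fun _ => u) i (g j) := by
      rw [← Fin.sum_univ_eq_sum_range
        (fun i => Frob_be D b u (n + 1) i * Frob_op D (fun _ => u) i (g j)) (n + 1),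
        ← Finset.sum_neg_distrib]
      refine Finset.sum_congr rfl fun i _ => ?_
      rw [Frob_erow]
      ring
    rw [h2]
    exact eq_neg_of_add_eq_zero_right h1

end Pool.Agent.Stat
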