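import Pool.Agent.Lib_MP_b9fedf_st.Span
import Pool.Agent.Lib_MP_1209e6_ag.Der

/-! A2. The projective Picard-Vessiot lemma. -/

set_option autoImplicit false

namespace Pool.Agent.Stat

variable {K : Type} [Field K]

/-- the commutator of `D` and a `k`-derivation -/
def commDer (D : Derivation ℤ K K) (k : Subfield K) (hkD : ∀ x ∈ k, D x ∈ k)
    (δ : Derivation k K K) : Derivation k K K :=
  Derivation.mk' (R := k)
    { toFun := fun x => D (δ x) - δ (D x)
      map_add' := fun x y => by simp only [map_add]; ring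
      map_smul' := fun c x => by
        have h1 : δ (c • x) = c • δ x := δ.map_smul c x
        have h2 : ∀ z : K, c • z = (c : K) * z := fun z => rfl
        have h3 : δ (D (c : K) * x) = D (c : K) * δ x := by
          have := δ.map_smul (⟨D (c : K), hkD _ c.2⟩ : k) x
          exact this
        have h4 : δ ((c : K) * D x) = (c : K) * δ (D x) := by
          have := δ.map_smul c (D x)
          exact this
        rw [RingHom.id_apply, h1, h2 (δ x), h2 x, h2 (D (δ x) - δ (D x)), D.leibniz, D.leibniz]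
        simp only [smul_eq_mul, map_add]
        rw [mul_comm x (D (c : K)), h3, h4]
        ring }
    (fun x y => by
      show D (δ (x * y)) - δ (D (x * y)) = x • (D (δ y) - δ (D y)) + y • (D (δ x) - δ (D x))
      rw [δ.leibniz, D.leibniz]
      simp only [smul_eq_mul, map_add, D.leibniz, δ.leibniz]
      ring)

theorem commDer_apply (D : Derivation ℤ K K) (k : Subfield K) (hkD : ∀ x ∈ k, D x ∈ k)
    (δ : Derivation k K K) (x : K) : commDer D k hkD δ x = D (δ x) - δ (D x) := rfl

open Matrix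

variable {n : ℕ}

/-- the logarithmic derivative `U⁻¹ δ(U)` -/
noncomputable def Xi (k : Subfield K) (U : Matrix (Fin (n + 1)) (Fin (n + 1)) K)
    (δ : Derivation k K K) : Matrix (Fin (n + 1)) (Fin (n + 1)) K :=
  U⁻¹ * Matrix.of fun i j => δ (U i j)

/-- the traceless part of `U⁻¹ δ(U)` -/
noncomputable def Phi (k : Subfield K) (U : Matrix (Fin (n + 1)) (Fin (n + 1)) K) :
    Derivation k K K →ₗ[K] (Fin (n + 1) × Fin (n + 1) → K) where
  toFun δ := fun ij => Xi k U δ ij.1 ij.2 -
    (Xi k U δ).trace / (n + 1) * (1 : Matrix (Fin (n + 1)) (Fin (n + 1)) K) ij.1 ij.2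
  map_add' δ δ' := by
    have h : Xi k U (δ + δ') = Xi k U δ + Xi k U δ' := by
      unfold Xi
      rw [← Matrix.mul_add]
      rfl
    ext ij
    rw [h]
    simp only [Matrix.add_apply, Matrix.trace_add, Pi.add_apply]
    ring
  map_smul' c δ := by
    have h : Xi k U (c • δ) = c • Xi k U δ := by
      unfold Xi
      rw [← Matrix.mul_smul]
      rfl
    ext ij
    rw [h]
    simp only [Matrix.smul_apply, Matrix.trace_smul, Pi.smul_apply, smul_eq_mul, RingHom.id_apply]
    ring

theorem Phi_apply (k : Subfield K) (U : Matrix (Fin (n + 1)) (Fin (n + 1)) K)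
    (δ : Derivation k K K) (i j : Fin (n + 1)) : Phi k U δ (i, j) = Xi k U δ i j -
    (Xi k U δ).trace / (n + 1) * (1 : Matrix (Fin (n + 1)) (Fin (n + 1)) K) i j := rfl

theorem U_mul_Xi {k : Subfield K} {U : Matrix (Fin (n + 1)) (Fin (n + 1)) K} (hdet : U.det ≠ 0)
    (δ : Derivation k K K) : U * Xi k U δ = Matrix.of fun i j => δ (U i j) := by
  have hu : IsUnit U.det := isUnit_iff_ne_zero.2 hdet
  rw [Xi, ← Matrix.mul_assoc, Matrix.mul_nonsing_inv U hu, Matrix.one_mul]

theorem apply_of_Phi {k : Subfield K} {U : Matrix (Fin (n + 1)) (Fin (n + 1)) K}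
    (hdet : U.det ≠ 0) (δ : Derivation k K K) (i j : Fin (n + 1)) :
    δ (U i j) = ∑ l, U i l * Phi k U δ (l, j) + (Xi k U δ).trace / (n + 1) * U i j := by
  have h1 := congrFun (congrFun (U_mul_Xi hdet δ) i) j
  rw [Matrix.mul_apply] at h1
  have h2 : δ (U i j) = ∑ l, U i l * Xi k U δ l j := h1.symm
  rw [h2]
  have h3 : ∀ l, U i l * Xi k U δ l j = U i l * Phi k U δ (l, j) +
      (Xi k U δ).trace / (n + 1) * (U i l * (1 : Matrix (Fin (n + 1)) (Fin (n + 1)) K) l j) := by
    intro l
    rw [Phi_apply]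
    ring
  rw [Finset.sum_congr rfl fun l _ => h3 l, Finset.sum_add_distrib, ← Finset.mul_sum]
  congr 2
  have h4 := congrFun (congrFun (Matrix.mul_one U) i) j
  rw [Matrix.mul_apply] at h4
  exact h4

theorem Phi_comm [CharZero K] {D : Derivation ℤ K K} {k : Subfield K} (hkD : ∀ x ∈ k, D x ∈ k)
    {U A : Matrix (Fin (n + 1)) (Fin (n + 1)) K} {w : K} (hA : ∀ i j, A i j ∈ k)
    (hdet : U.det ≠ 0) (hU : ∀ i j, D (U i j) = ∑ l, A i l * U l j + w * U i j)
    (δ : Derivation k K K) :
    Phi k U (commDer D k hkD δ) = fun ij => D (Phi k U δ ij) := by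
  have hu : IsUnit U.det := isUnit_iff_ne_zero.2 hdet
  have hδA : ∀ i j, δ (A i j) = 0 := fun i j => by
    have := δ.map_algebraMap (⟨A i j, hA i j⟩ : k)
    exact this
  -- `Xi (comm δ) = D Xi - δ(w)`
  have hXi : Xi k U (commDer D k hkD δ) =
      (Matrix.of fun i j => D (Xi k U δ i j)) - δ w • (1 : Matrix (Fin (n + 1)) (Fin (n + 1)) K) := by
    have h1 : U * Xi k U (commDer D k hkD δ) =
        U * ((Matrix.of fun i j => D (Xi k U δ i j)) -
          δ w • (1 : Matrix (Fin (n + 1)) (Fin (n + 1)) K)) := by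
      rw [U_mul_Xi hdet]
      ext i j
      rw [Matrix.of_apply, commDer_apply, Matrix.mul_sub, Matrix.sub_apply, Matrix.mul_smul,
        Matrix.smul_apply, Matrix.mul_one, smul_eq_mul, Matrix.mul_apply]
      have h2 : ∀ i j, δ (U i j) = ∑ l, U i l * Xi k U δ l j := by
        intro i j
        have h1 := congrFun (congrFun (U_mul_Xi hdet δ) i) j
        rw [Matrix.mul_apply] at h1
        exact h1.symm
      have h3 : D (δ (U i j)) = ∑ l, (U i l * D (Xi k U δ l j)) +
          ∑ l, (∑ p, A i p * U p l + w * U i l) * Xi k U δ l j := by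
        rw [h2, map_sum, ← Finset.sum_add_distrib]
        refine Finset.sum_congr rfl fun l _ => ?_
        rw [D.leibniz, hU, smul_eq_mul, smul_eq_mul]
        ring
      have h4 : δ (D (U i j)) = ∑ p, A i p * δ (U p j) + (w * δ (U i j) + δ w * U i j) := by
        rw [hU, map_add, map_sum, δ.leibniz, smul_eq_mul, smul_eq_mul]
        congr 1
        · refine Finset.sum_congr rfl fun l _ => ?_
          rw [δ.leibniz, hδA, smul_eq_mul, smul_eq_mul, mul_zero, add_zero]
        · ring
      have h5 : ∑ l, (∑ p, A i p * U p l + w * U i l) * Xi k U δ l j =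
          ∑ p, A i p * δ (U p j) + w * δ (U i j) := by
        simp only [add_mul, Finset.sum_add_distrib, Finset.sum_mul]
        rw [Finset.sum_comm]
        congr 1
        · refine Finset.sum_congr rfl fun p _ => ?_
          rw [h2, Finset.mul_sum]
          exact Finset.sum_congr rfl fun l _ => by ring
        · rw [h2, Finset.mul_sum]
          exact Finset.sum_congr rfl fun l _ => by ring
      rw [h3, h4, h5]
      simp only [Matrix.of_apply]
      ring
    have h6 := congrArg (fun X => U⁻¹ * X) h1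
    simp only [← Matrix.mul_assoc] at h6
    rwa [Matrix.nonsing_inv_mul U hu, Matrix.one_mul, Matrix.one_mul] at h6
  have hn : ((n : K) + 1) ≠ 0 := by exact_mod_cast Nat.succ_ne_zero n
  have htr : (Xi k U (commDer D k hkD δ)).trace = D (Xi k U δ).trace - δ w * (n + 1) := by
    rw [hXi, Matrix.trace_sub, Matrix.trace_smul, Matrix.trace_one, Fintype.card_fin]
    have : (Matrix.of fun i j => D (Xi k U δ i j)).trace = D (Xi k U δ).trace := by
      simp only [Matrix.trace, Matrix.diag_apply, Matrix.of_apply, map_sum]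
    rw [this, smul_eq_mul]
    push_cast
    ring
  have hDn : ∀ x : K, D (x / (n + 1)) = D x / (n + 1) := by
    intro x
    have h1 : D (((n + 1 : ℕ) : K) * (x / (n + 1))) = ((n + 1 : ℕ) : K) * D (x / (n + 1)) := by
      have h2 : D (((n + 1 : ℕ) : K)) = 0 := D.map_natCast _
      rw [D.leibniz, h2, smul_zero, add_zero, smul_eq_mul]
    have h3 : ((n + 1 : ℕ) : K) * (x / (n + 1)) = x := by
      push_cast
      field_simp
    rw [h3] at h1
    rw [h1]
    push_cast
    field_simp
  ext ⟨i, j⟩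
  rw [Phi_apply, htr, hXi, Phi_apply, map_sub, D.leibniz, Matrix.sub_apply, Matrix.smul_apply,
    Matrix.of_apply]
  have h1 : D ((1 : Matrix (Fin (n + 1)) (Fin (n + 1)) K) i j) = 0 := by
    rw [Matrix.one_apply]
    split_ifs
    · exact D.map_one_eq_zero
    · exact map_zero D
  rw [h1, hDn]
  simp only [smul_eq_mul, mul_zero, zero_add]
  field_simp
  ring

/-- A2. The projective Picard-Vessiot lemma. -/
theorem pv [CharZero K] (D : Derivation ℤ K K) (k : Subfield K)
    (hkD : ∀ x ∈ k, D x ∈ k)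
    (U A : Matrix (Fin (n + 1)) (Fin (n + 1)) K) (w : K) (hA : ∀ i j, A i j ∈ k)
    (hdet : U.det ≠ 0) (hU : ∀ i j, D (U i j) = ∑ l, A i l * U l j + w * U i j) (y : K)
    (hy : Transcendental k y)
    (hscal : ∀ (δ : Derivation k K K) (t : K), (∀ i j, δ (U i j) = t * U i j) → δ y = 0) :
    ∃ (δ : Derivation k K K) (ξ : Matrix (Fin (n + 1)) (Fin (n + 1)) K) (t : K),
      (∀ i j, D (ξ i j) = 0) ∧ (∀ i j, δ (U i j) = ∑ l, U i l * ξ l j + t * U i j) ∧ δ y ≠ 0 := by
  obtain ⟨δ0, hδ0⟩ := Pool.Agent.Campana.exists_derivation (k := k) (K := K) (ι := Unit)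
    (fun _ => y) (algebraicIndependent_unique_type_iff.2 hy) (fun _ => 1)
  have hδ0' : δ0 y = 1 := hδ0 ()
  by_contra hcon
  push Not at hcon
  let M : Submodule K (Fin (n + 1) × Fin (n + 1) → K) := LinearMap.range (Phi k U)
  have hM : ∀ v ∈ M, (fun i => D (v i)) ∈ M := by
    rintro _ ⟨δ, rfl⟩
    exact ⟨commDer D k hkD δ, Phi_comm hkD hA hdet hU δ⟩
  -- the derivations killing `y`
  let Ny : Submodule K (Derivation k K K) :=
    { carrier := {δ | δ y = 0}
      add_mem' := fun {a b} ha hb => by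
        show (a + b) y = 0
        rw [Derivation.add_apply, show a y = 0 from ha, show b y = 0 from hb, add_zero]
      zero_mem' := rfl
      smul_mem' := fun c a ha => by
        show (c • a) y = 0
        rw [Derivation.smul_apply, show a y = 0 from ha, smul_zero] }
  have hle : Submodule.span K {c : Fin (n + 1) × Fin (n + 1) → K | c ∈ M ∧ ∀ i, D (c i) = 0} ≤
      Submodule.map (Phi k U) Ny := by
    rw [Submodule.span_le]
    rintro _ ⟨⟨δ, rfl⟩, hc⟩
    refine ⟨δ, ?_, rfl⟩
    exact hcon δ (fun i j => Phi k U δ (i, j)) ((Xi k U δ).trace / (n + 1))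
      (fun i j => hc (i, j)) (apply_of_Phi hdet δ)
  obtain ⟨δ1, hδ1, h1⟩ := hle (mem_span_const D M hM (Phi k U δ0) ⟨δ0, rfl⟩)
  have h2 : Phi k U (δ0 - δ1) = 0 := by rw [map_sub, h1, sub_self]
  have h3 := hscal (δ0 - δ1) ((Xi k U (δ0 - δ1)).trace / (n + 1)) (fun i j => by
    rw [apply_of_Phi hdet (δ0 - δ1) i j, h2]
    simp)
  rw [Derivation.sub_apply, hδ0', show δ1 y = 0 from hδ1, sub_zero] at h3
  exact one_ne_zero h3

end Pool.Agent.Stat
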