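import Pool.Agent.Lib_MP_b9fedf_st.Univ
import Pool.Agent.Lib_MP_b9fedf_st.PV

/-! A3b. The ultrapower of a differential field. -/

set_option autoImplicit false

namespace Pool.Agent.Stat

open MvPolynomial Filter

variable {K : Type} [Field K] [Algebra ℂ K]

lemma DP.zero {ι : Type} (D : Derivation ℂ K K) (a : ι → K) (w : ℕ) : DP D a w 0 := by
  have := DP.const (D := D) (a := a) 0
  rw [map_zero] at this
  exact .mono (Nat.zero_le _) this

lemma DP.one {ι : Type} (D : Derivation ℂ K K) (a : ι → K) : DP D a 0 1 := by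
  have := DP.const (D := D) (a := a) 1
  rwa [map_one] at this

lemma DP.neg {ι : Type} {D : Derivation ℂ K K} {a : ι → K} {w : ℕ} {x : K} (h : DP D a w x) :
    DP D a w (-x) := by
  have h1 := DP.const (D := D) (a := a) (-1)
  rw [map_neg, map_one] at h1
  have h2 := DP.mul h1 h
  rwa [neg_one_mul, zero_add] at h2

lemma DP.deriv {ι : Type} {D : Derivation ℂ K K} {a : ι → K} {w : ℕ} {x : K} (h : DP D a w x) :
    DP D a (w + 1) (D x) := by
  induction h with
  | const c =>
    rw [D.map_algebraMap]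
    exact DP.zero D a _
  | var s i =>
    have := DP.var (D := D) (a := a) (s + 1) i
    rw [Function.iterate_succ_apply'] at this
    exact this
  | add hx hy ihx ihy =>
    rw [map_add]
    exact .add ihx ihy
  | mul hx hy ihx ihy =>
    rw [D.leibniz, smul_eq_mul, smul_eq_mul]
    exact .add (.mono (by omega) (.mul hx ihy)) (.mono (by omega) (.mul hy ihx))
  | mono hw hx ih => exact .mono (by omega) ih

/-- `y` satisfies an algebraic relation of complexity `≤ d` over the differential polynomials in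
the entries of `A` -/
def AlgD {n : ℕ} (D : Derivation ℂ K K) (A : Matrix (Fin (n + 1)) (Fin (n + 1)) K) (d : ℕ)
    (y : K) : Prop :=
  ∃ Q : ℕ → K, (∀ j, DP D (fun ab : Fin (n + 1) × Fin (n + 1) => A ab.1 ab.2) d (Q j)) ∧
    (∃ j ≤ d, Q j ≠ 0) ∧ ∑ j ∈ Finset.range (d + 1), Q j * y ^ j = 0

lemma AlgD.mono {n : ℕ} {D : Derivation ℂ K K} {A : Matrix (Fin (n + 1)) (Fin (n + 1)) K}
    {d d' : ℕ} (hd : d ≤ d') {y : K} (h : AlgD D A d y) : AlgD D A d' y := by
  obtain ⟨Q, hQ, ⟨j0, hj0, hQj0⟩, hs⟩ := h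
  refine ⟨fun j => if j ≤ d then Q j else 0, fun j => ?_, ⟨j0, hj0.trans hd, ?_⟩, ?_⟩
  · show DP D _ d' (if j ≤ d then Q j else 0)
    split_ifs
    · exact .mono hd (hQ j)
    · exact DP.zero _ _ _
  · show (if j0 ≤ d then Q j0 else 0) ≠ 0
    rw [if_pos hj0]; exact hQj0
  · refine Eq.trans ?_ hs
    rw [← Finset.sum_subset (Finset.range_mono (Nat.succ_le_succ hd)) ?_]
    · refine Finset.sum_congr rfl fun j hj => ?_
      rw [Finset.mem_range] at hj
      show (if j ≤ d then Q j else 0) * y ^ j = Q j * y ^ j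
      rw [if_pos (by omega)]
    · intro j _ hj
      rw [Finset.mem_range] at hj
      show (if j ≤ d then Q j else 0) * y ^ j = 0
      rw [if_neg (by omega), zero_mul]

/-- the ultrapower -/
abbrev Kst (K : Type) [Field K] : Type := Filter.Germ (hyperfilter ℕ : Filter ℕ) K

/-- the class of a sequence -/
noncomputable def cst : (ℕ → K) →+* Kst K := Filter.Germ.coeRingHom (hyperfilter ℕ : Filter ℕ)

omit [Algebra ℂ K] in
lemma cst_eq {F G : ℕ → K} : cst F = cst G ↔ ∀ᶠ N in (hyperfilter ℕ : Filter ℕ), F N = G N :=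
  Filter.Germ.coe_eq

omit [Algebra ℂ K] in
lemma exists_cst (x : Kst K) : ∃ F : ℕ → K, cst F = x := by
  induction x using Filter.Germ.inductionOn with
  | _ F => exact ⟨F, rfl⟩

omit [Algebra ℂ K] in
lemma cst_eq_zero {F : ℕ → K} : cst F = 0 ↔ ∀ᶠ N in (hyperfilter ℕ : Filter ℕ), F N = 0 := by
  rw [← map_zero (cst (K := K)), cst_eq]
  rfl

omit [Algebra ℂ K] in
lemma cst_ne_zero {F : ℕ → K} : cst F ≠ 0 ↔ ∀ᶠ N in (hyperfilter ℕ : Filter ℕ), F N ≠ 0 := by
  rw [Ne, cst_eq_zero, ← Ultrafilter.eventually_not]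

/-- the derivation of the ultrapower -/
noncomputable def Dst (D : Derivation ℂ K K) : Derivation ℤ (Kst K) (Kst K) :=
  Derivation.mk'
    (AddMonoidHom.toIntLinearMap
      { toFun := Filter.Germ.map D
        map_zero' := by
          have : (0 : Kst K) = cst (fun _ => 0) := rfl
          rw [this]
          show cst (fun _ => D 0) = cst (fun _ => 0)
          rw [map_zero]
        map_add' := fun x y => by
          obtain ⟨F, rfl⟩ := exists_cst x
          obtain ⟨G, rfl⟩ := exists_cst y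
          show cst (fun N => D (F N + G N)) = cst (fun N => D (F N)) + cst (fun N => D (G N))
          rw [← map_add]
          congr 1
          ext N
          rw [Pi.add_apply, map_add] })
    (fun x y => by
      obtain ⟨F, rfl⟩ := exists_cst x
      obtain ⟨G, rfl⟩ := exists_cst y
      show cst (fun N => D (F N * G N)) = cst F * cst (fun N => D (G N)) +
        cst G * cst (fun N => D (F N))
      rw [← map_mul, ← map_mul, ← map_add]
      congr 1
      ext N
      rw [D.leibniz]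
      rfl)

lemma Dst_cst (D : Derivation ℂ K K) (F : ℕ → K) : Dst D (cst F) = cst (fun N => D (F N)) := rfl

omit [Algebra ℂ K] in
lemma charZero_Kst [CharZero K] : CharZero (Kst K) := by
  refine ⟨fun a b h => ?_⟩
  have h1 : cst (fun _ : ℕ => (a : K)) = cst (fun _ => (b : K)) := by
    have h2 : ∀ c : ℕ, cst (fun _ : ℕ => (c : K)) = ((c : ℕ) : Kst K) := by
      intro c
      have := map_natCast (cst (K := K)) c
      rw [← this]
      rfl
    rw [h2, h2]
    exact h
  rw [cst_eq] at h1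
  obtain ⟨N, hN⟩ := h1.exists
  exact_mod_cast hN

section
variable {n : ℕ} (D : Derivation ℂ K K) (A : ℕ → Matrix (Fin (n + 1)) (Fin (n + 1)) K)

/-- classes of sequences of differential polynomials of bounded weight -/
def Good (x : Kst K) : Prop :=
  ∃ (d : ℕ) (F : ℕ → K), cst F = x ∧
    ∀ N, DP D (fun ab : Fin (n + 1) × Fin (n + 1) => A N ab.1 ab.2) d (F N)

variable {D A}

lemma Good.add {x y : Kst K} (hx : Good D A x) (hy : Good D A y) : Good D A (x + y) := by
  obtain ⟨d, F, rfl, hF⟩ := hx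
  obtain ⟨d', G, rfl, hG⟩ := hy
  exact ⟨max d d', F + G, map_add _ _ _, fun N =>
    .add (.mono (le_max_left _ _) (hF N)) (.mono (le_max_right _ _) (hG N))⟩

lemma Good.mul {x y : Kst K} (hx : Good D A x) (hy : Good D A y) : Good D A (x * y) := by
  obtain ⟨d, F, rfl, hF⟩ := hx
  obtain ⟨d', G, rfl, hG⟩ := hy
  exact ⟨d + d', F * G, map_mul _ _ _, fun N => .mul (hF N) (hG N)⟩

lemma Good.neg {x : Kst K} (hx : Good D A x) : Good D A (-x) := by
  obtain ⟨d, F, rfl, hF⟩ := hx
  exact ⟨d, -F, map_neg _ _, fun N => (hF N).neg⟩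

lemma Good.const (c : ℕ → ℂ) : Good D A (cst fun N => algebraMap ℂ K (c N)) :=
  ⟨0, _, rfl, fun N => .const _⟩

lemma Good.zero : Good D A 0 := by
  have := Good.const (D := D) (A := A) (fun _ => 0)
  have h : (cst fun _ : ℕ => algebraMap ℂ K 0) = 0 := by
    rw [map_zero]; rfl
  rwa [h] at this

lemma Good.one : Good D A 1 := by
  have := Good.const (D := D) (A := A) (fun _ => 1)
  have h : (cst fun _ : ℕ => algebraMap ℂ K 1) = 1 := by
    rw [map_one]; rfl
  rwa [h] at this

lemma Good.deriv {x : Kst K} (hx : Good D A x) : Good D A (Dst D x) := by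
  obtain ⟨d, F, rfl, hF⟩ := hx
  exact ⟨d + 1, _, (Dst_cst D F).symm, fun N => (hF N).deriv⟩

lemma Good.entry (i j : Fin (n + 1)) : Good D A (cst fun N => A N i j) :=
  ⟨1, _, rfl, fun N => DP.var (D := D)
    (a := fun ab : Fin (n + 1) × Fin (n + 1) => A N ab.1 ab.2) 0 (i, j)⟩

lemma Good.prod {ι : Type} (s : Finset ι) (f : ι → Kst K) (h : ∀ i ∈ s, Good D A (f i)) :
    Good D A (∏ i ∈ s, f i) := by
  classical
  induction s using Finset.induction_on with
  | empty => rw [Finset.prod_empty]; exact Good.one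
  | insert a s ha ih =>
    rw [Finset.prod_insert ha]
    exact (h a (Finset.mem_insert_self _ _)).mul
      (ih fun i hi => h i (Finset.mem_insert_of_mem hi))

variable (D A)

/-- the base field: quotients of good elements -/
noncomputable def kst : Subfield (Kst K) where
  carrier := {x | ∃ a b, Good D A a ∧ Good D A b ∧ b ≠ 0 ∧ x = a / b}
  zero_mem' := ⟨0, 1, Good.zero, Good.one, one_ne_zero, by simp⟩
  one_mem' := ⟨1, 1, Good.one, Good.one, one_ne_zero, by simp⟩
  add_mem' := by
    rintro x y ⟨a, b, ha, hb, hb0, rfl⟩ ⟨a', b', ha', hb', hb0', rfl⟩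
    exact ⟨a * b' + b * a', b * b', (ha.mul hb').add (hb.mul ha'), hb.mul hb',
      mul_ne_zero hb0 hb0', div_add_div _ _ hb0 hb0'⟩
  mul_mem' := by
    rintro x y ⟨a, b, ha, hb, hb0, rfl⟩ ⟨a', b', ha', hb', hb0', rfl⟩
    exact ⟨a * a', b * b', ha.mul ha', hb.mul hb', mul_ne_zero hb0 hb0', div_mul_div_comm _ _ _ _⟩
  neg_mem' := by
    rintro x ⟨a, b, ha, hb, hb0, rfl⟩
    exact ⟨-a, b, ha.neg, hb, hb0, by rw [neg_div]⟩
  inv_mem' := by
    rintro x ⟨a, b, ha, hb, hb0, rfl⟩
    by_cases h : a = 0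
    · exact ⟨0, 1, Good.zero, Good.one, one_ne_zero, by rw [h]; simp⟩
    · exact ⟨b, a, hb, ha, h, by rw [inv_div]⟩

variable {D A}

lemma mem_kst_of_good {x : Kst K} (h : Good D A x) : x ∈ kst D A :=
  ⟨x, 1, h, Good.one, one_ne_zero, by rw [div_one]⟩

lemma kst_D {x : Kst K} (h : x ∈ kst D A) : Dst D x ∈ kst D A := by
  obtain ⟨a, b, ha, hb, hb0, rfl⟩ := h
  have h1 : Dst D (a / b) = (Dst D a * b - a * Dst D b) / (b * b) := by
    have h2 : Dst D (a / b * b) = Dst D (a / b) * b + a / b * Dst D b := by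
      rw [(Dst D).leibniz, smul_eq_mul, smul_eq_mul]; ring
    rw [div_mul_cancel₀ _ hb0] at h2
    rw [h2]
    field_simp
    ring
  rw [h1]
  refine ⟨_, _, ?_, hb.mul hb, mul_ne_zero hb0 hb0, rfl⟩
  rw [sub_eq_add_neg]
  exact (ha.deriv.mul hb).add (ha.mul hb.deriv).neg

/-- Algebraic elements over the base field satisfy relations of bounded complexity. -/
lemma exists_algD {y : ℕ → K} (hy : IsAlgebraic (kst D A) (cst y)) :
    ∃ d : ℕ, ∀ᶠ N in (hyperfilter ℕ : Filter ℕ), AlgD D (A N) d (y N) := by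
  classical
  obtain ⟨p, hp0, hp⟩ := hy
  have hc : ∀ j, ∃ a b, Good D A a ∧ Good D A b ∧ b ≠ 0 ∧ (p.coeff j : Kst K) = a / b := fun j =>
    (p.coeff j).2
  choose a b ha hb hb0 hab using hc
  set s : Finset ℕ := Finset.range (p.natDegree + 1) with hs
  -- cleared coefficients
  let q : ℕ → Kst K := fun j => a j * ∏ i ∈ s.erase j, b i
  have hq : ∀ j, Good D A (q j) := fun j => (ha j).mul (Good.prod _ _ fun i _ => hb i)
  have hqc : ∀ j ∈ s, q j = (p.coeff j : Kst K) * ∏ i ∈ s, b i := by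
    intro j hj
    show a j * ∏ i ∈ s.erase j, b i = _
    rw [← Finset.mul_prod_erase s b hj, hab, ← mul_assoc, div_mul_cancel₀ _ (hb0 j)]
  have hrel : ∑ j ∈ s, q j * cst y ^ j = 0 := by
    have h1 : Polynomial.aeval (cst y) p = ∑ j ∈ s, (p.coeff j : Kst K) * cst y ^ j := by
      rw [Polynomial.aeval_eq_sum_range]
      rfl
    have h2 : ∑ j ∈ s, q j * cst y ^ j = (∏ i ∈ s, b i) * Polynomial.aeval (cst y) p := by
      rw [h1, Finset.mul_sum]
      refine Finset.sum_congr rfl fun j hj => ?_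
      rw [hqc j hj]; ring
    rw [h2, hp, mul_zero]
  have hne : q p.natDegree ≠ 0 := by
    rw [hqc _ (by simp [hs])]
    apply mul_ne_zero
    · intro h
      apply hp0
      rw [← Polynomial.leadingCoeff_eq_zero]
      exact Subtype.ext h
    · exact Finset.prod_ne_zero_iff.2 fun i _ => hb0 i
  choose d F hF hFD using hq
  set dd : ℕ := p.natDegree + ∑ j ∈ s, d j with hdd
  have hdj : ∀ j ∈ s, d j ≤ dd := fun j hj => by
    have := Finset.single_le_sum (f := d) (fun i _ => Nat.zero_le _) hj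
    omega
  refine ⟨dd, ?_⟩
  have h1 : ∀ᶠ N in (hyperfilter ℕ : Filter ℕ), ∑ j ∈ s, F j N * y N ^ j = 0 := by
    rw [← cst_eq_zero (F := fun N => ∑ j ∈ s, F j N * y N ^ j), ← hrel]
    have h2 : (fun N => ∑ j ∈ s, F j N * y N ^ j) = ∑ j ∈ s, F j * y ^ j := by
      ext N
      rw [Finset.sum_apply]
      rfl
    rw [h2, map_sum]
    refine Finset.sum_congr rfl fun j _ => ?_
    rw [map_mul, map_pow, hF]
  have h2 : ∀ᶠ N in (hyperfilter ℕ : Filter ℕ), F p.natDegree N ≠ 0 := by
    rw [← cst_ne_zero, hF]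
    exact hne
  filter_upwards [h1, h2] with N hN1 hN2
  refine ⟨fun j => if j ∈ s then F j N else 0, fun j => ?_, ⟨p.natDegree, by omega, ?_⟩, ?_⟩
  · show DP D _ dd (if j ∈ s then F j N else 0)
    split_ifs with hj
    · exact .mono (hdj j hj) (hFD j N)
    · exact DP.zero _ _ _
  · show (if p.natDegree ∈ s then F p.natDegree N else 0) ≠ 0
    rw [if_pos (by simp [hs])]
    exact hN2
  · rw [← Finset.sum_subset (s₁ := s) (Finset.range_mono (by omega)) ?_]
    · refine Eq.trans (Finset.sum_congr rfl fun j hj => ?_) hN1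
      show (if j ∈ s then F j N else 0) * y N ^ j = F j N * y N ^ j
      rw [if_pos hj]
    · intro j _ hj
      show (if j ∈ s then F j N else 0) * y N ^ j = 0
      rw [if_neg hj, zero_mul]

end

end Pool.Agent.Stat
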