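import Pool.Agent.Lib_MP_b9fedf_st.Mer
import Pool.Agent.Lib_MP_b9fedf_st.Frob
import Pool.Agent.Lib_MP_b9fedf_st.CharH
import Pool.Agent.Lib_MP_b9fedf_st.Ultra

/-! B3, B4. Orders and bounds of the differential polynomials. -/

set_option autoImplicit false

namespace Pool.Agent.Stat

open Filter Topology Metric

/-- order of a meromorphic function at a point -/
noncomputable def ordM (x : Mer) (a : ℂ) : WithTop ℤ := meromorphicOrderAt (exists_mk x).choose a

theorem ordM_mk {f : ℂ → ℂ} (hf : Meromorphic f) (a : ℂ) :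
    ordM (mk f hf) a = meromorphicOrderAt f a := by
  obtain ⟨hg, h⟩ := (exists_mk (mk f hf)).choose_spec
  unfold ordM
  apply meromorphicOrderAt_congr
  have h1 := mk_eq.1 h
  rw [Filter.EventuallyEq, eventually_codiscrete_iff] at h1
  exact h1 a

theorem le_ordM_add {x y : Mer} {a : ℂ} {k : WithTop ℤ} (hx : k ≤ ordM x a) (hy : k ≤ ordM y a) :
    k ≤ ordM (x + y) a := by
  obtain ⟨f, hf, rfl⟩ := exists_mk x
  obtain ⟨g, hg, rfl⟩ := exists_mk y
  rw [ordM_mk] at hx hy
  rw [mk_add, ordM_mk]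
  exact (le_min hx hy).trans (meromorphicOrderAt_add (hf a) (hg a))

theorem ordM_mul (x y : Mer) (a : ℂ) : ordM (x * y) a = ordM x a + ordM y a := by
  obtain ⟨f, hf, rfl⟩ := exists_mk x
  obtain ⟨g, hg, rfl⟩ := exists_mk y
  rw [mk_mul, ordM_mk, ordM_mk, ordM_mk]
  exact meromorphicOrderAt_mul (hf a) (hg a)

theorem ordM_inv (x : Mer) (a : ℂ) : ordM x⁻¹ a = -ordM x a := by
  obtain ⟨f, hf, rfl⟩ := exists_mk x
  rw [mk_inv, ordM_mk, ordM_mk]
  exact meromorphicOrderAt_inv

theorem ordM_ne_top {x : Mer} (hx : x ≠ 0) (a : ℂ) : ordM x a ≠ ⊤ := by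
  obtain ⟨f, hf, rfl⟩ := exists_mk x
  rw [ordM_mk]
  exact order_of_ne_zero hx a

theorem ordM_analytic {f : ℂ → ℂ} (hf : Meromorphic f) {a : ℂ} (h : AnalyticAt ℂ f a) :
    0 ≤ ordM (mk f hf) a := by
  rw [ordM_mk]
  exact h.meromorphicOrderAt_nonneg

theorem ordM_const (c : ℂ) (a : ℂ) : 0 ≤ ordM (algebraMap ℂ Mer c) a := by
  rw [algebraMap_mer]
  exact ordM_analytic _ analyticAt_const

theorem ordM_dMer_nonneg {x : Mer} {a : ℂ} (h : 0 ≤ ordM x a) : 0 ≤ ordM (dMer x) a := by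
  obtain ⟨f, hf, rfl⟩ := exists_mk x
  rw [ordM_mk] at h
  rw [dMer_mk, ordM_mk]
  obtain ⟨g, hg, hfg⟩ := ((hf a).meromorphicOrderAt_nonneg_iff).1 h
  rw [meromorphicOrderAt_congr hfg.nhdsNE_deriv]
  exact hg.deriv.meromorphicOrderAt_nonneg

theorem ordM_dMer {x : Mer} {a : ℂ} {k : ℤ} (h : (k : WithTop ℤ) ≤ ordM x a) :
    ((k - 1 : ℤ) : WithTop ℤ) ≤ ordM (dMer x) a := by
  obtain ⟨f, hf, rfl⟩ := exists_mk x
  by_cases h0 : 0 ≤ ordM (mk f hf) a
  · by_cases hk : k ≤ 1
    · refine le_trans ?_ (ordM_dMer_nonneg h0)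
      exact_mod_cast (by omega : k - 1 ≤ 0)
    · rw [dMer_mk, ordM_mk]
      rw [ordM_mk] at h
      cases hn : meromorphicOrderAt f a with
      | top =>
        have h1 : f =ᶠ[𝓝[≠] a] fun _ => 0 := meromorphicOrderAt_eq_top_iff.1 hn
        have h2 : meromorphicOrderAt (deriv f) a = ⊤ := by
          rw [meromorphicOrderAt_eq_top_iff]
          filter_upwards [h1.nhdsNE_deriv] with z hz
          rw [hz]
          simp
        rw [h2]
        exact le_top
      | coe n =>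
        rw [hn] at h
        have h1 : k ≤ n := by exact_mod_cast h
        rw [meromorphicOrderAt_deriv_eq_sub_one (by exact_mod_cast (by omega : n ≠ 0)) hn]
        exact_mod_cast (by omega : k - 1 ≤ n - 1)
  · rw [dMer_mk, ordM_mk]
    rw [ordM_mk] at h h0
    cases hn : meromorphicOrderAt f a with
    | top => rw [hn] at h0; exact absurd le_top h0
    | coe n =>
      rw [hn] at h h0
      have h1 : k ≤ n := by exact_mod_cast h
      have h2 : ¬ 0 ≤ n := fun h3 => h0 (by exact_mod_cast h3)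
      rw [meromorphicOrderAt_deriv_eq_sub_one (by exact_mod_cast (by omega : n ≠ 0)) hn]
      exact_mod_cast (by omega : k - 1 ≤ n - 1)

theorem ordM_dMer_iter {x : Mer} {a : ℂ} {k : ℤ} (h : (k : WithTop ℤ) ≤ ordM x a) (p : ℕ) :
    ((k - p : ℤ) : WithTop ℤ) ≤ ordM ((⇑dMer)^[p] x) a := by
  induction p with
  | zero => simpa using h
  | succ p ih =>
    rw [Function.iterate_succ_apply']
    have := ordM_dMer ih
    have h1 : k - p - 1 = k - ((p + 1 : ℕ) : ℤ) := by push_cast; ring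
    rwa [h1] at this

/-- weight and poles -/
theorem HW.order {ι : Type} {H : ι → Mer} (hH : ∀ i, H i ≠ 0) {w : ℕ} {x : Mer}
    (h : HW dMer H w x) (a : ℂ) : ((-(w : ℤ) : ℤ) : WithTop ℤ) ≤ ordM x a := by
  induction h with
  | const c =>
    have := ordM_const c a
    simpa using this
  | var p i =>
    rw [div_eq_mul_inv, ordM_mul, ordM_inv]
    have h1 := ordM_ne_top (hH i) a
    cases hn : ordM (H i) a with
    | top => exact absurd hn h1
    | coe k =>
      have h2 := ordM_dMer_iter (le_of_eq hn.symm) p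
      have h3 : ((-(p : ℤ) : ℤ) : WithTop ℤ) = ((k - p : ℤ) : WithTop ℤ) + -((k : ℤ) : WithTop ℤ) := by
        rw [← WithTop.LinearOrderedAddCommGroup.coe_neg, ← WithTop.coe_add]
        congr 1
        ring
      rw [h3]
      exact add_le_add_left h2 _
  | add hx hy ihx ihy => exact le_ordM_add ihx ihy
  | @mul w w' x y hx hy ihx ihy =>
    rw [ordM_mul]
    have h3 : ((-((w + w' : ℕ) : ℤ) : ℤ) : WithTop ℤ) =
        ((-(w : ℤ) : ℤ) : WithTop ℤ) + ((-(w' : ℤ) : ℤ) : WithTop ℤ) := by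
      rw [← WithTop.coe_add]
      congr 1
      push_cast
      ring
    rw [h3]
    exact add_le_add ihx ihy
  | @mono w w' x hw hx ih =>
    refine le_trans ?_ ih
    exact_mod_cast (by omega : -(w' : ℤ) ≤ -(w : ℤ))

end Pool.Agent.Stat
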