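import Pool.Agent.Lib_MP_b9fedf_st.Bounds

/-! B3, B4, second part: circles, Wronskians, poles of the coefficients. -/

set_option autoImplicit false

namespace Pool.Agent.Stat

open Filter Topology Metric

/-- the ring of meromorphic functions (not identified) -/
def merFun : Subring (ℂ → ℂ) where
  carrier := {f | Meromorphic f}
  zero_mem' := Meromorphic.const 0
  one_mem' := Meromorphic.const 1
  add_mem' := fun hf hg => hf.add hg
  mul_mem' := fun hf hg => hf.mul hg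
  neg_mem' := fun hf => hf.neg

/-- the class map as a ring homomorphism -/
noncomputable def mkHom : merFun →+* Mer where
  toFun f := mk f.1 f.2
  map_one' := rfl
  map_zero' := rfl
  map_add' _ _ := rfl
  map_mul' _ _ := rfl

theorem gN_differentiable {n : ℕ} {g : ℂ → Fin (n + 1) → ℂ} (hg : Differentiable ℂ g) (j : ℕ) :
    Differentiable ℂ (gN g j) := by
  unfold gN
  by_cases h : j < n + 1
  · simp only [h, dif_pos]
    exact differentiable_pi.1 hg _
  · simp only [h, dif_neg, not_false_iff]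
    exact differentiable_const _

theorem mero_of_differentiable {f : ℂ → ℂ} (hf : Differentiable ℂ f) : Meromorphic f := fun z =>
  (hf.analyticAt z).meromorphicAt

/-- the components of `g` in `Mer` -/
noncomputable def gM {n : ℕ} {g : ℂ → Fin (n + 1) → ℂ} (hg : Differentiable ℂ g) (j : ℕ) : Mer :=
  mk (gN g j) (mero_of_differentiable (gN_differentiable hg j))

theorem wr_gM {n : ℕ} {g : ℂ → Fin (n + 1) → ℂ} (hg : Differentiable ℂ g) (k : ℕ) :
    wr dMer (gM hg) k = mk (wrf g k) (mero_of_differentiable (wrf_differentiable hg k)) := by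
  have hit : ∀ i j : Fin k, ∃ h : Meromorphic (iteratedDeriv (i : ℕ) (gN g j)),
      (⇑dMer)^[(i : ℕ)] (gM hg j) = mk (iteratedDeriv (i : ℕ) (gN g j)) h := fun i j =>
    dMer_iter_mk _ _
  choose hm hmk using hit
  let M0 : Matrix (Fin k) (Fin k) merFun :=
    Matrix.of fun i j => ⟨iteratedDeriv (i : ℕ) (gN g j), hm i j⟩
  have h1 : (Matrix.of fun i j : Fin k => (⇑dMer)^[(i : ℕ)] (gM hg j)) = mkHom.mapMatrix M0 := by
    ext i j
    rw [Matrix.of_apply, hmk]
    rfl
  have h2 : wr dMer (gM hg) k = mkHom M0.det := by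
    rw [wr, h1, ← RingHom.map_det]
  have h3 : (M0.det : ℂ → ℂ) = wrf g k := by
    ext z
    have h4 := RingHom.map_det ((Pi.evalRingHom (fun _ : ℂ => ℂ) z).comp merFun.subtype) M0
    have h5 : ((Pi.evalRingHom (fun _ : ℂ => ℂ) z).comp merFun.subtype) M0.det =
        (M0.det : ℂ → ℂ) z := rfl
    rw [← h5, h4]
    rfl
  rw [h2]
  show mk (M0.det : ℂ → ℂ) M0.det.2 = _
  rw [mk_eq, h3]

theorem mk_ne_zero_of_exists {f : ℂ → ℂ} (hf : Differentiable ℂ f) (h : ∃ z, f z ≠ 0) :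
    mk f (mero_of_differentiable hf) ≠ 0 := by
  intro h0
  obtain ⟨z, hz⟩ := h
  rw [mk_eq_zero, Filter.EventuallyEq, eventually_codiscrete_iff] at h0
  have h1 : ∀ᶠ w in 𝓝[≠] z, f w ≠ 0 :=
    (hf.continuous.continuousAt.eventually_ne hz).filter_mono nhdsWithin_le_nhds
  obtain ⟨w, hw1, hw2⟩ := ((h0 z).and h1).exists
  exact hw2 hw1

theorem wr_gM_ne_zero {n : ℕ} {g : ℂ → Fin (n + 1) → ℂ} (hg : Differentiable ℂ g)
    (hli : LinearIndependent ℂ (fun (j : Fin (n + 1)) z => g z j)) {k : ℕ} (hk : k ≤ n + 1) :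
    wr dMer (gM hg) k ≠ 0 := by
  rw [wr_gM hg]
  exact mk_ne_zero_of_exists (wrf_differentiable hg k) (exists_wrf_ne_zero hg hli hk)

theorem Hf_meromorphic {n : ℕ} {g : ℂ → Fin (n + 1) → ℂ} (hg : Differentiable ℂ g) (k l : ℕ) :
    Meromorphic (Hf g k l) := by
  intro z
  exact (((wrf_differentiable hg _).analyticAt z).meromorphicAt.mul
    ((wrf_differentiable hg _).analyticAt z).meromorphicAt).div
    (((wrf_differentiable hg _).analyticAt z).meromorphicAt.mul
    ((wrf_differentiable hg _).analyticAt z).meromorphicAt)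

theorem hq_gM {n : ℕ} {g : ℂ → Fin (n + 1) → ℂ} (hg : Differentiable ℂ g)
    (hli : LinearIndependent ℂ (fun (j : Fin (n + 1)) z => g z j)) (k l : Fin (n + 1)) :
    hq dMer (gM hg) k / hq dMer (gM hg) l = mk (Hf g k l) (Hf_meromorphic hg k l) := by
  have h1 := wr_gM_ne_zero hg hli (k := k) (by omega)
  have h2 := wr_gM_ne_zero hg hli (k := l) (by omega)
  have h3 := wr_gM_ne_zero hg hli (k := k + 1) (by omega)
  have h4 := wr_gM_ne_zero hg hli (k := l + 1) (by omega)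
  have h5 : hq dMer (gM hg) k / hq dMer (gM hg) l =
      (wr dMer (gM hg) (k + 1) * wr dMer (gM hg) l) / (wr dMer (gM hg) k *
        wr dMer (gM hg) (l + 1)) := by
    unfold hq
    field_simp
  rw [h5, wr_gM, wr_gM, wr_gM, wr_gM, mk_mul, mk_mul, mk_div, mk_eq]
  exact Filter.EventuallyEq.rfl

theorem hq_ne_zero {n : ℕ} {g : ℂ → Fin (n + 1) → ℂ} (hg : Differentiable ℂ g)
    (hli : LinearIndependent ℂ (fun (j : Fin (n + 1)) z => g z j))
    (kl : Fin (n + 1) × Fin (n + 1)) :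
    hq dMer (gM hg) kl.1 / hq dMer (gM hg) kl.2 ≠ 0 := by
  have h1 := wr_gM_ne_zero hg hli (k := kl.1) (by omega)
  have h2 := wr_gM_ne_zero hg hli (k := kl.2) (by omega)
  have h3 := wr_gM_ne_zero hg hli (k := kl.1 + 1) (by omega)
  have h4 := wr_gM_ne_zero hg hli (k := kl.2 + 1) (by omega)
  unfold hq
  exact div_ne_zero (div_ne_zero h3 h1) (div_ne_zero h4 h2)

/-- good circles: the lemma on the logarithmic derivative holds for the Frobenius quotients -/
def Circ {n : ℕ} (g : ℂ → Fin (n + 1) → ℂ) (r B : ℝ) : Prop :=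
  ∀ k l : Fin (n + 1), ∀ z ∈ sphere (0 : ℂ) r, AnalyticAt ℂ (Hf g k l) z →
    ∀ i : ℕ, ‖iteratedDeriv i (Hf g k l) z‖ ≤ Real.exp 1 * i.factorial * B ^ i * ‖Hf g k l z‖

/-- bounded by `K B^w` on good circles -/
def CB {n : ℕ} (g : ℂ → Fin (n + 1) → ℂ) (w : ℕ) (x : Mer) : Prop :=
  ∀ (f : ℂ → ℂ) (hf : Meromorphic f), mk f hf = x → ∃ K : ℝ, 0 ≤ K ∧ ∀ r B : ℝ, 1 ≤ r → 1 ≤ B →
    Circ g r B → ∀ᶠ z in codiscreteWithin (sphere (0 : ℂ) r), ‖f z‖ ≤ K * B ^ w

theorem CB.of_mk {n : ℕ} {g : ℂ → Fin (n + 1) → ℂ} {w : ℕ} (f : ℂ → ℂ) (hf : Meromorphic f)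
    (h : ∃ K : ℝ, 0 ≤ K ∧ ∀ r B : ℝ, 1 ≤ r → 1 ≤ B →
    Circ g r B → ∀ᶠ z in codiscreteWithin (sphere (0 : ℂ) r), ‖f z‖ ≤ K * B ^ w) :
    CB g w (mk f hf) := by
  intro f' hf' hff'
  obtain ⟨K, hK, h⟩ := h
  refine ⟨K, hK, fun r B hr hB hC => ?_⟩
  have h1 : f' =ᶠ[codiscreteWithin (sphere (0 : ℂ) r)] f :=
    (mk_eq.1 hff').filter_mono (codiscreteWithin_mono (Set.subset_univ _))
  filter_upwards [h r B hr hB hC, h1] with z hz1 hz2
  rw [hz2]
  exact hz1

theorem HW.circ {n : ℕ} {g : ℂ → Fin (n + 1) → ℂ} (hg : Differentiable ℂ g)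
    (hli : LinearIndependent ℂ (fun (j : Fin (n + 1)) z => g z j)) {w : ℕ} {x : Mer}
    (h : HW dMer (fun kl : Fin (n + 1) × Fin (n + 1) => hq dMer (gM hg) kl.1 /
      hq dMer (gM hg) kl.2) w x) : CB g w x := by
  induction h with
  | const c =>
    rw [algebraMap_mer]
    refine CB.of_mk _ _ ⟨‖c‖, norm_nonneg _, fun r B hr hB hC => ?_⟩
    filter_upwards with z
    simp
  | var p kl =>
    obtain ⟨k, l⟩ := kl
    show CB g p ((⇑dMer)^[p] (hq dMer (gM hg) k / hq dMer (gM hg) l) /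
      (hq dMer (gM hg) k / hq dMer (gM hg) l))
    rw [hq_gM hg hli]
    obtain ⟨hm, h1⟩ := dMer_iter_mk (Hf_meromorphic hg k l) p
    rw [h1, mk_div]
    refine CB.of_mk _ _ ⟨Real.exp 1 * p.factorial, by positivity, fun r B hr hB hC => ?_⟩
    have h2 := (analyticAt_codiscrete (Hf_meromorphic hg k l)).filter_mono
      (codiscreteWithin_mono (Set.subset_univ (sphere (0 : ℂ) r)))
    filter_upwards [h2, self_mem_codiscreteWithin (sphere (0 : ℂ) r)] with z hz hzs
    have h3 := hC k l z hzs hz p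
    rw [Pi.div_apply, norm_div]
    rcases eq_or_ne (Hf g k l z) 0 with h4 | h4
    · rw [h4, norm_zero, div_zero]
      positivity
    · rw [div_le_iff₀ (norm_pos_iff.2 h4)]
      exact h3
  | @add w x y hx hy ihx ihy =>
    obtain ⟨f, hf, rfl⟩ := exists_mk x
    obtain ⟨f', hf', rfl⟩ := exists_mk y
    rw [mk_add]
    obtain ⟨K, hK, h1⟩ := ihx f hf rfl
    obtain ⟨K', hK', h2⟩ := ihy f' hf' rfl
    refine CB.of_mk _ _ ⟨K + K', by positivity, fun r B hr hB hC => ?_⟩
    filter_upwards [h1 r B hr hB hC, h2 r B hr hB hC] with z hz1 hz2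
    rw [Pi.add_apply]
    refine (norm_add_le _ _).trans ?_
    linarith
  | @mul w w' x y hx hy ihx ihy =>
    obtain ⟨f, hf, rfl⟩ := exists_mk x
    obtain ⟨f', hf', rfl⟩ := exists_mk y
    rw [mk_mul]
    obtain ⟨K, hK, h1⟩ := ihx f hf rfl
    obtain ⟨K', hK', h2⟩ := ihy f' hf' rfl
    refine CB.of_mk _ _ ⟨K * K', by positivity, fun r B hr hB hC => ?_⟩
    filter_upwards [h1 r B hr hB hC, h2 r B hr hB hC] with z hz1 hz2
    rw [Pi.mul_apply, norm_mul, pow_add]
    calc ‖f z‖ * ‖f' z‖ ≤ (K * B ^ w) * (K' * B ^ w') :=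
          mul_le_mul hz1 hz2 (norm_nonneg _) (by positivity)
      _ = K * K' * (B ^ w * B ^ w') := by ring
  | @mono w w' x hw hx ih =>
    obtain ⟨f, hf, rfl⟩ := exists_mk x
    obtain ⟨K, hK, h1⟩ := ih f hf rfl
    refine CB.of_mk _ _ ⟨K, hK, fun r B hr hB hC => ?_⟩
    filter_upwards [h1 r B hr hB hC] with z hz1
    exact hz1.trans (mul_le_mul_of_nonneg_left (pow_le_pow_right₀ hB hw) hK)

/-- the ring of meromorphic functions without poles off the zeros of `W` -/
noncomputable def Reg (W : ℂ → ℂ) : Subring Mer where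
  carrier := {x | ∀ a, W a ≠ 0 → 0 ≤ ordM x a}
  zero_mem' := fun a _ => by
    have := ordM_const 0 a
    rwa [map_zero] at this
  one_mem' := fun a _ => by
    have := ordM_const 1 a
    rwa [map_one] at this
  add_mem' := fun hx hy a ha => le_ordM_add (hx a ha) (hy a ha)
  mul_mem' := fun {x y} hx hy a ha => by
    rw [ordM_mul]
    exact add_nonneg (hx a ha) (hy a ha)
  neg_mem' := fun {x} hx a ha => by
    have h1 : -x = algebraMap ℂ Mer (-1) * x := by rw [map_neg, map_one, neg_one_mul]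
    rw [h1, ordM_mul]
    exact add_nonneg (ordM_const _ a) (hx a ha)

theorem mem_Reg {W : ℂ → ℂ} {x : Mer} : x ∈ Reg W ↔ ∀ a, W a ≠ 0 → 0 ≤ ordM x a := Iff.rfl

theorem Reg_const (W : ℂ → ℂ) (c : ℂ) : algebraMap ℂ Mer c ∈ Reg W := fun a _ => ordM_const c a

theorem Reg_deriv {W : ℂ → ℂ} {x : Mer} (h : x ∈ Reg W) : dMer x ∈ Reg W := fun a ha =>
  ordM_dMer_nonneg (h a ha)

theorem Reg_entire (W : ℂ → ℂ) {f : ℂ → ℂ} (hf : Differentiable ℂ f) :
    mk f (mero_of_differentiable hf) ∈ Reg W := fun a _ => ordM_analytic _ (hf.analyticAt a)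

theorem Reg_inv {W : ℂ → ℂ} (hW : Differentiable ℂ W) :
    (mk W (mero_of_differentiable hW))⁻¹ ∈ Reg W := by
  intro a ha
  rw [ordM_inv, ordM_mk, (hW.analyticAt a).meromorphicOrderAt_eq,
    (hW.analyticAt a).analyticOrderAt_eq_zero.2 ha]
  simp

/-- differential polynomials in regular functions are regular -/
theorem DP.reg {ι : Type} {W : ℂ → ℂ} {a : ι → Mer} (ha : ∀ i, a i ∈ Reg W) {w : ℕ} {x : Mer}
    (h : DP dMer a w x) : x ∈ Reg W := by
  induction h with
  | const c => exact Reg_const W c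
  | var s i =>
    induction s with
    | zero => exact ha i
    | succ s ih =>
      rw [Function.iterate_succ_apply']
      exact Reg_deriv ih
  | add hx hy ihx ihy => exact add_mem ihx ihy
  | mul hx hy ihx ihy => exact mul_mem ihx ihy
  | mono hw hx ih => exact ih

/-- Cramer's rule in a subring: if `a U = b` with `U`, `b` and `(det U)⁻¹` in the subring then so
is `a`. -/
theorem mem_of_cramer {K : Type} [Field K] (R : Subring K) {N : ℕ} (U : Matrix (Fin N) (Fin N) K)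
    (hU : ∀ i j, U i j ∈ R) (hdet : U.det ≠ 0) (hdi : (U.det)⁻¹ ∈ R) (a b : Fin N → K)
    (hb : ∀ j, b j ∈ R) (hab : ∀ j, ∑ i, a i * U i j = b j) (i : Fin N) : a i ∈ R := by
  have h1 : Matrix.vecMul a U = b := by
    ext j
    rw [← hab]
    rfl
  have hu : IsUnit U.det := isUnit_iff_ne_zero.2 hdet
  have h2 : a = Matrix.vecMul b U⁻¹ := by
    rw [← h1, Matrix.vecMul_vecMul, Matrix.mul_nonsing_inv U hu, Matrix.vecMul_one]
  let U' : Matrix (Fin N) (Fin N) R := Matrix.of fun i j => ⟨U i j, hU i j⟩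
  have h3 : U = R.subtype.mapMatrix U' := by
    ext i j
    rfl
  have h4 : ∀ i j, U⁻¹ i j ∈ R := by
    intro i j
    rw [Matrix.inv_def, Matrix.smul_apply, smul_eq_mul, Ring.inverse_eq_inv']
    refine mul_mem hdi ?_
    rw [h3, ← RingHom.map_adjugate]
    exact (U'.adjugate i j).2
  rw [h2]
  show ∑ j, b j * U⁻¹ j i ∈ R
  exact sum_mem fun j _ => mul_mem (hb j) (h4 j i)

end Pool.Agent.Stat
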