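import Pool.Agent.Lib_MP_b9fedf_st.Ultra

/-! A3. The uniform algebraic dichotomy. -/

set_option autoImplicit false

namespace Pool.Agent.Stat

open MvPolynomial Filter

variable {K : Type} [Field K] [Algebra ℂ K] {m n e : ℕ} {R : Type} {dg : R → ℕ}

/-- evaluation of the universal ring in `K` -/
noncomputable def spK (P : Fin (m + 1) → MvPolynomial (Fin (n + 1)) ℂ)
    (p : R → MvPolynomial (Fin (m + 1)) ℂ)
    (ξ : Matrix (Fin (n + 1)) (Fin (n + 1)) ℂ) (x : Fin (n + 1) → K) :
    MvPolynomial (Vars m n e dg) ℂ →ₐ[ℂ] K :=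
  (aeval x).comp (sp (e := e) P p ξ)

/-- evaluation of the universal ring in the ultrapower -/
noncomputable def spS (P : ℕ → Fin (m + 1) → MvPolynomial (Fin (n + 1)) ℂ)
    (p : ℕ → R → MvPolynomial (Fin (m + 1)) ℂ)
    (ξ : ℕ → Matrix (Fin (n + 1)) (Fin (n + 1)) ℂ) (x : ℕ → Fin (n + 1) → K) :
    MvPolynomial (Vars m n e dg) ℂ →+* Kst K :=
  cst.comp (RingHom.pi fun N => (spK (e := e) (P N) (p N) (ξ N) (x N)).toRingHom)

section
variable (P : ℕ → Fin (m + 1) → MvPolynomial (Fin (n + 1)) ℂ)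
    (p : ℕ → R → MvPolynomial (Fin (m + 1)) ℂ)
    (ξ : ℕ → Matrix (Fin (n + 1)) (Fin (n + 1)) ℂ) (x : ℕ → Fin (n + 1) → K)

lemma spS_apply (q : MvPolynomial (Vars m n e dg) ℂ) :
    spS P p ξ x q = cst fun N => spK (e := e) (P N) (p N) (ξ N) (x N) q := rfl

lemma spS_C (a : ℂ) :
    spS (e := e) (dg := dg) P p ξ x (C a) = cst fun _ => algebraMap ℂ K a := by
  rw [spS_apply]
  congr 1
  ext N
  rw [← algebraMap_eq, AlgHom.commutes]

lemma spS_inl (v : (Fin (m + 1) × Fe n e) ⊕ (Σ r : R, Fe m (dg r))) :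
    ∃ c : ℕ → ℂ, spS (e := e) (dg := dg) P p ξ x (X (Sum.inl v)) =
      cst fun N => algebraMap ℂ K (c N) := by
  rcases v with v | v
  · refine ⟨fun N => coeff v.2.1 (P N v.1), ?_⟩
    rw [spS_apply]
    congr 1
    ext N
    rw [spK, AlgHom.comp_apply, sp, aeval_X]
    exact aeval_C _ _
  · refine ⟨fun N => coeff v.2.1 (p N v.1), ?_⟩
    rw [spS_apply]
    congr 1
    ext N
    rw [spK, AlgHom.comp_apply, sp, aeval_X]
    exact aeval_C _ _

lemma spS_Xx (j : Fin (n + 1)) :
    spS (e := e) (dg := dg) P p ξ x (Xx j) = cst fun N => x N j := by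
  rw [spS_apply]
  congr 1
  ext N
  rw [spK, AlgHom.comp_apply, sp, aeval_X]
  exact aeval_X _ _

lemma spS_Xm (l j : Fin (n + 1)) :
    spS (e := e) (dg := dg) P p ξ x (Xm l j) = cst fun N => algebraMap ℂ K (ξ N l j) := by
  rw [spS_apply]
  congr 1
  ext N
  rw [spK, AlgHom.comp_apply, sp, aeval_X]
  exact aeval_C _ _

end

lemma spK_Pu (P : Fin (m + 1) → MvPolynomial (Fin (n + 1)) ℂ) (hP : ∀ i, (P i).IsHomogeneous e)
    (p : R → MvPolynomial (Fin (m + 1)) ℂ)
    (ξ : Matrix (Fin (n + 1)) (Fin (n + 1)) ℂ) (x : Fin (n + 1) → K) (i : Fin (m + 1)) :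
    spK (e := e) (dg := dg) P p ξ x (Pu m n e dg i) = aeval x (P i) := by
  rw [spK, AlgHom.comp_apply, sp_Pu P hP]

/-- chain rule -/
lemma chain {k : Subfield (Kst K)} (hk : ∀ c : ℕ → ℂ, (cst fun N => algebraMap ℂ K (c N)) ∈ k)
    (δ : Derivation k (Kst K) (Kst K)) (P : ℕ → Fin (m + 1) → MvPolynomial (Fin (n + 1)) ℂ)
    (p : ℕ → R → MvPolynomial (Fin (m + 1)) ℂ)
    (ξ : ℕ → Matrix (Fin (n + 1)) (Fin (n + 1)) ℂ) (x : ℕ → Fin (n + 1) → K) (t : Kst K)
    (F : Derivation ℂ (MvPolynomial (Vars m n e dg) ℂ) (MvPolynomial (Vars m n e dg) ℂ))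
    (hF1 : ∀ v, F (X (Sum.inl v)) = 0) (hF2 : ∀ v, F (X (Sum.inr (Sum.inr v))) = 0)
    (h : ∀ j, δ (cst fun N => x N j) = spS P p ξ x (F (Xx j)) + t * cst fun N => x N j)
    (q : MvPolynomial (Vars m n e dg) ℂ) :
    δ (spS P p ξ x q) = spS P p ξ x (F q) + t * spS P p ξ x (Eu m n e dg q) := by
  have hδ : ∀ c : ℕ → ℂ, δ (cst fun N => algebraMap ℂ K (c N)) = 0 := fun c =>
    δ.map_algebraMap (⟨_, hk c⟩ : k)
  have key : ∀ v, δ (spS P p ξ x (X v)) =
      spS P p ξ x (F (X v)) + t * spS P p ξ x (Eu m n e dg (X v)) := by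
    intro v
    rcases v with v | j | ⟨l, j⟩
    · obtain ⟨c, hc⟩ := spS_inl (e := e) (dg := dg) P p ξ x v
      rw [hc, hδ, hF1, Eu_inl, map_zero, mul_zero, add_zero]
    · rw [Eu_Xx, spS_Xx, h]
    · rw [spS_Xm, hδ, hF2, Eu_Xm, map_zero, mul_zero, add_zero]
  induction q using MvPolynomial.induction_on with
  | C a =>
    rw [spS_C, hδ]
    have h1 : F (C a) = 0 := by rw [← algebraMap_eq, Derivation.map_algebraMap]
    have h2 : Eu m n e dg (C a) = 0 := by rw [← algebraMap_eq, Derivation.map_algebraMap]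
    rw [h1, h2, map_zero, mul_zero, add_zero]
  | add p q hp hq =>
    simp only [map_add, hp, hq]
    ring
  | mul_X p v hp =>
    rw [map_mul, δ.leibniz, hp, key, F.leibniz, (Eu m n e dg).leibniz]
    simp only [smul_eq_mul, map_add, map_mul]
    ring

/-- A3. The uniform algebraic dichotomy, for one pair of coordinates. -/
theorem core_pair [Finite R] (D : Derivation ℂ K K)
    (hD : ∀ x, D x = 0 → ∃ c : ℂ, algebraMap ℂ K c = x) (dg : R → ℕ) (n e : ℕ)
    (i0 i : Fin (m + 1)) :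
    ∃ d : ℕ, ∀ (U A : Matrix (Fin (n + 1)) (Fin (n + 1)) K) (w : K), U.det ≠ 0 →
      (∀ i j, D (U i j) = ∑ l, A i l * U l j + w * U i j) →
      ∀ P : Fin (m + 1) → MvPolynomial (Fin (n + 1)) ℂ, (∀ i, (P i).IsHomogeneous e) →
      ∀ p : R → MvPolynomial (Fin (m + 1)) ℂ, (∀ r, (p r).IsHomogeneous (dg r)) →
        aeval (U 0) (P i0) ≠ 0 →
        (∀ r, aeval (fun i => aeval (U 0) (P i)) (p r) = 0) →
        AlgD D A d (aeval (U 0) (P i) / aeval (U 0) (P i0)) ∨
        ∃ ξ : Matrix (Fin (n + 1)) (Fin (n + 1)) ℂ,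
          (∀ r, ∀ l : ℕ, aeval (U 0) ((⇑(Dxi ξ))^[l] (aeval P (p r))) = 0) ∧
          aeval (U 0) (P i0 * Dxi ξ (P i) - P i * Dxi ξ (P i0)) ≠ 0 := by
  have hchar : CharZero K := charZero_of_injective_algebraMap (algebraMap ℂ K).injective
  have hcharS : CharZero (Kst K) := charZero_Kst
  by_contra hcon
  push Not at hcon
  choose U A w hdet hU P hP p hp hP0 hPS hnot hno using hcon
  set y : ℕ → K := fun N => aeval (U N 0) (P N i) / aeval (U N 0) (P N i0) with hy
  by_cases halg : IsAlgebraic (kst D A) (cst y)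
  · obtain ⟨d, hd⟩ := exists_algD halg
    have h1 : ∀ᶠ N in (hyperfilter ℕ : Filter ℕ), d ≤ N := by
      have : ∀ᶠ N in (atTop : Filter ℕ), d ≤ N := eventually_ge_atTop d
      exact Nat.hyperfilter_le_atTop this
    obtain ⟨N, hN1, hN2⟩ := (hd.and h1).exists
    exact hnot N (hN1.mono hN2)
  have hk : ∀ c : ℕ → ℂ, (cst fun N => algebraMap ℂ K (c N)) ∈ kst D A := fun c =>
    mem_kst_of_good (Good.const c)
  -- the matrices in the ultrapower
  set Us : Matrix (Fin (n + 1)) (Fin (n + 1)) (Kst K) :=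
    Matrix.of fun i j => cst fun N => U N i j with hUs
  set As : Matrix (Fin (n + 1)) (Fin (n + 1)) (Kst K) :=
    Matrix.of fun i j => cst fun N => A N i j with hAs
  have hUsd : Us.det ≠ 0 := by
    have h1 : Us.det = cst fun N => (U N).det := by
      rw [Matrix.det_apply]
      have h2 : (fun N => (U N).det) = ∑ σ : Equiv.Perm (Fin (n + 1)),
          Equiv.Perm.sign σ • ∏ i, (fun N => U N (σ i) i) := by
        ext N
        rw [Matrix.det_apply, Finset.sum_apply]
        refine Finset.sum_congr rfl fun σ _ => ?_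
        rw [Pi.smul_apply, Finset.prod_apply]
      rw [h2, map_sum]
      refine Finset.sum_congr rfl fun σ _ => ?_
      rw [Units.smul_def, Units.smul_def, map_zsmul, map_prod]
      rfl
    rw [h1, cst_ne_zero]
    exact Eventually.of_forall hdet
  have hUsD : ∀ i j, Dst D (Us i j) = ∑ l, As i l * Us l j + cst w * Us i j := by
    intro i j
    rw [hUs, hAs]
    simp only [Matrix.of_apply]
    rw [Dst_cst]
    have h2 : (fun N => D (U N i j)) = ∑ l, (fun N => A N i l) * (fun N => U N l j) +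
        w * fun N => U N i j := by
      ext N
      rw [hU, Pi.add_apply, Finset.sum_apply]
      rfl
    rw [h2, map_add, map_sum, map_mul]
    simp only [map_mul]
  -- the relation between `y` and the universal forms
  have hPuN : ∀ (ξ : ℕ → Matrix (Fin (n + 1)) (Fin (n + 1)) ℂ) (i' : Fin (m + 1)),
      spS P p ξ (fun N => U N 0) (Pu m n e dg i') = cst fun N => aeval (U N 0) (P N i') := by
    intro ξ i'
    rw [spS_apply]
    congr 1
    ext N
    exact spK_Pu (P N) (hP N) _ _ _ i'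
  set a : Kst K := cst fun N => aeval (U N 0) (P N i) with ha
  set b : Kst K := cst fun N => aeval (U N 0) (P N i0) with hb
  have hb0 : b ≠ 0 := by
    rw [hb, cst_ne_zero]
    exact Eventually.of_forall hP0
  have hyb : cst y * b = a := by
    rw [ha, hb, ← map_mul]
    congr 1
    ext N
    rw [Pi.mul_apply, hy]
    exact div_mul_cancel₀ _ (hP0 N)
  have hδyb : ∀ δ : Derivation (kst D A) (Kst K) (Kst K), δ a = cst y * δ b + b * δ (cst y) := by
    intro δ
    rw [← hyb, δ.leibniz, smul_eq_mul, smul_eq_mul]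
  have hscal : ∀ (δ : Derivation (kst D A) (Kst K) (Kst K)) (t : Kst K),
      (∀ i j, δ (Us i j) = t * Us i j) → δ (cst y) = 0 := by
    intro δ t ht
    have h1 := chain hk δ P p (fun _ => 0) (fun N => U N 0) t
      (0 : Derivation ℂ (MvPolynomial (Vars m n e dg) ℂ) (MvPolynomial (Vars m n e dg) ℂ))
      (fun _ => rfl) (fun _ => rfl) (fun j => by
        rw [Derivation.zero_apply, map_zero, zero_add]
        exact ht 0 j)
    have h2 : ∀ i', δ (cst fun N => aeval (U N 0) (P N i')) =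
        t * (e * cst fun N => aeval (U N 0) (P N i')) := by
      intro i'
      have h3 := h1 (Pu m n e dg i')
      rw [Derivation.zero_apply, map_zero, zero_add, Eu_Pu, map_mul, map_natCast, hPuN] at h3
      exact h3
    have h4 := hδyb δ
    rw [ha, hb, h2, h2, ← ha, ← hb, ← hyb] at h4
    have h5 : b * δ (cst y) = 0 := by linear_combination -h4
    exact (mul_eq_zero.1 h5).resolve_left hb0
  obtain ⟨δ, ξs, t, hξs, hδU, hδy⟩ := pv (Dst D) (kst D A) (fun x hx => kst_D hx) Us As (cst w)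
    (fun i j => mem_kst_of_good (Good.entry i j)) hUsd hUsD (cst y) halg hscal
  -- constant matrices
  have hξ' : ∀ i j, ∃ c : ℕ → ℂ, ξs i j = cst fun N => algebraMap ℂ K (c N) := by
    intro i j
    obtain ⟨F, hF⟩ := exists_cst (ξs i j)
    have h1 := hξs i j
    rw [← hF, Dst_cst, cst_eq_zero] at h1
    classical
    refine ⟨fun N => if h : D (F N) = 0 then (hD _ h).choose else 0, ?_⟩
    rw [← hF, cst_eq]
    filter_upwards [h1] with N hN
    rw [dif_pos hN]
    exact (hD _ hN).choose_spec.symm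
  choose c hc using hξ'
  set ξ : ℕ → Matrix (Fin (n + 1)) (Fin (n + 1)) ℂ := fun N => Matrix.of fun i j => c i j N with hξ
  have hchain := chain hk δ P p ξ (fun N => U N 0) t (Du m n e dg)
      (fun _ => Du_inl _) (fun _ => Du_Xm _)
      (fun j => by
        rw [Du_Xx, map_sum]
        have h2 := hδU 0 j
        have h3 : (∑ l, Us 0 l * ξs l j) =
            ∑ l, spS P p ξ (fun N => U N 0) (Xx l * Xm l j : MvPolynomial (Vars m n e dg) ℂ) := by
          refine Finset.sum_congr rfl fun l _ => ?_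
          rw [map_mul, spS_Xx, spS_Xm, hc]
          rfl
        rw [h3] at h2
        exact h2)
  -- all derivatives of the equations vanish
  have hzero : ∀ r, ∀ l : ℕ,
      spS P p ξ (fun N => U N 0) ((⇑(Du m n e dg))^[l] (Gu m n e dg r)) = 0 := by
    intro r l
    induction l with
    | zero =>
      rw [Function.iterate_zero, id, spS_apply, cst_eq_zero]
      refine Eventually.of_forall fun N => ?_
      rw [← hPS N r, spK, AlgHom.comp_apply, sp_Gu (P N) (hP N) (p N) (hp N)]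
      have h1 : ((aeval (U N 0)).comp (aeval (P N)) : MvPolynomial (Fin (m + 1)) ℂ →ₐ[ℂ] K) =
          aeval (fun i => aeval (U N 0) (P N i)) := by
        apply MvPolynomial.algHom_ext
        intro i'
        rw [AlgHom.comp_apply, aeval_X, aeval_X]
      exact congrArg (fun F : MvPolynomial (Fin (m + 1)) ℂ →ₐ[ℂ] K => F (p N r)) h1
    | succ l ih =>
      have h1 := hchain ((⇑(Du m n e dg))^[l] (Gu m n e dg r))
      rw [Eu_iter, map_mul, ih, map_zero, mul_zero, mul_zero, add_zero] at h1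
      rw [Function.iterate_succ_apply']
      exact h1.symm
  -- the point is not fixed
  have hΘ : spS P p ξ (fun N => U N 0)
      (Pu m n e dg i0 * Du m n e dg (Pu m n e dg i) -
        Pu m n e dg i * Du m n e dg (Pu m n e dg i0)) ≠ 0 := by
    have h1 := hchain (Pu m n e dg i)
    have h2 := hchain (Pu m n e dg i0)
    rw [Eu_Pu, map_mul, map_natCast, hPuN, ← ha] at h1
    rw [Eu_Pu, map_mul, map_natCast, hPuN, ← hb] at h2
    have h3 := hδyb δ
    rw [map_sub, map_mul, map_mul, hPuN, hPuN, ← ha, ← hb]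
    have h4 : b * spS P p ξ (fun N => U N 0) (Du m n e dg (Pu m n e dg i)) -
        a * spS P p ξ (fun N => U N 0) (Du m n e dg (Pu m n e dg i0)) = b * b * δ (cst y) := by
      have h5 : spS P p ξ (fun N => U N 0) (Du m n e dg (Pu m n e dg i)) = δ a - t * (e * a) := by
        rw [h1]; ring
      have h6 : spS P p ξ (fun N => U N 0) (Du m n e dg (Pu m n e dg i0)) = δ b - t * (e * b) := by
        rw [h2]; ring
      rw [h5, h6, h3, ← hyb]
      ring
    rw [h4]
    exact mul_ne_zero (mul_ne_zero hb0 hb0) hδy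
  -- Noetherianity
  let T : Set (MvPolynomial (Vars m n e dg) ℂ) :=
    {q | ∃ r, ∃ l : ℕ, q = (⇑(Du m n e dg))^[l] (Gu m n e dg r)}
  obtain ⟨s', hs'T, hs'⟩ := Submodule.fg_span_iff_fg_span_finset_subset T |>.1
    (IsNoetherian.noetherian (Submodule.span (MvPolynomial (Vars m n e dg) ℂ) T))
  have hev : ∀ᶠ N in (hyperfilter ℕ : Filter ℕ), ∀ q ∈ s',
      spK (e := e) (P N) (p N) (ξ N) (U N 0) q = 0 := by
    rw [Filter.eventually_all_finset]
    intro q hq
    obtain ⟨r, l, rfl⟩ := hs'T hq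
    have h1 := hzero r l
    rw [spS_apply, cst_eq_zero] at h1
    exact h1
  rw [spS_apply, cst_ne_zero] at hΘ
  obtain ⟨N, hN1, hN2⟩ := (hev.and hΘ).exists
  have hT : ∀ q ∈ T, spK (e := e) (P N) (p N) (ξ N) (U N 0) q = 0 := by
    intro q hq
    have h1 : q ∈ Submodule.span (MvPolynomial (Vars m n e dg) ℂ)
        (s' : Set (MvPolynomial (Vars m n e dg) ℂ)) := by
      rw [← hs']; exact Submodule.subset_span hq
    have h2 : Ideal.span (s' : Set (MvPolynomial (Vars m n e dg) ℂ)) ≤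
        RingHom.ker (spK (e := e) (P N) (p N) (ξ N) (U N 0)).toRingHom := by
      rw [Ideal.span_le]
      intro q hq
      exact hN1 q hq
    exact h2 h1
  refine absurd (hno N (ξ N) fun r l => ?_) ?_
  · have h1 := hT _ ⟨r, l, rfl⟩
    rw [spK, AlgHom.comp_apply, sp_iter (P N) (hP N) (p N) (hp N)] at h1
    exact h1
  · rw [spK, AlgHom.comp_apply, map_sub, map_mul, map_mul, sp_Du, sp_Du, sp_Pu (P N) (hP N),
        sp_Pu (P N) (hP N)] at hN2
    exact hN2

/-- a spanning family of a finite dimensional space of bounded size -/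
lemma exists_span_family {V ι : Type} [AddCommGroup V] [Module ℂ V] [Finite ι] (b : ι → V)
    (T : Set V) (hT : T ⊆ Submodule.span ℂ (Set.range b)) :
    ∃ c : ι → V, (∀ i, c i ∈ Submodule.span ℂ T) ∧ T ⊆ Submodule.span ℂ (Set.range c) := by
  classical
  have := Fintype.ofFinite ι
  set B : Submodule ℂ V := Submodule.span ℂ (Set.range b) with hB
  have hBfin : FiniteDimensional ℂ B := by
    rw [hB]
    exact FiniteDimensional.span_of_finite ℂ (Set.finite_range b)
  set W : Submodule ℂ V := Submodule.span ℂ T with hW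
  have hWB : W ≤ B := Submodule.span_le.2 hT
  have hWfin : FiniteDimensional ℂ W := Submodule.finiteDimensional_of_le hWB
  have hcard : Module.finrank ℂ W ≤ Fintype.card ι :=
    (Submodule.finrank_mono hWB).trans (finrank_range_le_card (R := ℂ) b)
  set bw := Module.finBasis ℂ W with hbw
  obtain ⟨emb⟩ : Nonempty (Fin (Module.finrank ℂ W) ↪ ι) := by
    apply Function.Embedding.nonempty_of_card_le
    rw [Fintype.card_fin]
    exact hcard
  refine ⟨fun i => if h : ∃ j, emb j = i then (bw h.choose : V) else 0, fun i => ?_, ?_⟩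
  · show (if h : ∃ j, emb j = i then (bw h.choose : V) else 0) ∈ W
    split_ifs with h
    · exact (bw h.choose).2
    · exact W.zero_mem
  · have hsub : W ≤ Submodule.span ℂ (Set.range fun i => if h : ∃ j, emb j = i then
        (bw h.choose : V) else 0) := by
      intro x hx
      have h1 : (⟨x, hx⟩ : W) ∈ Submodule.span ℂ (Set.range bw) := bw.mem_span _
      have h2 : x ∈ Submodule.map W.subtype (Submodule.span ℂ (Set.range bw)) :=
        ⟨⟨x, hx⟩, h1, rfl⟩
      rw [Submodule.map_span] at h2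
      refine Submodule.span_mono ?_ h2
      rintro _ ⟨_, ⟨j, rfl⟩, rfl⟩
      refine ⟨emb j, ?_⟩
      have h3 : ∃ j', emb j' = emb j := ⟨j, rfl⟩
      show (if h : ∃ j', emb j' = emb j then (bw h.choose : V) else 0) = bw j
      rw [dif_pos h3]
      have h4 : h3.choose = j := emb.injective h3.choose_spec
      rw [h4]
    exact fun x hx => hsub (Submodule.subset_span hx)

/-- A3. The uniform algebraic dichotomy. -/
theorem core (D : Derivation ℂ K K) (hD : ∀ x, D x = 0 → ∃ c : ℂ, algebraMap ℂ K c = x)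
    (m n e N : ℕ) :
    ∃ d : ℕ, ∀ S : Set (MvPolynomial (Fin (m + 1)) ℂ), (∀ p ∈ S, ∃ k ≤ N, p.IsHomogeneous k) →
      ∀ (U A : Matrix (Fin (n + 1)) (Fin (n + 1)) K) (w : K), U.det ≠ 0 →
      (∀ i j, D (U i j) = ∑ l, A i l * U l j + w * U i j) →
      ∀ P : Fin (m + 1) → MvPolynomial (Fin (n + 1)) ℂ, (∀ i, (P i).IsHomogeneous e) →
        (∀ p ∈ S, aeval (fun i => aeval (U 0) (P i)) p = 0) →
        ∀ i0 i, aeval (U 0) (P i0) ≠ 0 →
        AlgD D A d (aeval (U 0) (P i) / aeval (U 0) (P i0)) ∨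
        ∃ ξ : Matrix (Fin (n + 1)) (Fin (n + 1)) ℂ,
          (∀ p ∈ S, ∀ l : ℕ, aeval (U 0) ((⇑(Dxi ξ))^[l] (aeval P p)) = 0) ∧
          aeval (U 0) (P i0 * Dxi ξ (P i) - P i * Dxi ξ (P i0)) ≠ 0 := by
  let R : Type := Σ k : Fin (N + 1), Fe m k
  let dg : R → ℕ := fun r => r.1
  choose d hd using fun i0 i => core_pair (m := m) D hD dg n e i0 i
  refine ⟨∑ i0, ∑ i, d i0 i, fun S hS U A w hdet hU P hP hPS i0 i hne => ?_⟩
  -- a finite system of equations
  have hc : ∀ k : Fin (N + 1), ∃ c : Fe m k → MvPolynomial (Fin (m + 1)) ℂ,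
      (∀ β, c β ∈ Submodule.span ℂ {p | p ∈ S ∧ p.IsHomogeneous k}) ∧
      {p | p ∈ S ∧ p.IsHomogeneous k} ⊆ Submodule.span ℂ (Set.range c) := by
    intro k
    refine exists_span_family (fun β : Fe m k => monomial β.1 (1 : ℂ)) _ ?_
    rintro p ⟨_, hp⟩
    have h1 : p = ∑ β : Fe m k, coeff β.1 p • monomial β.1 (1 : ℂ) := by
      conv_lhs => rw [form_eq hp]
      refine Finset.sum_congr rfl fun β _ => ?_
      rw [smul_monomial, smul_eq_mul, mul_one, monomial_eq,
        Finsupp.prod_fintype _ _ (fun _ => pow_zero _)]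
    rw [h1]
    exact Submodule.sum_mem _ fun β _ => Submodule.smul_mem _ _ (Submodule.subset_span ⟨β, rfl⟩)
  choose c hc1 hc2 using hc
  let p : R → MvPolynomial (Fin (m + 1)) ℂ := fun r => c r.1 r.2
  have hp : ∀ r, (p r).IsHomogeneous (dg r) := by
    intro r
    have h1 : Submodule.span ℂ {p | p ∈ S ∧ p.IsHomogeneous (r.1 : ℕ)} ≤
        homogeneousSubmodule (Fin (m + 1)) ℂ (r.1 : ℕ) := by
      rw [Submodule.span_le]
      rintro q ⟨_, hq⟩
      exact hq
    exact h1 (hc1 r.1 r.2)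
  have hp0 : ∀ r, aeval (fun i => aeval (U 0) (P i)) (p r) = 0 := by
    intro r
    have h1 : Submodule.span ℂ {p | p ∈ S ∧ p.IsHomogeneous (r.1 : ℕ)} ≤
        LinearMap.ker (aeval (R := ℂ) (fun i => aeval (U 0) (P i))).toLinearMap := by
      rw [Submodule.span_le]
      rintro q ⟨hq, _⟩
      exact hPS q hq
    exact h1 (hc1 r.1 r.2)
  rcases hd i0 i U A w hdet hU P hP p hp hne hp0 with h | ⟨ξ, hξ1, hξ2⟩
  · left
    refine AlgD.mono ?_ h
    refine (Finset.single_le_sum (f := fun i => d i0 i) (fun _ _ => Nat.zero_le _)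
      (Finset.mem_univ i)).trans ?_
    exact Finset.single_le_sum (f := fun i0 => ∑ i, d i0 i) (fun _ _ => Nat.zero_le _)
      (Finset.mem_univ i0)
  · right
    refine ⟨ξ, fun q hq l => ?_, hξ2⟩
    obtain ⟨k, hk, hqk⟩ := hS q hq
    have h1 := hc2 ⟨k, Nat.lt_succ_of_le hk⟩ ⟨hq, hqk⟩
    let Dl : Module.End ℂ (MvPolynomial (Fin (n + 1)) ℂ) := (Dxi ξ).toLinearMap
    let F : MvPolynomial (Fin (m + 1)) ℂ →ₗ[ℂ] K :=
      (aeval (R := ℂ) (U 0)).toLinearMap ∘ₗ (Dl ^ l) ∘ₗ (aeval (R := ℂ) P).toLinearMap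
    have hF : ∀ x, F x = aeval (U 0) ((⇑(Dxi ξ))^[l] (aeval P x)) := by
      intro x
      show aeval (U 0) ((Dl ^ l) (aeval P x)) = _
      rw [Module.End.pow_apply]
      rfl
    have h2 : Submodule.span ℂ (Set.range (c ⟨k, Nat.lt_succ_of_le hk⟩)) ≤ LinearMap.ker F := by
      rw [Submodule.span_le]
      rintro _ ⟨β, rfl⟩
      show F _ = 0
      rw [hF]
      exact hξ1 ⟨⟨k, Nat.lt_succ_of_le hk⟩, β⟩ l
    have h3 := h2 h1
    rw [← hF]
    exact h3

end Pool.Agent.Stat
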