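import Pool.Agent.Lib_MP_b9fedf_ag.Defs

/-! Definitions for the theorem on stationary points (MP_b9fedf_ag).

Blueprint: see Blueprint.md in this folder. -/

set_option autoImplicit false

namespace Pool.Agent.Stat

open MvPolynomial

/-- `V(S)` contains no rational curve: each polynomial curve in it is projectively constant. -/
def NoRational {m : ℕ} (S : Set (MvPolynomial (Fin (m + 1)) ℂ)) : Prop :=
  ∀ Q : Fin (m + 1) → Polynomial ℂ, (∀ p ∈ S, aeval Q p = 0) →
    ∃ (a : Fin (m + 1) → ℂ) (b : Polynomial ℂ), ∀ i, Q i = Polynomial.C (a i) * b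

/-- The point `x` lies on a rational curve in `V(S)` (given by a polynomial curve `Q` which is not
projectively constant). -/
def OnRational {m : ℕ} (S : Set (MvPolynomial (Fin (m + 1)) ℂ)) (x : Fin (m + 1) → ℂ) : Prop :=
  ∃ Q : Fin (m + 1) → Polynomial ℂ, (∀ p ∈ S, aeval Q p = 0) ∧
    (¬ ∃ (a : Fin (m + 1) → ℂ) (b : Polynomial ℂ), ∀ i, Q i = Polynomial.C (a i) * b) ∧
    ∃ c : ℂ, c ≠ 0 ∧ ∀ i, (Q i).eval 0 = c * x i

/-- The hypothesis of the Green-Griffiths-Lang statement `S00411` on `V(S)`: all holomorphic maps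
from complex tori to `V(S)` are constant. -/
def NoTorus {m : ℕ} (S : Set (MvPolynomial (Fin (m + 1)) ℂ)) : Prop :=
  ∀ (g : ℕ) (L : AddSubgroup (Fin g → ℂ)), DiscreteTopology L →
    Submodule.span ℝ (L : Set (Fin g → ℂ)) = ⊤ →
    ∀ F : (Fin g → ℂ) → (Fin (m + 1) → ℂ), Differentiable ℂ F → (∀ z, F z ≠ 0) →
      (∀ z, ∀ p ∈ S, MvPolynomial.eval (F z) p = 0) →
      (∀ z, ∀ l ∈ L, ∃ c : ℂ, F (z + l) = c • F z) → ∀ z w, ∃ c : ℂ, F w = c • F z

/-- The characteristic `T_f(r)` of the curve `[f_0 : ... : f_n]` (up to a bounded term). -/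
noncomputable def charT {n : ℕ} (f : ℂ → Fin (n + 1) → ℂ) (r : ℝ) : ℝ :=
  Real.circleAverage (fun z => Real.log ‖f z‖) 0 r

/-- The Wronskian of the components of `g`. -/
noncomputable def wronsk {n : ℕ} (g : ℂ → Fin (n + 1) → ℂ) (z : ℂ) : ℂ :=
  Pool.Agent.GGL.Wr (fun j w => g w j) z

/-- The counting function of the distinct zeros of `W` (truncation level one). -/
noncomputable def Nbar (W : ℂ → ℂ) (r : ℝ) : ℝ :=
  ∑ᶠ a ∈ {a : ℂ | ‖a‖ ≤ r ∧ W a = 0}, Real.log (r / max 1 ‖a‖)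

/-- `DP D a w x`: `x` is a differential polynomial of weight at most `w` with complex coefficients
in the elements `a i` (`D^s (a i)` has weight `s + 1`). -/
inductive DP {K ι : Type} [Field K] [Algebra ℂ K] (D : Derivation ℂ K K) (a : ι → K) :
    ℕ → K → Prop
  | const (c : ℂ) : DP D a 0 (algebraMap ℂ K c)
  | var (s : ℕ) (i : ι) : DP D a (s + 1) ((⇑D)^[s] (a i))
  | add {w : ℕ} {x y : K} : DP D a w x → DP D a w y → DP D a w (x + y)
  | mul {w w' : ℕ} {x y : K} : DP D a w x → DP D a w' y → DP D a (w + w') (x * y)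
  | mono {w w' : ℕ} {x : K} : w ≤ w' → DP D a w x → DP D a w' x

/-- `HW D H w x`: `x` is a polynomial of weight at most `w` with complex coefficients in the
logarithmic quotients `D^p (H i) / H i` (of weight `p`). -/
inductive HW {K ι : Type} [Field K] [Algebra ℂ K] (D : Derivation ℂ K K) (H : ι → K) :
    ℕ → K → Prop
  | const (c : ℂ) : HW D H 0 (algebraMap ℂ K c)
  | var (p : ℕ) (i : ι) : HW D H p ((⇑D)^[p] (H i) / H i)
  | add {w : ℕ} {x y : K} : HW D H w x → HW D H w y → HW D H w (x + y)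
  | mul {w w' : ℕ} {x y : K} : HW D H w x → HW D H w' y → HW D H (w + w') (x * y)
  | mono {w w' : ℕ} {x : K} : w ≤ w' → HW D H w x → HW D H w' x

end Pool.Agent.Stat
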