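import Pool.Agent.Lib_MP_b9fedf_st.Defs

/-! PIECE E1. From an infinitesimal symmetry to a rational curve. -/

set_option autoImplicit false

namespace Pool.Agent.Stat

open MvPolynomial

/-- the derivation `x_j ↦ ∑_l x_l ξ_{lj}` of the polynomial ring -/
noncomputable def Dxi {n : ℕ} (ξ : Matrix (Fin (n + 1)) (Fin (n + 1)) ℂ) :
    Derivation ℂ (MvPolynomial (Fin (n + 1)) ℂ) (MvPolynomial (Fin (n + 1)) ℂ) :=
  mkDerivation ℂ (fun j => ∑ l, X l * C (ξ l j))

/-! #### The exponential series -/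

/-- the power series `exp (a s)` -/
private noncomputable def expS (a : ℂ) : PowerSeries ℂ :=
  PowerSeries.rescale a (PowerSeries.exp ℂ)

private theorem expS_deriv (a : ℂ) :
    PowerSeries.derivative ℂ (expS a) = PowerSeries.C a * expS a := by
  ext k
  rw [expS, PowerSeries.coeff_derivative, PowerSeries.coeff_rescale, PowerSeries.coeff_C_mul,
    PowerSeries.coeff_rescale, PowerSeries.coeff_exp, PowerSeries.coeff_exp]
  have h1 : ((Nat.factorial (k + 1) : ℕ) : ℂ) ≠ 0 := by exact_mod_cast Nat.factorial_ne_zero _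
  have h2 : ((Nat.factorial k : ℕ) : ℂ) ≠ 0 := by exact_mod_cast Nat.factorial_ne_zero _
  have h3 : ((Nat.factorial (k + 1) : ℕ) : ℂ) = ((k : ℂ) + 1) * ((Nat.factorial k : ℕ) : ℂ) := by
    rw [Nat.factorial_succ]; push_cast; ring
  have h4 : ((k : ℂ) + 1) ≠ 0 := by
    intro h
    rw [h3, h, zero_mul] at h1
    exact h1 rfl
  simp only [map_div₀, map_one, map_natCast]
  rw [h3]
  field_simp
  ring

private theorem expS_zero : expS 0 = 1 := by
  rw [expS, PowerSeries.rescale_zero]
  simp

private theorem expS_add (a b : ℂ) : expS (a + b) = expS a * expS b := by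
  rw [expS, expS, expS, PowerSeries.exp_mul_exp_eq_exp_add]

private theorem expS_const (a : ℂ) : PowerSeries.constantCoeff (expS a) = 1 := by
  rw [expS, ← PowerSeries.coeff_zero_eq_constantCoeff_apply, PowerSeries.coeff_rescale]
  simp

/-- the homomorphism `a ↦ exp (a s)` -/
private noncomputable def expHom : Multiplicative ℂ →* PowerSeries ℂ where
  toFun a := expS a.toAdd
  map_one' := expS_zero
  map_mul' _ _ := expS_add _ _

private theorem expS_sum {r : ℕ} (μ : Fin r → ℂ) (m : Fin r → ℕ) :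
    expS (∑ i, (m i : ℂ) * μ i) = ∏ i, expS (μ i) ^ m i := by
  have h : ∀ a : ℂ, expS a = expHom (Multiplicative.ofAdd a) := fun _ => rfl
  rw [h, ofAdd_sum, map_prod]
  refine Finset.prod_congr rfl fun i _ => ?_
  rw [h, ← map_pow, ← ofAdd_nsmul, nsmul_eq_mul]

/-! #### Injectivity -/

private noncomputable def degF (p : Polynomial ℂ) : ℕ := if p = 0 then 0 else 1 + p.natDegree

private theorem degF_le (c : ℂ) (p : Polynomial ℂ) :
    degF (Polynomial.derivative p + Polynomial.C c * p) ≤ degF p := by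
  unfold degF
  by_cases h : p = 0
  · simp [h]
  · rw [if_neg h]
    split_ifs with h'
    · omega
    · have h1 := Polynomial.natDegree_add_le (Polynomial.derivative p) (Polynomial.C c * p)
      have h2 := Polynomial.natDegree_derivative_le p
      have h3 := Polynomial.natDegree_C_mul_le c p
      have h4 : max (Polynomial.derivative p).natDegree (Polynomial.C c * p).natDegree ≤
          p.natDegree := max_le (by omega) h3
      omega

private theorem degF_lt {p : Polynomial ℂ} (h : p ≠ 0) :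
    degF (Polynomial.derivative p) < degF p := by
  unfold degF
  rw [if_neg h]
  split_ifs with h'
  · omega
  · have h0 : p.natDegree ≠ 0 := by
      intro h0
      rw [Polynomial.eq_C_of_natDegree_eq_zero h0, Polynomial.derivative_C] at h'
      exact h' rfl
    have h1 := Polynomial.natDegree_derivative_lt h0
    omega

private theorem eq_zero_of_deriv {c : ℂ} (hc : c ≠ 0) {p : Polynomial ℂ}
    (h : Polynomial.derivative p + Polynomial.C c * p = 0) : p = 0 := by
  have h1 := congrArg (fun q => Polynomial.coeff q p.natDegree) h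
  simp only [Polynomial.coeff_add, Polynomial.coeff_derivative, Polynomial.coeff_C_mul,
    Polynomial.coeff_zero] at h1
  rw [Polynomial.coeff_eq_zero_of_natDegree_lt (Nat.lt_succ_self _), zero_mul, zero_add] at h1
  have h2 := (mul_eq_zero.1 h1).resolve_left hc
  exact Polynomial.leadingCoeff_eq_zero.1 h2

private noncomputable def expImg {Λ : AddSubgroup ℂ} (x : Λ →₀ Polynomial ℂ) : PowerSeries ℂ :=
  x.sum fun l p => (p : PowerSeries ℂ) * expS (l : ℂ)

private theorem expImg_zero_aux {Λ : AddSubgroup ℂ} (N : ℕ) :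
    ∀ x : Λ →₀ Polynomial ℂ, (∑ l ∈ x.support, degF (x l)) < N → expImg x = 0 → x = 0 := by
  classical
  induction N with
  | zero => intro x hx; omega
  | succ N ih =>
    intro x hxN hx
    by_contra hne
    obtain ⟨l0, hl0⟩ : ∃ l0, l0 ∈ x.support := by
      have := Finsupp.support_nonempty_iff.2 hne
      exact this
    let g : Λ → Polynomial ℂ := fun l =>
      Polynomial.derivative (x l) + Polynomial.C ((l : ℂ) - (l0 : ℂ)) * x l
    have hg : ∀ l, g l ≠ 0 → l ∈ x.support := by
      intro l hl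
      rw [Finsupp.mem_support_iff]
      intro h0
      apply hl
      simp [g, h0]
    let y : Λ →₀ Polynomial ℂ := Finsupp.onFinset x.support g hg
    have hyl : ∀ l, y l = g l := fun l => rfl
    have hys : y.support ⊆ x.support := Finsupp.support_onFinset_subset
    have himg : expImg y = 0 := by
      have h1 : expImg y = ∑ l ∈ x.support, (g l : PowerSeries ℂ) * expS (l : ℂ) := by
        unfold expImg
        exact Finsupp.onFinset_sum hg (fun l => by simp)
      have h2 : ∀ l : Λ, (g l : PowerSeries ℂ) * expS (l : ℂ) =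
          PowerSeries.derivative ℂ ((x l : PowerSeries ℂ) * expS (l : ℂ)) -
            PowerSeries.C (l0 : ℂ) * ((x l : PowerSeries ℂ) * expS (l : ℂ)) := by
        intro l
        rw [Derivation.leibniz, expS_deriv, PowerSeries.derivative_coe]
        simp only [g, Polynomial.coe_add, Polynomial.coe_mul, Polynomial.coe_C, smul_eq_mul]
        rw [map_sub PowerSeries.C]
        ring
      rw [h1, Finset.sum_congr rfl fun l _ => h2 l, Finset.sum_sub_distrib, ← map_sum,
        ← Finset.mul_sum]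
      have h3 : ∑ l ∈ x.support, (x l : PowerSeries ℂ) * expS (l : ℂ) = 0 := hx
      rw [h3]
      simp
    have hlt : (∑ l ∈ y.support, degF (y l)) < ∑ l ∈ x.support, degF (x l) := by
      have h1 : (∑ l ∈ y.support, degF (y l)) = ∑ l ∈ x.support, degF (g l) := by
        apply Finset.sum_subset hys
        intro l _ hl
        have : g l = 0 := by
          rw [← hyl]
          exact Finsupp.notMem_support_iff.1 hl
        simp [hyl, this, degF]
      rw [h1]
      apply Finset.sum_lt_sum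
      · intro l _
        exact degF_le _ _
      · refine ⟨l0, hl0, ?_⟩
        have : g l0 = Polynomial.derivative (x l0) := by simp [g]
        rw [this]
        exact degF_lt (Finsupp.mem_support_iff.1 hl0)
    have hy0 : y = 0 := ih y (by omega) himg
    have hg0 : ∀ l, g l = 0 := by
      intro l
      rw [← hyl, hy0]
      rfl
    have hsupp : x.support = {l0} := by
      apply Finset.eq_singleton_iff_unique_mem.2 ⟨hl0, ?_⟩
      intro l hl
      by_contra hne'
      have h1 : ((l : ℂ) - (l0 : ℂ)) ≠ 0 := by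
        rw [sub_ne_zero]
        intro h
        exact hne' (Subtype.ext h)
      exact (Finsupp.mem_support_iff.1 hl) (eq_zero_of_deriv h1 (hg0 l))
    have hd : Polynomial.derivative (x l0) = 0 := by
      have := hg0 l0
      simpa [g] using this
    have hC : x l0 = Polynomial.C ((x l0).coeff 0) :=
      Polynomial.eq_C_of_natDegree_eq_zero (Polynomial.derivative_eq_zero.1 hd)
    have h5 : (x l0 : PowerSeries ℂ) * expS (l0 : ℂ) = 0 := by
      have : expImg x = (x l0 : PowerSeries ℂ) * expS (l0 : ℂ) := by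
        unfold expImg Finsupp.sum
        rw [hsupp, Finset.sum_singleton]
      rw [← this, hx]
    have h6 := congrArg PowerSeries.constantCoeff h5
    rw [map_mul, expS_const, mul_one, hC, Polynomial.coe_C, PowerSeries.constantCoeff_C,
      map_zero] at h6
    apply Finsupp.mem_support_iff.1 hl0
    rw [hC, h6, Polynomial.C_0]

/-- Linear independence of `s^a e^{λ s}` (formal version): the ring homomorphism
`∑ p_λ [λ] ↦ ∑ p_λ(s) exp(λ s)` from the group algebra of `Λ ⊆ ℂ` over `ℂ[s]` to `ℂ⟦s⟧` is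
injective.

Proof.  Let `x ≠ 0` with image `0` and `∑_{λ ∈ supp x} (1 + deg p_λ)` minimal, `λ₀ ∈ supp x`.
The element `y` with components `p_λ' + (λ - λ₀) p_λ` has image `(d/ds - λ₀)(0) = 0`, the same
components up to a unit leading coefficient for `λ ≠ λ₀` and a smaller (or no) component at `λ₀`.
So `y = 0`, `supp x = {λ₀}` and `p_{λ₀}` is a constant `c`; `c exp(λ₀ s) = 0`, `c = 0`. -/
theorem expAlg_injective (Λ : AddSubgroup ℂ) (x : Λ →₀ Polynomial ℂ)
    (hx : (x.sum fun l p => (p : PowerSeries ℂ) *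
      PowerSeries.rescale (l : ℂ) (PowerSeries.exp ℂ)) = 0) : x = 0 :=
  expImg_zero_aux _ x (Nat.lt_succ_self _) hx


/-! #### Polynomial maps -/

private theorem aeval_scale {σ B : Type} [Fintype σ] [CommRing B] [Algebra ℂ B] {d : ℕ}
    {p : MvPolynomial σ ℂ} (hp : p.IsHomogeneous d) (c : B) (y : σ → B) :
    aeval (fun i => c * y i) p = c ^ d * aeval y p := by
  rw [aeval_def, aeval_def, eval₂_eq', eval₂_eq', Finset.mul_sum]
  refine Finset.sum_congr rfl fun m hm => ?_
  have h1 : ∑ i, m i = d := by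
    rw [hp.degree_eq_sum_deg_support hm]
    symm
    apply Finset.sum_subset (Finset.subset_univ _)
    intro i _ hi
    exact Finsupp.notMem_support_iff.1 hi
  have h2 : ∏ i, (c * y i) ^ m i = c ^ d * ∏ i, y i ^ m i := by
    rw [← h1, ← Finset.prod_pow_eq_pow_sum, ← Finset.prod_mul_distrib]
    exact Finset.prod_congr rfl fun i _ => mul_pow _ _ _
  rw [h2]
  ring

private theorem aeval_deriv {n : ℕ} {B : Type} [CommRing B] [Algebra ℂ B] (D : Derivation ℂ B B)
    (W : Fin (n + 1) → B) (ξ : Matrix (Fin (n + 1)) (Fin (n + 1)) ℂ)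
    (hW : ∀ j, D (W j) = ∑ l, W l * algebraMap ℂ B (ξ l j)) (q : MvPolynomial (Fin (n + 1)) ℂ) :
    D (aeval W q) = aeval W (Dxi ξ q) := by
  induction q using MvPolynomial.induction_on with
  | C a =>
    rw [aeval_C, Derivation.map_algebraMap, Dxi, derivation_C, map_zero]
  | add p q hp hq => rw [map_add, map_add, map_add, map_add, hp, hq]
  | mul_X p i hp =>
    rw [map_mul, Derivation.leibniz, Derivation.leibniz, hp, aeval_X, hW, Dxi, mkDerivation_X]
    simp only [smul_eq_mul, map_add, map_mul, aeval_X, map_sum, aeval_C]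

private theorem aeval_deriv_iter {n : ℕ} {B : Type} [CommRing B] [Algebra ℂ B]
    (D : Derivation ℂ B B)
    (W : Fin (n + 1) → B) (ξ : Matrix (Fin (n + 1)) (Fin (n + 1)) ℂ)
    (hW : ∀ j, D (W j) = ∑ l, W l * algebraMap ℂ B (ξ l j)) (k : ℕ) :
    ∀ q : MvPolynomial (Fin (n + 1)) ℂ, (⇑D)^[k] (aeval W q) = aeval W ((⇑(Dxi ξ))^[k] q) := by
  induction k with
  | zero => intro q; rfl
  | succ k ih =>
    intro q
    rw [Function.iterate_succ_apply, Function.iterate_succ_apply, aeval_deriv D W ξ hW, ih]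

private theorem eval_deriv_zero {n : ℕ} (W : Fin (n + 1) → Polynomial ℂ)
    (ξ : Matrix (Fin (n + 1)) (Fin (n + 1)) ℂ) (κ : ℂ) (v : Fin (n + 1) → ℂ)
    (h0 : ∀ j, (W j).eval 0 = v j)
    (h1 : ∀ j, (Polynomial.derivative (W j)).eval 0 = (∑ l, v l * ξ l j) + κ * v j)
    (q : MvPolynomial (Fin (n + 1)) ℂ) :
    (aeval W q).eval 0 = eval v q ∧
      (Polynomial.derivative (aeval W q)).eval 0 =
        eval v (Dxi ξ q) + κ * ∑ i, v i * eval v (pderiv i q) := by
  induction q using MvPolynomial.induction_on with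
  | C a =>
    constructor
    · rw [aeval_C, eval_C]
      simp
    · rw [aeval_C, Dxi, derivation_C]
      simp
  | add p q hp hq =>
    constructor
    · rw [map_add, Polynomial.eval_add, hp.1, hq.1, map_add]
    · simp only [map_add, Polynomial.eval_add, hp.2, hq.2, mul_add, Finset.sum_add_distrib]
      ring
  | mul_X p i hp =>
    constructor
    · rw [map_mul, Polynomial.eval_mul, hp.1, aeval_X, h0, map_mul, eval_X]
    · rw [map_mul, aeval_X, Polynomial.derivative_mul, Polynomial.eval_add, Polynomial.eval_mul,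
        Polynomial.eval_mul, hp.1, hp.2, h0, h1, Derivation.leibniz]
      have h3 : ∀ l, eval v (pderiv l (p * X i)) =
          eval v p * (if i = l then 1 else 0) + v i * eval v (pderiv l p) := by
        intro l
        rw [Derivation.leibniz, pderiv_X, Pi.single_apply]
        simp only [smul_eq_mul, map_add, map_mul, eval_X]
        congr 2
        split_ifs <;> simp
      simp only [h3, mul_add, Finset.sum_add_distrib]
      have h4 : ∑ l, v l * (eval v p * (if i = l then 1 else 0)) = v i * eval v p := by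
        simp
      have h5 : ∑ l, v l * (v i * eval v (pderiv l p)) = v i * ∑ l, v l * eval v (pderiv l p) := by
        rw [Finset.mul_sum]
        exact Finset.sum_congr rfl fun l _ => by ring
      rw [h4, h5, Dxi, mkDerivation_X]
      simp only [smul_eq_mul, map_add, map_mul, eval_X, map_sum, eval_C]
      ring

/-! #### Generalised eigenvectors -/

private theorem exists_eigen {n : ℕ} (f : Module.End ℂ (Fin (n + 1) → ℂ)) (v : Fin (n + 1) → ℂ) :
    ∃ (s : Finset ℂ) (u : ℂ → Fin (n + 1) → ℂ) (N : ℕ), ∑ a ∈ s, u a = v ∧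
      ∀ a ∈ s, ∀ k, N ≤ k → ((f - a • (1 : Module.End ℂ (Fin (n + 1) → ℂ))) ^ k) (u a) = 0 := by
  classical
  have h1 : v ∈ ⨆ a, f.maxGenEigenspace a := by
    rw [Module.End.iSup_maxGenEigenspace_eq_top]
    exact Submodule.mem_top
  obtain ⟨s, hs⟩ := Submodule.mem_iSup_iff_exists_finset.1 h1
  obtain ⟨u, hu⟩ := (Submodule.mem_iSup_finset_iff_exists_sum _ _).1 hs
  have h2 : ∀ a : ℂ, ∃ k : ℕ,
      ((f - a • (1 : Module.End ℂ (Fin (n + 1) → ℂ))) ^ k) (u a : Fin (n + 1) → ℂ) = 0 :=
    fun a => (Module.End.mem_maxGenEigenspace f a _).1 (u a).2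
  choose k hk using h2
  refine ⟨s, fun a => (u a : Fin (n + 1) → ℂ), s.sup k, hu, ?_⟩
  intro a ha m hm
  have h3 : k a ≤ m := le_trans (Finset.le_sup ha) hm
  obtain ⟨d, rfl⟩ := Nat.exists_eq_add_of_le h3
  rw [add_comm (k a) d, pow_add, Module.End.mul_apply]
  exact (congrArg _ (hk a)).trans (map_zero _)

private theorem exists_basis (s : Finset ℂ) :
    ∃ (r : ℕ) (μ : Fin r → ℂ) (m : ℂ → Fin r → ℤ), LinearIndependent ℤ μ ∧
      ∀ a ∈ s, a = ∑ i, (m a i : ℂ) * μ i := by
  classical
  let Λ : Submodule ℤ ℂ := Submodule.span ℤ (s : Set ℂ)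
  have : Module.Finite ℤ Λ := Module.Finite.span_of_finite ℤ s.finite_toSet
  let b := Module.finBasis ℤ Λ
  refine ⟨Module.finrank ℤ Λ, fun i => (b i : ℂ),
    fun a i => if h : a ∈ Λ then b.repr ⟨a, h⟩ i else 0, ?_, ?_⟩
  · exact b.linearIndependent.map' Λ.subtype Λ.ker_subtype
  · intro a ha
    have h : a ∈ Λ := Submodule.subset_span ha
    have h1 := b.sum_repr ⟨a, h⟩
    have h2 := congrArg (fun x : Λ => (x : ℂ)) h1
    simp only [Submodule.coe_sum, Submodule.coe_smul_of_tower, zsmul_eq_mul] at h2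
    simp only [dif_pos h]
    exact h2.symm


/-! #### The map `X ↦ s`, `t_i ↦ exp (μ_i s)` -/

private noncomputable def psiMap {r : ℕ} (μ : Fin r → ℂ) :
    MvPolynomial (Fin r) (Polynomial ℂ) →ₐ[ℂ] PowerSeries ℂ :=
  { eval₂Hom (Polynomial.coeToPowerSeries.ringHom (R := ℂ)) (fun i => expS (μ i)) with
    commutes' := by
      intro c
      have h : (algebraMap ℂ (MvPolynomial (Fin r) (Polynomial ℂ))) c = C (Polynomial.C c) := rfl
      change eval₂Hom (Polynomial.coeToPowerSeries.ringHom (R := ℂ)) (fun i => expS (μ i)) _ = _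
      rw [h, eval₂Hom_C, Polynomial.coeToPowerSeries.ringHom_apply, Polynomial.coe_C]
      rfl }

private theorem psiMap_C {r : ℕ} (μ : Fin r → ℂ) (p : Polynomial ℂ) :
    psiMap μ (C p) = (p : PowerSeries ℂ) := by
  change eval₂Hom (Polynomial.coeToPowerSeries.ringHom (R := ℂ)) (fun i => expS (μ i)) _ = _
  rw [eval₂Hom_C, Polynomial.coeToPowerSeries.ringHom_apply]

private theorem psiMap_X {r : ℕ} (μ : Fin r → ℂ) (i : Fin r) : psiMap μ (X i) = expS (μ i) := by
  change eval₂Hom (Polynomial.coeToPowerSeries.ringHom (R := ℂ)) (fun i => expS (μ i)) _ = _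
  rw [eval₂Hom_X']

private theorem psiMap_apply {r : ℕ} (μ : Fin r → ℂ) (F : MvPolynomial (Fin r) (Polynomial ℂ)) :
    psiMap μ F = ∑ m ∈ F.support, ((coeff m F : Polynomial ℂ) : PowerSeries ℂ) *
      expS (∑ i, (m i : ℂ) * μ i) := by
  change eval₂Hom (Polynomial.coeToPowerSeries.ringHom (R := ℂ)) (fun i => expS (μ i)) F = _
  rw [coe_eval₂Hom, eval₂_eq']
  refine Finset.sum_congr rfl fun m _ => ?_
  rw [expS_sum, Polynomial.coeToPowerSeries.ringHom_apply]

private theorem psiMap_injective {r : ℕ} {μ : Fin r → ℂ} (hμ : LinearIndependent ℤ μ)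
    {F : MvPolynomial (Fin r) (Polynomial ℂ)} (hF : psiMap μ F = 0) : F = 0 := by
  classical
  let g : (Fin r →₀ ℕ) → (⊤ : AddSubgroup ℂ) := fun m => ⟨∑ i, (m i : ℂ) * μ i, trivial⟩
  have hg : Function.Injective g := by
    intro m m' h
    have h1 : ∑ i, (m i : ℂ) * μ i = ∑ i, (m' i : ℂ) * μ i := congrArg Subtype.val h
    have h2 : ∑ i, ((m i : ℤ) - (m' i : ℤ)) • μ i = 0 := by
      simp only [sub_smul, Finset.sum_sub_distrib, zsmul_eq_mul, Int.cast_natCast]
      rw [h1, sub_self]
    have h3 := Fintype.linearIndependent_iff.1 hμ _ h2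
    ext i
    have := h3 i
    omega
  let x : (⊤ : AddSubgroup ℂ) →₀ Polynomial ℂ :=
    ∑ m ∈ F.support, Finsupp.single (g m) (coeff m F)
  have hx : (x.sum fun l p => (p : PowerSeries ℂ) *
      PowerSeries.rescale (l : ℂ) (PowerSeries.exp ℂ)) = 0 := by
    have h1 : (x.sum fun l p => (p : PowerSeries ℂ) *
        PowerSeries.rescale (l : ℂ) (PowerSeries.exp ℂ)) =
        ∑ m ∈ F.support, (Finsupp.single (g m) (coeff m F)).sum fun l p =>
          (p : PowerSeries ℂ) * PowerSeries.rescale (l : ℂ) (PowerSeries.exp ℂ) := by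
      symm
      apply Finsupp.sum_finsetSum_index
      · intro l; simp
      · intro l p q; rw [Polynomial.coe_add, add_mul]
    rw [h1, ← hF, psiMap_apply]
    refine Finset.sum_congr rfl fun m _ => ?_
    rw [Finsupp.sum_single_index (by simp)]
    rfl
  have hx0 := expAlg_injective _ x hx
  ext1 m
  by_contra hne
  have hm : m ∈ F.support := mem_support_iff.2 hne
  have h1 : x (g m) = coeff m F := by
    simp only [x, Finsupp.finsetSum_apply]
    rw [Finset.sum_eq_single m]
    · simp
    · intro m' _ hm'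
      rw [Finsupp.single_apply, if_neg]
      intro h
      exact hm' (hg h)
    · intro h
      exact absurd hm h
  rw [hx0] at h1
  exact hne h1.symm

/-- the polynomial part `∑_k s^k / k! (ξ - a)^k u` -/
private noncomputable def wPoly {n : ℕ} (N : ℕ) (g : Module.End ℂ (Fin (n + 1) → ℂ))
    (u : Fin (n + 1) → ℂ) (j : Fin (n + 1)) : Polynomial ℂ :=
  ∑ k ∈ Finset.range N, Polynomial.C (((Nat.factorial k : ℕ) : ℂ)⁻¹ * ((g ^ k) u) j) *
    Polynomial.X ^ k

private theorem wPoly_coeff {n N : ℕ} {g : Module.End ℂ (Fin (n + 1) → ℂ)}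
    {u : Fin (n + 1) → ℂ} (hN : ∀ k, N ≤ k → (g ^ k) u = 0) (j : Fin (n + 1)) (k : ℕ) :
    (wPoly N g u j).coeff k = ((Nat.factorial k : ℕ) : ℂ)⁻¹ * ((g ^ k) u) j := by
  unfold wPoly
  simp only [Polynomial.finsetSum_coeff, Polynomial.coeff_C_mul_X_pow]
  rw [Finset.sum_ite_eq]
  split_ifs with h
  · rfl
  · rw [hN k (by simpa using h)]
    simp

private theorem wPoly_deriv {n N : ℕ} {f : Module.End ℂ (Fin (n + 1) → ℂ)} {a : ℂ}
    {ξ : Matrix (Fin (n + 1)) (Fin (n + 1)) ℂ} (hf : ∀ w j, f w j = ∑ l, w l * ξ l j)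
    {u : Fin (n + 1) → ℂ}
    (hN : ∀ k, N ≤ k → ((f - a • (1 : Module.End ℂ (Fin (n + 1) → ℂ))) ^ k) u = 0)
    (j : Fin (n + 1)) :
    Polynomial.derivative (wPoly N (f - a • 1) u j) + Polynomial.C a * wPoly N (f - a • 1) u j =
      ∑ l, wPoly N (f - a • 1) u l * Polynomial.C (ξ l j) := by
  ext k
  rw [Polynomial.coeff_add, Polynomial.coeff_derivative, Polynomial.coeff_C_mul,
    Polynomial.finsetSum_coeff]
  simp only [Polynomial.coeff_mul_C, wPoly_coeff hN]
  have h1 : ∑ l, ((Nat.factorial k : ℕ) : ℂ)⁻¹ * (((f - a • 1) ^ k) u) l * ξ l j =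
      ((Nat.factorial k : ℕ) : ℂ)⁻¹ * f (((f - a • 1) ^ k) u) j := by
    rw [hf, Finset.mul_sum]
    exact Finset.sum_congr rfl fun l _ => by ring
  rw [h1]
  have h2 : f (((f - a • (1 : Module.End ℂ (Fin (n + 1) → ℂ))) ^ k) u) =
      ((f - a • (1 : Module.End ℂ (Fin (n + 1) → ℂ))) ^ (k + 1)) u +
        a • (((f - a • (1 : Module.End ℂ (Fin (n + 1) → ℂ))) ^ k) u) := by
    rw [pow_succ', Module.End.mul_apply]
    simp
  rw [h2, Pi.add_apply, Pi.smul_apply, smul_eq_mul]
  have h3 : ((Nat.factorial (k + 1) : ℕ) : ℂ) = ((k : ℂ) + 1) * ((Nat.factorial k : ℕ) : ℂ) := by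
    rw [Nat.factorial_succ]; push_cast; ring
  have h4 : ((Nat.factorial k : ℕ) : ℂ) ≠ 0 := by exact_mod_cast Nat.factorial_ne_zero _
  have h5 : ((k : ℂ) + 1) ≠ 0 := by exact_mod_cast Nat.succ_ne_zero k
  rw [h3]
  field_simp

/-- **PIECE E1.**  If all derivatives along `D_ξ` of the equations `p ∘ P` (`p ∈ S`) vanish at `v`
and the map `P` is not infinitesimally constant at `v` in the direction of `ξ`, then `V(S)` contains
a rational curve.

Proof.  (1) Let `V(s) ∈ ℂ⟦s⟧^{n+1}` with `V(0) = v`, `V' = V ξ` (row vector).  For each polynomial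
`q`, `d/ds q(V) = (D_ξ q)(V)`, so the `l`-th derivative at `0` of `q(V)` is `(D_ξ^l q)(v)`; hence
`p(P(V)) = 0` for `p ∈ S`.
(2) Write `v = ∑_λ v_λ`, `v_λ (ξ - λ)^N = 0` (`Module.End.iSup_maxGenEigenspace_eq_top` for the
transpose), and let `Λ` be the (finitely generated) additive subgroup of `ℂ` generated by the
`λ`'s; it is free, with `ℤ`-basis `μ_1, ..., μ_r`.  Then `V(s) = ∑_λ exp(λ s) w_λ(s)` with
`w_λ(s) = ∑_{k<N} s^k/k! v_λ (ξ - λ)^k` polynomial.  So `V` is the image of
`Ṽ = ∑ w_λ [λ] ∈ A^{n+1}`, `A = AddMonoidAlgebra ℂ[X] Λ`; `p(P(Ṽ)) = 0` in `A` by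
`expAlg_injective`.
(3) For `τ ∈ ℂ` with all `1 + μ_i τ ≠ 0` the map `[λ] ↦ ∏ (1 + μ_i τ)^{m_i(λ)}`, `s ↦ τ` is a ring
homomorphism `φ_τ : A → ℂ` (`AddMonoidAlgebra.liftNCRingHom`); so `p(P(φ_τ(Ṽ))) = 0`.  With `M`
large, `Q_i(τ) = ∏ (1 + μ_j τ)^M P_i(φ_τ(Ṽ))` is a polynomial in `τ` and `p(Q(τ)) = 0` for all but
finitely many `τ`, hence `aeval Q p = 0` (`p` is homogeneous).
(4) `φ_τ(Ṽ) = v + τ v ξ + O(τ²)` (as `∏ (1 + μ_i τ)^{m_i(λ)} = 1 + λ τ + O(τ²)`), so
`Q_j(0) Q_i'(0) - Q_i(0) Q_j'(0) = eval v (P_j D_ξ P_i - P_i D_ξ P_j) ≠ 0`, which excludes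
`Q_i = a_i b`. -/
theorem exists_rational_curve {m n e : ℕ} (S : Set (MvPolynomial (Fin (m + 1)) ℂ))
    (hS : ∀ p ∈ S, ∃ d : ℕ, p.IsHomogeneous d)
    (P : Fin (m + 1) → MvPolynomial (Fin (n + 1)) ℂ) (hP : ∀ i, (P i).IsHomogeneous e)
    (ξ : Matrix (Fin (n + 1)) (Fin (n + 1)) ℂ) (v : Fin (n + 1) → ℂ)
    (hv : ∀ p ∈ S, ∀ l : ℕ, eval v ((⇑(Dxi ξ))^[l] (aeval P p)) = 0) (i j : Fin (m + 1))
    (hne : eval v (P j * Dxi ξ (P i) - P i * Dxi ξ (P j)) ≠ 0) :
    ∃ Q : Fin (m + 1) → Polynomial ℂ, (∀ p ∈ S, aeval Q p = 0) ∧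
      (¬ ∃ (a : Fin (m + 1) → ℂ) (b : Polynomial ℂ), ∀ i, Q i = Polynomial.C (a i) * b) ∧
      ∀ i, (Q i).eval 0 = eval v (P i) := by
  classical
  let f : Module.End ℂ (Fin (n + 1) → ℂ) := ξ.vecMulLinear
  have hf : ∀ w j, f w j = ∑ l, w l * ξ l j := by
    intro w j
    rfl
  obtain ⟨s, u, N, hu, hN⟩ := exists_eigen f v
  obtain ⟨r, μ, q, hμ, hq⟩ := exists_basis s
  -- exponents made non-negative
  obtain ⟨M, hM⟩ : ∃ M : ℕ, ∀ a ∈ s, ∀ i, 0 ≤ (M : ℤ) + q a i := by
    refine ⟨s.sup fun a => Finset.univ.sup fun i => (q a i).natAbs, ?_⟩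
    intro a ha i
    have h1 : (q a i).natAbs ≤ s.sup fun a => Finset.univ.sup fun i => (q a i).natAbs :=
      le_trans (Finset.le_sup (f := fun i => (q a i).natAbs) (Finset.mem_univ i))
        (Finset.le_sup (f := fun a => Finset.univ.sup fun i => (q a i).natAbs) ha)
    omega
  let κ : ℂ := (M : ℂ) * ∑ i, μ i
  let k : ℂ → Fin r → ℕ := fun a i => ((M : ℤ) + q a i).toNat
  have hk : ∀ a ∈ s, ∀ i, (k a i : ℂ) = (M : ℂ) + (q a i : ℂ) := by
    intro a ha i
    have h1 : ((k a i : ℕ) : ℤ) = (M : ℤ) + q a i := Int.toNat_of_nonneg (hM a ha i)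
    exact_mod_cast congrArg (fun z : ℤ => (z : ℂ)) h1
  have hk2 : ∀ a ∈ s, ∑ i, (k a i : ℂ) * μ i = κ + a := by
    intro a ha
    have h1 := hq a ha
    have h2 : ∑ i, (k a i : ℂ) * μ i = ∑ i, ((M : ℂ) * μ i + (q a i : ℂ) * μ i) :=
      Finset.sum_congr rfl fun i _ => by rw [hk a ha i]; ring
    rw [h2, Finset.sum_add_distrib, ← Finset.mul_sum, ← h1]
  -- the curve in the ring of polynomials in `X` and `t_1, ..., t_r`
  let w : ℂ → Fin (n + 1) → Polynomial ℂ := fun a j => wPoly N (f - a • 1) (u a) j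
  let W : Fin (n + 1) → MvPolynomial (Fin r) (Polynomial ℂ) :=
    fun j => ∑ a ∈ s, C (w a j) * ∏ i, X i ^ k a i
  let V : Fin (n + 1) → PowerSeries ℂ :=
    fun j => ∑ a ∈ s, (w a j : PowerSeries ℂ) * expS a
  have hWV : ∀ j, psiMap μ (W j) = expS κ * V j := by
    intro j
    simp only [W, V, map_sum, map_mul, map_prod, map_pow, psiMap_C, psiMap_X, Finset.mul_sum]
    refine Finset.sum_congr rfl fun a ha => ?_
    rw [← expS_sum, hk2 a ha, expS_add]
    ring
  have hDV : ∀ j, PowerSeries.derivative ℂ (V j) =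
      ∑ l, V l * algebraMap ℂ (PowerSeries ℂ) (ξ l j) := by
    intro j
    have h1 : ∀ a ∈ s, PowerSeries.derivative ℂ ((w a j : PowerSeries ℂ) * expS a) =
        ∑ l, (w a l : PowerSeries ℂ) * expS a * algebraMap ℂ (PowerSeries ℂ) (ξ l j) := by
      intro a ha
      rw [Derivation.leibniz, expS_deriv, PowerSeries.derivative_coe]
      have h2 := congrArg (fun p : Polynomial ℂ => (p : PowerSeries ℂ))
        (wPoly_deriv hf (hN a ha) j)
      simp only [Polynomial.coe_add, Polynomial.coe_mul, Polynomial.coe_C] at h2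
      have h3 : ((∑ l, wPoly N (f - a • 1) (u a) l * Polynomial.C (ξ l j) : Polynomial ℂ) :
          PowerSeries ℂ) =
          ∑ l, (w a l : PowerSeries ℂ) * algebraMap ℂ (PowerSeries ℂ) (ξ l j) := by
        rw [← Polynomial.coeToPowerSeries.ringHom_apply, map_sum]
        refine Finset.sum_congr rfl fun l _ => ?_
        rw [map_mul, Polynomial.coeToPowerSeries.ringHom_apply,
          Polynomial.coeToPowerSeries.ringHom_apply, Polynomial.coe_C]
        rfl
      rw [h3] at h2
      have h4 : ∑ l, (w a l : PowerSeries ℂ) * expS a * algebraMap ℂ (PowerSeries ℂ) (ξ l j) =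
          (∑ l, (w a l : PowerSeries ℂ) * algebraMap ℂ (PowerSeries ℂ) (ξ l j)) * expS a := by
        rw [Finset.sum_mul]
        exact Finset.sum_congr rfl fun l _ => by ring
      rw [h4, ← h2]
      simp only [smul_eq_mul, w]
      ring
    simp only [V]
    rw [map_sum, Finset.sum_congr rfl h1, Finset.sum_comm]
    refine Finset.sum_congr rfl fun l _ => ?_
    rw [Finset.sum_mul]
  have hV0 : ∀ l, PowerSeries.constantCoeff (V l) = v l := by
    intro l
    simp only [V, map_sum, map_mul, expS_const, mul_one]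
    rw [← hu, Finset.sum_apply]
    refine Finset.sum_congr rfl fun a ha => ?_
    rw [Polynomial.constantCoeff_coe]
    rw [wPoly_coeff (hN a ha)]
    simp
  have hconst : ∀ p : MvPolynomial (Fin (n + 1)) ℂ,
      PowerSeries.constantCoeff (aeval V p) = eval v p := by
    intro p
    induction p using MvPolynomial.induction_on with
    | C a => rw [aeval_C, eval_C]; exact PowerSeries.constantCoeff_C a
    | add p q hp hq => rw [map_add, map_add, map_add, hp, hq]
    | mul_X p i hp => rw [map_mul, map_mul, map_mul, hp, aeval_X, eval_X, hV0]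
  have hzero : ∀ p ∈ S, aeval V (aeval P p) = 0 := by
    intro p hp
    ext l
    have h1 := PowerSeries.constantCoeff_iterate_derivative (aeval V (aeval P p)) l
    rw [aeval_deriv_iter (PowerSeries.derivative ℂ) V ξ hDV, hconst, hv p hp l] at h1
    rw [map_zero]
    have h2 : ((Nat.factorial l : ℕ) : ℂ) ≠ 0 := by exact_mod_cast Nat.factorial_ne_zero _
    exact (mul_eq_zero.1 h1.symm).resolve_left h2
  -- the relation in the polynomial ring
  have hzeroW : ∀ p ∈ S, aeval W (aeval P p) = 0 := by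
    intro p hp
    apply psiMap_injective hμ
    obtain ⟨d, hd⟩ := hS p hp
    have h1 : (fun j => psiMap μ (W j)) = fun j => expS κ * V j := funext hWV
    have h2 : psiMap μ (aeval W (aeval P p)) = aeval (fun j => psiMap μ (W j)) (aeval P p) :=
      comp_aeval_apply W (psiMap μ) _
    rw [h2, h1, aeval_scale (hd.aeval P hP), hzero p hp, mul_zero]
  -- substitution
  let θ : MvPolynomial (Fin r) (Polynomial ℂ) →ₐ[ℂ] Polynomial ℂ :=
    (aeval (R := Polynomial ℂ) (fun i => 1 + Polynomial.C (μ i) * Polynomial.X)).restrictScalars ℂ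
  let Y : Fin (n + 1) → Polynomial ℂ := fun j => θ (W j)
  have hY : ∀ j, Y j = ∑ a ∈ s, w a j * ∏ i, (1 + Polynomial.C (μ i) * Polynomial.X) ^ k a i := by
    intro j
    change aeval (R := Polynomial ℂ) (fun i => 1 + Polynomial.C (μ i) * Polynomial.X) (W j) = _
    simp only [W, map_sum, map_mul, map_prod, map_pow, aeval_X, aeval_C]
    rfl
  have hprod0 : ∀ a, (∏ i, (1 + Polynomial.C (μ i) * Polynomial.X) ^ k a i : Polynomial ℂ).eval 0 = 1 := by
    intro a
    rw [Polynomial.eval_prod]
    apply Finset.prod_eq_one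
    intro i _
    simp
  have hprod1 : ∀ a, (Polynomial.derivative
      (∏ i, (1 + Polynomial.C (μ i) * Polynomial.X) ^ k a i : Polynomial ℂ)).eval 0 =
      ∑ i, (k a i : ℂ) * μ i := by
    intro a
    rw [Polynomial.derivative_prod_finset, Polynomial.eval_finsetSum]
    refine Finset.sum_congr rfl fun i _ => ?_
    rw [Polynomial.eval_mul, Polynomial.eval_prod]
    rw [Finset.prod_eq_one (fun i _ => by simp), one_mul, Polynomial.derivative_pow]
    simp
  have hw0 : ∀ a ∈ s, ∀ j, (w a j).eval 0 = u a j := by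
    intro a ha j
    rw [← Polynomial.coeff_zero_eq_eval_zero]
    simp only [w]
    rw [wPoly_coeff (hN a ha)]
    simp
  have hw1 : ∀ a ∈ s, ∀ j, (Polynomial.derivative (w a j)).eval 0 =
      (∑ l, u a l * ξ l j) - a * u a j := by
    intro a ha j
    have h1 := congrArg (Polynomial.eval 0) (wPoly_deriv hf (hN a ha) j)
    rw [Polynomial.eval_add, Polynomial.eval_mul, Polynomial.eval_C,
      Polynomial.eval_finsetSum] at h1
    have h2 := hw0 a ha
    simp only [w] at h2 ⊢
    simp only [Polynomial.eval_mul, Polynomial.eval_C, h2] at h1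
    rw [← h1]
    ring
  have hY0 : ∀ j, (Y j).eval 0 = v j := by
    intro j
    rw [hY, Polynomial.eval_finsetSum, ← hu, Finset.sum_apply]
    refine Finset.sum_congr rfl fun a ha => ?_
    rw [Polynomial.eval_mul, hprod0, mul_one, hw0 a ha]
  have hY1 : ∀ j, (Polynomial.derivative (Y j)).eval 0 = (∑ l, v l * ξ l j) + κ * v j := by
    intro j
    rw [hY, Polynomial.derivative_sum, Polynomial.eval_finsetSum]
    have h1 : ∀ a ∈ s, (Polynomial.derivative
        (w a j * ∏ i, (1 + Polynomial.C (μ i) * Polynomial.X) ^ k a i)).eval 0 =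
        (∑ l, u a l * ξ l j) + κ * u a j := by
      intro a ha
      rw [Polynomial.derivative_mul, Polynomial.eval_add, Polynomial.eval_mul, Polynomial.eval_mul,
        hprod0, hprod1, hw0 a ha, hw1 a ha, hk2 a ha]
      ring
    rw [Finset.sum_congr rfl h1, Finset.sum_add_distrib, ← Finset.mul_sum, ← hu,
      Finset.sum_apply, Finset.sum_comm]
    congr 1
    refine Finset.sum_congr rfl fun l _ => ?_
    rw [Finset.sum_apply, Finset.sum_mul]
  refine ⟨fun i => aeval Y (P i), ?_, ?_, fun i => (eval_deriv_zero Y ξ κ v hY0 hY1 (P i)).1⟩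
  · intro p hp
    have h1 : aeval (fun i => aeval Y (P i)) p = aeval Y (aeval P p) :=
      (comp_aeval_apply P (aeval Y) p).symm
    have h2 : aeval Y (aeval P p) = θ (aeval W (aeval P p)) :=
      (comp_aeval_apply W θ (aeval P p)).symm
    rw [h1, h2, hzeroW p hp, map_zero]
  · rintro ⟨a, b, hab⟩
    apply hne
    have key := eval_deriv_zero Y ξ κ v hY0 hY1
    have heul : ∀ i, ∑ l, v l * eval v (pderiv l (P i)) = e * eval v (P i) := by
      intro i
      have h1 := congrArg (eval v) (hP i).sum_X_mul_pderiv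
      rw [map_sum, map_nsmul, nsmul_eq_mul] at h1
      rw [← h1]
      exact Finset.sum_congr rfl fun l _ => by rw [map_mul, eval_X]
    have h1 : aeval Y (P j) * Polynomial.derivative (aeval Y (P i)) -
        aeval Y (P i) * Polynomial.derivative (aeval Y (P j)) = 0 := by
      have hi := hab i
      have hj := hab j
      simp only at hi hj
      rw [hi, hj]
      simp only [Polynomial.derivative_mul, Polynomial.derivative_C]
      ring
    have h2 := congrArg (Polynomial.eval 0) h1
    rw [Polynomial.eval_sub, Polynomial.eval_mul, Polynomial.eval_mul, (key (P i)).1,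
      (key (P j)).1, (key (P i)).2, (key (P j)).2, heul, heul, Polynomial.eval_zero] at h2
    rw [map_sub, map_mul, map_mul]
    linear_combination h2

end Pool.Agent.Stat
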