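import Mathlib

/-! PIECE G1. Borel's growth lemma in the measure form. -/

set_option autoImplicit false

namespace Pool.Agent.Stat

/-- **PIECE G1.**  Proof.  Let `E_k` be the set of `r` in the set with `2^k ≤ T r < 2^{k+1}`.  If
`x < y` are in `E_k` and `y > x + 1 / T x` then `T y ≥ T (x + 1/T x) > 2 T x ≥ 2^{k+1}`, a
contradiction; so `E_k` has diameter `≤ 2^{-k}` and measure `≤ 2^{-k}` (`Real.volume_le_diam`). -/
theorem growth (T : ℝ → ℝ) (hmono : MonotoneOn T (Set.Ici 1)) (h1 : ∀ r, 1 ≤ r → 1 ≤ T r) :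
    MeasureTheory.volume {r : ℝ | 1 ≤ r ∧ 2 * T r < T (r + 1 / T r)} < ⊤ := by
  set E : ℕ → Set ℝ := fun k =>
    {r : ℝ | (1 ≤ r ∧ 2 * T r < T (r + 1 / T r)) ∧ (2 : ℝ) ^ k ≤ T r ∧ T r < 2 ^ (k + 1)} with hE
  have hsub : {r : ℝ | 1 ≤ r ∧ 2 * T r < T (r + 1 / T r)} ⊆ ⋃ k, E k := by
    intro r hr
    obtain ⟨k, hk1, hk2⟩ := exists_nat_pow_near (h1 r hr.1) (one_lt_two (α := ℝ))
    exact Set.mem_iUnion.mpr ⟨k, hr, hk1, hk2⟩
  have hpair : ∀ (k : ℕ) (x y : ℝ), x ∈ E k → y ∈ E k → x ≤ y → y - x ≤ (1 / 2 : ℝ) ^ k := by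
    intro k x y hx hy hxy
    obtain ⟨⟨hx1, hx2⟩, hx3, hx4⟩ := hx
    obtain ⟨⟨hy1, hy2⟩, hy3, hy4⟩ := hy
    have hT : 0 < T x := lt_of_lt_of_le one_pos (h1 x hx1)
    have hle : y ≤ x + 1 / T x := by
      by_contra hcon
      push Not at hcon
      have h2 : T (x + 1 / T x) ≤ T y := by
        apply hmono _ _ hcon.le
        · exact Set.mem_Ici.mpr (by have : 0 < 1 / T x := by positivity
                                    linarith)
        · exact Set.mem_Ici.mpr hy1
      have h3 : (2 : ℝ) ^ (k + 1) ≤ 2 * T x := by rw [pow_succ]; linarith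
      linarith
    have h4 : 1 / T x ≤ 1 / 2 ^ k := one_div_le_one_div_of_le (by positivity) hx3
    rw [one_div_pow]
    linarith
  have hvol : ∀ k, MeasureTheory.volume (E k) ≤ ENNReal.ofReal ((1 / 2 : ℝ) ^ k) := by
    intro k
    refine (Real.volume_le_diam _).trans (Metric.ediam_le ?_)
    intro x hx y hy
    rw [edist_dist]
    apply ENNReal.ofReal_le_ofReal
    rw [Real.dist_eq, abs_le]
    rcases le_total x y with hxy | hxy
    · have h := hpair k x y hx hy hxy
      constructor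
      · linarith
      · have : (0 : ℝ) ≤ (1 / 2) ^ k := by positivity
        linarith
    · have h := hpair k y x hy hx hxy
      constructor
      · have : (0 : ℝ) ≤ (1 / 2) ^ k := by positivity
        linarith
      · linarith
  calc MeasureTheory.volume {r : ℝ | 1 ≤ r ∧ 2 * T r < T (r + 1 / T r)}
      ≤ MeasureTheory.volume (⋃ k, E k) := MeasureTheory.measure_mono hsub
    _ ≤ ∑' k, MeasureTheory.volume (E k) := MeasureTheory.measure_iUnion_le _
    _ ≤ ∑' k, ENNReal.ofReal ((1 / 2 : ℝ) ^ k) := ENNReal.tsum_le_tsum hvol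
    _ = ENNReal.ofReal (∑' k, (1 / 2 : ℝ) ^ k) := by
        rw [ENNReal.ofReal_tsum_of_nonneg (fun k => by positivity) summable_geometric_two]
    _ < ⊤ := ENNReal.ofReal_lt_top

end Pool.Agent.Stat
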