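import Pool.Agent.Lib_MP_b9fedf_st.Relations
import Pool.Agent.Lib_MP_b9fedf_st.AlgT
import Pool.Agent.Lib_MP_b9fedf_st.NbarL
import Pool.Agent.Lib_MP_b9fedf_st.Growth

/-! B10. The main theorem. -/

set_option autoImplicit false

namespace Pool.Agent.Stat

open Filter Topology Metric MvPolynomial ValueDistribution

/-- the characteristic is increasing up to constants -/
theorem charT_almost_mono {m : ℕ} {f : ℂ → Fin (m + 1) → ℂ} (hf : Differentiable ℂ f)
    (hf0 : ∀ z, f z ≠ 0) : ∃ C : ℝ, ∀ r r', 1 ≤ r → r ≤ r' →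
      charT f r ≤ (m + 1) * charT f r' + C := by
  have hd : ∀ k : Fin (m + 1), Differentiable ℂ (fun z => f z k) := fun k => differentiable_pi.1 hf k
  have h0 : ∀ z, ∃ k, f z k ≠ 0 := by
    intro z
    by_contra h
    push Not at h
    exact hf0 z (funext h)
  obtain ⟨k, hk⟩ := h0 0
  obtain ⟨C1, hC1⟩ := Pool.Agent.GGL.TF_le_sum hd h0 k ⟨0, hk⟩
  have hb : ∀ l, ∀ z, ‖f z l‖ ≤ 1 * ‖fun k => f z k‖ ^ 1 := by
    intro l z
    rw [one_mul, pow_one]
    exact norm_le_pi_norm (fun k => f z k) l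
  choose C2 hC2 using fun l => Pool.Agent.GGL.char_div_le_TF hd h0 (hd l) (hd k) ⟨0, hk⟩ 1 1 (hb l) (hb k)
  refine ⟨∑ l, C2 l + C1, fun r r' hr hrr' => ?_⟩
  have h1 := hC1 r hr
  have h2 : ∀ l, characteristic (fun z => f z l / f z k) ⊤ r ≤ charT f r' + C2 l := by
    intro l
    have h3 : Meromorphic (fun z => f z l / f z k) := fun z =>
      ((hd l).analyticAt z).meromorphicAt.div ((hd k).analyticAt z).meromorphicAt
    have h4 := characteristic_monotoneOn h3 (show (0 : ℝ) < r by linarith)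
      (show (0 : ℝ) < r' by linarith) hrr'
    have h5 := hC2 l r' (hr.trans hrr')
    have h6 : ((1 : ℕ) : ℝ) * Pool.Agent.GGL.TF (fun k z => f z k) r' = charT f r' := by
      rw [Nat.cast_one, one_mul]; rfl
    rw [h6] at h5
    exact h4.trans h5
  have h7 : ∑ l, characteristic (fun z => f z l / f z k) ⊤ r ≤ (m + 1) * charT f r' + ∑ l, C2 l := by
    refine (Finset.sum_le_sum fun l _ => h2 l).trans (le_of_eq ?_)
    rw [Finset.sum_add_distrib, Finset.sum_const, Finset.card_univ, Fintype.card_fin, nsmul_eq_mul]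
    push_cast
    ring
  have h8 : charT f r = Pool.Agent.GGL.TF (fun k z => f z k) r := rfl
  rw [h8]
  linarith

theorem log_absorb {c : ℝ} (hc : 0 < c) {x : ℝ} (hx : 0 ≤ x) :
    c * Real.log (1 + x) ≤ x + (1 + c * Real.log c) := by
  have h1 : Real.log ((1 + x) / c) ≤ (1 + x) / c - 1 :=
    Real.log_le_sub_one_of_pos (by positivity)
  rw [Real.log_div (by positivity) hc.ne'] at h1
  have h2 := mul_le_mul_of_nonneg_left h1 hc.le
  have h3 : c * ((1 + x) / c - 1) = 1 + x - c := by field_simp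
  rw [h3] at h2
  nlinarith

/-- **Main theorem**: an entire curve in a projective variety which is a rational image of an
entire curve `g` in projective space runs through rational curves, or its growth is bounded by the
number of the stationary points of `g`. -/
theorem main (m n e N : ℕ) :
    ∃ C : ℝ, 0 ≤ C ∧ ∀ S : Set (MvPolynomial (Fin (m + 1)) ℂ),
      (∀ p ∈ S, ∃ k ≤ N, p.IsHomogeneous k) →
      ∀ (g : ℂ → Fin (n + 1) → ℂ), Differentiable ℂ g → (∀ z, g z ≠ 0) →
      LinearIndependent ℂ (fun (j : Fin (n + 1)) z => g z j) →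
      ∀ (P : Fin (m + 1) → MvPolynomial (Fin (n + 1)) ℂ), (∀ i, (P i).IsHomogeneous e) →
      ∀ (f : ℂ → Fin (m + 1) → ℂ), Differentiable ℂ f → (∀ z, f z ≠ 0) →
      (∀ z, ∀ p ∈ S, eval (f z) p = 0) →
      ∀ h : ℂ → ℂ, (∃ z, h z ≠ 0) → (∀ z i, eval (g z) (P i) = h z * f z i) →
      (∀ᶠ z in codiscrete ℂ, OnRational S (f z)) ∨
      ∃ (K : ℝ) (E : Set ℝ), MeasureTheory.volume E < ⊤ ∧ ∀ r, 1 ≤ r → r ∉ E →
        charT f r ≤ C * Nbar (wronsk g) r + K * (Real.posLog (charT g r) + Real.log r + 1) := by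
  obtain ⟨M, d, hMd⟩ := relations m n e N
  refine ⟨(m + 1) * ((m + 1) * M * 2) + 1, by positivity, ?_⟩
  intro S hS g hg hg0 hli P hP f hf hf0 hfS h hh hPf
  -- a coordinate
  obtain ⟨z1, hz1⟩ := hh
  obtain ⟨k, hk⟩ : ∃ k, f z1 k ≠ 0 := by
    by_contra hcon
    push Not at hcon
    exact hf0 z1 (funext hcon)
  rcases hMd S hS g hg hli P hP f h hPf hfS k ⟨z1, mul_ne_zero hz1 hk⟩ with hrat |
    ⟨Q, hQm, hQne, hQrel, hQreg, hQord, KQ, hKQ, hQK⟩
  · exact Or.inl hrat
  right
  -- the reduced divisor of the Wronskian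
  have hW1 : wrf g (n + 1) = wronsk g := wrf_eq_wronsk g
  have hWd : Differentiable ℂ (wronsk g) := by rw [← hW1]; exact wrf_differentiable hg _
  have hW0 : ∃ z, wronsk g z ≠ 0 := by rw [← hW1]; exact exists_wrf_ne_zero hg hli le_rfl
  obtain ⟨Z, hZ0, hZ1, hZ2, CN, hCN⟩ := exists_reduced hWd hW0
  set NZ : ℝ → ℝ := Function.locallyFinsuppWithin.logCounting Z with hNZ
  have hNZ0 : ∀ r, 1 ≤ r → 0 ≤ NZ r := fun r hr =>
    Function.locallyFinsuppWithin.logCounting_nonneg hZ0 hr
  have hNZm : ∀ r r', 1 ≤ r → r ≤ r' → NZ r ≤ NZ r' := fun r r' hr hrr' =>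
    Function.locallyFinsuppWithin.logCounting_mono hZ0 (show (0 : ℝ) < r by linarith)
      (show (0 : ℝ) < r' by linarith) hrr'
  -- bound by relations
  obtain ⟨C0, hC0⟩ := charT_le_of_relations f hf hf0 k ⟨z1, hk⟩ d Q hQm hQne hQrel M Z hZ0 (by
    intro i j a
    by_cases ha : wronsk g a = 0
    · rw [hZ1 a ha, mul_one]
      exact hQord i j a
    · rw [hZ2 a ha, mul_zero, neg_zero]
      exact hQreg i j a ha)
  obtain ⟨C1, hC1⟩ := charT_almost_mono hf hf0
  have hg00 : ∃ z, g z 0 ≠ 0 := by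
    by_contra hcon
    push Not at hcon
    have := hli.ne_zero (0 : Fin (n + 1))
    exact this (funext hcon)
  obtain ⟨C2, hC2⟩ := TT_le_charT hg hg0 hg00
  obtain ⟨CL, hCL1, hCL⟩ := ldlH g hg hg0 hli
  -- growth
  set Ψ : ℝ → ℝ := fun r => TT g r + NZ r with hΨ
  set Θ : ℝ → ℝ := fun r => 1 + NZ r with hΘ
  have hTT1 : ∀ r, 1 ≤ r → 1 ≤ TT g r := fun r hr => one_le_TT g hr
  have hΨ1 : ∀ r, 1 ≤ r → 1 ≤ Ψ r := fun r hr => by
    have := hTT1 r hr; have := hNZ0 r hr
    show 1 ≤ TT g r + NZ r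
    linarith
  have hΘ1 : ∀ r, 1 ≤ r → 1 ≤ Θ r := fun r hr => by
    have := hNZ0 r hr
    show 1 ≤ 1 + NZ r
    linarith
  have hΨm : MonotoneOn Ψ (Set.Ici 1) := fun a ha b hb hab =>
    add_le_add (TT_mono hg ha hb hab) (hNZm a b ha hab)
  have hΘm : MonotoneOn Θ (Set.Ici 1) := fun a ha b hb hab => by
    have := hNZm a b ha hab
    show 1 + NZ a ≤ 1 + NZ b
    linarith
  have hE1 := growth Ψ hΨm hΨ1
  have hE2 := growth Θ hΘm hΘ1
  set E1 : Set ℝ := {r : ℝ | 1 ≤ r ∧ 2 * Ψ r < Ψ (r + 1 / Ψ r)} with hE1d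
  set E2 : Set ℝ := {r : ℝ | 1 ≤ r ∧ 2 * Θ r < Θ (r + 1 / Θ r)} with hE2d
  -- constants
  set c : ℝ := (m + 1) * ((m + 1) * (M * (2 * CL))) + 1 with hc
  have hc0 : 0 < c := by rw [hc]; positivity
  set K1 : ℝ := Real.log ((n + 1) + |C2|) with hK1
  have hK10 : 0 ≤ K1 := Real.log_nonneg (by
    have : (0 : ℝ) ≤ n := Nat.cast_nonneg n
    have := abs_nonneg C2
    linarith)
  set K2 : ℝ := Real.log (1 + KQ) with hK2
  have hK20 : 0 ≤ K2 := Real.log_nonneg (by linarith)
  set c0 : ℝ := 1 + Real.log 2 + Real.log 3 + Real.log 5 with hc0'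
  have hc00 : 0 ≤ c0 := by
    have h2 := Real.log_nonneg (show (1 : ℝ) ≤ 2 by norm_num)
    have h3 := Real.log_nonneg (show (1 : ℝ) ≤ 3 by norm_num)
    have h5 := Real.log_nonneg (show (1 : ℝ) ≤ 5 by norm_num)
    rw [hc0']; linarith
  set a : ℝ := (m : ℝ) + 1 with ha
  have ha0 : 0 ≤ a := by rw [ha]; positivity
  have hM0 : (0 : ℝ) ≤ M := Nat.cast_nonneg M
  have hCL0 : 0 ≤ CL := by linarith
  have hcc : c = a * (a * (M * (2 * CL))) + 1 := rfl
  set Kc : ℝ := a * (a * M) + a * (a * K2) + a * (a * (M * (CL * (c0 + 2 * K1)))) +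
    a * (a * (M * (CL * 2))) + a * (a * (M * CL)) + a * |C0| + |C1| + |1 + c * Real.log c| +
    (a * (a * M * 2) + 1) * |CN| with hKc
  refine ⟨Kc, E1 ∪ E2, ?_, ?_⟩
  · exact lt_of_le_of_lt (MeasureTheory.measure_union_le _ _) (ENNReal.add_lt_top.2 ⟨hE1, hE2⟩)
  intro r hr hrE
  have hrE1 : Ψ (r + 1 / Ψ r) ≤ 2 * Ψ r := by
    by_contra hcon
    exact hrE (Or.inl ⟨hr, not_le.1 hcon⟩)
  have hrE2 : Θ (r + 1 / Θ r) ≤ 2 * Θ r := by
    by_contra hcon
    exact hrE (Or.inr ⟨hr, not_le.1 hcon⟩)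
  have hP1 := hΨ1 r hr
  have hT1 := hΘ1 r hr
  have hTTr := hTT1 r hr
  have hNZr := hNZ0 r hr
  have hPT : Θ r ≤ Ψ r := by
    show 1 + NZ r ≤ TT g r + NZ r
    linarith
  set δ : ℝ := 1 / (5 * Ψ r) with hδ
  have hδ0 : 0 < δ := by rw [hδ]; positivity
  have hδ1 : δ ≤ 1 := by
    rw [hδ, div_le_one (by positivity)]
    linarith
  obtain ⟨r', ⟨hr1, hr2⟩, B, hB1, hBlog, hBC⟩ := hCL r δ hr hδ0 hδ1
  have hr'1 : 1 ≤ r' := hr.trans hr1
  have hlB : 0 ≤ Real.log B := Real.log_nonneg hB1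
  -- `NZ r' ≤ 1 + 2 NZ r`
  have hN : NZ r' ≤ 1 + 2 * NZ r := by
    have h1 : δ ≤ 1 / Θ r := by
      rw [hδ]
      apply one_div_le_one_div_of_le (by linarith)
      linarith
    have h2 := hNZm r' (r + 1 / Θ r) hr'1 (by linarith)
    have h3 : 1 + NZ (r + 1 / Θ r) ≤ 2 * (1 + NZ r) := hrE2
    linarith
  -- `log B`
  have hB2 : Real.log B ≤ CL * (c0 + 2 * (K1 + Real.posLog (charT g r) + Real.log (1 + NZ r)) +
      Real.log r) := by
    refine hBlog.trans (mul_le_mul_of_nonneg_left ?_ hCL0)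
    have h5 : r + 5 * δ = r + 1 / Ψ r := by
      rw [hδ]
      field_simp
    have hr5 : 1 ≤ r + 1 / Ψ r := by
      have : 0 < 1 / Ψ r := by positivity
      linarith
    have h6 : TT g (r + 5 * δ) ≤ 2 * Ψ r := by
      rw [h5]
      have h7 : TT g (r + 1 / Ψ r) ≤ Ψ (r + 1 / Ψ r) := by
        have := hNZ0 _ hr5
        show TT g (r + 1 / Ψ r) ≤ TT g (r + 1 / Ψ r) + NZ (r + 1 / Ψ r)
        linarith
      exact h7.trans hrE1
    have h8 : Real.log (TT g (r + 5 * δ)) ≤ Real.log 2 + Real.log (Ψ r) := by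
      rw [← Real.log_mul (by norm_num) (by positivity)]
      apply Real.log_le_log _ h6
      have := hTT1 (r + 5 * δ) (by linarith)
      linarith
    have h9 : Real.log (r + 2) ≤ Real.log 3 + Real.log r := by
      rw [← Real.log_mul (by norm_num) (by positivity)]
      exact Real.log_le_log (by linarith) (by linarith)
    have h10 : Real.log (1 / δ) = Real.log 5 + Real.log (Ψ r) := by
      rw [hδ, one_div_one_div, Real.log_mul (by norm_num) (by positivity)]
    have h11 : Real.log (Ψ r) ≤ Real.log (TT g r) + Real.log (1 + NZ r) := by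
      rw [← Real.log_mul (by positivity) (by positivity)]
      apply Real.log_le_log (by positivity)
      show TT g r + NZ r ≤ TT g r * (1 + NZ r)
      nlinarith
    have h12 : Real.log (TT g r) ≤ K1 + Real.posLog (charT g r) := by
      have h13 := hC2 r hr
      have h14 : TT g r ≤ ((n + 1) + |C2|) * max 1 (charT g r) := by
        have h15 : (1 : ℝ) ≤ max 1 (charT g r) := le_max_left _ _
        have h16 : charT g r ≤ max 1 (charT g r) := le_max_right _ _
        have h17 : C2 ≤ |C2| := le_abs_self C2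
        have h18 : 0 ≤ |C2| := abs_nonneg C2
        have h19 : (0 : ℝ) ≤ n := Nat.cast_nonneg n
        have h20 : ((n : ℝ) + 1) * charT g r ≤ (n + 1) * max 1 (charT g r) :=
          mul_le_mul_of_nonneg_left h16 (by linarith)
        have h21 : |C2| * 1 ≤ |C2| * max 1 (charT g r) := mul_le_mul_of_nonneg_left h15 h18
        have h22 : ((n : ℝ) + 1 + |C2|) * max 1 (charT g r) =
            (n + 1) * max 1 (charT g r) + |C2| * max 1 (charT g r) := by ring
        rw [h22]
        linarith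
      have h23 : (0 : ℝ) < (n + 1) + |C2| := by
        have h18 : 0 ≤ |C2| := abs_nonneg C2
        have h19 : (0 : ℝ) ≤ n := Nat.cast_nonneg n
        linarith
      have h24 := Real.log_le_log (by linarith) h14
      rw [Real.log_mul h23.ne' (by positivity)] at h24
      refine h24.trans (add_le_add le_rfl ?_)
      rcases le_total (charT g r) 1 with h25 | h25
      · rw [max_eq_left h25, Real.log_one]
        exact Real.posLog_nonneg
      · rw [max_eq_right h25]
        exact le_max_right _ _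
    rw [h10]
    linarith
  -- the relations
  have hB' : 0 ≤ K2 + M * Real.log B := by positivity
  have hmain := hC0 r' (K2 + M * Real.log B) hr'1 hB' (by
    intro i j
    filter_upwards [hQK r' B hr'1 hB1 hBC i j] with z hz
    refine hz.trans ?_
    have h1 : Real.exp (K2 + M * Real.log B) = (1 + KQ) * B ^ M := by
      rw [Real.exp_add, hK2, Real.exp_log (by linarith), ← Real.log_pow,
        Real.exp_log (by positivity)]
    rw [h1]
    exact mul_le_mul_of_nonneg_right (by linarith) (by positivity))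
  have hmono := hC1 r r' hr hr1
  have hNb := hCN r hr
  have habs := log_absorb hc0 hNZr
  have hl1 : 0 ≤ Real.log (1 + NZ r) := Real.log_nonneg (by linarith)
  have hlr : 0 ≤ Real.log r := Real.log_nonneg hr
  have hpl : 0 ≤ Real.posLog (charT g r) := Real.posLog_nonneg
  set pl := Real.posLog (charT g r) with hpld
  set L1 := Real.log (1 + NZ r) with hL1
  set x := NZ r with hx
  -- step 1
  have s1 : charT f r' ≤ a * M * (1 + 2 * x) + a * (K2 + M * (CL * (c0 + 2 * (K1 + pl + L1) +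
      Real.log r))) + |C0| := by
    have t1 : a * M * NZ r' ≤ a * M * (1 + 2 * x) := mul_le_mul_of_nonneg_left hN (by positivity)
    have t2 : a * (K2 + M * Real.log B) ≤ a * (K2 + M * (CL * (c0 + 2 * (K1 + pl + L1) +
        Real.log r))) := by
      apply mul_le_mul_of_nonneg_left _ ha0
      have := mul_le_mul_of_nonneg_left hB2 hM0
      linarith
    have t3 : C0 ≤ |C0| := le_abs_self _
    have t4 : charT f r' ≤ a * M * NZ r' + a * (K2 + M * Real.log B) + C0 := hmain
    linarith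
  have s2 : charT f r ≤ a * (a * M * (1 + 2 * x) + a * (K2 + M * (CL * (c0 + 2 * (K1 + pl + L1) +
      Real.log r))) + |C0|) + |C1| := by
    have t1 := mul_le_mul_of_nonneg_left s1 ha0
    have t2 : C1 ≤ |C1| := le_abs_self _
    have t3 : charT f r ≤ a * charT f r' + C1 := hmono
    linarith
  have s3 : a * (a * (M * (2 * CL))) * L1 ≤ x + |1 + c * Real.log c| := by
    have t1 : a * (a * (M * (2 * CL))) * L1 ≤ c * L1 := by
      apply mul_le_mul_of_nonneg_right _ hl1
      rw [hcc]; linarith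
    have t2 : 1 + c * Real.log c ≤ |1 + c * Real.log c| := le_abs_self _
    linarith
  have s4 : (a * (a * M * 2) + 1) * x ≤ (a * (a * M * 2) + 1) * Nbar (wronsk g) r +
      (a * (a * M * 2) + 1) * |CN| := by
    have t0 : 0 ≤ a * (a * M * 2) + 1 := by positivity
    have t1 : CN ≤ |CN| := le_abs_self _
    have t2 := mul_le_mul_of_nonneg_left (hNb.trans (add_le_add le_rfl t1)) t0
    linarith
  -- the constant
  have u1 : 0 ≤ a * (a * M) := by positivity
  have u2 : 0 ≤ a * (a * K2) := by positivity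
  have u3 : 0 ≤ a * (a * (M * (CL * (c0 + 2 * K1)))) := by positivity
  have u4 : 0 ≤ a * (a * (M * (CL * 2))) := by positivity
  have u5 : 0 ≤ a * (a * (M * CL)) := by positivity
  have u6 : 0 ≤ a * |C0| := by positivity
  have u7 : 0 ≤ |C1| := abs_nonneg _
  have u8 : 0 ≤ |1 + c * Real.log c| := abs_nonneg _
  have u9 : 0 ≤ (a * (a * M * 2) + 1) * |CN| := by positivity
  have v1 : a * (a * (M * (CL * 2))) * pl ≤ Kc * pl := by
    apply mul_le_mul_of_nonneg_right _ hpl
    rw [hKc]; linarith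
  have v2 : a * (a * (M * CL)) * Real.log r ≤ Kc * Real.log r := by
    apply mul_le_mul_of_nonneg_right _ hlr
    rw [hKc]; linarith
  have v3 : a * (a * M) + a * (a * K2) + a * (a * (M * (CL * (c0 + 2 * K1)))) + a * |C0| + |C1| +
      |1 + c * Real.log c| + (a * (a * M * 2) + 1) * |CN| ≤ Kc := by
    rw [hKc]; linarith
  have e1 : a * (a * M * (1 + 2 * x) + a * (K2 + M * (CL * (c0 + 2 * (K1 + pl + L1) +
      Real.log r))) + |C0|) + |C1| =
      a * (a * M) + a * (a * K2) + a * (a * (M * (CL * (c0 + 2 * K1)))) + a * |C0| + |C1| +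
        a * (a * M * 2) * x + a * (a * (M * (CL * 2))) * pl + a * (a * (M * (2 * CL))) * L1 +
        a * (a * (M * CL)) * Real.log r := by ring
  rw [e1] at s2
  have e2 : Kc * (pl + Real.log r + 1) = Kc * pl + Kc * Real.log r + Kc := by ring
  rw [e2]
  have e3 : (a * (a * M * 2) + 1) * x = a * (a * M * 2) * x + x := by ring
  rw [e3] at s4
  linarith

end Pool.Agent.Stat
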