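import Pool.Agent.Lib_MP_b9fedf_st.Defs

/-! The curves of the theorem. -/

set_option autoImplicit false

namespace Pool.Agent.Stat

open MvPolynomial Filter Topology

/-- `f` is (a nowhere zero lift of) an entire curve in `V(S)` in `P^m`, `g` is (a nowhere zero
lift of) an entire curve in `P^n` which lies in no hyperplane, and `f = [P_0(g) : ... : P_m(g)]` for
forms `P_i` of degree `e`. -/
structure RatImage {m n : ℕ} (S : Set (MvPolynomial (Fin (m + 1)) ℂ)) (e : ℕ)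
    (g : ℂ → Fin (n + 1) → ℂ) (f : ℂ → Fin (m + 1) → ℂ) : Prop where
  differentiable_g : Differentiable ℂ g
  g_ne_zero : ∀ z, g z ≠ 0
  linearIndependent : LinearIndependent ℂ (fun (j : Fin (n + 1)) z => g z j)
  differentiable_f : Differentiable ℂ f
  f_ne_zero : ∀ z, f z ≠ 0
  f_mem : ∀ z, ∀ p ∈ S, eval (f z) p = 0
  image : ∃ P : Fin (m + 1) → MvPolynomial (Fin (n + 1)) ℂ, (∀ i, (P i).IsHomogeneous e) ∧
    ∃ h : ℂ → ℂ, (∃ z, h z ≠ 0) ∧ ∀ z i, eval (g z) (P i) = h z * f z i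

/-- `f` is (a nowhere zero lift of) an entire curve in `V(S)` in `P^m`, and
`f = [P_0(x) : ... : P_m(x)]` near `z0` (off `z0`) for forms `P_i` of degree `e`. -/
structure LocalImage {m n : ℕ} (S : Set (MvPolynomial (Fin (m + 1)) ℂ)) (e : ℕ) (z0 : ℂ)
    (x : ℂ → Fin (n + 1) → ℂ) (f : ℂ → Fin (m + 1) → ℂ) : Prop where
  differentiable_f : Differentiable ℂ f
  f_ne_zero : ∀ z, f z ≠ 0
  f_mem : ∀ z, ∀ p ∈ S, eval (f z) p = 0
  image : ∃ P : Fin (m + 1) → MvPolynomial (Fin (n + 1)) ℂ, (∀ i, (P i).IsHomogeneous e) ∧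
    ∃ h : ℂ → ℂ, ∀ᶠ z in 𝓝[≠] z0, h z ≠ 0 ∧ ∀ i, eval (x z) (P i) = h z * f z i

end Pool.Agent.Stat
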