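import Pool.Agent.Lib_MP_b9fedf_st.Relations

/-! The differential field of germs of meromorphic functions at a point, and its comparison with
the field of meromorphic functions on `ℂ`. -/

set_option autoImplicit false

namespace Pool.Agent.Stat

open Filter Topology MvPolynomial

/-- germs at `z0` (off `z0`) -/
abbrev GA (z0 : ℂ) : Type := Filter.Germ (𝓝[≠] z0) ℂ

/-- the ring of germs of meromorphic functions at `z0` -/
noncomputable def merAtSub (z0 : ℂ) : Subring (GA z0) where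
  carrier := {x | ∃ f : ℂ → ℂ, MeromorphicAt f z0 ∧ x = (f : GA z0)}
  zero_mem' := ⟨0, MeromorphicAt.const 0 z0, rfl⟩
  one_mem' := ⟨1, MeromorphicAt.const 1 z0, rfl⟩
  add_mem' := by
    rintro _ _ ⟨f, hf, rfl⟩ ⟨g, hg, rfl⟩
    exact ⟨f + g, hf.add hg, rfl⟩
  mul_mem' := by
    rintro _ _ ⟨f, hf, rfl⟩ ⟨g, hg, rfl⟩
    exact ⟨f * g, hf.mul hg, rfl⟩
  neg_mem' := by
    rintro _ ⟨f, hf, rfl⟩
    exact ⟨-f, hf.neg, rfl⟩

/-- the field of germs of meromorphic functions at `z0` -/
def MerAt (z0 : ℂ) : Type := merAtSub z0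

variable {z0 : ℂ}

noncomputable instance : CommRing (MerAt z0) := inferInstanceAs (CommRing (merAtSub z0))

/-- the germ of a function which is meromorphic at `z0` -/
noncomputable def mkA (f : ℂ → ℂ) (hf : MeromorphicAt f z0) : MerAt z0 := ⟨(f : GA z0), f, hf, rfl⟩

theorem exists_mkA (x : MerAt z0) : ∃ (f : ℂ → ℂ) (hf : MeromorphicAt f z0), mkA f hf = x := by
  obtain ⟨x, f, hf, rfl⟩ := x
  exact ⟨f, hf, rfl⟩

theorem mkA_eq {f g : ℂ → ℂ} {hf : MeromorphicAt f z0} {hg : MeromorphicAt g z0} :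
    mkA f hf = mkA g hg ↔ f =ᶠ[𝓝[≠] z0] g := by
  rw [← Filter.Germ.coe_eq]
  exact Subtype.ext_iff

theorem mkA_add {f g : ℂ → ℂ} (hf : MeromorphicAt f z0) (hg : MeromorphicAt g z0) :
    mkA f hf + mkA g hg = mkA (f + g) (hf.add hg) := rfl

theorem mkA_mul {f g : ℂ → ℂ} (hf : MeromorphicAt f z0) (hg : MeromorphicAt g z0) :
    mkA f hf * mkA g hg = mkA (f * g) (hf.mul hg) := rfl

theorem mkA_zero : (0 : MerAt z0) = mkA 0 (MeromorphicAt.const 0 z0) := rfl

theorem mkA_one : (1 : MerAt z0) = mkA 1 (MeromorphicAt.const 1 z0) := rfl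

theorem mkA_eq_zero {f : ℂ → ℂ} {hf : MeromorphicAt f z0} :
    mkA f hf = 0 ↔ f =ᶠ[𝓝[≠] z0] 0 := by
  rw [mkA_zero, mkA_eq]

theorem mkA_ne_zero {f : ℂ → ℂ} {hf : MeromorphicAt f z0} (h : mkA f hf ≠ 0) :
    ∀ᶠ z in 𝓝[≠] z0, f z ≠ 0 := by
  rcases hf.eventually_eq_zero_or_eventually_ne_zero with h1 | h1
  · exact absurd (mkA_eq_zero.2 h1) h
  · exact h1

noncomputable instance : Inv (MerAt z0) where
  inv x := ⟨(x.1 : GA z0)⁻¹, by
    obtain ⟨_, f, hf, rfl⟩ := x
    exact ⟨f⁻¹, hf.inv, rfl⟩⟩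

theorem mkA_inv {f : ℂ → ℂ} (hf : MeromorphicAt f z0) : (mkA f hf)⁻¹ = mkA f⁻¹ hf.inv := rfl

noncomputable instance : Nontrivial (MerAt z0) := by
  refine ⟨0, 1, fun h => ?_⟩
  rw [mkA_zero, mkA_one, mkA_eq] at h
  obtain ⟨z, hz⟩ := h.exists
  simp at hz

noncomputable instance : Field (MerAt z0) where
  __ := (inferInstance : CommRing (MerAt z0))
  __ := (inferInstance : Nontrivial (MerAt z0))
  inv := Inv.inv
  mul_inv_cancel x hx := by
    obtain ⟨f, hf, rfl⟩ := exists_mkA x
    rw [mkA_inv, mkA_mul, mkA_one, mkA_eq]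
    filter_upwards [mkA_ne_zero hx] with z hz
    simp [hz]
  inv_zero := by
    show (0 : MerAt z0)⁻¹ = 0
    rw [mkA_zero, mkA_inv, mkA_eq]
    filter_upwards with z
    simp
  nnqsmul := _
  nnqsmul_def := fun _ _ => rfl
  qsmul := _
  qsmul_def := fun _ _ => rfl

theorem mkA_div {f g : ℂ → ℂ} (hf : MeromorphicAt f z0) (hg : MeromorphicAt g z0) :
    mkA f hf / mkA g hg = mkA (f / g) (hf.div hg) := by
  rw [div_eq_mul_inv, mkA_inv, mkA_mul, mkA_eq]
  filter_upwards with z
  simp [div_eq_mul_inv]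

/-- constants -/
noncomputable def constHomA : ℂ →+* MerAt z0 where
  toFun c := mkA (fun _ => c) (MeromorphicAt.const c z0)
  map_one' := rfl
  map_zero' := rfl
  map_add' _ _ := rfl
  map_mul' _ _ := rfl

noncomputable instance : Algebra ℂ (MerAt z0) := constHomA.toAlgebra

theorem algebraMap_merAt (c : ℂ) :
    algebraMap ℂ (MerAt z0) c = mkA (fun _ => c) (MeromorphicAt.const c z0) := rfl

/-- the derivative of a germ -/
noncomputable def derFunA (x : MerAt z0) : MerAt z0 :=
  ⟨Filter.Germ.map' deriv (fun f g (h : f =ᶠ[𝓝[≠] z0] g) => by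
      show deriv f =ᶠ[𝓝[≠] z0] deriv g
      filter_upwards [eventually_nhdsNE_nhds h] with z hz
      exact Filter.EventuallyEq.deriv_eq hz) x.1, by
    obtain ⟨_, f, hf, rfl⟩ := x
    exact ⟨deriv f, hf.deriv, rfl⟩⟩

theorem derFunA_mk {f : ℂ → ℂ} (hf : MeromorphicAt f z0) :
    derFunA (mkA f hf) = mkA (deriv f) hf.deriv := rfl

/-- the derivation `d/dz` -/
noncomputable def dMerAt : Derivation ℂ (MerAt z0) (MerAt z0) :=
  Derivation.mk'
    { toFun := derFunA
      map_add' := fun x y => by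
        obtain ⟨f, hf, rfl⟩ := exists_mkA x
        obtain ⟨g, hg, rfl⟩ := exists_mkA y
        rw [mkA_add, derFunA_mk, derFunA_mk, derFunA_mk, mkA_add, mkA_eq]
        filter_upwards [hf.eventually_analyticAt, hg.eventually_analyticAt] with z hz1 hz2
        exact deriv_add hz1.differentiableAt hz2.differentiableAt
      map_smul' := fun c x => by
        obtain ⟨f, hf, rfl⟩ := exists_mkA x
        rw [RingHom.id_apply, Algebra.smul_def, Algebra.smul_def, algebraMap_merAt, mkA_mul,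
          derFunA_mk, derFunA_mk, mkA_mul, mkA_eq]
        filter_upwards [hf.eventually_analyticAt] with z hz
        exact deriv_const_mul c hz.differentiableAt }
    (fun x y => by
      obtain ⟨f, hf, rfl⟩ := exists_mkA x
      obtain ⟨g, hg, rfl⟩ := exists_mkA y
      show derFunA (mkA f hf * mkA g hg) = mkA f hf * derFunA (mkA g hg) +
        mkA g hg * derFunA (mkA f hf)
      rw [mkA_mul, derFunA_mk, derFunA_mk, derFunA_mk, mkA_mul, mkA_mul, mkA_add, mkA_eq]
      filter_upwards [hf.eventually_analyticAt, hg.eventually_analyticAt] with z hz1 hz2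
      have := deriv_mul hz1.differentiableAt hz2.differentiableAt
      rw [this, Pi.add_apply, Pi.mul_apply, Pi.mul_apply]
      ring)

theorem dMerAt_mk {f : ℂ → ℂ} (hf : MeromorphicAt f z0) :
    dMerAt (mkA f hf) = mkA (deriv f) hf.deriv := rfl

theorem dMerAt_iter_mk {f : ℂ → ℂ} (hf : MeromorphicAt f z0) (s : ℕ) :
    ∃ h : MeromorphicAt (iteratedDeriv s f) z0,
      (⇑dMerAt)^[s] (mkA f hf) = mkA (iteratedDeriv s f) h := by
  induction s with
  | zero =>
    have h0 : iteratedDeriv 0 f = f := iteratedDeriv_zero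
    rw [h0]
    exact ⟨hf, rfl⟩
  | succ s ih =>
    obtain ⟨h, h1⟩ := ih
    have h2 : iteratedDeriv (s + 1) f = deriv (iteratedDeriv s f) := iteratedDeriv_succ
    rw [h2]
    exact ⟨h.deriv, by rw [Function.iterate_succ_apply', h1, dMerAt_mk]⟩

/-- The constants of the field of germs are the complex numbers. -/
theorem const_of_dMerAt_eq_zero (x : MerAt z0) (h : dMerAt x = 0) :
    ∃ c : ℂ, algebraMap ℂ (MerAt z0) c = x := by
  obtain ⟨f, hf, rfl⟩ := exists_mkA x
  rw [dMerAt_mk, mkA_eq_zero] at h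
  have htop : meromorphicOrderAt (deriv f) z0 = ⊤ := meromorphicOrderAt_eq_top_iff.2 h
  -- the order is zero or infinite
  have h1 : ∀ g : ℂ → ℂ, deriv g =ᶠ[𝓝[≠] z0] 0 → meromorphicOrderAt g z0 = 0 ∨
      meromorphicOrderAt g z0 = ⊤ := by
    intro g hg
    cases hn : meromorphicOrderAt g z0 with
    | top => exact Or.inr rfl
    | coe n =>
      left
      by_contra hne
      have hne' : n ≠ 0 := fun h => hne (by rw [h]; rfl)
      have h2 := meromorphicOrderAt_deriv_eq_sub_one (by exact_mod_cast hne') hn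
      rw [meromorphicOrderAt_eq_top_iff.2 hg] at h2
      exact WithTop.top_ne_coe h2
  have h0 : 0 ≤ meromorphicOrderAt f z0 := by
    rcases h1 f h with h2 | h2
    · rw [h2]
    · rw [h2]; exact le_top
  obtain ⟨g, hg, hfg⟩ := (hf.meromorphicOrderAt_nonneg_iff).1 h0
  refine ⟨g z0, ?_⟩
  rw [algebraMap_merAt, mkA_eq]
  have hg' : deriv (fun z => g z - g z0) =ᶠ[𝓝[≠] z0] 0 := by
    filter_upwards [h, hfg.nhdsNE_deriv] with z hz1 hz2
    rw [deriv_sub_const, ← hz2, hz1]
  have han : AnalyticAt ℂ (fun z => g z - g z0) z0 := hg.sub analyticAt_const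
  rcases h1 _ hg' with h2 | h2
  · exfalso
    rw [han.meromorphicOrderAt_eq] at h2
    have h3 : analyticOrderAt (fun z => g z - g z0) z0 = 0 := by
      cases hn : analyticOrderAt (fun z => g z - g z0) z0 with
      | top => rw [hn] at h2; exact absurd h2 (by simp)
      | coe n => rw [hn] at h2; simpa using h2
    rw [han.analyticOrderAt_eq_zero] at h3
    simp at h3
  · have h3 := meromorphicOrderAt_eq_top_iff.1 h2
    filter_upwards [h3, hfg] with z hz1 hz2
    rw [hz2]
    exact (sub_eq_zero.1 hz1).symm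

end Pool.Agent.Stat
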