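import Pool.Agent.Lib_MP_b9fedf_st.OdeRel2
import Pool.Agent.Lib_MP_b9fedf_st.AlgT
import Pool.Agent.Lib_MP_b9fedf_st.Growth
import Pool.Agent.Lib_MP_b9fedf_st.Final

/-! Orders and bounds of differential polynomials in meromorphic functions. -/

set_option autoImplicit false

namespace Pool.Agent.Stat

open Filter Topology Metric MvPolynomial ValueDistribution

/-- poles of differential polynomials -/
theorem DP.order {ι : Type} (α : ι → ℂ → ℂ) (hα : ∀ i, Meromorphic (α i)) (a : ℂ) (p : ℕ)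
    (hp : ∀ i, ((-(p : ℤ) : ℤ) : WithTop ℤ) ≤ meromorphicOrderAt (α i) a) {w : ℕ} {x : Mer}
    (h : DP dMer (fun i => mk (α i) (hα i)) w x) :
    ((-((w : ℤ) * p) : ℤ) : WithTop ℤ) ≤ ordM x a := by
  induction h with
  | const c =>
    have := ordM_const c a
    simpa using this
  | var s i =>
    have h1 : ((-(p : ℤ) : ℤ) : WithTop ℤ) ≤ ordM (mk (α i) (hα i)) a := by
      rw [ordM_mk]; exact hp i
    rcases Nat.eq_zero_or_pos p with h0 | h0
    · have h2 : ∀ s : ℕ, 0 ≤ ordM ((⇑dMer)^[s] (mk (α i) (hα i))) a := by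
        intro s
        induction s with
        | zero => rw [h0] at h1; simpa using h1
        | succ s ih =>
          rw [Function.iterate_succ_apply']
          exact ordM_dMer_nonneg ih
      rw [h0]
      simpa using h2 s
    · refine le_trans ?_ (ordM_dMer_iter h1 s)
      have h3 : (1 : ℤ) ≤ (p : ℤ) := by exact_mod_cast h0
      have h4 : (0 : ℤ) ≤ (s : ℤ) := Int.natCast_nonneg s
      rw [WithTop.coe_le_coe]
      push_cast
      nlinarith
  | add hx hy ihx ihy => exact le_ordM_add ihx ihy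
  | @mul w w' x y hx hy ihx ihy =>
    rw [ordM_mul]
    have h3 : ((-(((w + w' : ℕ) : ℤ) * p) : ℤ) : WithTop ℤ) =
        ((-((w : ℤ) * p) : ℤ) : WithTop ℤ) + ((-((w' : ℤ) * p) : ℤ) : WithTop ℤ) := by
      rw [← WithTop.coe_add]
      congr 1
      push_cast
      ring
    rw [h3]
    exact add_le_add ihx ihy
  | @mono w w' x hw hx ih =>
    refine le_trans ?_ ih
    rw [WithTop.coe_le_coe]
    have h3 : (w : ℤ) ≤ (w' : ℤ) := by exact_mod_cast hw
    have h4 : (0 : ℤ) ≤ (p : ℤ) := Int.natCast_nonneg p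
    nlinarith

/-- circles on which the lemma on the logarithmic derivative holds -/
def OC {ι : Type} (α : ι → ℂ → ℂ) (r B : ℝ) : Prop :=
  ∀ i s, ∀ᶠ z in codiscreteWithin (sphere (0 : ℂ) r),
    ‖iteratedDeriv s (α i) z‖ ≤ Real.exp 1 * s.factorial * B ^ s * ‖α i z‖

/-- size of differential polynomials on good circles -/
theorem DP.circ {ι : Type} [Fintype ι] (α : ι → ℂ → ℂ) (hα : ∀ i, Meromorphic (α i)) {w : ℕ}
    {x : Mer} (h : DP dMer (fun i => mk (α i) (hα i)) w x) :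
    ∀ (f : ℂ → ℂ) (hf : Meromorphic f), mk f hf = x → ∃ K : ℝ, 0 ≤ K ∧ ∀ r B : ℝ, 1 ≤ B →
      OC α r B → ∀ᶠ z in codiscreteWithin (sphere (0 : ℂ) r),
        ‖f z‖ ≤ K * (B * (1 + ∑ i, ‖α i z‖)) ^ w := by
  have hmk : ∀ (w : ℕ) (f : ℂ → ℂ) (hf : Meromorphic f), (∃ K : ℝ, 0 ≤ K ∧ ∀ r B : ℝ, 1 ≤ B →
      OC α r B → ∀ᶠ z in codiscreteWithin (sphere (0 : ℂ) r),
        ‖f z‖ ≤ K * (B * (1 + ∑ i, ‖α i z‖)) ^ w) → ∀ (f' : ℂ → ℂ) (hf' : Meromorphic f'),
      mk f' hf' = mk f hf → ∃ K : ℝ, 0 ≤ K ∧ ∀ r B : ℝ, 1 ≤ B →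
      OC α r B → ∀ᶠ z in codiscreteWithin (sphere (0 : ℂ) r),
        ‖f' z‖ ≤ K * (B * (1 + ∑ i, ‖α i z‖)) ^ w := by
    rintro w f hf ⟨K, hK, h⟩ f' hf' hff'
    refine ⟨K, hK, fun r B hB hC => ?_⟩
    have h1 : f' =ᶠ[codiscreteWithin (sphere (0 : ℂ) r)] f :=
      (mk_eq.1 hff').filter_mono (codiscreteWithin_mono (Set.subset_univ _))
    filter_upwards [h r B hB hC, h1] with z hz1 hz2
    rw [hz2]
    exact hz1
  have hS : ∀ z, 0 ≤ ∑ i, ‖α i z‖ := fun z => Finset.sum_nonneg fun i _ => norm_nonneg _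
  have hBS : ∀ (B : ℝ) (z : ℂ), 1 ≤ B → 1 ≤ B * (1 + ∑ i, ‖α i z‖) := by
    intro B z hB
    have := hS z
    nlinarith
  induction h with
  | const c =>
    rw [algebraMap_mer]
    refine hmk _ _ _ ⟨‖c‖, norm_nonneg _, fun r B hB hC => ?_⟩
    filter_upwards with z
    simp
  | var s i =>
    obtain ⟨hm, h1⟩ := dMer_iter_mk (hα i) s
    rw [h1]
    refine hmk _ _ _ ⟨Real.exp 1 * s.factorial, by positivity, fun r B hB hC => ?_⟩
    filter_upwards [hC i s] with z hz
    refine hz.trans ?_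
    have h2 : ‖α i z‖ ≤ 1 + ∑ i, ‖α i z‖ := by
      have := Finset.single_le_sum (f := fun i => ‖α i z‖) (fun i _ => norm_nonneg _)
        (Finset.mem_univ i)
      linarith
    have h3 : (1 : ℝ) ≤ 1 + ∑ i, ‖α i z‖ := by linarith [hS z]
    have h4 : B ^ s * ‖α i z‖ ≤ (B * (1 + ∑ i, ‖α i z‖)) ^ (s + 1) := by
      have h5 : B ^ s ≤ (B * (1 + ∑ i, ‖α i z‖)) ^ s := by
        apply pow_le_pow_left₀ (by linarith)
        nlinarith
      have h6 : ‖α i z‖ ≤ B * (1 + ∑ i, ‖α i z‖) := by nlinarith [hS z]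
      rw [pow_succ]
      exact mul_le_mul h5 h6 (norm_nonneg _) (by have := hBS B z hB; positivity)
    calc Real.exp 1 * s.factorial * B ^ s * ‖α i z‖ =
          Real.exp 1 * s.factorial * (B ^ s * ‖α i z‖) := by ring
      _ ≤ _ := mul_le_mul_of_nonneg_left h4 (by positivity)
  | @add w x y hx hy ihx ihy =>
    obtain ⟨f, hf, rfl⟩ := exists_mk x
    obtain ⟨f', hf', rfl⟩ := exists_mk y
    rw [mk_add]
    obtain ⟨K, hK, h1⟩ := ihx f hf rfl
    obtain ⟨K', hK', h2⟩ := ihy f' hf' rfl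
    refine hmk _ _ _ ⟨K + K', by positivity, fun r B hB hC => ?_⟩
    filter_upwards [h1 r B hB hC, h2 r B hB hC] with z hz1 hz2
    rw [Pi.add_apply]
    refine (norm_add_le _ _).trans ?_
    linarith
  | @mul w w' x y hx hy ihx ihy =>
    obtain ⟨f, hf, rfl⟩ := exists_mk x
    obtain ⟨f', hf', rfl⟩ := exists_mk y
    rw [mk_mul]
    obtain ⟨K, hK, h1⟩ := ihx f hf rfl
    obtain ⟨K', hK', h2⟩ := ihy f' hf' rfl
    refine hmk _ _ _ ⟨K * K', by positivity, fun r B hB hC => ?_⟩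
    filter_upwards [h1 r B hB hC, h2 r B hB hC] with z hz1 hz2
    have h3 := hBS B z hB
    rw [Pi.mul_apply, norm_mul, pow_add]
    calc ‖f z‖ * ‖f' z‖ ≤ (K * (B * (1 + ∑ i, ‖α i z‖)) ^ w) *
          (K' * (B * (1 + ∑ i, ‖α i z‖)) ^ w') :=
          mul_le_mul hz1 hz2 (norm_nonneg _) (by positivity)
      _ = _ := by ring
  | @mono w w' x hw hx ih =>
    obtain ⟨f, hf, rfl⟩ := exists_mk x
    obtain ⟨K, hK, h1⟩ := ih f hf rfl
    refine hmk _ _ _ ⟨K, hK, fun r B hB hC => ?_⟩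
    filter_upwards [h1 r B hB hC] with z hz1
    exact hz1.trans (mul_le_mul_of_nonneg_left (pow_le_pow_right₀ (hBS B z hB) hw) hK)

/-- good circles for a finite family of meromorphic functions -/
theorem exists_OC {ι : Type} [Fintype ι] (α : ι → ℂ → ℂ) (hα : ∀ i, Meromorphic (α i)) :
    ∃ C : ℝ, 1 ≤ C ∧ ∀ r δ : ℝ, 1 ≤ r → 0 < δ → δ ≤ 1 → ∃ r' ∈ Set.Icc r (r + δ), ∃ B : ℝ, 1 ≤ B ∧
      B ≤ C * ((1 + ∑ i, characteristic (α i) ⊤ (r + 2 * δ)) * (r + 2) / δ) ^ 4 ∧ OC α r' B := by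
  classical
  set G : ι → ℂ → ℂ := fun i => if α i =ᶠ[codiscrete ℂ] 0 then fun _ => 1 else α i with hG
  have hGm : ∀ i, Meromorphic (G i) := by
    intro i
    show Meromorphic (if α i =ᶠ[codiscrete ℂ] 0 then fun _ => 1 else α i)
    split_ifs
    · exact Meromorphic.const 1
    · exact hα i
  have hGne : ∀ i z, meromorphicOrderAt (G i) z ≠ ⊤ := by
    intro i z h
    by_cases h0 : α i =ᶠ[codiscrete ℂ] 0
    · have h1 : G i = fun _ => 1 := by rw [hG]; exact if_pos h0
      rw [h1, meromorphicOrderAt_eq_top_iff] at h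
      obtain ⟨w, hw⟩ := h.exists
      exact one_ne_zero hw
    · have h1 : G i = α i := by rw [hG]; exact if_neg h0
      rw [h1] at h
      exact h0 (Pool.Agent.GGL.eq_zero_codiscrete_of_order_top (hα i) h)
  obtain ⟨C, hC1, hC⟩ := Pool.Agent.GGL.ldl G hGm hGne
  refine ⟨C, hC1, fun r δ hr hδ hδ1 => ?_⟩
  obtain ⟨r', hr', B, hB1, hB2, hB3⟩ := hC r δ hr hδ hδ1
  refine ⟨r', hr', B, hB1, hB2.trans ?_, ?_⟩
  · have h1 : ∀ i, 0 ≤ characteristic (G i) ⊤ (r + 2 * δ) := fun i =>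
      characteristic_nonneg (by linarith)
    have h2 : ∀ i, characteristic (G i) ⊤ (r + 2 * δ) ≤ characteristic (α i) ⊤ (r + 2 * δ) := by
      intro i
      by_cases h0 : α i =ᶠ[codiscrete ℂ] 0
      · have h3 : G i = fun _ => 1 := by rw [hG]; exact if_pos h0
        rw [h3, Pool.Agent.GGL.char_const, norm_one, Real.posLog_one]
        exact characteristic_nonneg (by linarith)
      · have h3 : G i = α i := by rw [hG]; exact if_neg h0
        rw [h3]
    have h3 : 0 ≤ ∑ i, characteristic (G i) ⊤ (r + 2 * δ) := Finset.sum_nonneg fun i _ => h1 i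
    have h4 := Finset.sum_le_sum (s := Finset.univ) fun i (_ : i ∈ Finset.univ) => h2 i
    apply mul_le_mul_of_nonneg_left _ (by linarith)
    apply pow_le_pow_left₀ (by positivity)
    apply div_le_div_of_nonneg_right _ hδ.le
    apply mul_le_mul_of_nonneg_right _ (by linarith)
    linarith
  · intro i s
    by_cases h0 : α i =ᶠ[codiscrete ℂ] 0
    · have h1 : ∀ s, iteratedDeriv s (α i) =ᶠ[codiscrete ℂ] 0 := by
        intro s
        induction s with
        | zero => rw [iteratedDeriv_zero]; exact h0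
        | succ s ih =>
          rw [iteratedDeriv_succ]
          refine (deriv_congr_codiscrete ih).trans ?_
          filter_upwards with z
          simp
      filter_upwards [(h1 s).filter_mono (codiscreteWithin_mono (Set.subset_univ
        (sphere (0 : ℂ) r')))] with z hz
      rw [hz]
      simp only [Pi.zero_apply, norm_zero]
      positivity
    · have h1 : G i = α i := by rw [hG]; exact if_neg h0
      have h2 := (analyticAt_codiscrete (hα i)).filter_mono
        (codiscreteWithin_mono (Set.subset_univ (sphere (0 : ℂ) r')))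
      filter_upwards [h2, self_mem_codiscreteWithin (sphere (0 : ℂ) r')] with z hz hzs
      have h3 := hB3 i z hzs (by rw [h1]; exact hz) s
      rw [h1] at h3
      exact h3

end Pool.Agent.Stat
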