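import Pool.Agent.Lib_MP_b9fedf_st.OdeBounds

/-! The growth of entire curves given by solutions of linear differential equations. -/

set_option autoImplicit false

namespace Pool.Agent.Stat

open Filter Topology Metric MvPolynomial ValueDistribution

theorem one_add_sum_le {ι : Type} [Fintype ι] (t : ι → ℝ) :
    1 + ∑ i, t i ≤ (1 + Fintype.card ι) * ∏ i, max 1 (t i) := by
  have h1 : (1 : ℝ) ≤ ∏ i, max 1 (t i) := by
    simpa using Finset.prod_le_prod (s := Finset.univ) (f := fun _ : ι => (1 : ℝ))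
      (g := fun i => max 1 (t i)) (fun i _ => zero_le_one) (fun i _ => le_max_left _ _)
  have h2 : ∀ i, t i ≤ ∏ j, max 1 (t j) := by
    intro i
    classical
    rw [← Finset.mul_prod_erase Finset.univ (fun j => max 1 (t j)) (Finset.mem_univ i)]
    have h3 : (1 : ℝ) ≤ ∏ j ∈ Finset.univ.erase i, max 1 (t j) := by
      simpa using Finset.prod_le_prod (s := Finset.univ.erase i) (f := fun _ : ι => (1 : ℝ))
        (g := fun i => max 1 (t i)) (fun i _ => zero_le_one) (fun i _ => le_max_left _ _)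
    have h4 : t i ≤ max 1 (t i) := le_max_right _ _
    have h5 : 0 ≤ max 1 (t i) := le_trans zero_le_one (le_max_left _ _)
    nlinarith
  have h6 : ∑ i, t i ≤ Fintype.card ι * ∏ i, max 1 (t i) := by
    refine (Finset.sum_le_sum fun i _ => h2 i).trans (le_of_eq ?_)
    rw [Finset.sum_const, Finset.card_univ, nsmul_eq_mul]
  linarith

theorem sum_comp {n : ℕ} (a : Fin (n + 1) → ℂ → ℂ) (r : ℝ) :
    ∑ p, characteristic (comp a p) ⊤ r = ∑ l, characteristic (a l) ⊤ r := by
  rw [Fintype.sum_prod_type, Fin.sum_univ_castSucc]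
  have h1 : ∑ i : Fin n, ∑ l : Fin (n + 1), characteristic (comp a (i.castSucc, l)) ⊤ r = 0 := by
    refine Finset.sum_eq_zero fun i _ => Finset.sum_eq_zero fun l _ => ?_
    unfold comp
    have h2 : ¬ ((i.castSucc : Fin (n + 1)) : ℕ) = n := by
      have := i.2
      rw [Fin.val_castSucc]
      omega
    rw [if_neg h2]
    split_ifs
    · rw [Pool.Agent.GGL.char_const, norm_one, Real.posLog_one]
    · rw [Pool.Agent.GGL.char_const, norm_zero, Real.posLog_zero]
  rw [h1, zero_add]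
  refine Finset.sum_congr rfl fun l _ => ?_
  unfold comp
  rw [if_pos (Fin.val_last n)]

/-- Entire curves given by solutions of linear differential equations with meromorphic
coefficients. -/
theorem mainO (m n e N : ℕ) :
    ∃ C : ℝ, 0 ≤ C ∧ ∀ S : Set (MvPolynomial (Fin (m + 1)) ℂ),
      (∀ p ∈ S, ∃ k ≤ N, p.IsHomogeneous k) →
      ∀ a : Fin (n + 1) → ℂ → ℂ, (∀ l, Meromorphic (a l)) →
      ∀ (z0 : ℂ) (x : ℂ → Fin (n + 1) → ℂ), Fundamental a z0 x →
      ∀ (P : Fin (m + 1) → MvPolynomial (Fin (n + 1)) ℂ), (∀ i, (P i).IsHomogeneous e) →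
      ∀ (f : ℂ → Fin (m + 1) → ℂ), Differentiable ℂ f → (∀ z, f z ≠ 0) →
      (∀ z, ∀ p ∈ S, eval (f z) p = 0) →
      ∀ h : ℂ → ℂ, (∀ᶠ z in 𝓝[≠] z0, h z ≠ 0 ∧ ∀ i, eval (x z) (P i) = h z * f z i) →
      (∀ᶠ z in 𝓝[≠] z0, OnRational S (f z)) ∨
      ∃ (K : ℝ) (E : Set ℝ), MeasureTheory.volume E < ⊤ ∧ ∀ r, 1 ≤ r → r ∉ E →
        charT f r ≤ C * ∑ l, characteristic (a l) ⊤ r + K * (Real.log r + 1) := by
  obtain ⟨d, hd⟩ := relationsA m n e N
  refine ⟨(m + 1) * ((m + 1) * d * 10), by positivity, ?_⟩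
  intro S hS a ha z0 x hx P hP f hf hf0 hfS h hPf
  obtain ⟨k, hk⟩ : ∃ k, f z0 k ≠ 0 := by
    by_contra hcon
    push Not at hcon
    exact hf0 z0 (funext hcon)
  rcases hd S hS a ha z0 x hx P hP f h hf hPf hfS k hk with h1 | ⟨Q, hQm, hQne, hQrel, hQDP⟩
  · exact Or.inl h1
  right
  classical
  set α : Fin (n + 1) × Fin (n + 1) → ℂ → ℂ := comp a with hα
  have hαm : ∀ p, Meromorphic (α p) := comp_mero ha
  -- the divisor of poles
  set Z : Function.locallyFinsupp ℂ ℤ := ∑ p, (MeromorphicOn.divisor (α p) Set.univ)⁻ with hZ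
  have hZa : ∀ z, Z z = ∑ p, (MeromorphicOn.divisor (α p) Set.univ)⁻ z := by
    intro z
    rw [hZ, Function.locallyFinsuppWithin.coe_sum, Finset.sum_apply]
  have hneg : ∀ p z, 0 ≤ (MeromorphicOn.divisor (α p) Set.univ)⁻ z := fun p z => by
    have := negPart_nonneg (MeromorphicOn.divisor (α p) Set.univ)
    exact this z
  have hZ0 : 0 ≤ Z := by
    intro z
    rw [hZa]
    exact Finset.sum_nonneg fun p _ => hneg p z
  have hpole : ∀ z p, ((-(Z z) : ℤ) : WithTop ℤ) ≤ meromorphicOrderAt (α p) z := by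
    intro z p
    by_cases htop : meromorphicOrderAt (α p) z = ⊤
    · rw [htop]; exact le_top
    have h1 : MeromorphicOn.divisor (α p) Set.univ z = (meromorphicOrderAt (α p) z).untop₀ :=
      MeromorphicOn.divisor_apply (hαm p).meromorphicOn (Set.mem_univ z)
    rw [← WithTop.coe_untop₀_of_ne_top htop, WithTop.coe_le_coe, ← h1, hZa]
    have h2 : (MeromorphicOn.divisor (α p) Set.univ)⁻ z ≤
        ∑ p, (MeromorphicOn.divisor (α p) Set.univ)⁻ z :=
      Finset.single_le_sum (f := fun p => (MeromorphicOn.divisor (α p) Set.univ)⁻ z)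
        (fun p _ => hneg p z) (Finset.mem_univ p)
    have h3 : -(MeromorphicOn.divisor (α p) Set.univ z) ≤
        (MeromorphicOn.divisor (α p) Set.univ)⁻ z := by
      rw [Function.locallyFinsuppWithin.negPart_apply]
      exact le_max_left _ _
    linarith
  have hZN : ∀ r, Function.locallyFinsuppWithin.logCounting Z r =
      ∑ p, logCounting (α p) ⊤ r := by
    intro r
    rw [hZ, map_sum, Finset.sum_apply]
    refine Finset.sum_congr rfl fun p _ => ?_
    rw [logCounting_top]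
  -- relations
  obtain ⟨C0, hC0⟩ := charT_le_of_relations_fun f hf hf0 k ⟨z0, hk⟩ d Q hQm hQne hQrel d Z hZ0 (by
    intro i j z
    have h1 : 0 ≤ Z z := hZ0 z
    obtain ⟨p, hp⟩ := Int.eq_ofNat_of_zero_le h1
    have h2 := DP.order α hαm z p (fun q => by
      have := hpole z q
      rwa [hp] at this) (hQDP i j)
    rw [ordM_mk] at h2
    rw [hp]
    exact h2)
  choose KQ hKQ0 hKQ using fun i j => DP.circ α hαm (hQDP i j) (Q i j) (hQm i j) rfl
  set K1 : ℝ := ∑ i, ∑ j, KQ i j with hK1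
  have hK10 : 0 ≤ K1 := Finset.sum_nonneg fun i _ => Finset.sum_nonneg fun j _ => hKQ0 i j
  obtain ⟨C1, hC1⟩ := charT_almost_mono hf hf0
  obtain ⟨CL, hCL1, hCL⟩ := exists_OC α hαm
  -- growth
  set Ψ : ℝ → ℝ := fun r => 1 + ∑ p, characteristic (α p) ⊤ r with hΨ
  have hch0 : ∀ r, 1 ≤ r → 0 ≤ ∑ p, characteristic (α p) ⊤ r := fun r hr =>
    Finset.sum_nonneg fun p _ => characteristic_nonneg hr
  have hΨ1 : ∀ r, 1 ≤ r → 1 ≤ Ψ r := fun r hr => by
    have := hch0 r hr
    show 1 ≤ 1 + ∑ p, characteristic (α p) ⊤ r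
    linarith
  have hΨm : MonotoneOn Ψ (Set.Ici 1) := by
    intro r hr r' hr' hrr'
    show 1 + ∑ p, characteristic (α p) ⊤ r ≤ 1 + ∑ p, characteristic (α p) ⊤ r'
    have h1 : ∀ p, characteristic (α p) ⊤ r ≤ characteristic (α p) ⊤ r' := fun p =>
      characteristic_monotoneOn (hαm p) (show (0 : ℝ) < r from lt_of_lt_of_le one_pos hr)
        (show (0 : ℝ) < r' from lt_of_lt_of_le one_pos hr') hrr'
    have := Finset.sum_le_sum (s := Finset.univ) fun p (_ : p ∈ Finset.univ) => h1 p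
    linarith
  set c2 : ℝ := (m + 1) * d * 2 + (m + 1) * d * (Real.log CL + 4 * Real.log 4 + 4 * Real.log 3) +
    (m + 1) * (Real.log (1 + K1) + d * Real.log (1 + Fintype.card (Fin (n + 1) × Fin (n + 1)))) +
    |C0| with hc2
  refine ⟨(m + 1) * c2 + |C1| + (m + 1) * ((m + 1) * d * 4),
    {r : ℝ | 1 ≤ r ∧ 2 * Ψ r < Ψ (r + 1 / Ψ r)}, growth Ψ hΨm hΨ1, fun r hr hrE => ?_⟩
  have hrE' : Ψ (r + 1 / Ψ r) ≤ 2 * Ψ r := by
    by_contra hcon
    exact hrE ⟨hr, not_le.1 hcon⟩
  have hP1 := hΨ1 r hr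
  set δ : ℝ := 1 / (2 * Ψ r) with hδ
  have hδ0 : 0 < δ := by rw [hδ]; positivity
  have hδ1 : δ ≤ 1 := by
    rw [hδ, div_le_one (by positivity)]
    linarith
  have h2δ : r + 2 * δ = r + 1 / Ψ r := by
    rw [hδ]
    field_simp
  obtain ⟨r', ⟨hr1, hr2⟩, B, hB1, hB2, hB3⟩ := hCL r δ hr hδ0 hδ1
  have hr'1 : 1 ≤ r' := hr.trans hr1
  have hlB : 0 ≤ Real.log B := Real.log_nonneg hB1
  set s : ℝ := ∑ p, characteristic (α p) ⊤ r with hs
  have hs0 : 0 ≤ s := hch0 r hr
  have hΨr : Ψ r = 1 + s := rfl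
  have hlr : 0 ≤ Real.log r := Real.log_nonneg hr
  -- bound of `log B`
  have hlogB : Real.log B ≤ Real.log CL + 4 * Real.log 4 + 4 * Real.log 3 + 8 * s +
      4 * Real.log r := by
    have h1 : 1 + ∑ p, characteristic (α p) ⊤ (r + 2 * δ) ≤ 2 * Ψ r := by
      rw [h2δ]; exact hrE'
    have h2 : ((1 + ∑ p, characteristic (α p) ⊤ (r + 2 * δ)) * (r + 2) / δ) ≤
        4 * Ψ r ^ 2 * (r + 2) := by
      rw [hδ, div_div_eq_mul_div, div_one]
      calc (1 + ∑ p, characteristic (α p) ⊤ (r + 2 * (1 / (2 * Ψ r)))) * (r + 2) * (2 * Ψ r)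
          ≤ (2 * Ψ r) * (r + 2) * (2 * Ψ r) := by
            apply mul_le_mul_of_nonneg_right _ (by positivity)
            apply mul_le_mul_of_nonneg_right _ (by linarith)
            exact h1
        _ = 4 * Ψ r ^ 2 * (r + 2) := by ring
    have h3 : 0 ≤ ((1 + ∑ p, characteristic (α p) ⊤ (r + 2 * δ)) * (r + 2) / δ) := by
      have := hch0 (r + 2 * δ) (by linarith)
      positivity
    have h4 : B ≤ CL * (4 * Ψ r ^ 2 * (r + 2)) ^ 4 :=
      hB2.trans (mul_le_mul_of_nonneg_left (pow_le_pow_left₀ h3 h2 4) (by linarith))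
    have h5 := Real.log_le_log (by linarith) h4
    have hr2' : 0 < r + 2 := by linarith
    rw [Real.log_mul (by positivity) (by positivity), Real.log_pow,
      Real.log_mul (by positivity) (by positivity), Real.log_mul (by norm_num) (by positivity),
      Real.log_pow] at h5
    have h6 : Real.log (Ψ r) ≤ s := by
      have := Real.log_le_sub_one_of_pos (show 0 < Ψ r by linarith)
      rw [hΨr] at this ⊢
      linarith
    have h7 : Real.log (r + 2) ≤ Real.log 3 + Real.log r := by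
      rw [← Real.log_mul (by norm_num) (by positivity)]
      exact Real.log_le_log (by linarith) (by linarith)
    push_cast at h5
    linarith
  -- the bound function
  set M0 : ℝ := ((Fintype.card (Fin (n + 1) × Fin (n + 1)) : ℕ) : ℝ) with hM0
  have hM00 : 0 ≤ M0 := Nat.cast_nonneg _
  set b : ℂ → ℝ := fun z => (Real.log (1 + K1) + d * (Real.log B + Real.log (1 + M0))) +
    d * ∑ p, Real.posLog ‖α p z‖ with hb
  have hpI : ∀ p, CircleIntegrable (fun z => Real.posLog ‖α p z‖) 0 r' := fun p =>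
    (hαm p).meromorphicOn.circleIntegrable_posLog_norm
  have hsI : CircleIntegrable (fun z => ∑ p, Real.posLog ‖α p z‖) 0 r' := by
    have := CircleIntegrable.sum Finset.univ (f := fun p z => Real.posLog ‖α p z‖)
      (c := 0) (R := r') (fun p _ => hpI p)
    convert! this using 1
    ext z
    simp
  have hdsI : CircleIntegrable (fun z => (d : ℝ) * ∑ p, Real.posLog ‖α p z‖) 0 r' :=
    hsI.const_smul (a := (d : ℝ))
  have hbI : CircleIntegrable b 0 r' := (circleIntegrable_const _ _ _).add hdsI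
  have hbA : Real.circleAverage b 0 r' =
      (Real.log (1 + K1) + d * (Real.log B + Real.log (1 + M0))) +
        d * ∑ p, proximity (α p) ⊤ r' := by
    have h1 : Real.circleAverage (fun z => (d : ℝ) * ∑ p, Real.posLog ‖α p z‖) 0 r' =
        (d : ℝ) * Real.circleAverage (fun z => ∑ p, Real.posLog ‖α p z‖) 0 r' :=
      Real.circleAverage_fun_smul (a := (d : ℝ)) (f := fun z => ∑ p, Real.posLog ‖α p z‖)
    rw [hb, Real.circleAverage_fun_add (circleIntegrable_const _ _ _) hdsI,
      Real.circleAverage_const, h1, Real.circleAverage_fun_sum (fun p _ => hpI p)]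
    congr 2
  have hbQ : ∀ i j, ∀ᶠ z in codiscreteWithin (sphere (0 : ℂ) r'), ‖Q i j z‖ ≤ Real.exp (b z) := by
    intro i j
    filter_upwards [hKQ i j r' B hB1 hB3] with z hz
    refine hz.trans ?_
    have h1 : Real.exp (b z) = (1 + K1) * (B * ((1 + M0) * ∏ p, max 1 ‖α p z‖)) ^ d := by
      have h2 : ∀ p, Real.exp (Real.posLog ‖α p z‖) = max 1 ‖α p z‖ := by
        intro p
        rw [Real.posLog_eq_log_max_one (norm_nonneg _), Real.exp_log (by positivity)]
      have h3 : Real.exp (∑ p, Real.posLog ‖α p z‖) = ∏ p, max 1 ‖α p z‖ := by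
        rw [Real.exp_sum]
        exact Finset.prod_congr rfl fun p _ => h2 p
      have h4 : b z = Real.log (1 + K1) + d * (Real.log B + (Real.log (1 + M0) +
          ∑ p, Real.posLog ‖α p z‖)) := by
        rw [hb]; ring
      rw [h4, Real.exp_add, Real.exp_log (by linarith), Real.exp_nat_mul, Real.exp_add,
        Real.exp_add, Real.exp_log (by linarith), Real.exp_log (by linarith), h3]
    rw [h1]
    have h5 : KQ i j ≤ 1 + K1 := by
      have h6 : KQ i j ≤ K1 := by
        refine le_trans ?_ (Finset.single_le_sum (f := fun i => ∑ j, KQ i j)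
          (fun i _ => Finset.sum_nonneg fun j _ => hKQ0 i j) (Finset.mem_univ i))
        exact Finset.single_le_sum (f := fun j => KQ i j) (fun j _ => hKQ0 i j)
          (Finset.mem_univ j)
      linarith
    have h7 := one_add_sum_le (fun p => ‖α p z‖)
    have h8 : 0 ≤ 1 + ∑ p, ‖α p z‖ := by
      have := Finset.sum_nonneg (s := Finset.univ) fun p (_ : p ∈ Finset.univ) => norm_nonneg (α p z)
      linarith
    have h9 : (B * (1 + ∑ p, ‖α p z‖)) ^ d ≤
        (B * ((1 + M0) * ∏ p, max 1 ‖α p z‖)) ^ d := by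
      apply pow_le_pow_left₀ (by positivity)
      exact mul_le_mul_of_nonneg_left h7 (by linarith)
    exact mul_le_mul h5 h9 (by positivity) (by linarith)
  have hmain := hC0 r' b hr'1 hbI hbQ
  rw [hbA, hZN] at hmain
  -- the characteristics at `r'`
  have hchr' : ∑ p, logCounting (α p) ⊤ r' + ∑ p, proximity (α p) ⊤ r' ≤ 2 + 2 * s := by
    have h1 : Ψ r' ≤ Ψ (r + 1 / Ψ r) := by
      apply hΨm (show (1 : ℝ) ≤ r' from hr'1)
      · show (1 : ℝ) ≤ r + 1 / Ψ r
        have : 0 < 1 / Ψ r := by positivity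
        linarith
      · linarith
    have h2 : Ψ r' = 1 + ∑ p, characteristic (α p) ⊤ r' := rfl
    have h3 : ∑ p, characteristic (α p) ⊤ r' =
        ∑ p, logCounting (α p) ⊤ r' + ∑ p, proximity (α p) ⊤ r' := by
      rw [← Finset.sum_add_distrib]
      refine Finset.sum_congr rfl fun p _ => ?_
      rw [characteristic, Pi.add_apply, add_comm]
    rw [← h3]
    linarith
  have hmono := hC1 r r' hr hr1
  have hsum := sum_comp a r
  rw [← hα, ← hs] at hsum
  rw [← hsum]
  set LC := ∑ p, logCounting (α p) ⊤ r' with hLC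
  set PR := ∑ p, proximity (α p) ⊤ r' with hPR
  have hD : (0 : ℝ) ≤ (m + 1) * d := by positivity
  have s1 : charT f r' ≤ (m + 1) * d * 10 * s + (m + 1) * d * 4 * Real.log r + c2 := by
    have t1 : (m + 1) * d * (LC + PR) ≤ (m + 1) * d * (2 + 2 * s) :=
      mul_le_mul_of_nonneg_left hchr' hD
    have t2 : (m + 1) * d * Real.log B ≤ (m + 1) * d * (Real.log CL + 4 * Real.log 4 +
        4 * Real.log 3 + 8 * s + 4 * Real.log r) := mul_le_mul_of_nonneg_left hlogB hD
    have t3 : C0 ≤ |C0| := le_abs_self _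
    have t4 : charT f r' ≤ (m + 1) * d * (LC + PR) + (m + 1) * d * Real.log B +
        (m + 1) * (Real.log (1 + K1) + d * Real.log (1 + M0)) + C0 := by
      refine hmain.trans (le_of_eq ?_)
      ring
    rw [hc2]
    linarith
  have hm0 : (0 : ℝ) ≤ m + 1 := by positivity
  have s2 : charT f r ≤ (m + 1) * ((m + 1) * d * 10 * s + (m + 1) * d * 4 * Real.log r + c2) +
      |C1| := by
    have t1 := mul_le_mul_of_nonneg_left s1 hm0
    have t2 : C1 ≤ |C1| := le_abs_self _
    linarith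
  have hc20 : 0 ≤ c2 := by
    have l1 := Real.log_nonneg hCL1
    have l2 := Real.log_nonneg (show (1 : ℝ) ≤ 4 by norm_num)
    have l3 := Real.log_nonneg (show (1 : ℝ) ≤ 3 by norm_num)
    have l4 := Real.log_nonneg (show (1 : ℝ) ≤ 1 + K1 by linarith)
    have l5 := Real.log_nonneg (show (1 : ℝ) ≤ 1 + M0 by linarith)
    rw [hc2]
    positivity
  have u1 : 0 ≤ (m + 1) * c2 * Real.log r := by positivity
  have u2 : 0 ≤ |C1| * Real.log r := by positivity
  have u3 : (0 : ℝ) ≤ (m + 1) * ((m + 1) * d * 4) := by positivity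
  nlinarith

end Pool.Agent.Stat
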