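import Pool.Agent.Lib_MP_b9fedf_st.OdeFinal
import Pool.Agent.Lib_MP_b9fedf_st.Final3

/-! Entire curves given by solutions of linear differential equations with rational
coefficients. -/

set_option autoImplicit false

namespace Pool.Agent.Stat

open Filter Topology Metric MvPolynomial ValueDistribution

/-- `T(r) = O(log r)` -/
def LogGrowth (f : ℂ → ℂ) : Prop :=
  ∃ K : ℝ, 0 ≤ K ∧ ∀ r, 1 ≤ r → characteristic f ⊤ r ≤ K * (Real.log r + 1)

theorem LogGrowth.const (c : ℂ) : LogGrowth (fun _ => c) := by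
  refine ⟨Real.posLog ‖c‖, Real.posLog_nonneg, fun r hr => ?_⟩
  rw [Pool.Agent.GGL.char_const]
  have := Real.log_nonneg hr
  nlinarith [Real.posLog_nonneg (x := ‖c‖)]

theorem LogGrowth.add {f g : ℂ → ℂ} (hf : Meromorphic f) (hg : Meromorphic g)
    (h1 : LogGrowth f) (h2 : LogGrowth g) : LogGrowth (f + g) := by
  obtain ⟨K1, hK1, h1⟩ := h1
  obtain ⟨K2, hK2, h2⟩ := h2
  have hl2 := Real.log_nonneg (show (1 : ℝ) ≤ 2 by norm_num)
  refine ⟨K1 + K2 + Real.log 2, by positivity, fun r hr => ?_⟩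
  have h3 := characteristic_add_top_le hf hg hr
  have h4 := h1 r hr
  have h5 := h2 r hr
  have h6 := Real.log_nonneg hr
  nlinarith

theorem LogGrowth.mul {f g : ℂ → ℂ} (hf : Meromorphic f) (hg : Meromorphic g)
    (h1 : LogGrowth f) (h2 : LogGrowth g) : LogGrowth (f * g) := by
  obtain ⟨K1, hK1, h1⟩ := h1
  obtain ⟨K2, hK2, h2⟩ := h2
  refine ⟨K1 + K2, by positivity, fun r hr => ?_⟩
  have h3 : characteristic (f * g) ⊤ r ≤ characteristic f ⊤ r + characteristic g ⊤ r :=
    Pool.Agent.GGL.char_mul_le hf hg hr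
  have h4 := h1 r hr
  have h5 := h2 r hr
  linarith

theorem LogGrowth.inv {f : ℂ → ℂ} (hf : Meromorphic f) (h1 : LogGrowth f) : LogGrowth f⁻¹ := by
  obtain ⟨K1, hK1, h1⟩ := h1
  obtain ⟨C, hC⟩ := Pool.Agent.GGL.char_inv_le hf
  refine ⟨K1 + |C|, by positivity, fun r hr => ?_⟩
  have h3 : characteristic f⁻¹ ⊤ r ≤ characteristic f ⊤ r + C := hC r hr
  have h4 := h1 r hr
  have h5 := le_abs_self C
  have h6 := Real.log_nonneg hr
  nlinarith [abs_nonneg C]

theorem LogGrowth.id : LogGrowth (fun z : ℂ => z) := by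
  refine ⟨1, zero_le_one, fun r hr => ?_⟩
  have hlr := Real.log_nonneg hr
  have hd : Differentiable ℂ (fun z : ℂ => z) := differentiable_id
  have h1 : logCounting (fun z : ℂ => z) ⊤ r = 0 := by
    rw [logCounting_top]
    have h2 : 0 ≤ MeromorphicOn.divisor (fun z : ℂ => z) Set.univ :=
      MeromorphicOn.AnalyticOnNhd.divisor_nonneg (fun z _ => hd.analyticAt z)
    rw [negPart_eq_zero.2 h2, map_zero]
    rfl
  have h3 : proximity (fun z : ℂ => z) ⊤ r ≤ Real.log r := by
    rw [proximity_top]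
    have h4 : Real.circleAverage (fun z : ℂ => Real.posLog ‖z‖) 0 r ≤
        Real.circleAverage (fun _ : ℂ => Real.log r) 0 r := by
      apply Real.circleAverage_mono
      · exact (mero_of_differentiable hd).meromorphicOn.circleIntegrable_posLog_norm
      · exact circleIntegrable_const _ _ _
      · intro z hz
        rw [mem_sphere_zero_iff_norm, abs_of_pos (by linarith)] at hz
        rw [hz, Real.posLog_eq_log (by rw [abs_of_pos (by linarith)]; exact hr)]
    rwa [Real.circleAverage_const] at h4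
  rw [characteristic, Pi.add_apply, h1]
  linarith

theorem LogGrowth.poly (P : Polynomial ℂ) : LogGrowth (fun z => P.eval z) := by
  have hm : ∀ P : Polynomial ℂ, Meromorphic (fun z => P.eval z) := fun P =>
    mero_of_differentiable P.differentiable
  induction P using Polynomial.induction_on with
  | C a =>
    have : (fun z : ℂ => (Polynomial.C a).eval z) = fun _ => a := by ext z; rw [Polynomial.eval_C]
    rw [this]
    exact LogGrowth.const a
  | add p q hp hq =>
    have : (fun z : ℂ => (p + q).eval z) = (fun z => p.eval z) + fun z => q.eval z := by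
      ext z; rw [Polynomial.eval_add, Pi.add_apply]
    rw [this]
    exact LogGrowth.add (hm p) (hm q) hp hq
  | monomial n a h =>
    have : (fun z : ℂ => (Polynomial.C a * Polynomial.X ^ (n + 1)).eval z) =
        (fun z => (Polynomial.C a * Polynomial.X ^ n).eval z) * fun z => z := by
      ext z
      rw [Pi.mul_apply, pow_succ, ← mul_assoc, Polynomial.eval_mul, Polynomial.eval_X]
    rw [this]
    exact LogGrowth.mul (hm _) (mero_of_differentiable differentiable_id) h LogGrowth.id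

theorem LogGrowth.rational (P Q : Polynomial ℂ) : LogGrowth (fun z => P.eval z / Q.eval z) := by
  have hm : ∀ P : Polynomial ℂ, Meromorphic (fun z => P.eval z) := fun P =>
    mero_of_differentiable P.differentiable
  have : (fun z : ℂ => P.eval z / Q.eval z) = (fun z => P.eval z) * (fun z => Q.eval z)⁻¹ := by
    ext z
    rw [Pi.mul_apply, Pi.inv_apply, div_eq_mul_inv]
  rw [this]
  exact LogGrowth.mul (hm P) (hm Q).inv (LogGrowth.poly P) (LogGrowth.inv (hm Q) (LogGrowth.poly Q))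

/-- Entire curves given by solutions of linear differential equations with rational
coefficients (equations of bounded degree). -/
theorem rational_coeff_aux {m n e N : ℕ} (S : Set (MvPolynomial (Fin (m + 1)) ℂ))
    (hS : ∀ p ∈ S, ∃ k ≤ N, p.IsHomogeneous k) (a b : Fin (n + 1) → Polynomial ℂ)
    (z0 : ℂ) (x : ℂ → Fin (n + 1) → ℂ)
    (hx : Fundamental (fun l z => (a l).eval z / (b l).eval z) z0 x)
    (P : Fin (m + 1) → MvPolynomial (Fin (n + 1)) ℂ) (hP : ∀ i, (P i).IsHomogeneous e)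
    (f : ℂ → Fin (m + 1) → ℂ) (hf : Differentiable ℂ f) (hf0 : ∀ z, f z ≠ 0)
    (hfS : ∀ z, ∀ p ∈ S, eval (f z) p = 0) (h : ℂ → ℂ)
    (hPf : ∀ᶠ z in 𝓝[≠] z0, h z ≠ 0 ∧ ∀ i, eval (x z) (P i) = h z * f z i) :
    (∀ᶠ z in 𝓝[≠] z0, OnRational S (f z)) ∨ ∀ z w, ∃ c : ℂ, f w = c • f z := by
  obtain ⟨C, hC0, hC⟩ := mainO m n e N
  have hm : ∀ l, Meromorphic (fun z => (a l).eval z / (b l).eval z) := fun l =>
    (mero_of_differentiable (a l).differentiable).div
      (mero_of_differentiable (b l).differentiable)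
  rcases hC S hS _ hm z0 x hx P hP f hf hf0 hfS h hPf with h1 | ⟨K, E, hE, hKE⟩
  · exact Or.inl h1
  choose L hL0 hL using fun l => LogGrowth.rational (a l) (b l)
  obtain ⟨Q, u, hu, hQ⟩ := polynomial_of_charT f hf hf0 (C * ∑ l, L l + K) E hE
    (fun r hr hrE => by
      have h1 := hKE r hr hrE
      have h2 : ∑ l, characteristic (fun z => (a l).eval z / (b l).eval z) ⊤ r ≤
          (∑ l, L l) * (Real.log r + 1) := by
        rw [Finset.sum_mul]
        exact Finset.sum_le_sum fun l _ => hL l r hr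
      have h3 := mul_le_mul_of_nonneg_left h2 hC0
      calc charT f r ≤ _ := h1
        _ ≤ C * ((∑ l, L l) * (Real.log r + 1)) + K * (Real.log r + 1) := by linarith
        _ = _ := by ring)
  rcases onRational_of_polynomial (fun p hp => by obtain ⟨k, -, hk⟩ := hS p hp; exact ⟨k, hk⟩)
    hf0 hfS Q u hu hQ with h1 | h1
  · exact Or.inl (Filter.Eventually.of_forall h1)
  · exact Or.inr h1

/-- Every set of homogeneous polynomials has a finite subset with the same rational curves. -/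
theorem exists_finite_system {m : ℕ} (S : Set (MvPolynomial (Fin (m + 1)) ℂ))
    (hS : ∀ p ∈ S, ∃ k : ℕ, p.IsHomogeneous k) :
    ∃ (N : ℕ) (S' : Set (MvPolynomial (Fin (m + 1)) ℂ)), S' ⊆ S ∧
      (∀ p ∈ S', ∃ k ≤ N, p.IsHomogeneous k) ∧ ∀ x, OnRational S' x → OnRational S x := by
  classical
  obtain ⟨S', hS'S, hS'⟩ := Submodule.fg_span_iff_fg_span_finset_subset S |>.1
    (IsNoetherian.noetherian (Submodule.span (MvPolynomial (Fin (m + 1)) ℂ) S))
  choose! k hk using hS
  refine ⟨∑ p ∈ S', k p, S', hS'S, fun p hp => ⟨k p, Finset.single_le_sum (f := k)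
    (fun _ _ => Nat.zero_le _) hp, hk p (hS'S hp)⟩, fun x hx => ?_⟩
  obtain ⟨Q, hQ1, hQ2, hQ3⟩ := hx
  refine ⟨Q, fun p hp => ?_, hQ2, hQ3⟩
  have h2 : p ∈ Submodule.span (MvPolynomial (Fin (m + 1)) ℂ)
      (S' : Set (MvPolynomial (Fin (m + 1)) ℂ)) := by
    rw [← hS']; exact Submodule.subset_span hp
  have h3 : Ideal.span (S' : Set (MvPolynomial (Fin (m + 1)) ℂ)) ≤
      RingHom.ker (aeval (R := ℂ) Q).toRingHom := by
    rw [Ideal.span_le]
    intro q hq
    exact hQ1 q hq
  exact h3 h2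

/-- Entire curves given by solutions of linear differential equations with rational
coefficients. -/
theorem rational_coeff {m n e : ℕ} (S : Set (MvPolynomial (Fin (m + 1)) ℂ))
    (hS : ∀ p ∈ S, ∃ k : ℕ, p.IsHomogeneous k) (a b : Fin (n + 1) → Polynomial ℂ)
    (z0 : ℂ) (x : ℂ → Fin (n + 1) → ℂ)
    (hx : Fundamental (fun l z => (a l).eval z / (b l).eval z) z0 x)
    (P : Fin (m + 1) → MvPolynomial (Fin (n + 1)) ℂ) (hP : ∀ i, (P i).IsHomogeneous e)
    (f : ℂ → Fin (m + 1) → ℂ) (hf : Differentiable ℂ f) (hf0 : ∀ z, f z ≠ 0)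
    (hfS : ∀ z, ∀ p ∈ S, eval (f z) p = 0) (h : ℂ → ℂ)
    (hPf : ∀ᶠ z in 𝓝[≠] z0, h z ≠ 0 ∧ ∀ i, eval (x z) (P i) = h z * f z i) :
    (∀ᶠ z in 𝓝[≠] z0, OnRational S (f z)) ∨ ∀ z w, ∃ c : ℂ, f w = c • f z := by
  obtain ⟨N, S', hS'S, hS'N, hS'R⟩ := exists_finite_system S hS
  rcases rational_coeff_aux S' hS'N a b z0 x hx P hP f hf hf0
    (fun z p hp => hfS z p (hS'S hp)) h hPf with h1 | h1
  · left
    filter_upwards [h1] with z hz
    exact hS'R _ hz
  · exact Or.inr h1

end Pool.Agent.Stat
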