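import Pool.Agent.Lib_MP_b9fedf_st.MerAt

/-! The algebraic relations for curves given by solutions of linear differential equations. -/

set_option autoImplicit false

namespace Pool.Agent.Stat

open Filter Topology Metric MvPolynomial

/-- `x_0, ..., x_n` is a fundamental system of solutions at `z0` of the linear differential
equation `y^(n+1) = ∑ a_l y^(l)`. -/
structure Fundamental {n : ℕ} (a : Fin (n + 1) → ℂ → ℂ) (z0 : ℂ) (x : ℂ → Fin (n + 1) → ℂ) :
    Prop where
  analytic : ∀ j, AnalyticAt ℂ (fun z => x z j) z0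
  equation : ∀ j, ∀ᶠ z in 𝓝[≠] z0, iteratedDeriv (n + 1) (fun w => x w j) z =
    ∑ l : Fin (n + 1), a l z * iteratedDeriv (l : ℕ) (fun w => x w j) z
  wronsk_ne_zero : wronsk x z0 ≠ 0

variable {z0 : ℂ}

/-- the ring of functions meromorphic at `z0` (not identified) -/
def merFunA (z0 : ℂ) : Subring (ℂ → ℂ) where
  carrier := {f | MeromorphicAt f z0}
  zero_mem' := MeromorphicAt.const 0 z0
  one_mem' := MeromorphicAt.const 1 z0
  add_mem' := fun hf hg => hf.add hg
  mul_mem' := fun hf hg => hf.mul hg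
  neg_mem' := fun hf => hf.neg

/-- the germ map as a ring homomorphism -/
noncomputable def mkHomA (z0 : ℂ) : merFunA z0 →+* MerAt z0 where
  toFun f := mkA f.1 f.2
  map_one' := rfl
  map_zero' := rfl
  map_add' _ _ := rfl
  map_mul' _ _ := rfl

theorem mkA_sum {ι : Type} (s : Finset ι) (f : ι → ℂ → ℂ) (hf : ∀ i, MeromorphicAt (f i) z0) :
    ∃ h : MeromorphicAt (fun z => ∑ i ∈ s, f i z) z0,
      ∑ i ∈ s, mkA (f i) (hf i) = mkA (fun z => ∑ i ∈ s, f i z) h := by
  classical
  induction s using Finset.induction_on with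
  | empty =>
    have : (fun z : ℂ => ∑ i ∈ (∅ : Finset ι), f i z) = fun _ => 0 := by ext z; simp
    rw [this]
    exact ⟨MeromorphicAt.const 0 z0, rfl⟩
  | insert a s ha ih =>
    obtain ⟨h1, h2⟩ := ih
    have h3 : (fun z : ℂ => ∑ i ∈ insert a s, f i z) = f a + fun z => ∑ i ∈ s, f i z := by
      ext z; rw [Finset.sum_insert ha, Pi.add_apply]
    rw [h3]
    exact ⟨(hf a).add h1, by rw [Finset.sum_insert ha, h2, mkA_add]⟩

theorem aeval_mkA {N : ℕ} (φ : Fin N → ℂ → ℂ) (hφ : ∀ j, MeromorphicAt (φ j) z0)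
    (q : MvPolynomial (Fin N) ℂ) :
    ∃ h : MeromorphicAt (fun z => eval (fun j => φ j z) q) z0,
      aeval (fun j => mkA (φ j) (hφ j)) q = mkA (fun z => eval (fun j => φ j z) q) h := by
  induction q using MvPolynomial.induction_on with
  | C a =>
    have h1 : (fun z : ℂ => eval (fun j => φ j z) (C a : MvPolynomial (Fin N) ℂ)) = fun _ => a := by
      ext z; rw [eval_C]
    rw [h1]
    refine ⟨MeromorphicAt.const a z0, ?_⟩
    rw [← algebraMap_eq, AlgHom.commutes, algebraMap_merAt]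
  | add p q hp hq =>
    obtain ⟨h1, h2⟩ := hp
    obtain ⟨h3, h4⟩ := hq
    have h5 : (fun z : ℂ => eval (fun j => φ j z) (p + q)) =
        (fun z => eval (fun j => φ j z) p) + fun z => eval (fun j => φ j z) q := by
      ext z; rw [map_add, Pi.add_apply]
    rw [h5]
    exact ⟨h1.add h3, by rw [map_add, h2, h4, mkA_add]⟩
  | mul_X p j hp =>
    obtain ⟨h1, h2⟩ := hp
    have h5 : (fun z : ℂ => eval (fun j => φ j z) (p * X j)) =
        (fun z => eval (fun j => φ j z) p) * φ j := by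
      ext z; rw [map_mul, eval_X, Pi.mul_apply]
    rw [h5]
    exact ⟨h1.mul (hφ j), by rw [map_mul, h2, aeval_X, mkA_mul]⟩

theorem mkA_pow {f : ℂ → ℂ} (hf : MeromorphicAt f z0) (k : ℕ) :
    mkA f hf ^ k = mkA (fun z => f z ^ k) (hf.pow k) := by
  induction k with
  | zero =>
    rw [pow_zero, mkA_one, mkA_eq]
    filter_upwards with z
    simp
  | succ k ih =>
    rw [pow_succ, ih, mkA_mul, mkA_eq]
    filter_upwards with z
    rw [Pi.mul_apply, pow_succ]

/-- entries of the companion matrix -/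
noncomputable def comp {n : ℕ} (a : Fin (n + 1) → ℂ → ℂ) (p : Fin (n + 1) × Fin (n + 1)) : ℂ → ℂ :=
  if (p.1 : ℕ) = n then a p.2 else if (p.2 : ℕ) = p.1 + 1 then fun _ => 1 else fun _ => 0

theorem comp_mero {n : ℕ} {a : Fin (n + 1) → ℂ → ℂ} (ha : ∀ l, Meromorphic (a l))
    (p : Fin (n + 1) × Fin (n + 1)) : Meromorphic (comp a p) := by
  unfold comp
  split_ifs
  · exact ha _
  · exact Meromorphic.const 1
  · exact Meromorphic.const 0

/-- differential polynomials in germs of meromorphic functions lift -/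
theorem DP.lift {ι : Type} (α : ι → ℂ → ℂ) (hα : ∀ i, Meromorphic (α i)) {w : ℕ} {x : MerAt z0}
    (h : DP dMerAt (fun i => mkA (α i) (hα i z0)) w x) :
    ∃ (F : ℂ → ℂ) (hF : Meromorphic F), mkA F (hF z0) = x ∧
      DP dMer (fun i => mk (α i) (hα i)) w (mk F hF) := by
  induction h with
  | const c => exact ⟨fun _ => c, Meromorphic.const c, rfl, DP.const c⟩
  | var s i =>
    obtain ⟨h1, h2⟩ := dMer_iter_mk (hα i) s
    obtain ⟨h3, h4⟩ := dMerAt_iter_mk (hα i z0) s
    refine ⟨iteratedDeriv s (α i), h1, h4.symm, ?_⟩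
    rw [← h2]
    exact DP.var (D := dMer) (a := fun i => mk (α i) (hα i)) s i
  | add hx hy ihx ihy =>
    obtain ⟨F, hF, h1, h2⟩ := ihx
    obtain ⟨G, hG, h3, h4⟩ := ihy
    exact ⟨F + G, hF.add hG, by rw [← h1, ← h3]; rfl, DP.add h2 h4⟩
  | mul hx hy ihx ihy =>
    obtain ⟨F, hF, h1, h2⟩ := ihx
    obtain ⟨G, hG, h3, h4⟩ := ihy
    exact ⟨F * G, hF.mul hG, by rw [← h1, ← h3]; rfl, DP.mul h2 h4⟩
  | mono hw hx ih =>
    obtain ⟨F, hF, h1, h2⟩ := ih
    exact ⟨F, hF, h1, DP.mono hw h2⟩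

end Pool.Agent.Stat
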