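import Pool.Agent.Lib_MP_b9fedf_st.Transl
import Pool.Agent.Lib_MP_b9fedf_st.Rat2

/-! The algebraic relations for curves given by solutions of linear differential equations,
second part. -/

set_option autoImplicit false

namespace Pool.Agent.Stat

open Filter Topology Metric MvPolynomial

theorem eval_scale_form {m : ℕ} {p : MvPolynomial (Fin (m + 1)) ℂ} {d : ℕ} (hp : p.IsHomogeneous d)
    (c : ℂ) (v : Fin (m + 1) → ℂ) : eval (fun i => c * v i) p = c ^ d * eval v p := by
  rw [form_eq hp, map_sum, map_sum, Finset.mul_sum]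
  refine Finset.sum_congr rfl fun α _ => ?_
  rw [map_mul, map_mul, map_prod, map_prod, eval_C, eval_C]
  simp only [map_pow, eval_X, mul_pow]
  rw [Finset.prod_mul_distrib, Finset.prod_pow_eq_pow_sum, (Finset.mem_finsuppAntidiag.1 α.2).1]
  ring

/-- The relations between the coordinates of a curve given by solutions of a linear differential
equation with meromorphic coefficients. -/
theorem relationsA (m n e N : ℕ) :
    ∃ d : ℕ, ∀ S : Set (MvPolynomial (Fin (m + 1)) ℂ), (∀ p ∈ S, ∃ k ≤ N, p.IsHomogeneous k) →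
      ∀ (a : Fin (n + 1) → ℂ → ℂ) (ha : ∀ l, Meromorphic (a l)) (z0 : ℂ)
      (x : ℂ → Fin (n + 1) → ℂ), Fundamental a z0 x →
      ∀ (P : Fin (m + 1) → MvPolynomial (Fin (n + 1)) ℂ), (∀ i, (P i).IsHomogeneous e) →
      ∀ (f : ℂ → Fin (m + 1) → ℂ) (h : ℂ → ℂ), Differentiable ℂ f →
      (∀ᶠ z in 𝓝[≠] z0, h z ≠ 0 ∧ ∀ i, eval (x z) (P i) = h z * f z i) →
      (∀ z, ∀ p ∈ S, eval (f z) p = 0) → ∀ k, f z0 k ≠ 0 →
      (∀ᶠ z in 𝓝[≠] z0, OnRational S (f z)) ∨
      ∃ (Q : Fin (m + 1) → Fin (d + 1) → ℂ → ℂ) (hQ : ∀ i j, Meromorphic (Q i j)),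
        (∀ i, ∃ j, ¬ Q i j =ᶠ[codiscrete ℂ] fun _ => 0) ∧
        (∀ i, ∀ᶠ z in codiscrete ℂ, ∑ j, Q i j z * (f z i / f z k) ^ (j : ℕ) = 0) ∧
        ∀ i j, DP dMer (fun p => mk (comp a p) (comp_mero ha p)) d (mk (Q i j) (hQ i j)) := by
  obtain ⟨d, hd⟩ := dich_merAt m n e N
  refine ⟨d, ?_⟩
  intro S hS a ha z0 x hx P hP f h hf hPf hfS k hk
  classical
  have hxm : ∀ j, MeromorphicAt (fun z => x z j) z0 := fun j => (hx.analytic j).meromorphicAt
  -- the matrices
  set U : Matrix (Fin (n + 1)) (Fin (n + 1)) (MerAt z0) :=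
    Matrix.of fun i j => (⇑dMerAt)^[(i : ℕ)] (mkA (fun z => x z j) (hxm j)) with hU
  set A : Matrix (Fin (n + 1)) (Fin (n + 1)) (MerAt z0) :=
    Matrix.of fun i j => mkA (comp a (i, j)) (comp_mero ha (i, j) z0) with hA
  have hit : ∀ i j : Fin (n + 1), ∃ h : MeromorphicAt (iteratedDeriv (i : ℕ) (fun z => x z j)) z0,
      (⇑dMerAt)^[(i : ℕ)] (mkA (fun z => x z j) (hxm j)) =
        mkA (iteratedDeriv (i : ℕ) (fun z => x z j)) h := fun i j => dMerAt_iter_mk _ _
  choose hm hmk using hit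
  have hUmk : ∀ i j, U i j = mkA (iteratedDeriv (i : ℕ) (fun z => x z j)) (hm i j) := hmk
  -- the determinant
  have hUdet : U.det ≠ 0 := by
    let M0 : Matrix (Fin (n + 1)) (Fin (n + 1)) (merFunA z0) :=
      Matrix.of fun i j => ⟨iteratedDeriv (i : ℕ) (fun z => x z j), hm i j⟩
    have h1 : U = (mkHomA z0).mapMatrix M0 := by
      ext i j
      rw [hUmk]
      rfl
    have h2 : U.det = mkHomA z0 M0.det := by rw [h1, ← RingHom.map_det]
    have h3 : (M0.det : ℂ → ℂ) = wronsk x := by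
      ext z
      have h4 := RingHom.map_det ((Pi.evalRingHom (fun _ : ℂ => ℂ) z).comp (merFunA z0).subtype) M0
      have h5 : ((Pi.evalRingHom (fun _ : ℂ => ℂ) z).comp (merFunA z0).subtype) M0.det =
          (M0.det : ℂ → ℂ) z := rfl
      rw [← h5, h4]
      rfl
    have h6 : ContinuousAt (wronsk x) z0 := by
      have h7 : wronsk x = fun z => ∑ σ : Equiv.Perm (Fin (n + 1)), ((Equiv.Perm.sign σ : ℤ) : ℂ) *
          ∏ i, iteratedDeriv (σ i : ℕ) (fun w => x w i) z := by
        ext z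
        show (Matrix.of fun i j : Fin (n + 1) =>
          iteratedDeriv (i : ℕ) ((fun j w => x w j) j) z).det = _
        rw [Matrix.det_apply']
        rfl
      rw [h7]
      refine tendsto_finsetSum _ fun σ _ => Tendsto.mul tendsto_const_nhds ?_
      refine tendsto_finsetProd _ fun i _ => ?_
      have h8 := ((hx.analytic i).iterated_deriv (σ i : ℕ)).continuousAt
      rw [← iteratedDeriv_eq_iterate] at h8
      exact h8
    intro h0
    rw [h2] at h0
    have h0' : mkA (M0.det : ℂ → ℂ) M0.det.2 = 0 := h0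
    rw [mkA_eq_zero, h3] at h0'
    have h8 : ∀ᶠ z in 𝓝[≠] z0, wronsk x z ≠ 0 :=
      (h6.eventually_ne hx.wronsk_ne_zero).filter_mono nhdsWithin_le_nhds
    obtain ⟨z, hz1, hz2⟩ := (h0'.and h8).exists
    exact hz2 hz1
  -- the differential equation
  have hAU : ∀ i j, dMerAt (U i j) = ∑ l, A i l * U l j + 0 * U i j := by
    intro i j
    rw [zero_mul, add_zero]
    have h1 : dMerAt (U i j) = (⇑dMerAt)^[(i : ℕ) + 1] (mkA (fun z => x z j) (hxm j)) := by
      rw [Function.iterate_succ_apply']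
      rfl
    rw [h1]
    by_cases hi : (i : ℕ) = n
    · rw [hi]
      obtain ⟨h2, h3⟩ := dMerAt_iter_mk (hxm j) (n + 1)
      rw [h3]
      have h4 : ∀ l, A i l * U l j = mkA (fun z => a l z * iteratedDeriv (l : ℕ) (fun w => x w j) z)
          ((ha l z0).mul (hm l j)) := by
        intro l
        rw [hUmk, hA, Matrix.of_apply, mkA_mul, mkA_eq]
        filter_upwards with z
        rw [Pi.mul_apply, comp, if_pos hi]
      obtain ⟨h5, h6⟩ := mkA_sum Finset.univ
        (fun l : Fin (n + 1) => fun z => a l z * iteratedDeriv (l : ℕ) (fun w => x w j) z)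
        (fun l => (ha l z0).mul (hm l j))
      rw [Finset.sum_congr rfl fun l _ => h4 l, h6, mkA_eq]
      exact hx.equation j
    · have hi' : (i : ℕ) + 1 < n + 1 := by omega
      rw [Finset.sum_eq_single (⟨i + 1, hi'⟩ : Fin (n + 1))]
      · have h2 : A i ⟨i + 1, hi'⟩ = 1 := by
          rw [hA, Matrix.of_apply, mkA_one, mkA_eq]
          filter_upwards with z
          rw [comp, if_neg hi, if_pos rfl]
          rfl
        rw [h2, one_mul]
        rfl
      · intro l _ hl
        have h2 : A i l = 0 := by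
          rw [hA, Matrix.of_apply, mkA_zero, mkA_eq]
          filter_upwards with z
          rw [comp, if_neg hi, if_neg]
          · rfl
          · intro h3
            exact hl (Fin.ext h3)
        rw [h2, zero_mul]
      · intro h2
        exact absurd (Finset.mem_univ _) h2
  -- first row
  have hU0 : U 0 = fun j => mkA (fun z => x z j) (hxm j) := by
    ext j
    rfl
  have hG : ∀ q : MvPolynomial (Fin (n + 1)) ℂ, ∃ hm : MeromorphicAt (fun z => eval (x z) q) z0,
      aeval (U 0) q = mkA (fun z => eval (x z) q) hm := by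
    intro q
    rw [hU0]
    exact aeval_mkA (fun j z => x z j) hxm q
  choose hGm hGeq using hG
  have hfk : ∀ᶠ z in 𝓝[≠] z0, f z k ≠ 0 :=
    ((differentiable_pi.1 hf k).continuous.continuousAt.eventually_ne hk).filter_mono
      nhdsWithin_le_nhds
  have hGk : aeval (U 0) (P k) ≠ 0 := by
    intro h0
    rw [hGeq, mkA_eq_zero] at h0
    obtain ⟨z, ⟨hz1, hz2⟩, hz3⟩ := ((h0.and hPf).and hfk).exists
    have hz1' : eval (x z) (P k) = 0 := hz1
    rw [hz2.2 k] at hz1'
    have hz1 := hz1'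
    exact mul_ne_zero hz2.1 hz3 hz1
  have hPS : ∀ p ∈ S, aeval (fun i => aeval (U 0) (P i)) p = 0 := by
    intro p hp
    have h1 : (fun i => aeval (U 0) (P i)) = fun i => mkA (fun z => eval (x z) (P i)) (hGm (P i)) := by
      ext i
      exact hGeq (P i)
    obtain ⟨h2, h3⟩ := aeval_mkA (fun i z => eval (x z) (P i)) (fun i => hGm (P i)) p
    rw [h1, h3, mkA_eq_zero]
    obtain ⟨dd, -, hdd⟩ := hS p hp
    filter_upwards [hPf] with z hz
    have h4 : (fun i => eval (x z) (P i)) = fun i => h z * f z i := by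
      ext i; exact hz.2 i
    show eval (fun i => eval (x z) (P i)) p = 0
    rw [h4, eval_scale_form hdd, hfS z p hp, mul_zero]
  have hrel0 := fun i => hd z0 S hS U A 0 hUdet hAU P hP hPS k i hGk
  by_cases hrat : ∃ i, ∃ ξ : Matrix (Fin (n + 1)) (Fin (n + 1)) ℂ,
      (∀ p ∈ S, ∀ l : ℕ, aeval (U 0) ((⇑(Dxi ξ))^[l] (aeval P p)) = 0) ∧
      aeval (U 0) (P k * Dxi ξ (P i) - P i * Dxi ξ (P k)) ≠ 0
  · left
    obtain ⟨i, ξ, hξ1, hξ2⟩ := hrat
    -- a finite system
    let T : Set (MvPolynomial (Fin (n + 1)) ℂ) :=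
      {q | ∃ p ∈ S, ∃ l : ℕ, q = (⇑(Dxi ξ))^[l] (aeval P p)}
    obtain ⟨s', hs'T, hs'⟩ := Submodule.fg_span_iff_fg_span_finset_subset T |>.1
      (IsNoetherian.noetherian (Submodule.span (MvPolynomial (Fin (n + 1)) ℂ) T))
    have hev : ∀ᶠ z in 𝓝[≠] z0, ∀ q ∈ s', eval (x z) q = 0 := by
      rw [Filter.eventually_all_finset]
      intro q hq
      obtain ⟨p, hp, l, rfl⟩ := hs'T hq
      have h1 := hξ1 p hp l
      rw [hGeq, mkA_eq_zero] at h1
      exact h1
    rw [hGeq] at hξ2
    filter_upwards [hev, mkA_ne_zero hξ2, hPf] with z hz1 hz2 hz3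
    have hT : ∀ q ∈ T, eval (x z) q = 0 := by
      intro q hq
      have h1 : q ∈ Submodule.span (MvPolynomial (Fin (n + 1)) ℂ)
          (s' : Set (MvPolynomial (Fin (n + 1)) ℂ)) := by
        rw [← hs']; exact Submodule.subset_span hq
      have h2 : Ideal.span (s' : Set (MvPolynomial (Fin (n + 1)) ℂ)) ≤ RingHom.ker (eval (x z)) := by
        rw [Ideal.span_le]
        intro q hq
        exact hz1 q hq
      exact h2 h1
    obtain ⟨Q, hQ1, hQ2, hQ3⟩ := exists_rational_curve S
      (fun p hp => by obtain ⟨d, -, hd⟩ := hS p hp; exact ⟨d, hd⟩) P hP ξ (x z)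
      (fun p hp l => hT _ ⟨p, hp, l, rfl⟩) i k hz2
    exact ⟨Q, hQ1, hQ2, h z, hz3.1, fun i => by rw [hQ3, hz3.2]⟩
  right
  have hrel : ∀ i, AlgD dMerAt A d (aeval (U 0) (P i) / aeval (U 0) (P k)) := by
    intro i
    rcases hrel0 i with h1 | ⟨ξ, hξ1, hξ2⟩
    · exact h1
    · exact absurd ⟨i, ξ, hξ1, hξ2⟩ hrat
  choose Q hQDP hQne hQsum using hrel
  have hlift := fun (i : Fin (m + 1)) (j : ℕ) =>
    DP.lift (z0 := z0) (comp a) (comp_mero ha) (w := d) (x := Q i j) (hQDP i j)
  choose F hF hF1 hF2 using hlift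
  refine ⟨fun i j => F i j, fun i j => hF i j, fun i => ?_, fun i => ?_, fun i j => hF2 i j⟩
  · obtain ⟨j, hj, hQj⟩ := hQne i
    refine ⟨⟨j, by omega⟩, fun h0 => hQj ?_⟩
    rw [← hF1 i j, mkA_eq_zero]
    rw [Filter.EventuallyEq, eventually_codiscrete_iff] at h0
    exact h0 z0
  · have h1 := hQsum i
    have hyi : aeval (U 0) (P i) / aeval (U 0) (P k) =
        mkA ((fun z => eval (x z) (P i)) / fun z => eval (x z) (P k))
          ((hGm (P i)).div (hGm (P k))) := by
      rw [hGeq, hGeq, mkA_div]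
    have h2 : ∀ j, Q i j * (aeval (U 0) (P i) / aeval (U 0) (P k)) ^ j =
        mkA (fun z => F i j z * (eval (x z) (P i) / eval (x z) (P k)) ^ j)
          ((hF i j z0).mul (((hGm (P i)).div (hGm (P k))).pow j)) := by
      intro j
      rw [hyi, mkA_pow, ← hF1 i j, mkA_mul, mkA_eq]
      filter_upwards with z
      rfl
    obtain ⟨h3, h4⟩ := mkA_sum (Finset.range (d + 1))
      (fun j z => F i j z * (eval (x z) (P i) / eval (x z) (P k)) ^ j)
      (fun j => (hF i j z0).mul (((hGm (P i)).div (hGm (P k))).pow j))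
    rw [Finset.sum_congr rfl fun j _ => h2 j, h4, mkA_eq_zero] at h1
    have hd' : ∀ l, Differentiable ℂ (fun z => f z l) := fun l => differentiable_pi.1 hf l
    have hmero : Meromorphic (fun z => ∑ j : Fin (d + 1), F i j z * (f z i / f z k) ^ (j : ℕ)) := by
      obtain ⟨h5, -⟩ := mk_sum (Finset.univ : Finset (Fin (d + 1)))
        (fun j z => F i j z * (f z i / f z k) ^ (j : ℕ)) (fun j z => (hF i j z).mul
          ((((hd' i).analyticAt z).meromorphicAt.div ((hd' k).analyticAt z).meromorphicAt).pow _))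
      exact h5
    have hnear : ∀ᶠ z in 𝓝[≠] z0,
        ∑ j : Fin (d + 1), F i j z * (f z i / f z k) ^ (j : ℕ) = 0 := by
      filter_upwards [h1, hPf] with z hz1 hz2
      rw [Fin.sum_univ_eq_sum_range (fun j => F i j z * (f z i / f z k) ^ j) (d + 1)]
      have h6 : eval (x z) (P i) / eval (x z) (P k) = f z i / f z k := by
        rw [hz2.2, hz2.2, mul_div_mul_left _ _ hz2.1]
      simp only [h6] at hz1
      exact hz1
    have htop := meromorphicOrderAt_eq_top_iff.2 hnear
    exact Pool.Agent.GGL.eq_zero_codiscrete_of_order_top hmero htop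

end Pool.Agent.Stat
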