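import Pool.Agent.Lib_MP_b9fedf_ag.CharTF
import Pool.Agent.Lib_MP_b9fedf_ag.Poisson
import Pool.Agent.Lib_MP_b9fedf_ag.LDL
import Pool.Agent.Lib_MP_b9fedf_ag.Char
import Pool.Agent.Lib_MP_b9fedf_st.Defs

/-! PIECE R1. Meromorphic functions with `T(r) = O(log r)` are rational. -/

set_option autoImplicit false

namespace Pool.Agent.Stat

open Filter Topology Metric ValueDistribution MeromorphicOn Function

/-- A zero free entire function with `∫ |log |g|| = O(log r)` is constant. -/
theorem const_of_abs_log {g : ℂ → ℂ} (hg : Differentiable ℂ g) (h0 : ∀ z, g z ≠ 0) (K R : ℝ)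
    (h : ∀ r, R ≤ r → Real.circleAverage (fun z => |Real.log ‖g z‖|) 0 r ≤ K * Real.log r) :
    ∀ z w, g z = g w := by
  have hderiv : ∀ w, deriv g w = 0 := by
    intro w
    have hlog : logDeriv g w = 0 := by
      rw [← norm_eq_zero]
      apply le_antisymm _ (norm_nonneg _)
      have hlim : Tendsto (fun ρ : ℝ => 8 * |K| * (Real.log ρ / ρ)) atTop (𝓝 0) := by
        have h1 : Tendsto (fun ρ : ℝ => Real.log ρ / ρ) atTop (𝓝 0) :=
          Real.isLittleO_log_id_atTop.tendsto_div_nhds_zero
        simpa using h1.const_mul (8 * |K|)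
      refine ge_of_tendsto hlim ?_
      filter_upwards [eventually_ge_atTop R, eventually_ge_atTop (2 * ‖w‖ + 1)] with ρ h1 h2
      have hw := norm_nonneg w
      have hρ : 0 < ρ := by linarith
      have h3 := Pool.Agent.GGL.norm_logDeriv_le_circleAverage hρ
        (fun z _ => hg.analyticAt z) (fun z _ => h0 z) (w := w) (by linarith)
      refine h3.trans ?_
      have h4 : 0 < ρ - ‖w‖ := by linarith
      have h5 : 2 * ρ / (ρ - ‖w‖) ^ 2 ≤ 8 / ρ := by
        rw [div_le_div_iff₀ (by positivity) hρ]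
        nlinarith
      have h6 : Real.circleAverage (fun z => |Real.log ‖g z‖|) 0 ρ ≤ |K| * Real.log ρ := by
        refine (h ρ h1).trans ?_
        apply mul_le_mul_of_nonneg_right (le_abs_self K) (Real.log_nonneg (by linarith))
      have h7 : 0 ≤ Real.log ρ := Real.log_nonneg (by linarith)
      calc 2 * ρ / (ρ - ‖w‖) ^ 2 * Real.circleAverage (fun z => |Real.log ‖g z‖|) 0 ρ
          ≤ 2 * ρ / (ρ - ‖w‖) ^ 2 * (|K| * Real.log ρ) :=
            mul_le_mul_of_nonneg_left h6 (by positivity)
        _ ≤ 8 / ρ * (|K| * Real.log ρ) := mul_le_mul_of_nonneg_right h5 (by positivity)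
        _ = 8 * |K| * (Real.log ρ / ρ) := by ring
    rw [logDeriv_apply, div_eq_zero_iff] at hlog
    exact hlog.resolve_right (h0 w)
  intro z w
  exact is_const_of_deriv_eq_zero hg hderiv z w

/-- Meromorphic functions with `T(r) = O(log r)` are rational. -/
theorem rational_of_char {y : ℂ → ℂ} (hy : Meromorphic y) (K : ℝ)
    (h : ∀ r, 1 ≤ r → characteristic y ⊤ r ≤ K * (Real.log r + 1)) :
    ∃ P Q : Polynomial ℂ, Q ≠ 0 ∧ ∀ᶠ z in codiscrete ℂ, y z * Q.eval z = P.eval z := by
  classical
  by_cases hne : ∃ z, meromorphicOrderAt y z = ⊤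
  · obtain ⟨z, hz⟩ := hne
    refine ⟨0, 1, one_ne_zero, ?_⟩
    filter_upwards [Pool.Agent.GGL.eq_zero_codiscrete_of_order_top hy hz] with w hw
    rw [hw]; simp
  push Not at hne
  -- `log r + 1 ≤ 2 log r` for large `r`
  have hlog1 : ∀ᶠ r : ℝ in atTop, 1 ≤ Real.log r := by
    filter_upwards [eventually_ge_atTop (Real.exp 1)] with r hr
    rw [← Real.log_exp 1]
    exact Real.log_le_log (Real.exp_pos 1) hr
  have hfin : ∀ f : ℂ → ℂ, Meromorphic f → (∃ K, ∀ r, 1 ≤ r → characteristic f ⊤ r ≤
      K * (Real.log r + 1)) → (MeromorphicOn.divisor f Set.univ)⁻.support.Finite := by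
    rintro f hf ⟨K, hK⟩
    rw [← logCounting_isBigO_log_iff_finite_support]
    apply Asymptotics.IsBigO.of_bound (2 * |K|)
    filter_upwards [eventually_ge_atTop 1, hlog1] with r hr hr1
    have h1 : 0 ≤ logCounting f ⊤ r := logCounting_nonneg hr
    have h2 : 0 ≤ proximity f ⊤ r := proximity_nonneg (f := f) (a := ⊤) r
    have h3 := hK r hr
    rw [characteristic, Pi.add_apply] at h3
    rw [Real.norm_eq_abs, Real.norm_eq_abs, abs_of_nonneg h1,
      abs_of_nonneg (show 0 ≤ Real.log r by linarith)]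
    have h4 : K * (Real.log r + 1) ≤ |K| * (Real.log r + 1) :=
      mul_le_mul_of_nonneg_right (le_abs_self K) (by linarith)
    have h5 : |K| * (Real.log r + 1) ≤ |K| * (2 * Real.log r) :=
      mul_le_mul_of_nonneg_left (by linarith) (abs_nonneg K)
    linarith
  have hneg := hfin y hy ⟨K, h⟩
  have hpos : (MeromorphicOn.divisor y Set.univ)⁺.support.Finite := by
    obtain ⟨C, hC⟩ := Pool.Agent.GGL.char_inv_le hy
    have h1 := hfin y⁻¹ hy.inv ⟨K + |C|, fun r hr => ?_⟩
    · rw [MeromorphicOn.divisor_inv, negPart_neg] at h1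
      exact h1
    · have h2 := hC r hr
      have h3 := h r hr
      have h4 : C ≤ |C| * (Real.log r + 1) := by
        have := le_abs_self C
        have h5 := Real.log_nonneg hr
        nlinarith [abs_nonneg C]
      calc characteristic y⁻¹ ⊤ r ≤ characteristic y ⊤ r + C := h2
        _ ≤ K * (Real.log r + 1) + |C| * (Real.log r + 1) := by linarith
        _ = (K + |C|) * (Real.log r + 1) := by ring
  have hsup : (MeromorphicOn.divisor y Set.univ).support.Finite := by
    refine (hneg.union hpos).subset ?_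
    intro u hu
    rw [Function.mem_support] at hu
    by_contra hcon
    rw [Set.mem_union, not_or, Function.mem_support, Function.mem_support, not_not, not_not] at hcon
    apply hu
    have h1 := congrArg (fun D : Function.locallyFinsuppWithin (Set.univ : Set ℂ) ℤ => D u)
      (posPart_sub_negPart (MeromorphicOn.divisor y Set.univ))
    simp only [Function.locallyFinsuppWithin.coe_sub, Pi.sub_apply] at h1
    rw [← h1, hcon.1, hcon.2, sub_zero]
  obtain ⟨g, hg, hg0, hfg⟩ := (hy.meromorphicOn (s := Set.univ)).extract_zeros_poles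
    (fun u => hne u) hsup
  set s := hsup.toFinset with hs
  set D : ℂ → ℤ := fun u => MeromorphicOn.divisor y Set.univ u with hD
  have hfg' : y =ᶠ[codiscrete ℂ] fun z => (∏ u ∈ s, (z - u) ^ D u) * g z := by
    refine hfg.trans (Eq.eventuallyEq ?_)
    rw [FactorizedRational.finprod_eq_fun (d := MeromorphicOn.divisor y Set.univ) hsup]
    ext z
    simp only [Pi.smul_apply', smul_eq_mul]
    congr 1
    rw [finprod_eq_prod_of_mulSupport_subset (s := s)]
    intro u hu
    rw [Function.mem_mulSupport] at hu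
    rw [hs, Set.Finite.coe_toFinset, Function.mem_support]
    intro h
    apply hu
    rw [h, zpow_zero]
  have hgd : Differentiable ℂ g := fun z => (hg z (Set.mem_univ z)).differentiableAt
  have hg0' : ∀ z, g z ≠ 0 := fun z => hg0 ⟨z, Set.mem_univ z⟩
  -- `g` is constant
  obtain ⟨C, hC0, hC⟩ := Pool.Agent.GGL.circleAverage_abs_log_le hy
  obtain ⟨R0, hR0⟩ := (eventually_atTop.1 hlog1)
  obtain ⟨R1, hR1⟩ : ∃ R1 : ℝ, ∀ u ∈ s, ‖u‖ ≤ R1 := by
    obtain ⟨R1, hR1⟩ := s.finite_toSet.isBounded.exists_norm_le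
    exact ⟨R1, fun u hu => hR1 u hu⟩
  set A : ℝ := ∑ u ∈ s, |((D u : ℤ) : ℝ)| with hA
  have hA0 : 0 ≤ A := Finset.sum_nonneg fun _ _ => abs_nonneg _
  have hl2 : 0 ≤ Real.log 2 := Real.log_nonneg (by norm_num)
  have hconst := const_of_abs_log hgd hg0' (4 * |K| + C + A * (1 + 2 * Real.log 2))
    (max 1 (max R0 R1)) (fun r hr => by
      have hr1 : 1 ≤ r := (le_max_left _ _).trans hr
      have hr2 : R0 ≤ r := ((le_max_left _ _).trans (le_max_right _ _)).trans hr
      have hr3 : R1 ≤ r := ((le_max_right _ _).trans (le_max_right _ _)).trans hr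
      have hl := hR0 r hr2
      have h1 := Pool.Agent.GGL.circleAverage_abs_log_g (g := g) hy hr1 (s := s)
        (fun u hu => (hR1 u hu).trans hr3) (D := D) (fun z _ => hg0' z)
        (hfg'.filter_mono (codiscreteWithin_mono (Set.subset_univ _)))
      have h2 := hC r hr1
      have h3 := h r hr1
      have h4 : K * (Real.log r + 1) ≤ |K| * (2 * Real.log r) := by
        refine (mul_le_mul_of_nonneg_right (le_abs_self K) (by linarith)).trans ?_
        exact mul_le_mul_of_nonneg_left (by linarith) (abs_nonneg K)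
      have h5 : C ≤ C * Real.log r := le_mul_of_one_le_right hC0 hl
      have h6 : A * (Real.log r + 2 * Real.log 2) ≤ A * (1 + 2 * Real.log 2) * Real.log r := by
        rw [mul_assoc]
        apply mul_le_mul_of_nonneg_left _ hA0
        nlinarith
      calc _ ≤ _ := h1
        _ ≤ (2 * (|K| * (2 * Real.log r)) + C * Real.log r) +
            A * (1 + 2 * Real.log 2) * Real.log r := by linarith
        _ = (4 * |K| + C + A * (1 + 2 * Real.log 2)) * Real.log r := by ring)
  -- polynomials
  refine ⟨Polynomial.C (g 0) * ∏ u ∈ s, (Polynomial.X - Polynomial.C u) ^ (D u).toNat,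
    ∏ u ∈ s, (Polynomial.X - Polynomial.C u) ^ (-D u).toNat, ?_, ?_⟩
  · exact Finset.prod_ne_zero_iff.2 fun u _ => pow_ne_zero _ (Polynomial.X_sub_C_ne_zero u)
  · have h3 : ((s : Set ℂ))ᶜ ∈ codiscrete ℂ := compl_finite_mem_codiscreteWithin s.finite_toSet
    filter_upwards [hfg', h3] with z hz hzs
    rw [hz, hconst z 0, Polynomial.eval_prod, Polynomial.eval_mul, Polynomial.eval_C,
      Polynomial.eval_prod]
    have h4 : (∏ u ∈ s, (z - u) ^ D u) * ∏ u ∈ s, (z - u) ^ (-D u).toNat =
        ∏ u ∈ s, (z - u) ^ (D u).toNat := by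
      rw [← Finset.prod_mul_distrib]
      refine Finset.prod_congr rfl fun u hu => ?_
      have h5 : z - u ≠ 0 := by
        intro h6
        apply hzs
        rw [sub_eq_zero.1 h6]
        exact_mod_cast hu
      rw [← zpow_natCast, ← zpow_natCast, ← zpow_add₀ h5]
      congr 1
      omega
    simp only [Polynomial.eval_pow, Polynomial.eval_sub, Polynomial.eval_X, Polynomial.eval_C]
    linear_combination g 0 * h4

end Pool.Agent.Stat
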