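import Pool.Agent.Lib_MP_b9fedf_st.Bounds2
import Pool.Agent.Lib_MP_b9fedf_st.Core

/-! The algebraic relations for the curve `P(g)`. -/

set_option autoImplicit false

namespace Pool.Agent.Stat

open Filter Topology Metric MvPolynomial

theorem aeval_mk {N : ℕ} (φ : Fin N → ℂ → ℂ) (hφ : ∀ j, Meromorphic (φ j))
    (q : MvPolynomial (Fin N) ℂ) :
    ∃ h : Meromorphic (fun z => eval (fun j => φ j z) q),
      aeval (fun j => mk (φ j) (hφ j)) q = mk (fun z => eval (fun j => φ j z) q) h := by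
  induction q using MvPolynomial.induction_on with
  | C a =>
    have h1 : (fun z : ℂ => eval (fun j => φ j z) (C a : MvPolynomial (Fin N) ℂ)) = fun _ => a := by
      ext z; rw [eval_C]
    rw [h1]
    refine ⟨Meromorphic.const a, ?_⟩
    rw [← algebraMap_eq, AlgHom.commutes, algebraMap_mer]
  | add p q hp hq =>
    obtain ⟨h1, h2⟩ := hp
    obtain ⟨h3, h4⟩ := hq
    have h5 : (fun z : ℂ => eval (fun j => φ j z) (p + q)) =
        (fun z => eval (fun j => φ j z) p) + fun z => eval (fun j => φ j z) q := by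
      ext z; rw [map_add, Pi.add_apply]
    rw [h5]
    exact ⟨h1.add h3, by rw [map_add, h2, h4, mk_add]⟩
  | mul_X p j hp =>
    obtain ⟨h1, h2⟩ := hp
    have h5 : (fun z : ℂ => eval (fun j => φ j z) (p * X j)) =
        (fun z => eval (fun j => φ j z) p) * φ j := by
      ext z; rw [map_mul, eval_X, Pi.mul_apply]
    rw [h5]
    exact ⟨h1.mul (hφ j), by rw [map_mul, h2, aeval_X, mk_mul]⟩

theorem mk_pow {f : ℂ → ℂ} (hf : Meromorphic f) (k : ℕ) :
    mk f hf ^ k = mk (fun z => f z ^ k) (fun z => (hf z).pow k) := by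
  induction k with
  | zero =>
    rw [pow_zero, mk_one, mk_eq]
    filter_upwards with z
    simp
  | succ k ih =>
    rw [pow_succ, ih, mk_mul, mk_eq]
    filter_upwards with z
    rw [Pi.mul_apply, pow_succ]

theorem mk_sum {ι : Type} (s : Finset ι) (f : ι → ℂ → ℂ) (hf : ∀ i, Meromorphic (f i)) :
    ∃ h : Meromorphic (fun z => ∑ i ∈ s, f i z),
      ∑ i ∈ s, mk (f i) (hf i) = mk (fun z => ∑ i ∈ s, f i z) h := by
  classical
  induction s using Finset.induction_on with
  | empty =>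
    have : (fun z : ℂ => ∑ i ∈ (∅ : Finset ι), f i z) = fun _ => 0 := by ext z; simp
    rw [this]
    exact ⟨Meromorphic.const 0, rfl⟩
  | insert a s ha ih =>
    obtain ⟨h1, h2⟩ := ih
    have h3 : (fun z : ℂ => ∑ i ∈ insert a s, f i z) = f a + fun z => ∑ i ∈ s, f i z := by
      ext z; rw [Finset.sum_insert ha, Pi.add_apply]
    rw [h3]
    exact ⟨(hf a).add h1, by rw [Finset.sum_insert ha, h2, mk_add]⟩

theorem wrf_eq_wronsk {n : ℕ} (g : ℂ → Fin (n + 1) → ℂ) : wrf g (n + 1) = wronsk g := by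
  ext z
  unfold wrf wronsk
  congr 1
  ext j w
  show (if h : (j : ℕ) < n + 1 then g w ⟨j, h⟩ else 0) = g w j
  rw [dif_pos j.2]

theorem HW.zero {K ι : Type} [Field K] [Algebra ℂ K] (D : Derivation ℂ K K) (H : ι → K) (w : ℕ) :
    HW D H w 0 := by
  have := HW.const (D := D) (H := H) 0
  rw [map_zero] at this
  exact .mono (Nat.zero_le _) this

theorem HW.one {K ι : Type} [Field K] [Algebra ℂ K] (D : Derivation ℂ K K) (H : ι → K) (w : ℕ) :
    HW D H w 1 := by
  have := HW.const (D := D) (H := H) 1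
  rw [map_one] at this
  exact .mono (Nat.zero_le _) this

/-- The relations between the coordinates of `P(g)`. -/
theorem relations (m n e N : ℕ) :
    ∃ M d : ℕ, ∀ S : Set (MvPolynomial (Fin (m + 1)) ℂ), (∀ p ∈ S, ∃ k ≤ N, p.IsHomogeneous k) →
      ∀ (g : ℂ → Fin (n + 1) → ℂ), Differentiable ℂ g →
      LinearIndependent ℂ (fun (j : Fin (n + 1)) z => g z j) →
      ∀ (P : Fin (m + 1) → MvPolynomial (Fin (n + 1)) ℂ), (∀ i, (P i).IsHomogeneous e) →
      ∀ (f : ℂ → Fin (m + 1) → ℂ) (h : ℂ → ℂ), (∀ z i, eval (g z) (P i) = h z * f z i) →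
      (∀ z, ∀ p ∈ S, eval (f z) p = 0) → ∀ k, (∃ z, h z * f z k ≠ 0) →
      (∀ᶠ z in codiscrete ℂ, OnRational S (f z)) ∨
      ∃ Q : Fin (m + 1) → Fin (d + 1) → ℂ → ℂ, (∀ i j, Meromorphic (Q i j)) ∧
        (∀ i, ∃ j, ¬ Q i j =ᶠ[codiscrete ℂ] fun _ => 0) ∧
        (∀ i, ∀ᶠ z in codiscrete ℂ, ∑ j, Q i j z * (f z i / f z k) ^ (j : ℕ) = 0) ∧
        (∀ i j a, wronsk g a ≠ 0 → 0 ≤ meromorphicOrderAt (Q i j) a) ∧
        (∀ i j a, ((-(M : ℤ) : ℤ) : WithTop ℤ) ≤ meromorphicOrderAt (Q i j) a) ∧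
        ∃ K : ℝ, 0 ≤ K ∧ ∀ r B : ℝ, 1 ≤ r → 1 ≤ B → Circ g r B → ∀ i j,
          ∀ᶠ z in codiscreteWithin (sphere (0 : ℂ) r), ‖Q i j z‖ ≤ K * B ^ M := by
  obtain ⟨d, hd⟩ := core dMer const_of_dMer_eq_zero m n e N
  refine ⟨(n + 1) * d, d, ?_⟩
  intro S hS g hg hli P hP f h hPf hfS k hk
  classical
  set W : Mer := wr dMer (gM hg) (n + 1) with hW
  have hW0 : W ≠ 0 := wr_gM_ne_zero hg hli le_rfl
  set u : Mer := dMer W / ((n + 1 : ℕ) * W) with hu
  obtain ⟨a, haHW, harel⟩ := frobenius dMer n (gM hg) (fun k hk => wr_gM_ne_zero hg hli hk)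
  rw [← hW, ← hu] at harel
  set H : Fin (n + 1) × Fin (n + 1) → Mer :=
    fun kl => hq dMer (gM hg) kl.1 / hq dMer (gM hg) kl.2 with hH
  have hH0 : ∀ kl, H kl ≠ 0 := fun kl => hq_ne_zero hg hli kl
  set U : Matrix (Fin (n + 1)) (Fin (n + 1)) Mer :=
    Matrix.of fun i j : Fin (n + 1) => erow dMer u (gM hg) i j with hU
  have hUdet : U.det = W := det_erow dMer u (gM hg) (n + 1)
  set A : Matrix (Fin (n + 1)) (Fin (n + 1)) Mer :=
    Matrix.of fun i l : Fin (n + 1) => if (i : ℕ) = n then a l else if (l : ℕ) = i + 1 then 1 else 0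
    with hA
  have hAU : ∀ i j, dMer (U i j) = ∑ l, A i l * U l j + u * U i j := by
    intro i j
    have h1 : dMer (U i j) = erow dMer u (gM hg) (i + 1) j + u * U i j := by
      show dMer (erow dMer u (gM hg) i j) =
        (dMer (erow dMer u (gM hg) i j) - u * erow dMer u (gM hg) i j) +
          u * erow dMer u (gM hg) i j
      ring
    rw [h1]
    congr 1
    by_cases hi : (i : ℕ) = n
    · rw [hi, harel j (by omega)]
      refine Finset.sum_congr rfl fun l _ => ?_
      rw [hA, Matrix.of_apply, if_pos hi]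
      rfl
    · have hi' : (i : ℕ) + 1 < n + 1 := by omega
      rw [Finset.sum_eq_single (⟨i + 1, hi'⟩ : Fin (n + 1))]
      · rw [hA, Matrix.of_apply, if_neg hi, if_pos rfl, one_mul]
        rfl
      · intro l _ hl
        rw [hA, Matrix.of_apply, if_neg hi, if_neg, zero_mul]
        intro h2
        exact hl (Fin.ext h2)
      · intro h2
        exact absurd (Finset.mem_univ _) h2
  -- the entries of `A`: weights
  have hAHW : ∀ ab : Fin (n + 1) × Fin (n + 1), HW dMer H (n + 1) (A ab.1 ab.2) := by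
    rintro ⟨i, l⟩
    show HW dMer H (n + 1) (A i l)
    rw [hA, Matrix.of_apply]
    split_ifs
    · exact haHW l
    · exact HW.one _ _ _
    · exact HW.zero _ _ _
  -- the entries of `A`: poles
  set Wf : ℂ → ℂ := wrf g (n + 1) with hWf
  have hWfd : Differentiable ℂ Wf := wrf_differentiable hg _
  have hWmk : W = mk Wf (mero_of_differentiable hWfd) := wr_gM hg (n + 1)
  have hWinv : W⁻¹ ∈ Reg Wf := by
    rw [hWmk]; exact Reg_inv hWfd
  have hWreg : W ∈ Reg Wf := by
    rw [hWmk]; exact Reg_entire Wf hWfd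
  have hureg : u ∈ Reg Wf := by
    have h1 : u = dMer W * (algebraMap ℂ Mer ((n + 1 : ℕ) : ℂ)⁻¹ * W⁻¹) := by
      rw [hu, map_inv₀, map_natCast, div_eq_mul_inv, mul_inv]
    rw [h1]
    exact mul_mem (Reg_deriv hWreg) (mul_mem (Reg_const _ _) hWinv)
  have herow : ∀ i j, erow dMer u (gM hg) i j ∈ Reg Wf := by
    intro i
    induction i with
    | zero => exact fun j => Reg_entire Wf (gN_differentiable hg j)
    | succ i ih =>
      intro j
      exact sub_mem (Reg_deriv (ih j)) (mul_mem hureg (ih j))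
  have hareg : ∀ i, a i ∈ Reg Wf := by
    intro i
    refine mem_of_cramer (Reg Wf) U (fun i j => herow i j) (by rw [hUdet]; exact hW0)
      (by rw [hUdet]; exact hWinv) a (fun j => erow dMer u (gM hg) (n + 1) j)
      (fun j => herow _ _) (fun j => ?_) i
    exact (harel j (by omega)).symm
  have hAreg : ∀ ab : Fin (n + 1) × Fin (n + 1), A ab.1 ab.2 ∈ Reg Wf := by
    rintro ⟨i, l⟩
    show A i l ∈ Reg Wf
    rw [hA, Matrix.of_apply]
    split_ifs
    · exact hareg l
    · exact one_mem _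
    · exact zero_mem _
  -- first row
  have hU0 : U 0 = fun j => mk (fun z => g z j) (mero_of_differentiable (differentiable_pi.1 hg j)) := by
    ext j
    show gM hg j = _
    unfold gM
    rw [mk_eq]
    filter_upwards with z
    show (if h : (j : ℕ) < n + 1 then g z ⟨j, h⟩ else 0) = g z j
    rw [dif_pos j.2]
  have hG : ∀ i, ∃ hm : Meromorphic (fun z => eval (g z) (P i)),
      aeval (U 0) (P i) = mk (fun z => eval (g z) (P i)) hm := by
    intro i
    rw [hU0]
    exact aeval_mk (fun j z => g z j) (fun j => mero_of_differentiable (differentiable_pi.1 hg j)) (P i)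
  choose hGm hGeq using hG
  have hGd : ∀ q : MvPolynomial (Fin (n + 1)) ℂ, Differentiable ℂ (fun z => eval (g z) q) := by
    intro q
    induction q using MvPolynomial.induction_on with
    | C a => simp only [eval_C]; exact differentiable_const a
    | add p q hp hq => simp only [map_add]; exact hp.add hq
    | mul_X p j hp => simp only [map_mul, eval_X]; exact hp.mul (differentiable_pi.1 hg j)
  have hG0 : ∀ q : MvPolynomial (Fin (n + 1)) ℂ, aeval (U 0) q = 0 → ∀ z, eval (g z) q = 0 := by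
    intro q hq z
    by_contra hz
    obtain ⟨hm, hm'⟩ := aeval_mk (fun j z => g z j)
      (fun j => mero_of_differentiable (differentiable_pi.1 hg j)) q
    rw [hU0, hm'] at hq
    exact mk_ne_zero_of_exists (hGd q) ⟨z, hz⟩ hq
  have hG1 : ∀ q : MvPolynomial (Fin (n + 1)) ℂ, aeval (U 0) q ≠ 0 →
      ∀ᶠ z in codiscrete ℂ, eval (g z) q ≠ 0 := by
    intro q hq
    obtain ⟨hm, hm'⟩ := aeval_mk (fun j z => g z j)
      (fun j => mero_of_differentiable (differentiable_pi.1 hg j)) q
    rw [hU0, hm'] at hq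
    exact ne_zero_codiscrete hq
  have hGk : aeval (U 0) (P k) ≠ 0 := by
    rw [hGeq]
    obtain ⟨z, hz⟩ := hk
    exact mk_ne_zero_of_exists (hGd _) ⟨z, by rw [hPf]; exact hz⟩
  have hPS : ∀ p ∈ S, aeval (fun i => aeval (U 0) (P i)) p = 0 := by
    intro p hp
    have h1 : (fun i => aeval (U 0) (P i)) = fun i => mk (fun z => eval (g z) (P i)) (hGm i) := by
      ext i
      exact hGeq i
    obtain ⟨h2, h3⟩ := aeval_mk (fun i z => eval (g z) (P i)) hGm p
    rw [h1, h3, mk_eq_zero]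
    filter_upwards with z
    obtain ⟨dd, -, hdd⟩ := hS p hp
    have h4 : (fun i => eval (g z) (P i)) = fun i => h z * f z i := by
      ext i; exact hPf z i
    show eval (fun i => eval (g z) (P i)) p = 0
    rw [h4]
    have h6 : eval (fun i => h z * f z i) p = h z ^ dd * eval (f z) p := by
      rw [eval_eq, eval_eq, Finset.mul_sum]
      refine Finset.sum_congr rfl fun α hα => ?_
      have h7 : ∑ i, α i = dd := by
        have := hdd (mem_support_iff.1 hα)
        rw [Finsupp.weight_apply, Finsupp.sum_fintype _ _ (fun _ => by simp)] at this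
        simpa using this
      have h8 : ∏ i, (h z * f z i) ^ α i = h z ^ dd * ∏ i, f z i ^ α i := by
        simp_rw [mul_pow]
        rw [Finset.prod_mul_distrib, Finset.prod_pow_eq_pow_sum, h7]
      have h9 : ∀ (v : Fin (m + 1) → ℂ), ∏ i ∈ α.support, v i ^ α i = ∏ i, v i ^ α i := by
        intro v
        apply Finset.prod_subset (Finset.subset_univ _)
        intro i _ hi
        rw [Finsupp.notMem_support_iff.1 hi, pow_zero]
      rw [h9, h9, h8]
      ring
    rw [h6, hfS z p hp, mul_zero]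
  have hrel0 := fun i => hd S hS U A u (by rw [hUdet]; exact hW0) hAU P hP hPS k i hGk
  by_cases hrat : ∃ i, ∃ ξ : Matrix (Fin (n + 1)) (Fin (n + 1)) ℂ,
      (∀ p ∈ S, ∀ l : ℕ, aeval (U 0) ((⇑(Dxi ξ))^[l] (aeval P p)) = 0) ∧
      aeval (U 0) (P k * Dxi ξ (P i) - P i * Dxi ξ (P k)) ≠ 0
  · left
    obtain ⟨i, ξ, hξ1, hξ2⟩ := hrat
    filter_upwards [hG1 _ hξ2, hG1 _ hGk] with z hz1 hz2
    have hhz : h z ≠ 0 := by
      intro h8
      rw [hPf, h8, zero_mul] at hz2
      exact hz2 rfl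
    obtain ⟨Q, hQ1, hQ2, hQ3⟩ := exists_rational_curve S
      (fun p hp => by obtain ⟨d, -, hd⟩ := hS p hp; exact ⟨d, hd⟩) P hP ξ (g z)
      (fun p hp l => hG0 _ (hξ1 p hp l) z) i k hz1
    exact ⟨Q, hQ1, hQ2, h z, hhz, fun i => by rw [hQ3, hPf]⟩
  right
  have hrel : ∀ i, AlgD dMer A d (aeval (U 0) (P i) / aeval (U 0) (P k)) := by
    intro i
    rcases hrel0 i with h1 | ⟨ξ, hξ1, hξ2⟩
    · exact h1
    · exact absurd ⟨i, ξ, hξ1, hξ2⟩ hrat
  choose Q hQDP hQne hQsum using hrel
  -- representatives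
  choose q hqm hq using fun (i : Fin (m + 1)) (j : ℕ) => exists_mk (Q i j)
  have hDPHW : ∀ i j, HW dMer H ((n + 1) * d) (Q i j) := fun i j =>
    HW.of_DP hH0 (by omega) hAHW (hQDP i j)
  have hbd : ∀ i j, ∃ K : ℝ, 0 ≤ K ∧ ∀ r B : ℝ, 1 ≤ r → 1 ≤ B → Circ g r B →
      ∀ᶠ z in codiscreteWithin (sphere (0 : ℂ) r), ‖q i j z‖ ≤ K * B ^ ((n + 1) * d) := fun i j =>
    (HW.circ hg hli (hDPHW i j)) (q i j) (hqm i j) (hq i j)
  choose K hK0 hK using hbd
  refine ⟨fun i j => q i j, fun i j => hqm i j, fun i => ?_, fun i => ?_, fun i j a ha => ?_,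
    fun i j a => ?_, ∑ i, ∑ j : Fin (d + 1), K i j,
    Finset.sum_nonneg fun i _ => Finset.sum_nonneg fun j _ => hK0 i j, ?_⟩
  · obtain ⟨j, hj, hQj⟩ := hQne i
    refine ⟨⟨j, by omega⟩, fun h0 => hQj ?_⟩
    rw [← hq i j, mk_eq_zero]
    exact h0
  · have h1 := hQsum i
    -- the ratio
    have hyi : aeval (U 0) (P i) / aeval (U 0) (P k) =
        mk ((fun z => eval (g z) (P i)) / fun z => eval (g z) (P k)) ((hGm i).div (hGm k)) := by
      rw [hGeq, hGeq, mk_div]
    have h2 : ∀ j, Q i j * (aeval (U 0) (P i) / aeval (U 0) (P k)) ^ j =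
        mk (fun z => q i j z * (eval (g z) (P i) / eval (g z) (P k)) ^ j)
          (fun z => (hqm i j z).mul ((((hGm i).div (hGm k)) z).pow j)) := by
      intro j
      rw [hyi, mk_pow, ← hq i j, mk_mul, mk_eq]
      filter_upwards with z
      rfl
    obtain ⟨h3, h4⟩ := mk_sum (Finset.range (d + 1))
      (fun j z => q i j z * (eval (g z) (P i) / eval (g z) (P k)) ^ j)
      (fun j z => (hqm i j z).mul ((((hGm i).div (hGm k)) z).pow j))
    rw [Finset.sum_congr rfl fun j _ => h2 j, h4, mk_eq_zero] at h1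
    have h5 : ∀ᶠ z in codiscrete ℂ, eval (g z) (P k) ≠ 0 := by
      rw [hGeq] at hGk
      exact ne_zero_codiscrete hGk
    filter_upwards [h1, h5] with z hz1 hz2
    rw [Fin.sum_univ_eq_sum_range (fun j => q i j z * (f z i / f z k) ^ j) (d + 1)]
    have h6 : eval (g z) (P i) / eval (g z) (P k) = f z i / f z k := by
      have h7 : h z ≠ 0 := by
        intro h8
        rw [hPf, h8, zero_mul] at hz2
        exact hz2 rfl
      rw [hPf, hPf, mul_div_mul_left _ _ h7]
    simp only [h6] at hz1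
    exact hz1
  · have h1 := (hQDP i j).reg hAreg a (by rw [hWf, wrf_eq_wronsk]; exact ha)
    rwa [← hq i j, ordM_mk] at h1
  · have h1 := (hDPHW i j).order hH0 a
    rwa [← hq i j, ordM_mk] at h1
  · intro r B hr hB hC i j
    filter_upwards [hK i j r B hr hB hC] with z hz
    refine hz.trans (mul_le_mul_of_nonneg_right ?_ (by positivity))
    refine le_trans ?_ (Finset.single_le_sum (f := fun i => ∑ j : Fin (d + 1), K i j)
      (fun i _ => Finset.sum_nonneg fun j _ => hK0 i j) (Finset.mem_univ i))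
    exact Finset.single_le_sum (f := fun j : Fin (d + 1) => K i j) (fun j _ => hK0 i j)
      (Finset.mem_univ j)

end Pool.Agent.Stat
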