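import Mathlib

/-! A1. A subspace stable under the derivation is spanned by its constant vectors. -/

set_option autoImplicit false

namespace Pool.Agent.Stat

/-- A1 -/
theorem mem_span_const {K ι : Type} [Field K] [Fintype ι] (D : Derivation ℤ K K)
    (M : Submodule K (ι → K)) (hM : ∀ v ∈ M, (fun i => D (v i)) ∈ M) :
    ∀ v ∈ M, v ∈ Submodule.span K {c : ι → K | c ∈ M ∧ ∀ i, D (c i) = 0} := by
  classical
  have key : ∀ (N : ℕ) (v : ι → K), v ∈ M → (Finset.univ.filter fun i => v i ≠ 0).card ≤ N →
      v ∈ Submodule.span K {c : ι → K | c ∈ M ∧ ∀ i, D (c i) = 0} := by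
    intro N
    induction N with
    | zero =>
      intro v _ hN
      have h0 : v = 0 := by
        ext i
        by_contra h
        have : i ∈ Finset.univ.filter fun i => v i ≠ 0 := by simpa using h
        rw [Nat.le_zero, Finset.card_eq_zero] at hN
        rw [hN] at this
        simp at this
      rw [h0]
      exact Submodule.zero_mem _
    | succ N ih =>
      intro v hv hN
      by_cases hv0 : v = 0
      · rw [hv0]; exact Submodule.zero_mem _
      -- a vector of minimal support inside the support of `v`
      let P : ℕ → Prop := fun s => ∃ w ∈ M, w ≠ 0 ∧ (∀ i, w i ≠ 0 → v i ≠ 0) ∧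
        (Finset.univ.filter fun i => w i ≠ 0).card = s
      have hP : ∃ s, P s := ⟨_, v, hv, hv0, fun _ h => h, rfl⟩
      obtain ⟨w, hwM, hw0, hwv, hws⟩ := Nat.find_spec hP
      obtain ⟨j, hj⟩ : ∃ j, w j ≠ 0 := by
        by_contra h
        push Not at h
        exact hw0 (funext h)
      set u : ι → K := (w j)⁻¹ • w with hu
      have huM : u ∈ M := M.smul_mem _ hwM
      have huj : u j = 1 := by
        rw [hu, Pi.smul_apply, smul_eq_mul, inv_mul_cancel₀ hj]
      have huw : ∀ i, u i ≠ 0 ↔ w i ≠ 0 := by
        intro i
        rw [hu, Pi.smul_apply, smul_eq_mul]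
        simp [hj]
      have hDu : (fun i => D (u i)) = 0 := by
        by_contra hne
        have hsub : (Finset.univ.filter fun i => D (u i) ≠ 0) ⊆
            (Finset.univ.filter fun i => w i ≠ 0).erase j := by
          intro i hi
          rw [Finset.mem_filter] at hi
          rw [Finset.mem_erase, Finset.mem_filter]
          refine ⟨?_, Finset.mem_univ _, ?_⟩
          · rintro rfl
            apply hi.2
            rw [huj]
            exact D.map_one_eq_zero
          · rw [← huw]
            intro h
            apply hi.2
            rw [h, map_zero]
        have hlt : (Finset.univ.filter fun i => D (u i) ≠ 0).card < Nat.find hP := by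
          rw [← hws]
          refine lt_of_le_of_lt (Finset.card_le_card hsub) ?_
          exact Finset.card_erase_lt_of_mem (by simpa using hj)
        refine Nat.find_min hP hlt ⟨fun i => D (u i), hM u huM, hne, ?_, rfl⟩
        intro i hi
        apply hwv
        rw [← huw]
        intro h
        apply hi
        show D (u i) = 0
        rw [h, map_zero]
      have hu1 : u ∈ Submodule.span K {c : ι → K | c ∈ M ∧ ∀ i, D (c i) = 0} :=
        Submodule.subset_span ⟨huM, fun i => congrFun hDu i⟩
      have h1 : v - v j • u ∈ Submodule.span K {c : ι → K | c ∈ M ∧ ∀ i, D (c i) = 0} := by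
        apply ih _ (M.sub_mem hv (M.smul_mem _ huM))
        have hsub : (Finset.univ.filter fun i => (v - v j • u) i ≠ 0) ⊆
            (Finset.univ.filter fun i => v i ≠ 0).erase j := by
          intro i hi
          rw [Finset.mem_filter] at hi
          rw [Finset.mem_erase, Finset.mem_filter]
          have hval : (v - v j • u) i = v i - v j * u i := rfl
          refine ⟨?_, Finset.mem_univ _, ?_⟩
          · rintro rfl
            apply hi.2
            rw [hval, huj, mul_one, sub_self]
          · intro h
            apply hi.2
            have hui : u i = 0 := by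
              by_contra h2
              exact hwv i ((huw i).1 h2) h
            rw [hval, h, hui, mul_zero, sub_zero]
        have h2 := Finset.card_le_card hsub
        have h3 : v j ≠ 0 := hwv j hj
        rw [Finset.card_erase_of_mem (by simpa using h3)] at h2
        omega
      have h2 := Submodule.add_mem _ h1 (Submodule.smul_mem _ (v j) hu1)
      rwa [sub_add_cancel] at h2
  intro v hv
  exact key _ v hv le_rfl

end Pool.Agent.Stat
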