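import Pool.Agent.Lib_MP_b9fedf_st.Image
import Pool.Agent.Lib_MP_b9fedf_st.OdeRat

set_option autoImplicit false

namespace Pool.Agent.Lib_MP_b9fedf_st.StationaryPointsRes

open Filter Topology Pool.Agent.Stat ValueDistribution

/-- Let `X = V(S)` be a projective variety given by forms of degree at most `N` and `f` an entire
curve in `X`.  There is a constant `C` which depends only on `m, n, e, N` such that:

(1) If `f = [P(g)]` is the image of an entire curve `g` in `P^n`, contained in no hyperplane, under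
forms of degree `e`, then either rational curves of `X` pass through the points `f(z)` for all `z`
outside a discrete set, or `T_f(r) ≤ C N̄(W, r) + K (log⁺ T_g(r) + log r + 1)` for all `r ≥ 1`
outside a set of finite measure; `N̄(W, r)` counts the distinct zeros of the Wronskian `W` of `g`.

(2) If near some point `z0` the curve is `f = [P(x)]`, where `x` is a basis of solutions of the
linear differential equation `y^(n+1) = ∑ a_l y^(l)` with meromorphic functions `a_l` on `ℂ`, then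
either rational curves of `X` pass through the points `f(z)` for `z` near `z0`, or
`T_f(r) ≤ C ∑ T(r, a_l) + K (log r + 1)` for all `r ≥ 1` outside a set of finite measure.

(3) If in (1) the curve `g` has finite order and its Wronskian finitely many zeros, then `f` is
constant or the first case of (1) holds.

(4) If in (2) the `a_l` are rational functions, then `f` is constant or the first case of (2) holds.

In the first cases not all holomorphic maps from complex tori to `X` are constant; so if `X`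
satisfies the hypothesis of `S00411`, then the bounds in (1) and (2) hold and the curves in (3), (4)
are constant. -/
theorem result :
    (∀ m n e N : ℕ, ∃ C : ℝ, 0 ≤ C ∧ ∀ S : Set (MvPolynomial (Fin (m + 1)) ℂ),
      (∀ p ∈ S, ∃ k ≤ N, p.IsHomogeneous k) →
      (∀ (g : ℂ → Fin (n + 1) → ℂ) (f : ℂ → Fin (m + 1) → ℂ), RatImage S e g f →
        ((∀ᶠ z in codiscrete ℂ, OnRational S (f z)) ∧ ¬ NoTorus S) ∨
        ∃ (K : ℝ) (E : Set ℝ), MeasureTheory.volume E < ⊤ ∧ ∀ r, 1 ≤ r → r ∉ E →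
          charT f r ≤ C * Nbar (wronsk g) r + K * (Real.posLog (charT g r) + Real.log r + 1)) ∧
      (∀ a : Fin (n + 1) → ℂ → ℂ, (∀ l, Meromorphic (a l)) →
        ∀ (z0 : ℂ) (x : ℂ → Fin (n + 1) → ℂ), Fundamental a z0 x →
        ∀ f : ℂ → Fin (m + 1) → ℂ, LocalImage S e z0 x f →
        ((∀ᶠ z in 𝓝[≠] z0, OnRational S (f z)) ∧ ¬ NoTorus S) ∨
        ∃ (K : ℝ) (E : Set ℝ), MeasureTheory.volume E < ⊤ ∧ ∀ r, 1 ≤ r → r ∉ E →
          charT f r ≤ C * ∑ l, characteristic (a l) ⊤ r + K * (Real.log r + 1))) ∧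
    (∀ m n e : ℕ, ∀ S : Set (MvPolynomial (Fin (m + 1)) ℂ), (∀ p ∈ S, ∃ k : ℕ, p.IsHomogeneous k) →
      (∀ (g : ℂ → Fin (n + 1) → ℂ) (f : ℂ → Fin (m + 1) → ℂ), RatImage S e g f →
        (∃ A ρ : ℝ, ∀ r, 1 ≤ r → charT g r ≤ A * r ^ ρ) → {z | wronsk g z = 0}.Finite →
        ((∀ᶠ z in codiscrete ℂ, OnRational S (f z)) ∧ ¬ NoTorus S) ∨
        ∀ z w, ∃ c : ℂ, f w = c • f z) ∧
      (∀ a b : Fin (n + 1) → Polynomial ℂ,
        ∀ (z0 : ℂ) (x : ℂ → Fin (n + 1) → ℂ),
        Fundamental (fun l z => (a l).eval z / (b l).eval z) z0 x →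
        ∀ f : ℂ → Fin (m + 1) → ℂ, LocalImage S e z0 x f →
        ((∀ᶠ z in 𝓝[≠] z0, OnRational S (f z)) ∧ ¬ NoTorus S) ∨
        ∀ z w, ∃ c : ℂ, f w = c • f z)) := by
  have key : ∀ (m : ℕ) (S : Set (MvPolynomial (Fin (m + 1)) ℂ)),
      (∀ p ∈ S, ∃ k : ℕ, p.IsHomogeneous k) → ∀ f : ℂ → Fin (m + 1) → ℂ,
      (∀ᶠ z in codiscrete ℂ, OnRational S (f z)) →
      ((∀ᶠ z in codiscrete ℂ, OnRational S (f z)) ∧ ¬ NoTorus S) := by
    intro m S hS f h
    obtain ⟨z, hz⟩ := exists_of_codiscrete h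
    exact ⟨h, not_noTorus hS hz⟩
  have key' : ∀ (m : ℕ) (S : Set (MvPolynomial (Fin (m + 1)) ℂ)),
      (∀ p ∈ S, ∃ k : ℕ, p.IsHomogeneous k) → ∀ (z0 : ℂ) (f : ℂ → Fin (m + 1) → ℂ),
      (∀ᶠ z in 𝓝[≠] z0, OnRational S (f z)) →
      ((∀ᶠ z in 𝓝[≠] z0, OnRational S (f z)) ∧ ¬ NoTorus S) := by
    intro m S hS z0 f h
    obtain ⟨z, hz⟩ := h.exists
    exact ⟨h, not_noTorus hS hz⟩
  refine ⟨fun m n e N => ?_, fun m n e S hS => ⟨?_, ?_⟩⟩
  · obtain ⟨C, hC0, hC⟩ := main m n e N
    obtain ⟨C', hC0', hC'⟩ := mainO m n e N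
    refine ⟨max C C', le_max_of_le_left hC0, fun S hS => ?_⟩
    have hS' : ∀ p ∈ S, ∃ k : ℕ, p.IsHomogeneous k := by
      intro p hp
      obtain ⟨k, -, hk⟩ := hS p hp
      exact ⟨k, hk⟩
    refine ⟨fun g f hfg => ?_, fun a ha z0 x hx f hf => ?_⟩
    · obtain ⟨P, hP, h, hh, hPf⟩ := hfg.image
      rcases hC S hS g hfg.differentiable_g hfg.g_ne_zero hfg.linearIndependent P hP f
        hfg.differentiable_f hfg.f_ne_zero hfg.f_mem h hh hPf with h1 | ⟨K, E, hE, hKE⟩
      · exact Or.inl (key m S hS' f h1)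
      · refine Or.inr ⟨K, E, hE, fun r hr hrE => (hKE r hr hrE).trans ?_⟩
        exact add_le_add (mul_le_mul_of_nonneg_right (le_max_left _ _)
          (Nbar_nonneg _ hr)) le_rfl
    · obtain ⟨P, hP, h, hPf⟩ := hf.image
      rcases hC' S hS a ha z0 x hx P hP f hf.differentiable_f hf.f_ne_zero hf.f_mem h hPf
        with h1 | ⟨K, E, hE, hKE⟩
      · exact Or.inl (key' m S hS' z0 f h1)
      · refine Or.inr ⟨K, E, hE, fun r hr hrE => (hKE r hr hrE).trans ?_⟩
        exact add_le_add (mul_le_mul_of_nonneg_right (le_max_right _ _)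
          (Finset.sum_nonneg fun l _ => characteristic_nonneg hr)) le_rfl
  · intro g f hfg hord hW
    obtain ⟨P, hP, h, hh, hPf⟩ := hfg.image
    exact (finite_order S hS g hfg.differentiable_g hfg.g_ne_zero hfg.linearIndependent P hP f
      hfg.differentiable_f hfg.f_ne_zero hfg.f_mem h hh hPf hord hW).imp_left (key m S hS f)
  · intro a b z0 x hx f hf
    obtain ⟨P, hP, h, hPf⟩ := hf.image
    exact (rational_coeff S hS a b z0 x hx P hP f hf.differentiable_f hf.f_ne_zero hf.f_mem h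
      hPf).imp_left (key' m S hS z0 f)

end Pool.Agent.Lib_MP_b9fedf_st.StationaryPointsRes
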