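import Pool.Agent.Lib_MP_b9fedf_st.OdeRel

/-! The dichotomy is uniform in the base point. -/

set_option autoImplicit false

namespace Pool.Agent.Stat

open Filter Topology Metric MvPolynomial

/-- the dichotomy of `core` with the constant `d` -/
def Dich (m n e N d : ℕ) (K : Type) [Field K] [Algebra ℂ K] (D : Derivation ℂ K K) : Prop :=
  ∀ S : Set (MvPolynomial (Fin (m + 1)) ℂ), (∀ p ∈ S, ∃ k ≤ N, p.IsHomogeneous k) →
    ∀ (U A : Matrix (Fin (n + 1)) (Fin (n + 1)) K) (w : K), U.det ≠ 0 →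
      (∀ i j, D (U i j) = ∑ l, A i l * U l j + w * U i j) →
      ∀ P : Fin (m + 1) → MvPolynomial (Fin (n + 1)) ℂ, (∀ i, (P i).IsHomogeneous e) →
        (∀ p ∈ S, aeval (fun i => aeval (U 0) (P i)) p = 0) →
        ∀ i0 i, aeval (U 0) (P i0) ≠ 0 →
        AlgD D A d (aeval (U 0) (P i) / aeval (U 0) (P i0)) ∨
        ∃ ξ : Matrix (Fin (n + 1)) (Fin (n + 1)) ℂ,
          (∀ p ∈ S, ∀ l : ℕ, aeval (U 0) ((⇑(Dxi ξ))^[l] (aeval P p)) = 0) ∧
          aeval (U 0) (P i0 * Dxi ξ (P i) - P i * Dxi ξ (P i0)) ≠ 0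

section
variable {K K' : Type} [Field K] [Algebra ℂ K] [Field K'] [Algebra ℂ K']
  {D : Derivation ℂ K K} {D' : Derivation ℂ K' K'}

theorem DP.of_equiv {ι : Type} (φ : K ≃ₐ[ℂ] K') (hφ : ∀ x, φ (D x) = D' (φ x)) {a : ι → K}
    {w : ℕ} {x : K'} (h : DP D' (fun i => φ (a i)) w x) : DP D a w (φ.symm x) := by
  have hit : ∀ (s : ℕ) (y : K), (⇑D')^[s] (φ y) = φ ((⇑D)^[s] y) := by
    intro s y
    induction s with
    | zero => rfl
    | succ s ih => rw [Function.iterate_succ_apply', Function.iterate_succ_apply', ih, hφ]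
  induction h with
  | const c => rw [AlgEquiv.commutes]; exact DP.const c
  | var s i => rw [hit, AlgEquiv.symm_apply_apply]; exact DP.var s i
  | add hx hy ihx ihy => rw [map_add]; exact DP.add ihx ihy
  | mul hx hy ihx ihy => rw [map_mul]; exact DP.mul ihx ihy
  | mono hw hx ih => exact DP.mono hw ih

theorem Dich.of_equiv {m n e N d : ℕ} (φ : K ≃ₐ[ℂ] K') (hφ : ∀ x, φ (D x) = D' (φ x))
    (h : Dich m n e N d K' D') : Dich m n e N d K D := by
  intro S hS U A w hdet hU P hP hPS i0 i hne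
  have hev : ∀ (q : MvPolynomial (Fin (n + 1)) ℂ), φ (aeval (U 0) q) = aeval ((U.map φ) 0) q := by
    intro q
    exact comp_aeval_apply (U 0) (φ : K →ₐ[ℂ] K') q
  have hdet' : (U.map φ).det ≠ 0 := by
    have h1 : (U.map φ).det = φ U.det := (AlgEquiv.map_det φ U).symm
    rw [h1]
    exact (map_ne_zero_iff φ φ.injective).2 hdet
  have hU' : ∀ i j, D' ((U.map φ) i j) = ∑ l, (A.map φ) i l * (U.map φ) l j +
      φ w * (U.map φ) i j := by
    intro i j
    simp only [Matrix.map_apply]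
    rw [← hφ, hU, map_add, map_sum, map_mul]
    simp only [map_mul]
  rcases h S hS (U.map φ) (A.map φ) (φ w) hdet' hU' P hP (fun p hp => by
      have h1 : (fun i => aeval ((U.map φ) 0) (P i)) = fun i => φ (aeval (U 0) (P i)) := by
        ext i
        rw [hev]
      rw [h1]
      have h2 := comp_aeval_apply (fun i => aeval (U 0) (P i)) (φ : K →ₐ[ℂ] K') p
      have h3 : aeval (fun i => φ (aeval (U 0) (P i))) p = φ (aeval (fun i => aeval (U 0) (P i)) p) :=
        h2.symm
      rw [h3, hPS p hp, map_zero]) i0 i (by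
      rw [← hev]
      exact (map_ne_zero_iff φ φ.injective).2 hne) with h1 | ⟨ξ, hξ1, hξ2⟩
  · left
    obtain ⟨Q, hQ, ⟨j0, hj0, hQj0⟩, hs⟩ := h1
    refine ⟨fun j => φ.symm (Q j), fun j => ?_, ⟨j0, hj0, ?_⟩, ?_⟩
    · exact DP.of_equiv φ hφ (hQ j)
    · exact (map_ne_zero_iff φ.symm φ.symm.injective).2 hQj0
    · apply φ.injective
      rw [map_sum, map_zero, ← hs]
      refine Finset.sum_congr rfl fun j _ => ?_
      rw [map_mul, map_pow, map_div₀, AlgEquiv.apply_symm_apply, hev, hev]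
  · right
    refine ⟨ξ, fun p hp l => ?_, ?_⟩
    · apply φ.injective
      rw [hev, map_zero]
      exact hξ1 p hp l
    · rw [← hev] at hξ2
      intro h0
      apply hξ2
      rw [h0, map_zero]

end

theorem tendsto_transl {z0 z1 w0 : ℂ} (h : z0 + w0 = z1) :
    Tendsto (fun z : ℂ => z + w0) (𝓝[≠] z0) (𝓝[≠] z1) := by
  subst h
  apply tendsto_nhdsWithin_of_tendsto_nhds_of_eventually_within
  · exact ((continuous_add_const w0).continuousAt (x := z0)).tendsto.mono_left nhdsWithin_le_nhds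
  · filter_upwards [self_mem_nhdsWithin] with z hz
    intro h
    exact hz (add_right_cancel h)

theorem mero_transl {z0 z1 w0 : ℂ} (h : z0 + w0 = z1) {f : ℂ → ℂ} (hf : MeromorphicAt f z1) :
    MeromorphicAt (fun z => f (z + w0)) z0 := by
  subst h
  have h1 : AnalyticAt ℂ (fun z : ℂ => z + w0) z0 := analyticAt_id.add analyticAt_const
  exact MeromorphicAt.comp_analyticAt (f := f) (g := fun z => z + w0) (x := z0) hf h1

/-- translation of germs -/
noncomputable def transl {z0 z1 w0 : ℂ} (h : z0 + w0 = z1) (x : MerAt z1) : MerAt z0 :=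
  ⟨x.1.compTendsto (fun z => z + w0) (tendsto_transl h), by
    obtain ⟨_, f, hf, rfl⟩ := x
    exact ⟨fun z => f (z + w0), mero_transl h hf, rfl⟩⟩

theorem transl_mk {z0 z1 w0 : ℂ} (h : z0 + w0 = z1) {f : ℂ → ℂ} (hf : MeromorphicAt f z1) :
    transl h (mkA f hf) = mkA (fun z => f (z + w0)) (mero_transl h hf) := rfl

/-- translation as an isomorphism -/
noncomputable def translEquiv (z0 : ℂ) : MerAt z0 ≃ₐ[ℂ] MerAt 0 where
  toFun := transl (zero_add z0)
  invFun := transl (add_neg_cancel z0)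
  left_inv x := by
    obtain ⟨f, hf, rfl⟩ := exists_mkA x
    rw [transl_mk, transl_mk, mkA_eq]
    filter_upwards with z
    rw [neg_add_cancel_right]
  right_inv x := by
    obtain ⟨f, hf, rfl⟩ := exists_mkA x
    rw [transl_mk, transl_mk, mkA_eq]
    filter_upwards with z
    rw [add_neg_cancel_right]
  map_mul' x y := by
    obtain ⟨f, hf, rfl⟩ := exists_mkA x
    obtain ⟨g, hg, rfl⟩ := exists_mkA y
    rfl
  map_add' x y := by
    obtain ⟨f, hf, rfl⟩ := exists_mkA x
    obtain ⟨g, hg, rfl⟩ := exists_mkA y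
    rfl
  commutes' c := rfl

theorem translEquiv_D (z0 : ℂ) (x : MerAt z0) :
    translEquiv z0 (dMerAt x) = dMerAt (translEquiv z0 x) := by
  obtain ⟨f, hf, rfl⟩ := exists_mkA x
  show transl (zero_add z0) (dMerAt (mkA f hf)) = dMerAt (transl (zero_add z0) (mkA f hf))
  rw [dMerAt_mk, transl_mk, transl_mk, dMerAt_mk, mkA_eq]
  filter_upwards with z
  rw [deriv_comp_add_const]

/-- The dichotomy for the fields of germs, with a constant which does not depend on the point. -/
theorem dich_merAt (m n e N : ℕ) : ∃ d : ℕ, ∀ z0 : ℂ, Dich m n e N d (MerAt z0) dMerAt := by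
  obtain ⟨d, hd⟩ := core (K := MerAt 0) dMerAt const_of_dMerAt_eq_zero m n e N
  exact ⟨d, fun z0 => Dich.of_equiv (translEquiv z0) (translEquiv_D z0) hd⟩

end Pool.Agent.Stat
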