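import Pool.Agent.Lib_MP_b9fedf_st.ExpCurve

/-! A3a. The universal polynomial ring in the coefficients of the map, the coefficients of the
equations, the coordinates and the entries of the matrix. -/

set_option autoImplicit false

namespace Pool.Agent.Stat

open MvPolynomial

/-- the exponents of degree `e` -/
def Fe (n e : ℕ) : Finset (Fin (n + 1) →₀ ℕ) := (Finset.univ : Finset (Fin (n + 1))).finsuppAntidiag e

/-- the variables: coefficients of the map, coefficients of the equations, coordinates, entries of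
the matrix -/
abbrev Vars (m n e : ℕ) {R : Type} (dg : R → ℕ) : Type :=
  ((Fin (m + 1) × Fe n e) ⊕ (Σ r : R, Fe m (dg r))) ⊕ (Fin (n + 1) ⊕ (Fin (n + 1) × Fin (n + 1)))

section
variable {m n e : ℕ} {R : Type} {dg : R → ℕ}

/-- coefficient variable of the map -/
noncomputable abbrev Xc (i : Fin (m + 1)) (α : Fe n e) : MvPolynomial (Vars m n e dg) ℂ :=
  X (Sum.inl (Sum.inl (i, α)))
/-- coefficient variable of the equations -/
noncomputable abbrev Xb (r : R) (β : Fe m (dg r)) : MvPolynomial (Vars m n e dg) ℂ :=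
  X (Sum.inl (Sum.inr ⟨r, β⟩))
/-- coordinate variable -/
noncomputable abbrev Xx (j : Fin (n + 1)) : MvPolynomial (Vars m n e dg) ℂ :=
  X (Sum.inr (Sum.inl j))
/-- matrix variable -/
noncomputable abbrev Xm (l j : Fin (n + 1)) : MvPolynomial (Vars m n e dg) ℂ :=
  X (Sum.inr (Sum.inr (l, j)))

variable (m n e dg)

/-- the universal form of degree `e` -/
noncomputable def Pu (i : Fin (m + 1)) : MvPolynomial (Vars m n e dg) ℂ :=
  ∑ α : Fe n e, Xc i α * ∏ j, Xx j ^ (α.1 j)

/-- the universal equation, evaluated at the universal form -/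
noncomputable def Gu (r : R) : MvPolynomial (Vars m n e dg) ℂ :=
  ∑ β : Fe m (dg r), Xb r β * ∏ j, Pu m n e dg j ^ (β.1 j)

/-- the universal infinitesimal action -/
noncomputable def Du :
    Derivation ℂ (MvPolynomial (Vars m n e dg) ℂ) (MvPolynomial (Vars m n e dg) ℂ) :=
  mkDerivation ℂ (Sum.elim (fun _ => 0) (Sum.elim (fun j => ∑ l, Xx l * Xm l j) (fun _ => 0)))

/-- the Euler derivation in the coordinates -/
noncomputable def Eu :
    Derivation ℂ (MvPolynomial (Vars m n e dg) ℂ) (MvPolynomial (Vars m n e dg) ℂ) :=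
  mkDerivation ℂ (Sum.elim (fun _ => 0) (Sum.elim (fun j => Xx j) (fun _ => 0)))

variable {m n e dg}

lemma der_prod {R ι : Type} [CommRing R] [Algebra ℂ R] (D : Derivation ℂ R R) (s : Finset ι)
    (f : ι → R) (a : ι → ℕ) (h : ∀ i, D (f i) = a i * f i) :
    D (∏ i ∈ s, f i) = (∑ i ∈ s, a i : ℕ) * ∏ i ∈ s, f i := by
  classical
  induction s using Finset.induction_on with
  | empty => simp
  | insert i s hi ih =>
    rw [Finset.prod_insert hi, Finset.sum_insert hi, D.leibniz, ih, h, smul_eq_mul, smul_eq_mul]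
    push_cast
    ring

lemma Eu_inl (v) : Eu m n e dg (X (Sum.inl v)) = 0 := by
  rw [Eu, mkDerivation_X]; rfl

lemma Eu_Xx (j : Fin (n + 1)) : Eu m n e dg (Xx j) = Xx j := by
  rw [Eu, mkDerivation_X]; rfl

lemma Eu_Xm (v) : Eu m n e dg (X (Sum.inr (Sum.inr v))) = 0 := by
  rw [Eu, mkDerivation_X]; rfl

lemma Du_inl (v) : Du m n e dg (X (Sum.inl v)) = 0 := by
  rw [Du, mkDerivation_X]; rfl

lemma Du_Xx (j : Fin (n + 1)) : Du m n e dg (Xx j) = ∑ l, Xx l * Xm l j := by
  rw [Du, mkDerivation_X]; rfl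

lemma Du_Xm (v) : Du m n e dg (X (Sum.inr (Sum.inr v))) = 0 := by
  rw [Du, mkDerivation_X]; rfl

lemma Eu_Pu (i : Fin (m + 1)) : Eu m n e dg (Pu m n e dg i) = e * Pu m n e dg i := by
  unfold Pu
  rw [map_sum, Finset.mul_sum]
  refine Finset.sum_congr rfl fun α _ => ?_
  have h2 : ∀ j, Eu m n e dg (Xx j ^ (α.1 j)) =
      (α.1 j : MvPolynomial (Vars m n e dg) ℂ) * Xx j ^ (α.1 j) := by
    intro j
    rw [Derivation.leibniz_pow, Eu_Xx]
    simp only [smul_eq_mul, nsmul_eq_mul]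
    rcases Nat.eq_zero_or_pos (α.1 j) with h | h
    · rw [h]; simp
    · obtain ⟨k, hk⟩ := Nat.exists_eq_succ_of_ne_zero h.ne'
      rw [hk, Nat.succ_sub_one, pow_succ]
  rw [Derivation.leibniz, Eu_inl, der_prod (Eu m n e dg) Finset.univ (fun j => Xx j ^ (α.1 j))
    (fun j => α.1 j) h2, smul_zero, add_zero, smul_eq_mul]
  have h3 : ∑ j, α.1 j = e := by
    exact (Finset.mem_finsuppAntidiag.1 α.2).1
  rw [h3]
  ring

lemma Eu_Gu (r : R) : Eu m n e dg (Gu m n e dg r) = (dg r * e : ℕ) * Gu m n e dg r := by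
  unfold Gu
  rw [map_sum, Finset.mul_sum]
  refine Finset.sum_congr rfl fun β _ => ?_
  have h2 : ∀ j, Eu m n e dg (Pu m n e dg j ^ (β.1 j)) =
      ((β.1 j * e : ℕ) : MvPolynomial (Vars m n e dg) ℂ) * Pu m n e dg j ^ (β.1 j) := by
    intro j
    rw [Derivation.leibniz_pow, Eu_Pu]
    simp only [smul_eq_mul, nsmul_eq_mul]
    rcases Nat.eq_zero_or_pos (β.1 j) with h | h
    · rw [h]; simp
    · obtain ⟨k, hk⟩ := Nat.exists_eq_succ_of_ne_zero h.ne'
      rw [hk, Nat.succ_sub_one, pow_succ]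
      push_cast
      ring
  rw [Derivation.leibniz, Eu_inl, smul_zero, add_zero,
    der_prod (Eu m n e dg) Finset.univ (fun j => Pu m n e dg j ^ (β.1 j)) (fun j => β.1 j * e) h2,
    smul_eq_mul]
  have h3 : ∑ j, β.1 j * e = dg r * e := by
    rw [← Finset.sum_mul]
    congr 1
    exact (Finset.mem_finsuppAntidiag.1 β.2).1
  rw [h3]
  ring

lemma Eu_Du_comm (q : MvPolynomial (Vars m n e dg) ℂ) :
    Eu m n e dg (Du m n e dg q) = Du m n e dg (Eu m n e dg q) := by
  have h : ⁅Eu m n e dg, Du m n e dg⁆ = 0 := by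
    apply MvPolynomial.derivation_ext
    intro v
    rw [Derivation.commutator_apply]
    simp only [Derivation.zero_apply]
    rcases v with v | v | v
    · rw [Du_inl, Eu_inl, map_zero, map_zero, sub_zero]
    · rw [Du_Xx, Eu_Xx, Du_Xx, map_sum]
      rw [sub_eq_zero]
      refine Finset.sum_congr rfl fun l _ => ?_
      rw [Derivation.leibniz, Eu_Xx, Eu_Xm, smul_zero, zero_add, smul_eq_mul, mul_comm]
    · rw [Du_Xm, Eu_Xm, map_zero, map_zero, sub_zero]
  have h1 := congrArg (fun D : Derivation ℂ (MvPolynomial (Vars m n e dg) ℂ)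
    (MvPolynomial (Vars m n e dg) ℂ) => D q) h
  simp only [Derivation.commutator_apply, Derivation.zero_apply] at h1
  exact sub_eq_zero.1 h1

lemma Eu_iter (r : R) (l : ℕ) :
    Eu m n e dg ((⇑(Du m n e dg))^[l] (Gu m n e dg r)) =
      (dg r * e : ℕ) * (⇑(Du m n e dg))^[l] (Gu m n e dg r) := by
  induction l with
  | zero => exact Eu_Gu r
  | succ l ih =>
    rw [Function.iterate_succ_apply', Eu_Du_comm, ih, Derivation.leibniz]
    have : Du m n e dg ((dg r * e : ℕ) : MvPolynomial (Vars m n e dg) ℂ) = 0 :=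
      Derivation.map_natCast _ _
    rw [this, smul_zero, add_zero, smul_eq_mul]

lemma form_eq {n e : ℕ} {P : MvPolynomial (Fin (n + 1)) ℂ} (hP : P.IsHomogeneous e) :
    P = ∑ α : Fe n e, C (coeff α.1 P) * ∏ j, X j ^ (α.1 j) := by
  have h1 : P = ∑ α ∈ Fe n e, C (coeff α P) * ∏ j, X j ^ (α j) := by
    conv_lhs => rw [P.as_sum]
    have hsub : P.support ⊆ Fe n e := by
      intro α hα
      rw [Fe, Finset.mem_finsuppAntidiag]
      refine ⟨?_, Finset.subset_univ _⟩
      have := hP (mem_support_iff.1 hα)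
      rw [Finsupp.weight_apply, Finsupp.sum_fintype _ _ (fun _ => by simp)] at this
      simpa using this
    rw [Finset.sum_subset hsub (fun α _ hα => by
      rw [notMem_support_iff] at hα
      rw [hα, monomial_zero])]
    refine Finset.sum_congr rfl fun α _ => ?_
    rw [monomial_eq, Finsupp.prod_fintype _ _ (fun _ => pow_zero _)]
  conv_lhs => rw [h1]
  rw [← Finset.sum_coe_sort (Fe n e)]

/-- specialisation of the coefficients and of the matrix -/
noncomputable def sp (P : Fin (m + 1) → MvPolynomial (Fin (n + 1)) ℂ)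
    (p : R → MvPolynomial (Fin (m + 1)) ℂ) (ξ : Matrix (Fin (n + 1)) (Fin (n + 1)) ℂ) :
    MvPolynomial (Vars m n e dg) ℂ →ₐ[ℂ] MvPolynomial (Fin (n + 1)) ℂ :=
  aeval (Sum.elim (Sum.elim (fun iα => C (coeff iα.2.1 (P iα.1)))
      (fun rβ => C (coeff rβ.2.1 (p rβ.1))))
    (Sum.elim (fun j => X j) (fun lj => C (ξ lj.1 lj.2))))

lemma sp_Pu (P : Fin (m + 1) → MvPolynomial (Fin (n + 1)) ℂ) (hP : ∀ i, (P i).IsHomogeneous e)
    (p : R → MvPolynomial (Fin (m + 1)) ℂ) (ξ : Matrix (Fin (n + 1)) (Fin (n + 1)) ℂ)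
    (i : Fin (m + 1)) :
    sp (e := e) (dg := dg) P p ξ (Pu m n e dg i) = P i := by
  conv_rhs => rw [form_eq (hP i)]
  unfold Pu sp
  rw [map_sum]
  refine Finset.sum_congr rfl fun α _ => ?_
  rw [map_mul, map_prod, aeval_X]
  simp only [map_pow, aeval_X, Sum.elim_inl, Sum.elim_inr]

lemma sp_Gu (P : Fin (m + 1) → MvPolynomial (Fin (n + 1)) ℂ) (hP : ∀ i, (P i).IsHomogeneous e)
    (p : R → MvPolynomial (Fin (m + 1)) ℂ) (hp : ∀ r, (p r).IsHomogeneous (dg r))
    (ξ : Matrix (Fin (n + 1)) (Fin (n + 1)) ℂ) (r : R) :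
    sp (e := e) (dg := dg) P p ξ (Gu m n e dg r) = aeval P (p r) := by
  conv_rhs => rw [form_eq (hp r)]
  unfold Gu
  rw [map_sum, map_sum]
  refine Finset.sum_congr rfl fun β _ => ?_
  rw [map_mul, map_prod, map_mul, map_prod]
  simp only [map_pow, aeval_X, sp_Pu P hP]
  congr 1
  rw [sp, aeval_X, Sum.elim_inl, Sum.elim_inr, aeval_C]
  rfl

lemma sp_Du (P : Fin (m + 1) → MvPolynomial (Fin (n + 1)) ℂ)
    (p : R → MvPolynomial (Fin (m + 1)) ℂ)
    (ξ : Matrix (Fin (n + 1)) (Fin (n + 1)) ℂ) (q : MvPolynomial (Vars m n e dg) ℂ) :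
    sp (e := e) P p ξ (Du m n e dg q) = Dxi ξ (sp (e := e) P p ξ q) := by
  induction q using MvPolynomial.induction_on with
  | C a =>
    rw [← algebraMap_eq, Derivation.map_algebraMap, map_zero, AlgHom.commutes,
      Derivation.map_algebraMap]
  | add p q hp hq => simp only [map_add, hp, hq]
  | mul_X q v hp =>
    rw [Derivation.leibniz, map_add, smul_eq_mul, smul_eq_mul, map_mul, map_mul, hp, map_mul,
      Derivation.leibniz, smul_eq_mul, smul_eq_mul]
    congr 2
    rcases v with v | v | v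
    · have h2 : ∃ c, sp (e := e) (dg := dg) P p ξ (X (Sum.inl v)) = C c := by
        rcases v with v | v
        · exact ⟨coeff v.2.1 (P v.1), by rw [sp, aeval_X]; rfl⟩
        · exact ⟨coeff v.2.1 (p v.1), by rw [sp, aeval_X]; rfl⟩
      obtain ⟨c, hc⟩ := h2
      rw [Du_inl, hc, map_zero, ← algebraMap_eq, Derivation.map_algebraMap]
    · have h2 : sp (e := e) (dg := dg) P p ξ (X (Sum.inr (Sum.inl v))) = X v := by
        rw [sp, aeval_X]; rfl
      rw [Du_Xx, h2, map_sum, Dxi, mkDerivation_X]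
      refine Finset.sum_congr rfl fun l _ => ?_
      rw [map_mul, sp, aeval_X, aeval_X]
      rfl
    · have h2 : sp (e := e) (dg := dg) P p ξ (X (Sum.inr (Sum.inr v))) = C (ξ v.1 v.2) := by
        rw [sp, aeval_X]; rfl
      rw [Du_Xm, h2, map_zero, ← algebraMap_eq, Derivation.map_algebraMap]

lemma sp_iter (P : Fin (m + 1) → MvPolynomial (Fin (n + 1)) ℂ) (hP : ∀ i, (P i).IsHomogeneous e)
    (p : R → MvPolynomial (Fin (m + 1)) ℂ) (hp : ∀ r, (p r).IsHomogeneous (dg r))
    (ξ : Matrix (Fin (n + 1)) (Fin (n + 1)) ℂ) (r : R) (l : ℕ) :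
    sp (e := e) P p ξ ((⇑(Du m n e dg))^[l] (Gu m n e dg r)) =
      (⇑(Dxi ξ))^[l] (aeval P (p r)) := by
  induction l with
  | zero => exact sp_Gu P hP p hp ξ r
  | succ l ih => rw [Function.iterate_succ_apply', Function.iterate_succ_apply', sp_Du, ih]

end

end Pool.Agent.Stat
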